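import Mathlib

/-!
# Hochster's theta pairing and the tangent cone (MP_484054_ag): definitions

* `torLen R i W V` is the length of `Tor_i^R(W, V)` (Mathlib's `Tor`), `theta R e W V` is
  Hochster's `theta` computed with the pair of degrees `2e+2`, `2e+1`.
* `RFilt A` : a decreasing multiplicative filtration of a commutative ring by ideals,
  `MFilt 𝓕 M` : a compatible decreasing filtration of a module,
  `MFilt.Good` : the filtration is good (its Rees module is finitely generated, written out),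
* `RFilt.rees`, `RFilt.gr`, `MFilt.rees`, `MFilt.gr` : Rees ring and associated graded ring
  (Rees ring modulo its shifted copy), Rees module and associated graded module.
* `wFilt x w` : the weighted filtration given by elements `x i` of weight `w i`.
-/

universe u

namespace Pool.Agent.HT21

open CategoryTheory

/-- `Tor_i^R(W, V)` (Mathlib's `Tor`). -/
noncomputable abbrev TorMod (R : Type u) [CommRing R] (i : ℕ) (W V : Type u)
    [AddCommGroup W] [Module R W] [AddCommGroup V] [Module R V] : Type u :=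
  (((Tor (ModuleCat.{u} R) i).obj (ModuleCat.of R W)).obj (ModuleCat.of R V) : ModuleCat.{u} R)

/-- The length of `Tor_i^R(W, V)`. -/
noncomputable def torLen (R : Type u) [CommRing R] (i : ℕ) (W V : Type u)
    [AddCommGroup W] [Module R W] [AddCommGroup V] [Module R V] : ℕ∞ :=
  Module.length R (TorMod R i W V)

/-- Hochster's theta, computed in the degrees `2e+2` and `2e+1`. -/
noncomputable def theta (R : Type u) [CommRing R] (e : ℕ) (W V : Type u)
    [AddCommGroup W] [Module R W] [AddCommGroup V] [Module R V] : ℤ :=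
  ((torLen R (2 * e + 2) W V).toNat : ℤ) - ((torLen R (2 * e + 1) W V).toNat : ℤ)

/-- A decreasing multiplicative filtration of a ring by ideals, indexed by `ℕ`. -/
structure RFilt (A : Type u) [CommRing A] where
  F : ℕ → Ideal A
  zero' : F 0 = ⊤
  anti' : Antitone F
  mul' : ∀ i j, F i * F j ≤ F (i + j)

/-- A decreasing filtration of a module compatible with a filtration of the ring. -/
structure MFilt {A : Type u} [CommRing A] (𝓕 : RFilt A) (M : Type u) [AddCommGroup M]
    [Module A M] where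
  G : ℕ → Submodule A M
  zero' : G 0 = ⊤
  anti' : Antitone G
  smul' : ∀ i j, 𝓕.F i • G j ≤ G (i + j)

section

variable {A : Type u} [CommRing A]

/-- A filtration of a module is good if there are finitely many `e k` in `G (b k)` with
`G n = ∑ k, F (n - b k) • e k` for all `n` (natural subtraction, `F 0 = ⊤`). -/
def MFilt.Good {𝓕 : RFilt A} {M : Type u} [AddCommGroup M] [Module A M] (𝓜 : MFilt 𝓕 M) : Prop :=
  ∃ (s : ℕ) (b : Fin s → ℕ) (e : Fin s → M), (∀ k, e k ∈ 𝓜.G (b k)) ∧
    ∀ n, ∀ x ∈ 𝓜.G n, ∃ c : Fin s → A, (∀ k, c k ∈ 𝓕.F (n - b k)) ∧ x = ∑ k, c k • e k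

/-- The Rees ring `⊕ F n X^n`, as a subalgebra of the polynomial ring. -/
def RFilt.reesAlg (𝓕 : RFilt A) : Subalgebra A (Polynomial A) where
  carrier := {f | ∀ n, f.coeff n ∈ 𝓕.F n}
  mul_mem' := by
    intro f g hf hg n
    rw [Polynomial.coeff_mul]
    refine Ideal.sum_mem _ fun p hp => ?_
    rw [← Finset.HasAntidiagonal.mem_antidiagonal.mp hp]
    exact 𝓕.mul' _ _ (Ideal.mul_mem_mul (hf _) (hg _))
  add_mem' := by
    intro f g hf hg n
    rw [Polynomial.coeff_add]
    exact Ideal.add_mem _ (hf n) (hg n)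
  algebraMap_mem' := by
    intro r n
    rcases Nat.eq_zero_or_pos n with h | h
    · subst h; rw [𝓕.zero']; trivial
    · rw [Polynomial.algebraMap_eq, Polynomial.coeff_C_of_ne_zero (by omega)]
      exact Ideal.zero_mem _

/-- The Rees ring `⊕ F n X^n`. -/
def RFilt.Rees (𝓕 : RFilt A) : Type u := 𝓕.reesAlg

noncomputable instance (𝓕 : RFilt A) : CommRing 𝓕.Rees := Subalgebra.toCommRing 𝓕.reesAlg

noncomputable instance (𝓕 : RFilt A) : Algebra A 𝓕.Rees := Subalgebra.algebra 𝓕.reesAlg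

/-- The inclusion of the Rees ring in the polynomial ring. -/
noncomputable def RFilt.val (𝓕 : RFilt A) : 𝓕.Rees →+* Polynomial A :=
  (𝓕.reesAlg.val : 𝓕.reesAlg →+* Polynomial A)

lemma RFilt.val_coeff_mem (𝓕 : RFilt A) (f : 𝓕.Rees) (n : ℕ) : (𝓕.val f).coeff n ∈ 𝓕.F n :=
  f.2 n

/-- The ideal `⊕ F (n+1) X^n` of the Rees ring. -/
def RFilt.reesPlus (𝓕 : RFilt A) : Ideal 𝓕.Rees where
  carrier := {f | ∀ n, (𝓕.val f).coeff n ∈ 𝓕.F (n + 1)}
  add_mem' := by
    intro f g hf hg n
    rw [map_add, Polynomial.coeff_add]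
    exact Ideal.add_mem _ (hf n) (hg n)
  zero_mem' := by
    intro n
    rw [map_zero, Polynomial.coeff_zero]
    exact Ideal.zero_mem _
  smul_mem' := by
    intro c f hf n
    rw [smul_eq_mul, map_mul, Polynomial.coeff_mul]
    refine Ideal.sum_mem _ fun p hp => ?_
    have h := Finset.HasAntidiagonal.mem_antidiagonal.mp hp
    have h2 : n + 1 = p.1 + (p.2 + 1) := by omega
    rw [h2]
    exact 𝓕.mul' _ _ (Ideal.mul_mem_mul (𝓕.val_coeff_mem c _) (hf _))

/-- The associated graded ring `⊕ F n / F (n+1)`. -/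
abbrev RFilt.gr (𝓕 : RFilt A) : Type u := 𝓕.Rees ⧸ 𝓕.reesPlus

variable {𝓕 : RFilt A} {M : Type u} [AddCommGroup M] [Module A M]

/-- The Rees ring acts on `M[X]` through the polynomial ring. -/
noncomputable instance : Module 𝓕.Rees (PolynomialModule A M) :=
  Module.compHom (PolynomialModule A M) 𝓕.val

lemma rees_smul_def (f : 𝓕.Rees) (y : PolynomialModule A M) : f • y = 𝓕.val f • y := rfl

/-- The submodule `⊕ G n X^n` of `M[X]`, over the Rees ring. -/
def reesSub (𝓕 : RFilt A) (G : ℕ → Submodule A M) (hG : ∀ i j, 𝓕.F i • G j ≤ G (i + j)) :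
    Submodule 𝓕.Rees (PolynomialModule A M) where
  carrier := {f | ∀ n, f.coeff n ∈ G n}
  add_mem' := by
    intro f g hf hg n
    exact Submodule.add_mem _ (hf n) (hg n)
  zero_mem' := by
    intro n
    exact Submodule.zero_mem _
  smul_mem' := by
    intro c f hf n
    rw [rees_smul_def, PolynomialModule.smul_apply]
    refine Submodule.sum_mem _ fun p hp => ?_
    rw [← Finset.HasAntidiagonal.mem_antidiagonal.mp hp]
    exact hG _ _ (Submodule.smul_mem_smul (𝓕.val_coeff_mem c _) (hf _))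

/-- The Rees module `⊕ G n X^n`. -/
def MFilt.rees (𝓜 : MFilt 𝓕 M) : Submodule 𝓕.Rees (PolynomialModule A M) :=
  reesSub 𝓕 𝓜.G 𝓜.smul'

lemma MFilt.smul_succ (𝓜 : MFilt 𝓕 M) (i j : ℕ) : 𝓕.F i • 𝓜.G (j + 1) ≤ 𝓜.G (i + j + 1) :=
  𝓜.smul' i (j + 1)

/-- The submodule `⊕ G (n+1) X^n` of the Rees module. -/
noncomputable def MFilt.reesPlus (𝓜 : MFilt 𝓕 M) : Submodule 𝓕.Rees 𝓜.rees :=
  (reesSub 𝓕 (fun n => 𝓜.G (n + 1)) 𝓜.smul_succ).submoduleOf 𝓜.rees

/-- The associated graded module `⊕ G n / G (n+1)`. -/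
abbrev MFilt.gr (𝓜 : MFilt 𝓕 M) : Type u := 𝓜.rees ⧸ 𝓜.reesPlus

lemma MFilt.isTorsionBySet (𝓜 : MFilt 𝓕 M) :
    Module.IsTorsionBySet 𝓕.Rees 𝓜.gr (𝓕.reesPlus : Set 𝓕.Rees) := by
  rintro x ⟨f, hf⟩
  obtain ⟨y, rfl⟩ := Submodule.Quotient.mk_surjective _ x
  show f • Submodule.Quotient.mk y = _
  rw [← Submodule.Quotient.mk_smul, Submodule.Quotient.mk_eq_zero]
  intro n
  show ((f • y : 𝓜.rees) : PolynomialModule A M).coeff n ∈ 𝓜.G (n + 1)
  rw [Submodule.coe_smul, rees_smul_def, PolynomialModule.smul_apply]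
  refine Submodule.sum_mem _ fun p hp => ?_
  have h := Finset.HasAntidiagonal.mem_antidiagonal.mp hp
  have h2 : n + 1 = (p.1 + 1) + p.2 := by omega
  rw [h2]
  exact 𝓜.smul' _ _ (Submodule.smul_mem_smul (hf _) (y.2 _))

/-- The associated graded module is a module over the associated graded ring. -/
noncomputable instance MFilt.grModule (𝓜 : MFilt 𝓕 M) : Module 𝓕.gr 𝓜.gr :=
  𝓜.isTorsionBySet.module

end

/-- The weighted filtration: `F n` is spanned by the monomials in the `x i` of weight `≥ n`. -/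
def wFilt {A : Type u} [CommRing A] {m : ℕ} (x : Fin m → A) (w : Fin m → ℕ) : RFilt A where
  F n := Ideal.span {y | ∃ α : Fin m → ℕ, n ≤ ∑ i, w i * α i ∧ y = ∏ i, x i ^ α i}
  zero' := by
    rw [Ideal.eq_top_iff_one]
    exact Ideal.subset_span ⟨fun _ => 0, by simp, by simp⟩
  anti' := by
    intro a b hab
    refine Ideal.span_mono ?_
    rintro y ⟨α, h1, h2⟩
    exact ⟨α, hab.trans h1, h2⟩
  mul' := by
    intro i j
    rw [Ideal.span_mul_span', Ideal.span_le]
    rintro _ ⟨y, ⟨α, h1, rfl⟩, z, ⟨β, h2, rfl⟩, rfl⟩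
    refine Ideal.subset_span ⟨α + β, ?_, ?_⟩
    · simp only [Pi.add_apply, mul_add, Finset.sum_add_distrib]
      omega
    · simp only [Pi.add_apply, pow_add, Finset.prod_mul_distrib]

end Pool.Agent.HT21
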