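import Pool.Agent.HT21.FinalB

/-!
# Ordinary double points in even dimension

`f ≡ x_0^2 + ∑ x_(2j+1) x_(2j+2)` modulo `m^3`: apply `coprime_vanish` with `n = 2`, `w0 = 3`, weights
`1` for the `x_(2j+1)` and `2` for the `x_(2j+2)` (so `2` and `4` in `R`, and `3` for `x_0`), and
`g = - ∑ X_(2j) X_(2j+1) - (cubic form in the variables of weight 1)`: every monomial of degree `≥ 3` in
the `x_i` has weight `≥ 6`, and weight exactly `6` only if it is a cubic monomial in the variables of
weight `2`; everything else lies in `F 7`.  The derivatives of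
`X_0^2 + ∑ U_j V_j + c(U)` with respect to `V_j` are `U_j`, with respect to `U_j` they are
`V_j + ∂_j c(U)`, so the Jacobian ideal contains all `U_j`, `V_j` and then `X_0^2`.
-/

universe u

namespace Pool.Agent.HT21

open MvPolynomial IsLocalRing

/-- index of the variables of weight one -/
private def dpU {m : ℕ} (j : Fin m) : Fin (2 * m) := ⟨2 * j, by omega⟩

/-- index of the variables of weight two -/
private def dpV {m : ℕ} (j : Fin m) : Fin (2 * m) := ⟨2 * j + 1, by omega⟩

/-- the weights -/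
private def dpW (m : ℕ) : Fin (2 * m) → ℕ := fun i => if i.val % 2 = 0 then 1 else 2

private lemma dpW_U {m : ℕ} (j : Fin m) : dpW m (dpU j) = 1 := by
  simp [dpW, dpU]

private lemma dpW_V {m : ℕ} (j : Fin m) : dpW m (dpV j) = 2 := by
  have : (2 * j.val + 1) % 2 = 1 := by omega
  simp [dpW, dpV, this]

private lemma dpW_pos (m : ℕ) (i : Fin (2 * m)) : 0 < dpW m i := by
  unfold dpW
  split <;> norm_num

private lemma dpU_inj {m : ℕ} : Function.Injective (dpU (m := m)) := by
  intro a b h
  have h2 := congrArg Fin.val h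
  simp only [dpU] at h2
  exact Fin.ext (by omega)

private lemma dpV_inj {m : ℕ} : Function.Injective (dpV (m := m)) := by
  intro a b h
  have h2 := congrArg Fin.val h
  simp only [dpV] at h2
  exact Fin.ext (by omega)

private lemma dpU_ne_dpV {m : ℕ} (a b : Fin m) : dpU a ≠ dpV b := by
  intro h
  have h2 := congrArg Fin.val h
  simp only [dpV, dpU] at h2
  omega

private lemma dp_cases {m : ℕ} (i : Fin (2 * m)) : (∃ j : Fin m, i = dpU j) ∨ ∃ j : Fin m, i = dpV j := by
  rcases Nat.even_or_odd' i.val with ⟨k, hk | hk⟩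
  · exact Or.inl ⟨⟨k, by omega⟩, Fin.ext (by simp [dpU, hk])⟩
  · exact Or.inr ⟨⟨k, by omega⟩, Fin.ext (by simp [dpV, hk])⟩

private lemma dp_cw {m : ℕ} (a : Fin (2 * m + 1)) :
    (∃ j : Fin m, a = Fin.succ (dpU j) ∧ cw 2 3 (dpW m) a = 2) ∨ 3 ≤ cw 2 3 (dpW m) a := by
  refine Fin.cases ?_ (fun i => ?_) a
  · right
    simp [cw]
  · rcases dp_cases i with ⟨j, rfl⟩ | ⟨j, rfl⟩
    · left
      exact ⟨j, rfl, by simp [cw, dpW_U]⟩
    · right
      simp [cw, dpW_V]

/-- a generator lies in the step of its weight -/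
private lemma dp_gen_mem {R : Type u} [CommRing R] {n : ℕ} (x : Fin n → R) (w : Fin n → ℕ)
    (a : Fin n) : x a ∈ (wFilt x w).F (w a) := by
  refine Ideal.subset_span ⟨Pi.single a 1, ?_, ?_⟩
  · rw [Finset.sum_eq_single a]
    · simp
    · intro b _ hb
      simp [Pi.single_eq_of_ne hb]
    · simp
  · rw [Finset.prod_eq_single a]
    · simp
    · intro b _ hb
      simp [Pi.single_eq_of_ne hb]
    · simp

open scoped Pointwise in
/-- cubes of the maximal ideal: a cubic form in the variables of weight two plus `F 7` -/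
private lemma dp_cube {R : Type u} [CommRing R] {m : ℕ} (x : Fin (2 * m + 1) → R) (a : R)
    (ha : a ∈ Ideal.span (Set.range x) ^ 3) :
    ∃ c : MvPolynomial (Fin m) R, c.IsHomogeneous 3 ∧
      a - aeval (fun j => x (Fin.succ (dpU j))) c ∈ (wFilt x (cw 2 3 (dpW m))).F 7 := by
  set 𝓕 := wFilt x (cw 2 3 (dpW m)) with h𝓕
  set xu : Fin m → R := fun j => x (Fin.succ (dpU j)) with hxu
  set K : Ideal R := 𝓕.F 7 ⊔
    Submodule.map (aeval xu : MvPolynomial (Fin m) R →ₐ[R] R).toLinearMap
      (homogeneousSubmodule (Fin m) R 3) with hK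
  have hle : Ideal.span (Set.range x) ^ 3 ≤ K := by
    have h3 : Ideal.span (Set.range x) ^ 3
        = Ideal.span (Set.range x * Set.range x * Set.range x) := by
      rw [pow_succ, pow_two, Ideal.span_mul_span', Ideal.span_mul_span']
    rw [h3, Ideal.span_le]
    rintro _ ⟨_, ⟨_, ⟨a, rfl⟩, _, ⟨b, rfl⟩, rfl⟩, _, ⟨c, rfl⟩, rfl⟩
    show x a * x b * x c ∈ K
    have hbig : 7 ≤ cw 2 3 (dpW m) a + cw 2 3 (dpW m) b + cw 2 3 (dpW m) c →
        x a * x b * x c ∈ K := by
      intro h7
      refine Submodule.mem_sup_left (𝓕.anti' h7 ?_)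
      exact 𝓕.mul' _ _ (Ideal.mul_mem_mul (𝓕.mul' _ _ (Ideal.mul_mem_mul
        (dp_gen_mem x _ a) (dp_gen_mem x _ b))) (dp_gen_mem x _ c))
    have hlow : ∀ a : Fin (2 * m + 1), 2 ≤ cw 2 3 (dpW m) a := by
      intro a
      rcases dp_cw a with ⟨j, _, h⟩ | h
      · omega
      · omega
    rcases dp_cw a with ⟨ja, ha, ha2⟩ | ha
    · rcases dp_cw b with ⟨jb, hb, hb2⟩ | hb
      · rcases dp_cw c with ⟨jc, hc, hc2⟩ | hc
        · refine Submodule.mem_sup_right ⟨X ja * X jb * X jc, ?_, ?_⟩
          · exact (((isHomogeneous_X R ja).mul (isHomogeneous_X R jb)).mul (isHomogeneous_X R jc))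
          · rw [ha, hb, hc]
            simp [hxu]
        · exact hbig (by have := hlow a; have := hlow b; omega)
      · exact hbig (by have := hlow a; have := hlow c; omega)
    · exact hbig (by have := hlow b; have := hlow c; omega)
  obtain ⟨y, hy, z, ⟨c, hc, rfl⟩, hyz⟩ := Submodule.mem_sup.mp (hle ha)
  refine ⟨c, hc, ?_⟩
  have : a - aeval xu c = y := by
    rw [← hyz]
    simp
  rw [this]
  exact hy

/-- finite dimensionality from nilpotency of the variables -/
private lemma dp_finite {k : Type u} [Field k] {n : ℕ} (J : Ideal (MvPolynomial (Fin n) k))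
    (h : ∀ i, (X i : MvPolynomial (Fin n) k) ^ 2 ∈ J) :
    Module.Finite k (MvPolynomial (Fin n) k ⧸ J) := by
  have hint : Algebra.IsIntegral k (MvPolynomial (Fin n) k ⧸ J) := by
    constructor
    intro y
    obtain ⟨p, rfl⟩ := Ideal.Quotient.mk_surjective y
    induction p using MvPolynomial.induction_on with
    | C a => exact isIntegral_algebraMap (R := k) (A := MvPolynomial (Fin n) k ⧸ J) (x := a)
    | add p q hp hq =>
      rw [map_add]
      exact hp.add hq
    | mul_X p i hp =>
      rw [map_mul]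
      refine hp.mul ?_
      refine IsIntegral.of_pow (n := 2) (by norm_num) ?_
      rw [← map_pow, Ideal.Quotient.eq_zero_iff_mem.mpr (h i)]
      exact isIntegral_zero
  exact Algebra.IsIntegral.finite

/-- a form of positive degree lies in the ideal of the variables -/
private lemma dp_form_mem {k : Type u} [Field k] {m n : ℕ} (e : Fin m → Fin n) (d : ℕ) (hd : d ≠ 0)
    (p : MvPolynomial (Fin m) k) (hp : p.IsHomogeneous d) (J : Ideal (MvPolynomial (Fin n) k))
    (hJ : ∀ j, (X (e j) : MvPolynomial (Fin n) k) ∈ J) : rename e p ∈ J := by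
  have h1 : p ∈ Ideal.span ((X : Fin m → MvPolynomial (Fin m) k) '' Set.univ) := by
    rw [mem_ideal_span_X_image]
    intro α hα
    by_contra hcon
    push Not at hcon
    have h0 : α = 0 := by
      ext i
      exact hcon i (Set.mem_univ i)
    have h2 := hp (mem_support_iff.mp hα)
    rw [h0] at h2
    simp at h2
    exact hd h2.symm
  have h2 : Ideal.span ((X : Fin m → MvPolynomial (Fin m) k) '' Set.univ)
      ≤ J.comap (rename e : MvPolynomial (Fin m) k →ₐ[k] MvPolynomial (Fin n) k) := by
    rw [Ideal.span_le]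
    rintro _ ⟨j, _, rfl⟩
    show rename e (X j) ∈ J
    rw [rename_X]
    exact hJ j
  exact h2 h1

/-- the Jacobian ideal contains the squares of all variables -/
private lemma dp_jac {k : Type u} [Field k] {m : ℕ} (c : MvPolynomial (Fin m) k)
    (hc : c.IsHomogeneous 3) (F : MvPolynomial (Fin (2 * m + 1)) k)
    (hF : F = X 0 ^ 2 + ∑ j : Fin m, X (Fin.succ (dpU j)) * X (Fin.succ (dpV j))
      + rename (fun j : Fin m => Fin.succ (dpU j)) c) (i : Fin (2 * m + 1)) :
    (X i : MvPolynomial (Fin (2 * m + 1)) k) ^ 2 ∈ jacIdeal F := by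
  classical
  have hinj : Function.Injective (fun j : Fin m => Fin.succ (dpU j)) :=
    fun a b h => dpU_inj (Fin.succ_injective _ h)
  have hmem : ∀ i, pderiv i F ∈ jacIdeal F := fun i =>
    Ideal.subset_span (Or.inr ⟨i, rfl⟩)
  have hF0 : F ∈ jacIdeal F := Ideal.subset_span (Or.inl rfl)
  have hder : ∀ i, pderiv i F = pderiv i (X 0 ^ 2) + ∑ j : Fin m,
      pderiv i (X (Fin.succ (dpU j)) * X (Fin.succ (dpV j)))
      + pderiv i (rename (fun j : Fin m => Fin.succ (dpU j)) c) := by
    intro i
    rw [hF, map_add, map_add, map_sum]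
  have hU : ∀ j : Fin m, (X (Fin.succ (dpU j)) : MvPolynomial (Fin (2 * m + 1)) k) ∈ jacIdeal F := by
    intro j
    have h1 := hmem (Fin.succ (dpV j))
    have h2 : pderiv (Fin.succ (dpV j)) F = X (Fin.succ (dpU j)) := by
      rw [hder]
      have e1 : pderiv (Fin.succ (dpV j)) ((X 0 : MvPolynomial (Fin (2 * m + 1)) k) ^ 2) = 0 := by
        rw [pderiv_pow, pderiv_X_of_ne (Fin.succ_ne_zero _).symm, mul_zero]
      have e2 : pderiv (Fin.succ (dpV j)) (rename (fun j : Fin m => Fin.succ (dpU j)) c) = 0 := by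
        apply pderiv_eq_zero_of_notMem_vars
        intro h
        have h3 := vars_rename (fun j : Fin m => Fin.succ (dpU j)) c h
        obtain ⟨a, _, ha⟩ := Finset.mem_image.mp h3
        exact dpU_ne_dpV a j (Fin.succ_injective _ ha)
      have e3 : ∑ l : Fin m, pderiv (Fin.succ (dpV j))
          ((X (Fin.succ (dpU l)) : MvPolynomial (Fin (2 * m + 1)) k) * X (Fin.succ (dpV l)))
          = X (Fin.succ (dpU j)) := by
        rw [Finset.sum_eq_single j]
        · rw [pderiv_mul, pderiv_X_self, pderiv_X_of_ne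
            (fun h => dpU_ne_dpV j j (Fin.succ_injective _ h)), zero_mul, zero_add, mul_one]
        · intro l _ hl
          rw [pderiv_mul, pderiv_X_of_ne (fun h => dpU_ne_dpV l j (Fin.succ_injective _ h)),
            pderiv_X_of_ne (fun h => hl (dpV_inj (Fin.succ_injective _ h))), zero_mul, mul_zero,
            zero_add]
        · intro h
          exact absurd (Finset.mem_univ j) h
      rw [e1, e2, e3, zero_add, add_zero]
    rw [← h2]
    exact h1
  have hV : ∀ j : Fin m, (X (Fin.succ (dpV j)) : MvPolynomial (Fin (2 * m + 1)) k) ∈ jacIdeal F := by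
    intro j
    have h1 := hmem (Fin.succ (dpU j))
    have h2 : pderiv (Fin.succ (dpU j)) F = X (Fin.succ (dpV j))
        + rename (fun j : Fin m => Fin.succ (dpU j)) (pderiv j c) := by
      rw [hder]
      have e1 : pderiv (Fin.succ (dpU j)) ((X 0 : MvPolynomial (Fin (2 * m + 1)) k) ^ 2) = 0 := by
        rw [pderiv_pow, pderiv_X_of_ne (Fin.succ_ne_zero _).symm, mul_zero]
      have e2 : pderiv (Fin.succ (dpU j)) (rename (fun j : Fin m => Fin.succ (dpU j)) c)
          = rename (fun j : Fin m => Fin.succ (dpU j)) (pderiv j c) :=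
        pderiv_rename hinj j c
      have e3 : ∑ l : Fin m, pderiv (Fin.succ (dpU j))
          ((X (Fin.succ (dpU l)) : MvPolynomial (Fin (2 * m + 1)) k) * X (Fin.succ (dpV l)))
          = X (Fin.succ (dpV j)) := by
        rw [Finset.sum_eq_single j]
        · rw [pderiv_mul, pderiv_X_self, pderiv_X_of_ne
            (fun h => dpU_ne_dpV j j (Fin.succ_injective _ h).symm), mul_zero, add_zero, one_mul]
        · intro l _ hl
          rw [pderiv_mul, pderiv_X_of_ne (fun h => hl (dpU_inj (Fin.succ_injective _ h))),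
            pderiv_X_of_ne (fun h => dpU_ne_dpV j l (Fin.succ_injective _ h).symm), zero_mul,
            mul_zero, zero_add]
        · intro h
          exact absurd (Finset.mem_univ j) h
      rw [e1, e2, e3, zero_add]
    have h3 : rename (fun j : Fin m => Fin.succ (dpU j)) (pderiv j c) ∈ jacIdeal F :=
      dp_form_mem _ 2 (by norm_num) _ (by simpa using hc.pderiv (i := j)) _ hU
    have h4 : (X (Fin.succ (dpV j)) : MvPolynomial (Fin (2 * m + 1)) k)
        = pderiv (Fin.succ (dpU j)) F
          - rename (fun j : Fin m => Fin.succ (dpU j)) (pderiv j c) := by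
      rw [h2]; ring
    rw [h4]
    exact Ideal.sub_mem _ h1 h3
  refine Fin.cases ?_ (fun i => ?_) i
  · have h1 : (X 0 : MvPolynomial (Fin (2 * m + 1)) k) ^ 2
        = F - ∑ j : Fin m, X (Fin.succ (dpU j)) * X (Fin.succ (dpV j))
          - rename (fun j : Fin m => Fin.succ (dpU j)) c := by
      rw [hF]; ring
    rw [h1]
    refine Ideal.sub_mem _ (Ideal.sub_mem _ hF0 ?_) ?_
    · exact Ideal.sum_mem _ fun j _ => Ideal.mul_mem_right _ _ (hU j)
    · exact dp_form_mem _ 3 (by norm_num) _ hc _ hU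
  · rw [pow_two]
    rcases dp_cases i with ⟨j, rfl⟩ | ⟨j, rfl⟩
    · exact Ideal.mul_mem_left _ _ (hU j)
    · exact Ideal.mul_mem_left _ _ (hV j)

/-- renaming a cubic form into the variables of weight one -/
private lemma dp_rename_weighted {R : Type u} [CommRing R] {m : ℕ} (c : MvPolynomial (Fin m) R)
    (hc : c.IsHomogeneous 3) : (rename dpU c).IsWeightedHomogeneous (dpW m) 3 := by
  intro α hα
  obtain ⟨β, rfl, hβ⟩ := coeff_rename_ne_zero _ _ _ hα
  have h1 := hc hβ
  rw [← h1]
  simp only [Finsupp.weight_apply]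
  rw [Finsupp.sum_mapDomain_index (by simp) (by intros; simp [add_mul])]
  simp [dpW_U]

/-- Ordinary double points in even dimension `2 m` (any residue characteristic). -/
theorem double_point {R : Type u} [CommRing R] [IsLocalRing R] [IsNoetherianRing R] (m : ℕ)
    (x : Fin (2 * m + 1) → R)
    (hx : Ideal.span (Set.range x) = maximalIdeal R)
    (hreg : RingTheory.Sequence.IsRegular R (List.ofFn x))
    (f : R) (hf : f - (x 0 ^ 2 + ∑ j : Fin m, x ⟨2 * j + 1, by omega⟩ * x ⟨2 * j + 2, by omega⟩)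
      ∈ maximalIdeal R ^ 3)
    (L M : Type u) [AddCommGroup L] [Module (R ⧸ Ideal.span {f}) L]
    [AddCommGroup M] [Module (R ⧸ Ideal.span {f}) M]
    [Module.Finite (R ⧸ Ideal.span {f}) L] [Module.Finite (R ⧸ Ideal.span {f}) M]
    (i : ℕ) (hi : 2 * m < i) :
    torLen (R ⧸ Ideal.span {f}) i L M ≠ ⊤ ∧
      torLen (R ⧸ Ideal.span {f}) (i + 1) L M = torLen (R ⧸ Ideal.span {f}) i L M := by
  rw [← hx] at hf
  obtain ⟨c, hc, hc7⟩ := dp_cube x _ hf
  have hg : (-(∑ j : Fin m, X (dpU j) * X (dpV j)) - rename dpU c :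
      MvPolynomial (Fin (2 * m)) R).IsWeightedHomogeneous (dpW m) 3 := by
    refine IsWeightedHomogeneous.sub ?_ (dp_rename_weighted c hc)
    refine IsWeightedHomogeneous.neg ?_
    refine IsWeightedHomogeneous.sum _ _ _ ?_
    intro j _
    have h := (isWeightedHomogeneous_X R (dpW m) (dpU j)).mul
      (isWeightedHomogeneous_X R (dpW m) (dpV j))
    rw [dpW_U, dpW_V] at h
    exact h
  refine coprime_vanish (2 * m) x hx hreg 2 3 (dpW m) (by norm_num) (by norm_num) (dpW_pos m)
    (by norm_num) (-(∑ j : Fin m, X (dpU j) * X (dpV j)) - rename dpU c) hg f ?_ ?_ L M i hi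
  · have e : f - (x 0 ^ 2 - aeval (fun i => x (Fin.succ i))
        (-(∑ j : Fin m, X (dpU j) * X (dpV j)) - rename dpU c : MvPolynomial (Fin (2 * m)) R))
        = f - (x 0 ^ 2 + ∑ j : Fin m, x ⟨2 * j + 1, by omega⟩ * x ⟨2 * j + 2, by omega⟩)
          - aeval (fun j => x (Fin.succ (dpU j))) c := by
      rw [map_sub, map_neg, map_sum, aeval_rename]
      have e2 : (∑ j : Fin m, aeval (fun i => x (Fin.succ i))
          (X (dpU j) * X (dpV j) : MvPolynomial (Fin (2 * m)) R))
          = ∑ j : Fin m, x ⟨2 * j + 1, by omega⟩ * x ⟨2 * j + 2, by omega⟩ := by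
        refine Finset.sum_congr rfl fun j _ => ?_
        rw [map_mul, aeval_X, aeval_X]
        rfl
      rw [e2]
      have e3 : ((fun i => x (Fin.succ i)) ∘ dpU : Fin m → R) = fun j => x (Fin.succ (dpU j)) := rfl
      rw [e3]
      ring
    rw [e]
    exact hc7
  · refine dp_finite _ fun i => dp_jac (c.map (residue R)) (hc.map _) _ ?_ i
    rw [map_sub, map_neg, map_sum, map_sub, map_neg, map_sum, map_rename, rename_rename]
    simp only [map_mul, map_X, rename_X]
    have e3 : (Fin.succ ∘ dpU : Fin m → Fin (2 * m + 1)) = fun j => Fin.succ (dpU j) := rfl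
    rw [e3]
    ring

end Pool.Agent.HT21
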