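import Pool.Agent.HT21.FiltStep

/-!
# The counting argument for a filtered complex

`A` Noetherian local with maximal ideal `m`, `C i` finitely generated modules with decreasing
filtrations `G i n`, `G i 0 = ⊤`, for every `c` there is `n` with `G i n ≤ m^c C i`; linear maps
`d i : C (i+1) → C i`, `d i ∘ d (i+1) = 0`, `d i (G (i+1) n) ≤ G i n`.
For `i ≥ 1` (written `i+1`) let
`h (i+1) n = len (Z' / B')` with `Z' = G (i+1) n ⊓ (d i)⁻¹ (G i (n+1))`,
`B' = d (i+1) (G (i+2) n) ⊔ G (i+1) (n+1)` (homology of the graded pieces).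
Assume for all `i ≥ s`: there is `n0 i` with `h (i+1) n = 0` for `n ≥ n0 i` and
`∑ n < n0 i, h (i+1) n = g i < ⊤`.  Then there is `ζ : ℕ → ℕ∞` with
`g i = len (ker (d i) / im (d (i+1))) + ζ i + ζ (i+1)` for all `i ≥ s`.

Proof.  Let `H (i+1) n = qlen (d (i+1) (G (i+2) n)) (ker (d i) ⊓ G (i+1) n)`; `H (i+1) 0` is the
length of the homology.
(1) Krull: `H (i+1) n = 0` for `n ≥ n0 i`.  If `z ∈ ker (d i) ⊓ G (i+1) n`, then `z ∈ Z'`, so
`z ∈ B'` (`h = 0`, `qlen_eq_zero_iff`): `z = d y + z'` with `y ∈ G (i+2) n`, `z' ∈ G (i+1) (n+1)`,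
and `z' = z - d y ∈ ker (d i)`.  Iterating, `z ∈ d (i+1) (G (i+2) n) ⊔ G (i+1) m'` for every
`m' ≥ n`, so `z ∈ L ⊔ m^c C` for all `c`, `L = d (i+1) (G (i+2) n)`; Krull's intersection theorem
in the finitely generated module `C (i+1) / L` gives `z ∈ L`.
(2) `filt_step`: `h (i+1) n + H (i+1) (n+1) = κ i n + κ (i+1) n + H (i+1) n`, where
`κ j n = qlen (d j (G (j+1) (n+1))) (d j (G (j+1) n) ⊓ G j (n+1))`.
(3) For `n ≥ n0 i`: `κ i n = κ (i+1) n = 0`.  By downward induction all `H (i+1) n` are finite.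
(4) Sum over `n < N`, `N ≥ n0 i`, and cancel: `g i = K i N + K (i+1) N + H (i+1) 0` with
`K j N = ∑ n < N, κ j n`.  Put `ζ i = K i (n0 i)` (`i ≥ s`); for `N = max (n0 i) (n0 (i+1))` one has
`K i N = ζ i` and `K (i+1) N = ζ (i+1)` by (3) for `i` and for `i+1`.
-/

universe u

namespace Pool.Agent.HT21

/-- Krull intersection step (1). -/
theorem filt_krull {A : Type u} [CommRing A] [IsLocalRing A] [IsNoetherianRing A]
    {C0 C1 C2 : Type u} [AddCommGroup C0] [Module A C0] [AddCommGroup C1] [Module A C1]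
    [AddCommGroup C2] [Module A C2] [Module.Finite A C1]
    (d1 : C1 →ₗ[A] C0) (d2 : C2 →ₗ[A] C1) (hd : ∀ x, d1 (d2 x) = 0)
    (G0 : ℕ → Submodule A C0) (G1 : ℕ → Submodule A C1) (G2 : ℕ → Submodule A C2)
    (a1 : Antitone G1) (a2 : Antitone G2)
    (hm : ∀ c : ℕ, ∃ n, G1 n ≤ (IsLocalRing.maximalIdeal A) ^ c • (⊤ : Submodule A C1))
    (n0 : ℕ) (hex : ∀ n, n0 ≤ n →
      qlen ((G2 n).map d2 ⊔ G1 (n + 1)) (G1 n ⊓ (G0 (n + 1)).comap d1) = 0)
    (n : ℕ) (hn : n0 ≤ n) :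
    qlen ((G2 n).map d2) (LinearMap.ker d1 ⊓ G1 n) = 0 := by
  rw [qlen_eq_zero_iff]
  rintro z ⟨hz1, hz2⟩
  have hz1' : d1 z = 0 := hz1
  -- iterate
  have key : ∀ k : ℕ, ∃ l ∈ (G2 n).map d2, ∃ z', d1 z' = 0 ∧ z' ∈ G1 (n + k) ∧ z = l + z' := by
    intro k
    induction k with
    | zero => exact ⟨0, Submodule.zero_mem _, z, hz1', hz2, (zero_add z).symm⟩
    | succ k ih =>
      obtain ⟨l, hl, z', h1, h2, h3⟩ := ih
      have h4 := hex (n + k) (by omega)
      rw [qlen_eq_zero_iff] at h4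
      have h5 : z' ∈ G1 (n + k) ⊓ (G0 (n + k + 1)).comap d1 := by
        refine ⟨h2, ?_⟩
        rw [SetLike.mem_coe, Submodule.mem_comap, h1]
        exact Submodule.zero_mem _
      obtain ⟨y, hy, w, hw, hyw⟩ := Submodule.mem_sup.1 (h4 h5)
      obtain ⟨y', hy', rfl⟩ := Submodule.mem_map.1 hy
      refine ⟨l + d2 y', ?_, w, ?_, hw, ?_⟩
      · exact Submodule.add_mem _ hl (Submodule.mem_map_of_mem (a2 (by omega : n ≤ n + k) hy'))
      · have : w = z' - d2 y' := by rw [← hyw]; abel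
        rw [this, map_sub, h1, hd, sub_zero]
      · rw [h3, ← hyw]
        abel
  have hbot := Ideal.iInf_pow_smul_eq_bot_of_isLocalRing
    (M := C1 ⧸ (G2 n).map d2) (IsLocalRing.maximalIdeal A)
    (IsLocalRing.maximalIdeal.isMaximal A).ne_top
  have hmem : ((G2 n).map d2).mkQ z ∈
      (⨅ i : ℕ, (IsLocalRing.maximalIdeal A) ^ i • (⊤ : Submodule A (C1 ⧸ (G2 n).map d2))) := by
    rw [Submodule.mem_iInf]
    intro c
    obtain ⟨n', hn'⟩ := hm c
    obtain ⟨l, hl, z', -, h2, h3⟩ := key n'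
    have h4 : z' ∈ (IsLocalRing.maximalIdeal A) ^ c • (⊤ : Submodule A C1) :=
      hn' (a1 (by omega : n' ≤ n + n') h2)
    have h5 : ((G2 n).map d2).mkQ l = 0 := by
      rw [Submodule.mkQ_apply, Submodule.Quotient.mk_eq_zero]
      exact hl
    rw [h3, map_add, h5, zero_add]
    have h6 := Submodule.mem_map_of_mem (f := ((G2 n).map d2).mkQ) h4
    rw [Submodule.map_smul''] at h6
    exact (Submodule.smul_mono le_rfl le_top) h6
  rw [hbot, Submodule.mem_bot, Submodule.mkQ_apply, Submodule.Quotient.mk_eq_zero] at hmem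
  exact hmem

theorem filt_len {A : Type u} [CommRing A] [IsLocalRing A] [IsNoetherianRing A]
    (C : ℕ → Type u) [∀ i, AddCommGroup (C i)] [∀ i, Module A (C i)] [∀ i, Module.Finite A (C i)]
    (G : ∀ i, ℕ → Submodule A (C i)) (hanti : ∀ i, Antitone (G i)) (htop : ∀ i, G i 0 = ⊤)
    (hm : ∀ i, ∀ c : ℕ, ∃ n, G i n ≤ (IsLocalRing.maximalIdeal A) ^ c • (⊤ : Submodule A (C i)))
    (d : ∀ i, C (i + 1) →ₗ[A] C i) (hd : ∀ i x, d i (d (i + 1) x) = 0)
    (hG : ∀ i n, (G (i + 1) n).map (d i) ≤ G i n)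
    (s : ℕ) (n0 : ℕ → ℕ) (g : ℕ → ℕ∞)
    (hzero : ∀ i, s ≤ i → ∀ n, n0 i ≤ n →
      qlen ((G (i + 2) n).map (d (i + 1)) ⊔ G (i + 1) (n + 1))
        (G (i + 1) n ⊓ (G i (n + 1)).comap (d i)) = 0)
    (hg : ∀ i, s ≤ i → g i = ∑ n ∈ Finset.range (n0 i),
      qlen ((G (i + 2) n).map (d (i + 1)) ⊔ G (i + 1) (n + 1))
        (G (i + 1) n ⊓ (G i (n + 1)).comap (d i)))
    (hfin : ∀ i, s ≤ i → g i ≠ ⊤) :
    ∃ ζ : ℕ → ℕ∞, ∀ i, s ≤ i →
      g i = qlen (LinearMap.range (d (i + 1))) (LinearMap.ker (d i)) + ζ i + ζ (i + 1) := by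
  obtain ⟨h, hh⟩ : ∃ h : ℕ → ℕ → ℕ∞, ∀ i n, h i n =
      qlen ((G (i + 2) n).map (d (i + 1)) ⊔ G (i + 1) (n + 1))
        (G (i + 1) n ⊓ (G i (n + 1)).comap (d i)) := ⟨_, fun _ _ => rfl⟩
  obtain ⟨H, hH⟩ : ∃ H : ℕ → ℕ → ℕ∞, ∀ i n, H i n =
      qlen ((G (i + 2) n).map (d (i + 1))) (LinearMap.ker (d i) ⊓ G (i + 1) n) :=
    ⟨_, fun _ _ => rfl⟩
  obtain ⟨κ, hκ⟩ : ∃ κ : ℕ → ℕ → ℕ∞, ∀ j n, κ j n =
      qlen ((G (j + 1) (n + 1)).map (d j)) ((G (j + 1) n).map (d j) ⊓ G j (n + 1)) :=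
    ⟨_, fun _ _ => rfl⟩
  have hstep : ∀ i n, h i n + H i (n + 1) = κ i n + κ (i + 1) n + H i n := by
    intro i n
    rw [hh, hH, hH, hκ, hκ]
    exact filt_step (d i) (d (i + 1)) (hd i) (G i) (G (i + 1)) (G (i + 2)) (hanti i)
      (hanti (i + 1)) (hanti (i + 2)) (hG i) (hG (i + 1)) n
  have hz : ∀ i, s ≤ i → ∀ n, n0 i ≤ n → h i n = 0 := by
    intro i hi n hn
    rw [hh]
    exact hzero i hi n hn
  have hHz : ∀ i, s ≤ i → ∀ n, n0 i ≤ n → H i n = 0 := by
    intro i hi n hn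
    rw [hH]
    exact filt_krull (d i) (d (i + 1)) (hd i) (G i) (G (i + 1)) (G (i + 2)) (hanti (i + 1))
      (hanti (i + 2)) (hm (i + 1)) (n0 i) (fun n hn => hzero i hi n hn) n hn
  have hgs : ∀ i, s ≤ i → g i = ∑ n ∈ Finset.range (n0 i), h i n := by
    intro i hi
    rw [hg i hi]
    exact Finset.sum_congr rfl fun n _ => (hh i n).symm
  have hκz : ∀ i, s ≤ i → ∀ n, n0 i ≤ n → κ i n = 0 := by
    intro i hi n hn
    have h1 := hstep i n
    rw [hz i hi n hn, hHz i hi (n + 1) (by omega), zero_add] at h1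
    have h2 := (add_eq_zero.1 h1.symm).1
    exact (add_eq_zero.1 h2).1
  have hfinh : ∀ i, s ≤ i → ∀ n, h i n ≠ ⊤ := by
    intro i hi n
    by_cases hn : n0 i ≤ n
    · rw [hz i hi n hn]
      exact ENat.zero_ne_top
    · intro htop'
      apply hfin i hi
      rw [hgs i hi]
      have hle : h i n ≤ ∑ n ∈ Finset.range (n0 i), h i n :=
        Finset.single_le_sum (f := fun n => h i n) (fun _ _ => zero_le)
          (Finset.mem_range.2 (by omega))
      rw [htop'] at hle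
      exact top_le_iff.1 hle
  have hfinH : ∀ i, s ≤ i → ∀ k n, n0 i ≤ n + k → H i n ≠ ⊤ := by
    intro i hi k
    induction k with
    | zero =>
      intro n hn
      rw [hHz i hi n (by omega)]
      exact ENat.zero_ne_top
    | succ k ih =>
      intro n hn
      have h1 := ih (n + 1) (by omega)
      have h2 : H i n ≤ h i n + H i (n + 1) := by
        rw [hstep]
        exact le_add_self
      intro htop'
      rw [htop', top_le_iff] at h2
      rcases ENat.add_eq_top.1 h2 with h3 | h3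
      · exact hfinh i hi n h3
      · exact h1 h3
  refine ⟨fun i => ∑ n ∈ Finset.range (n0 i), κ i n, ?_⟩
  intro i hi
  have hext : ∀ (f : ℕ → ℕ∞) (a b : ℕ), a ≤ b → (∀ n, a ≤ n → f n = 0) →
      ∑ n ∈ Finset.range b, f n = ∑ n ∈ Finset.range a, f n := by
    intro f a b hab hf
    refine (Finset.sum_subset (Finset.range_mono hab) ?_).symm
    intro n _ hn
    exact hf n (by simpa using hn)
  set N := max (n0 i) (n0 (i + 1)) with hN
  have e1 : g i = ∑ n ∈ Finset.range N, h i n := by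
    rw [hgs i hi]
    exact (hext _ _ _ (le_max_left _ _) (hz i hi)).symm
  have e2 : ∑ n ∈ Finset.range (n0 i), κ i n = ∑ n ∈ Finset.range N, κ i n :=
    (hext _ _ _ (le_max_left _ _) (hκz i hi)).symm
  have e3 : ∑ n ∈ Finset.range (n0 (i + 1)), κ (i + 1) n = ∑ n ∈ Finset.range N, κ (i + 1) n :=
    (hext _ _ _ (le_max_right _ _) (hκz (i + 1) (by omega))).symm
  have e4 : ∑ n ∈ Finset.range N, h i n + ∑ n ∈ Finset.range N, H i (n + 1) =
      ∑ n ∈ Finset.range N, κ i n + ∑ n ∈ Finset.range N, κ (i + 1) n +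
        ∑ n ∈ Finset.range N, H i n := by
    rw [← Finset.sum_add_distrib, ← Finset.sum_add_distrib, ← Finset.sum_add_distrib]
    exact Finset.sum_congr rfl fun n _ => hstep i n
  have e5 : ∑ n ∈ Finset.range N, H i n = ∑ n ∈ Finset.range N, H i (n + 1) + H i 0 := by
    rw [← Finset.sum_range_succ' (fun n => H i n) N, Finset.sum_range_succ,
      hHz i hi N (le_max_left _ _), add_zero]
  have e6 : H i 0 = qlen (LinearMap.range (d (i + 1))) (LinearMap.ker (d i)) := by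
    rw [hH, htop, htop, Submodule.map_top, inf_top_eq]
  have e7 : ∑ n ∈ Finset.range N, H i (n + 1) ≠ ⊤ := by
    have hfs : ∀ M : ℕ, ∑ n ∈ Finset.range M, H i (n + 1) ≠ ⊤ := by
      intro M
      induction M with
      | zero =>
        rw [Finset.sum_range_zero]
        exact ENat.zero_ne_top
      | succ M ih =>
        rw [Finset.sum_range_succ]
        intro hc
        rcases ENat.add_eq_top.1 hc with h3 | h3
        · exact ih h3
        · exact hfinH i hi (n0 i) (M + 1) (by omega) h3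
    exact hfs N
  show g i = _ + (∑ n ∈ Finset.range (n0 i), κ i n) + ∑ n ∈ Finset.range (n0 (i + 1)), κ (i + 1) n
  rw [e2, e3, ← e6]
  rw [← e1, e5] at e4
  have e8 : g i + ∑ n ∈ Finset.range N, H i (n + 1) =
      (H i 0 + ∑ n ∈ Finset.range N, κ i n + ∑ n ∈ Finset.range N, κ (i + 1) n) +
        ∑ n ∈ Finset.range N, H i (n + 1) := by
    rw [e4]
    ring
  exact ENat.add_left_injective_of_ne_top e7 e8

end Pool.Agent.HT21
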