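import Pool.Agent.HT21.QLen

/-!
# One step of the counting argument

`d1 : C1 → C0`, `d2 : C2 → C1` linear with `d1 ∘ d2 = 0`, decreasing filtrations `G0, G1, G2` with
`d1 (G1 n) ≤ G0 n` and `d2 (G2 n) ≤ G1 n`.  Put, for a fixed `n`,
`Z n = ker d1 ⊓ G1 n`, `B n = d2 (G2 n)`,
`Z' n = G1 n ⊓ d1⁻¹ (G0 (n+1))`, `B' n = d2 (G2 n) ⊔ G1 (n+1)`.
Then in `ℕ∞`
`len(Z' n / B' n) + len(Z (n+1) / B (n+1)) = κ0 + κ1 + len(Z n / B n)` with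
`κ0 = len((d1 (G1 n) ⊓ G0 (n+1)) / d1 (G1 (n+1)))`, `κ1 = len((d2 (G2 n) ⊓ G1 (n+1)) / d2 (G2 (n+1)))`.

Proof.  `B' n ≤ Z n ⊔ G1 (n+1) ≤ Z' n`.  By `qlen_add`,
`len(Z'/B') = len(Z' / (Z ⊔ G1(n+1))) + len((Z ⊔ G1(n+1)) / (B ⊔ G1(n+1)))`.
First summand: `Z ⊔ G1(n+1) = G1(n+1) ⊔ (ker d1 ⊓ Z')` (as `ker d1 ⊓ Z' = Z`), so by `qlen_map` for
`d1` it is `len(d1 Z' / d1 G1(n+1))`, and `d1 Z' = d1 (G1 n) ⊓ G0 (n+1)`; this is `κ0`.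
Second summand: `(Z ⊔ G1(n+1)) = (B ⊔ G1(n+1)) ⊔ Z`, so by `qlen_sup` and `qlen_inf` it is
`len(Z / ((B ⊔ G1(n+1)) ⊓ Z)) = len(Z / (B ⊔ Z(n+1)))` (modular law, `B ≤ Z`,
`G1(n+1) ⊓ Z = Z(n+1)`).
`len(Z/B) = len((B ⊔ Z(n+1))/B) + len(Z/(B ⊔ Z(n+1)))` and
`len((B ⊔ Z(n+1))/B) = len(Z(n+1)/B) = len(Z(n+1)/(B ⊓ G1 (n+1)))` (`qlen_sup`, `qlen_inf`), while
`len(Z(n+1)/B(n+1)) = len((B ⊓ G1(n+1))/B(n+1)) + len(Z(n+1)/(B ⊓ G1(n+1)))` (`qlen_add`).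
Add up.
-/

universe u

namespace Pool.Agent.HT21

variable {R : Type u} [CommRing R] {C0 C1 C2 : Type u} [AddCommGroup C0] [Module R C0]
  [AddCommGroup C1] [Module R C1] [AddCommGroup C2] [Module R C2]

theorem filt_step (d1 : C1 →ₗ[R] C0) (d2 : C2 →ₗ[R] C1) (hd : ∀ x, d1 (d2 x) = 0)
    (G0 : ℕ → Submodule R C0) (G1 : ℕ → Submodule R C1) (G2 : ℕ → Submodule R C2)
    (a0 : Antitone G0) (a1 : Antitone G1) (a2 : Antitone G2)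
    (h1 : ∀ n, (G1 n).map d1 ≤ G0 n) (h2 : ∀ n, (G2 n).map d2 ≤ G1 n) (n : ℕ) :
    qlen ((G2 n).map d2 ⊔ G1 (n + 1)) (G1 n ⊓ (G0 (n + 1)).comap d1)
        + qlen ((G2 (n + 1)).map d2) (LinearMap.ker d1 ⊓ G1 (n + 1))
      = qlen ((G1 (n + 1)).map d1) ((G1 n).map d1 ⊓ G0 (n + 1))
        + qlen ((G2 (n + 1)).map d2) ((G2 n).map d2 ⊓ G1 (n + 1))
        + qlen ((G2 n).map d2) (LinearMap.ker d1 ⊓ G1 n) := by
  have hBK : (G2 n).map d2 ≤ LinearMap.ker d1 := by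
    rintro _ ⟨x, _, rfl⟩
    exact hd x
  have hBG : (G2 n).map d2 ≤ G1 n := h2 n
  have hB1B : (G2 (n + 1)).map d2 ≤ (G2 n).map d2 := Submodule.map_mono (a2 (Nat.le_succ n))
  have hB1G : (G2 (n + 1)).map d2 ≤ G1 (n + 1) := h2 (n + 1)
  have hGG : G1 (n + 1) ≤ G1 n := a1 (Nat.le_succ n)
  have hGc : G1 (n + 1) ≤ (G0 (n + 1)).comap d1 := Submodule.map_le_iff_le_comap.mp (h1 (n + 1))
  have hKc : LinearMap.ker d1 ≤ (G0 (n + 1)).comap d1 := by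
    intro x hx
    rw [Submodule.mem_comap, LinearMap.mem_ker.mp hx]
    exact Submodule.zero_mem _
  have hBZ : (G2 n).map d2 ≤ LinearMap.ker d1 ⊓ G1 n := le_inf hBK hBG
  -- the four splittings
  have e1 : qlen ((G2 n).map d2 ⊔ G1 (n + 1)) (G1 n ⊓ (G0 (n + 1)).comap d1)
      = qlen ((G2 n).map d2 ⊔ G1 (n + 1)) ((LinearMap.ker d1 ⊓ G1 n) ⊔ G1 (n + 1))
        + qlen ((LinearMap.ker d1 ⊓ G1 n) ⊔ G1 (n + 1)) (G1 n ⊓ (G0 (n + 1)).comap d1) := by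
    refine qlen_add _ _ _ (sup_le_sup_right hBZ _) (sup_le ?_ ?_)
    · exact le_inf inf_le_right (inf_le_left.trans hKc)
    · exact le_inf hGG hGc
  have e2 : qlen ((LinearMap.ker d1 ⊓ G1 n) ⊔ G1 (n + 1)) (G1 n ⊓ (G0 (n + 1)).comap d1)
      = qlen ((G1 (n + 1)).map d1) ((G1 n).map d1 ⊓ G0 (n + 1)) := by
    have hm := qlen_map d1 (G1 (n + 1)) (G1 n ⊓ (G0 (n + 1)).comap d1) (le_inf hGG hGc)
    have hz : (G1 n ⊓ (G0 (n + 1)).comap d1).map d1 = (G1 n).map d1 ⊓ G0 (n + 1) := by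
      ext y
      constructor
      · rintro ⟨x, ⟨hx1, hx2⟩, rfl⟩
        exact ⟨⟨x, hx1, rfl⟩, hx2⟩
      · rintro ⟨⟨x, hx1, rfl⟩, hx2⟩
        exact ⟨x, ⟨hx1, hx2⟩, rfl⟩
    have hk : LinearMap.ker d1 ⊓ (G1 n ⊓ (G0 (n + 1)).comap d1) = LinearMap.ker d1 ⊓ G1 n := by
      apply le_antisymm
      · exact inf_le_inf_left _ inf_le_left
      · exact le_inf inf_le_left (le_inf inf_le_right (inf_le_left.trans hKc))
    rw [hz, hk, sup_comm] at hm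
    exact hm.symm
  have e3 : qlen ((G2 n).map d2 ⊔ G1 (n + 1)) ((LinearMap.ker d1 ⊓ G1 n) ⊔ G1 (n + 1))
      = qlen ((G2 n).map d2 ⊔ (LinearMap.ker d1 ⊓ G1 (n + 1))) (LinearMap.ker d1 ⊓ G1 n) := by
    have hs : (LinearMap.ker d1 ⊓ G1 n) ⊔ G1 (n + 1)
        = ((G2 n).map d2 ⊔ G1 (n + 1)) ⊔ (LinearMap.ker d1 ⊓ G1 n) := by
      apply le_antisymm
      · exact sup_le le_sup_right (le_sup_right.trans le_sup_left)
      · exact sup_le (sup_le (hBZ.trans le_sup_left) le_sup_right) le_sup_left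
    have hi : ((G2 n).map d2 ⊔ G1 (n + 1)) ⊓ (LinearMap.ker d1 ⊓ G1 n)
        = (G2 n).map d2 ⊔ (LinearMap.ker d1 ⊓ G1 (n + 1)) := by
      rw [sup_inf_assoc_of_le (G1 (n + 1)) hBZ]
      congr 1
      apply le_antisymm
      · exact le_inf (inf_le_right.trans inf_le_left) inf_le_left
      · exact le_inf inf_le_right (le_inf inf_le_left (inf_le_right.trans hGG))
    rw [hs, qlen_sup, ← qlen_inf, hi]
  have e4 : qlen ((G2 n).map d2) (LinearMap.ker d1 ⊓ G1 n)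
      = qlen ((G2 n).map d2) ((G2 n).map d2 ⊔ (LinearMap.ker d1 ⊓ G1 (n + 1)))
        + qlen ((G2 n).map d2 ⊔ (LinearMap.ker d1 ⊓ G1 (n + 1))) (LinearMap.ker d1 ⊓ G1 n) :=
    qlen_add _ _ _ le_sup_left (sup_le hBZ (inf_le_inf_left _ hGG))
  have hi2 : (G2 n).map d2 ⊓ (LinearMap.ker d1 ⊓ G1 (n + 1)) = (G2 n).map d2 ⊓ G1 (n + 1) := by
    apply le_antisymm
    · exact inf_le_inf_left _ inf_le_right
    · exact le_inf inf_le_left (le_inf (inf_le_left.trans hBK) inf_le_right)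
  have e5 : qlen ((G2 n).map d2) ((G2 n).map d2 ⊔ (LinearMap.ker d1 ⊓ G1 (n + 1)))
      = qlen ((G2 n).map d2 ⊓ G1 (n + 1)) (LinearMap.ker d1 ⊓ G1 (n + 1)) := by
    rw [qlen_sup, ← qlen_inf, hi2]
  have e6 : qlen ((G2 (n + 1)).map d2) (LinearMap.ker d1 ⊓ G1 (n + 1))
      = qlen ((G2 (n + 1)).map d2) ((G2 n).map d2 ⊓ G1 (n + 1))
        + qlen ((G2 n).map d2 ⊓ G1 (n + 1)) (LinearMap.ker d1 ⊓ G1 (n + 1)) :=
    qlen_add _ _ _ (le_inf hB1B hB1G) (le_inf (inf_le_left.trans hBK) inf_le_right)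
  rw [e1, e2, e3, e6, e4, e5]
  abel

end Pool.Agent.HT21
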