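import Mathlib

/-!
# Hilbert's syzygy theorem (projective dimension form)

`pd_polynomial`: if every `B`-module has projective dimension `≤ c`, then every `B[X]`-module has
projective dimension `≤ c + 1`: for a `B[X]`-module `M` there is an exact sequence
`0 → B[X] ⊗_B M → B[X] ⊗_B M → M → 0` (first map `X ⊗ 1 - 1 ⊗ X`; elements of `B[X] ⊗_B M` are
finite sums `∑ X^j ⊗ m_j`, e.g. `PolynomialModule B M`), and `pd_{B[X]} (B[X] ⊗_B M) ≤ pd_B M`
(extension of scalars to the free `B`-algebra `B[X]` is exact and preserves projectives; induction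
on `c`).  `ShortExact.hasProjectiveDimensionLT_X₃`.

`pd_mvPolynomial`: induction on the number of variables; `k` a field: every module over
`MvPolynomial (Fin 0) k` (a field) is projective; `MvPolynomial.finSuccEquiv` and
`ModuleCat.hasProjectiveDimensionLE_of_semiLinearEquiv`.
-/

universe u

namespace Pool.Agent.HT21

open CategoryTheory

open scoped TensorProduct Polynomial

/-- extension of scalars to the polynomial ring does not raise the projective dimension -/
private theorem pdPoly_ext {B : Type u} [CommRing B] (n : ℕ) :
    ∀ (M : Type u) [AddCommGroup M] [Module B M], HasProjectiveDimensionLE (ModuleCat.of B M) n →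
      HasProjectiveDimensionLE (ModuleCat.of B[X] (B[X] ⊗[B] M)) n := by
  induction n with
  | zero =>
    intro M _ _ h
    rw [← projective_iff_hasProjectiveDimensionLE_zero, ← IsProjective.iff_projective] at h ⊢
    infer_instance
  | succ n ih =>
    intro M _ _ h
    have hsurj : Function.Surjective (Finsupp.linearCombination B (id : M → M)) :=
      Finsupp.linearCombination_surjective B Function.surjective_id
    have hS := LinearMap.shortExact_shortComplexKer hsurj
    have hP : Projective (ModuleCat.of B (M →₀ B)) :=
      (IsProjective.iff_projective _).1 inferInstance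
    have hK : HasProjectiveDimensionLE
        (ModuleCat.of B (LinearMap.ker (Finsupp.linearCombination B (id : M → M)))) n :=
      (hS.hasProjectiveDimensionLT_X₃_iff n hP).1 h
    have hK' := ih _ hK
    have hzero : (LinearMap.baseChange B[X] (Finsupp.linearCombination B (id : M → M))).comp
        (LinearMap.baseChange B[X]
          (LinearMap.ker (Finsupp.linearCombination B (id : M → M))).subtype) = 0 := by
      rw [← LinearMap.baseChange_comp]
      have : (Finsupp.linearCombination B (id : M → M)).comp
          (LinearMap.ker (Finsupp.linearCombination B (id : M → M))).subtype = 0 := by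
        ext x
        simp
      rw [this, LinearMap.baseChange_zero]
    have hT := ModuleCat.shortComplex_shortExact
      (ModuleCat.shortComplexOfCompEqZero
        (LinearMap.baseChange B[X]
          (LinearMap.ker (Finsupp.linearCombination B (id : M → M))).subtype)
        (LinearMap.baseChange B[X] (Finsupp.linearCombination B (id : M → M))) hzero)
      (by
        have hex : Function.Exact (LinearMap.ker (Finsupp.linearCombination B (id : M → M))).subtype
            (Finsupp.linearCombination B (id : M → M)) := LinearMap.exact_subtype_ker_map _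
        have := lTensor_exact (M := LinearMap.ker (Finsupp.linearCombination B (id : M → M)))
          (N := M →₀ B) (P := M) B[X] hex hsurj
        exact this)
      (by
        have := Module.Flat.lTensor_preserves_injective_linearMap (M := B[X])
          (LinearMap.ker (Finsupp.linearCombination B (id : M → M))).subtype
          (Submodule.injective_subtype _)
        exact this)
      (by
        have := LinearMap.lTensor_surjective B[X] hsurj
        exact this)
    have hP' : Projective (ModuleCat.of B[X] (B[X] ⊗[B] (M →₀ B))) :=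
      (IsProjective.iff_projective _).1 inferInstance
    exact (hT.hasProjectiveDimensionLT_X₃_iff n hP').2 hK'

section charSeq

variable {B : Type u} [CommRing B] (M : Type u) [AddCommGroup M] [Module B M] [Module B[X] M]
  [IsScalarTower B B[X] M]

/-- multiplication by the variable -/
private noncomputable def pdPolyX : M →ₗ[B] M := (LinearMap.lsmul B[X] M Polynomial.X).restrictScalars B

private theorem pdPolyX_apply (m : M) : pdPolyX (B := B) M m = (Polynomial.X : B[X]) • m := rfl

/-- the first map -/
private noncomputable def pdPolyPhi : B[X] ⊗[B] M →ₗ[B[X]] B[X] ⊗[B] M :=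
  LinearMap.lsmul B[X] (B[X] ⊗[B] M) Polynomial.X - LinearMap.baseChange B[X] (pdPolyX (B := B) M)

private theorem pdPolyPhi_tmul (p : B[X]) (m : M) :
    pdPolyPhi (B := B) M (p ⊗ₜ m) = (Polynomial.X * p) ⊗ₜ m - p ⊗ₜ ((Polynomial.X : B[X]) • m) := by
  simp [pdPolyPhi, pdPolyX_apply, TensorProduct.smul_tmul']

/-- the second map -/
private noncomputable def pdPolyEps : B[X] ⊗[B] M →ₗ[B[X]] M :=
  LinearMap.liftBaseChange B[X] (LinearMap.id : M →ₗ[B] M)

private theorem pdPolyEps_tmul (p : B[X]) (m : M) :
    pdPolyEps (B := B) M (p ⊗ₜ m) = p • m := by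
  simp [pdPolyEps]

private theorem pdPoly_comp (x : B[X] ⊗[B] M) : pdPolyEps (B := B) M (pdPolyPhi (B := B) M x) = 0 := by
  induction x using TensorProduct.induction_on with
  | zero => simp
  | tmul p m =>
    rw [pdPolyPhi_tmul, map_sub, pdPolyEps_tmul, pdPolyEps_tmul, smul_smul, mul_comm, sub_self]
  | add x y hx hy => rw [map_add, map_add, hx, hy, add_zero]

private theorem pdPoly_red (p : B[X]) : ∀ m : M,
    p ⊗ₜ[B] m - (1 : B[X]) ⊗ₜ[B] (p • m) ∈ LinearMap.range (pdPolyPhi (B := B) M) := by
  induction p using Polynomial.induction_on with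
  | C a =>
    intro m
    have h1 : (Polynomial.C a : B[X]) ⊗ₜ[B] m = (1 : B[X]) ⊗ₜ[B] (a • m) := by
      rw [← TensorProduct.smul_tmul, Polynomial.smul_eq_C_mul, mul_one]
    have h2 : (Polynomial.C a : B[X]) • m = a • m := by
      rw [← Polynomial.algebraMap_eq, algebraMap_smul]
    rw [h1, h2, sub_self]
    exact Submodule.zero_mem _
  | add p q hp hq =>
    intro m
    have : (p + q) ⊗ₜ[B] m - (1 : B[X]) ⊗ₜ[B] ((p + q) • m) =
        (p ⊗ₜ[B] m - (1 : B[X]) ⊗ₜ[B] (p • m)) + (q ⊗ₜ[B] m - (1 : B[X]) ⊗ₜ[B] (q • m)) := by
      rw [TensorProduct.add_tmul, add_smul, TensorProduct.tmul_add]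
      abel
    rw [this]
    exact Submodule.add_mem _ (hp m) (hq m)
  | monomial n a h =>
    intro m
    have h1 := Submodule.smul_mem _ (Polynomial.X : B[X]) (h m)
    have h2 : pdPolyPhi (B := B) M ((1 : B[X]) ⊗ₜ ((Polynomial.C a * Polynomial.X ^ n : B[X]) • m)) ∈
        LinearMap.range (pdPolyPhi (B := B) M) := LinearMap.mem_range_self _ _
    have h3 := Submodule.add_mem _ h1 h2
    convert h3 using 1
    rw [pdPolyPhi_tmul, smul_sub, TensorProduct.smul_tmul', TensorProduct.smul_tmul', smul_smul,
      smul_eq_mul, smul_eq_mul, mul_one, pow_succ]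
    have h4 : (Polynomial.X : B[X]) * (Polynomial.C a * Polynomial.X ^ n) =
        Polynomial.C a * (Polynomial.X ^ n * Polynomial.X) := by ring
    rw [h4]
    abel

private theorem pdPoly_exact (x : B[X] ⊗[B] M) (hx : pdPolyEps (B := B) M x = 0) :
    x ∈ LinearMap.range (pdPolyPhi (B := B) M) := by
  have key : ∀ x : B[X] ⊗[B] M, x - (1 : B[X]) ⊗ₜ[B] (pdPolyEps (B := B) M x) ∈
      LinearMap.range (pdPolyPhi (B := B) M) := by
    intro x
    induction x using TensorProduct.induction_on with
    | zero => simp
    | tmul p m => rw [pdPolyEps_tmul]; exact pdPoly_red M p m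
    | add x y hx hy =>
      have : x + y - (1 : B[X]) ⊗ₜ[B] (pdPolyEps (B := B) M (x + y)) =
          (x - (1 : B[X]) ⊗ₜ[B] (pdPolyEps (B := B) M x)) +
            (y - (1 : B[X]) ⊗ₜ[B] (pdPolyEps (B := B) M y)) := by
        rw [map_add, TensorProduct.tmul_add]; abel
      rw [this]
      exact Submodule.add_mem _ hx hy
  have := key x
  rwa [hx, TensorProduct.tmul_zero, sub_zero] at this

private theorem pdPoly_surj (m : M) : ∃ x, pdPolyEps (B := B) M x = m :=
  ⟨(1 : B[X]) ⊗ₜ m, by rw [pdPolyEps_tmul, one_smul]⟩

/-- coefficients -/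
private noncomputable def pdPolyCo (x : B[X] ⊗[B] M) : ℕ →₀ M :=
  (PolynomialModule.polynomialTensorProductLEquivPolynomialModule B M x).coeff

private theorem pdPolyCo_add (x y : B[X] ⊗[B] M) (n : ℕ) :
    pdPolyCo M (x + y) n = pdPolyCo M x n + pdPolyCo M y n := by
  simp [pdPolyCo]

private theorem pdPolyCo_sub (x y : B[X] ⊗[B] M) (n : ℕ) :
    pdPolyCo M (x - y) n = pdPolyCo M x n - pdPolyCo M y n := by
  have := pdPolyCo_add M (x - y) y n
  rw [sub_add_cancel] at this
  rw [this]; abel

private theorem pdPolyCo_tmul (p : B[X]) (m : M) (n : ℕ) :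
    pdPolyCo M (p ⊗ₜ[B] m) n = p.coeff n • m := by
  have : PolynomialModule.polynomialTensorProductLEquivPolynomialModule B M (p ⊗ₜ[B] m) =
      p • PolynomialModule.single B 0 m := by
    simp [PolynomialModule.polynomialTensorProductLEquivPolynomialModule]
    rfl
  rw [pdPolyCo, this, PolynomialModule.smul_single_apply]
  simp

private theorem pdPolyCo_X (x : B[X] ⊗[B] M) (n : ℕ) :
    pdPolyCo M ((Polynomial.X : B[X]) • x) (n + 1) = pdPolyCo M x n := by
  induction x using TensorProduct.induction_on with
  | zero => simp [pdPolyCo]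
  | tmul p m =>
    rw [TensorProduct.smul_tmul', pdPolyCo_tmul, pdPolyCo_tmul, smul_eq_mul, Polynomial.coeff_X_mul]
  | add x y hx hy => rw [smul_add, pdPolyCo_add, pdPolyCo_add, hx, hy]

private theorem pdPolyCo_map (x : B[X] ⊗[B] M) (n : ℕ) :
    pdPolyCo M (LinearMap.baseChange B[X] (pdPolyX (B := B) M) x) n =
      (Polynomial.X : B[X]) • pdPolyCo M x n := by
  induction x using TensorProduct.induction_on with
  | zero => simp [pdPolyCo]
  | tmul p m =>
    rw [LinearMap.baseChange_tmul, pdPolyCo_tmul, pdPolyCo_tmul, pdPolyX_apply]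
    exact (smul_comm _ _ _)
  | add x y hx hy => rw [map_add, pdPolyCo_add, pdPolyCo_add, hx, hy, smul_add]

private theorem pdPoly_inj (x : B[X] ⊗[B] M) (hx : pdPolyPhi (B := B) M x = 0) : x = 0 := by
  have h1 : ∀ n, pdPolyCo M x n = (Polynomial.X : B[X]) • pdPolyCo M x (n + 1) := by
    intro n
    have h2 : pdPolyCo M (pdPolyPhi (B := B) M x) (n + 1) = 0 := by
      rw [hx]; simp [pdPolyCo]
    have h3 : pdPolyPhi (B := B) M x = (Polynomial.X : B[X]) • x -
        LinearMap.baseChange B[X] (pdPolyX (B := B) M) x := rfl
    rw [h3, pdPolyCo_sub, pdPolyCo_X, pdPolyCo_map] at h2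
    exact sub_eq_zero.1 h2
  have h2 : ∀ n, ∀ j, j ≤ n → (∀ i, n < i → pdPolyCo M x i = 0) → pdPolyCo M x (n - j) = 0 := by
    intro n j
    induction j with
    | zero =>
      intro _ h
      rw [h1, h _ (by omega), smul_zero]
    | succ j ih =>
      intro hj h
      have := ih (by omega) h
      rw [h1, show n - (j + 1) + 1 = n - j by omega, this, smul_zero]
  have h3 : pdPolyCo M x = 0 := by
    obtain ⟨N, hN⟩ : ∃ N, ∀ i, N < i → pdPolyCo M x i = 0 := by
      refine ⟨(pdPolyCo M x).support.sup id, fun i hi => ?_⟩
      by_contra hne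
      have : i ≤ (pdPolyCo M x).support.sup id :=
        Finset.le_sup (f := id) (Finsupp.mem_support_iff.2 hne)
      omega
    ext i
    rcases Nat.lt_or_ge N i with h | h
    · simpa using hN i h
    · have := h2 N (N - i) (by omega) hN
      rw [show N - (N - i) = i by omega] at this
      simpa using this
  have h4 : PolynomialModule.polynomialTensorProductLEquivPolynomialModule B M x = 0 :=
    PolynomialModule.coeff_eq_zero.1 h3
  exact (LinearEquiv.map_eq_zero_iff _).1 h4

end charSeq

theorem pd_polynomial {B : Type u} [CommRing B] (c : ℕ)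
    (h : ∀ (M : Type u) [AddCommGroup M] [Module B M],
      HasProjectiveDimensionLE (ModuleCat.of B M) c)
    (M : Type u) [AddCommGroup M] [Module (Polynomial B) M] :
    HasProjectiveDimensionLE (ModuleCat.of (Polynomial B) M) (c + 1) := by
  let : Module B M := Module.compHom M (Polynomial.C : B →+* B[X])
  have : IsScalarTower B B[X] M := ⟨fun b p m => by
    show (b • p) • m = (Polynomial.C b : B[X]) • (p • m)
    rw [smul_smul, Polynomial.smul_eq_C_mul]⟩
  have hE := pdPoly_ext c M (h M)
  have hzero : (pdPolyEps (B := B) M).comp (pdPolyPhi (B := B) M) = 0 :=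
    LinearMap.ext fun x => pdPoly_comp M x
  have hT := ModuleCat.shortComplex_shortExact
    (ModuleCat.shortComplexOfCompEqZero (pdPolyPhi (B := B) M) (pdPolyEps (B := B) M) hzero)
    (by
      have : Function.Exact (pdPolyPhi (B := B) M) (pdPolyEps (B := B) M) := by
        intro x
        constructor
        · intro hx
          exact pdPoly_exact M x hx
        · rintro ⟨y, rfl⟩
          exact pdPoly_comp M y
      exact this)
    (by
      have : Function.Injective (pdPolyPhi (B := B) M) :=
        (injective_iff_map_eq_zero _).2 (pdPoly_inj M)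
      exact this)
    (by
      have : Function.Surjective (pdPolyEps (B := B) M) := pdPoly_surj M
      exact this)
  exact hT.hasProjectiveDimensionLT_X₃ (c + 1) hE (hasProjectiveDimensionLT_of_ge _ (c + 1) _ (by omega))

theorem pd_mvPolynomial (k : Type u) [Field k] (m : ℕ) (M : Type u) [AddCommGroup M]
    [Module (MvPolynomial (Fin m) k) M] :
    HasProjectiveDimensionLE (ModuleCat.of (MvPolynomial (Fin m) k) M) m := by
  induction m generalizing M with
  | zero =>
    let : Module k M := Module.compHom M (MvPolynomial.C : k →+* MvPolynomial (Fin 0) k)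
    let e : k ≃+* MvPolynomial (Fin 0) k := (MvPolynomial.isEmptyAlgEquiv k (Fin 0)).symm.toRingEquiv
    let := RingHomInvPair.of_ringEquiv e
    let := RingHomInvPair.of_ringEquiv e.symm
    let e' : M ≃ₛₗ[RingHomClass.toRingHom e] M :=
      { toFun := id
        invFun := id
        left_inv := fun _ => rfl
        right_inv := fun _ => rfl
        map_add' := fun _ _ => rfl
        map_smul' := fun c x => by
          show (MvPolynomial.C c : MvPolynomial (Fin 0) k) • x = (e c) • x
          rfl }
    have : Module.Projective (MvPolynomial (Fin 0) k) M := Module.Projective.of_equiv e'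
    rw [← projective_iff_hasProjectiveDimensionLE_zero, ← IsProjective.iff_projective]
    exact this
  | succ m ih =>
    let e : Polynomial (MvPolynomial (Fin m) k) ≃+* MvPolynomial (Fin (m + 1)) k :=
      (MvPolynomial.finSuccEquiv k m).symm.toRingEquiv
    let : Module (Polynomial (MvPolynomial (Fin m) k)) M := Module.compHom M e.toRingHom
    let := RingHomInvPair.of_ringEquiv e
    let := RingHomInvPair.of_ringEquiv e.symm
    let e' : M ≃ₛₗ[RingHomClass.toRingHom e] M :=
      { toFun := id
        invFun := id
        left_inv := fun _ => rfl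
        right_inv := fun _ => rfl
        map_add' := fun _ _ => rfl
        map_smul' := fun c x => rfl }
    have h1 : HasProjectiveDimensionLE (ModuleCat.of (Polynomial (MvPolynomial (Fin m) k)) M) (m + 1) :=
      pd_polynomial m (fun N _ _ => ih N) M
    exact ModuleCat.hasProjectiveDimensionLE_of_semiLinearEquiv
      (M := ModuleCat.of (Polynomial (MvPolynomial (Fin m) k)) M)
      (N := ModuleCat.of (MvPolynomial (Fin (m + 1)) k) M) e e' (m + 1)

end Pool.Agent.HT21
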