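import Mathlib

/-!
# Finite projective dimension over regular local rings

`pd_regular`: `R` Noetherian local, maximal ideal generated by a regular sequence `x` of length `m`;
then every finitely generated module has projective dimension `≤ m`.

Induction on `m` (over all rings).  `m = 0`: `R` is a field.
`m + 1`: let `x₀` be the first element, `R' = R / x₀`.  For `M` finitely generated take
`0 → K → R^r → M → 0`; it is enough that `pd K ≤ m`
(`ShortExact.hasProjectiveDimensionLT_X₃`).  `x₀` is regular on `R`, so on `K`; by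
induction `pd_{R'} (K / x₀ K) ≤ m`; conclude by `pd_of_quot`.

`pd_of_quot`: `R` Noetherian local, `x` in the maximal ideal, regular on `R` and on the finitely
generated `K`, `pd_{R/x} (K/xK) ≤ m` implies `pd_R K ≤ m`.  Induction on `m`.
`m = 0`: `K/xK` is projective, hence free over the local ring `R/x`; lift a basis: `R^s → K` is
surjective by Nakayama; its kernel `L` satisfies `L = x L` (an element of `L` has coordinates
divisible by `x`, as it is zero in `(R/x)^s ≅ K/xK`, and then the quotient by `x` lies in `L` because `x`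
is regular on `K`), so `L = 0` by Nakayama, and `K` is free.  `m + 1`:
`0 → L → R^s → K → 0`, then `0 → L/xL → (R/x)^s → K/xK → 0` is exact (`x` regular on `K`), so
`pd_{R/x} (L/xL) ≤ m` (`hasProjectiveDimensionLT_X₃_iff`), `pd_R L ≤ m`, `pd_R K ≤ m + 1`.
-/

universe u

namespace Pool.Agent.HT21

open CategoryTheory

section

variable {R : Type u} [CommRing R] (x : R)

/-- the reduction of a free module modulo `x` -/
private noncomputable def pdG (ι : Type u) : (ι →₀ R) →ₗ[R] (ι →₀ R ⧸ Ideal.span {x}) :=
  Finsupp.mapRange.linearMap (Algebra.linearMap R (R ⧸ Ideal.span {x}))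

private theorem pdG_apply (ι : Type u) (v : ι →₀ R) (i : ι) :
    pdG x ι v i = Ideal.Quotient.mk (Ideal.span {x}) (v i) := rfl

private theorem pdG_surj (ι : Type u) : Function.Surjective (pdG x ι) := by
  intro w
  classical
  choose c hc using (Ideal.Quotient.mk_surjective (I := Ideal.span {x}))
  refine ⟨Finsupp.onFinset w.support (fun i => if w i = 0 then 0 else c (w i)) ?_, ?_⟩
  · intro i hi
    rw [Finsupp.mem_support_iff]
    intro h
    exact hi (if_pos h)
  · ext i
    rw [pdG_apply, Finsupp.onFinset_apply]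
    split_ifs with h
    · rw [map_zero, h]
    · exact hc _

private theorem pdG_ker (ι : Type u) (v : ι →₀ R) (hv : pdG x ι v = 0) :
    ∃ u : ι →₀ R, x • u = v := by
  classical
  have h1 : ∀ i, ∃ a, x * a = v i := by
    intro i
    have h2 : Ideal.Quotient.mk (Ideal.span {x}) (v i) = 0 := by
      rw [← pdG_apply, hv]
      rfl
    rw [Ideal.Quotient.eq_zero_iff_mem, Ideal.mem_span_singleton] at h2
    obtain ⟨a, ha⟩ := h2
    exact ⟨a, ha.symm⟩
  choose a ha using h1
  refine ⟨Finsupp.onFinset v.support (fun i => if v i = 0 then 0 else a i) ?_, ?_⟩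
  · intro i hi
    rw [Finsupp.mem_support_iff]
    intro h
    exact hi (if_pos h)
  · ext i
    rw [Finsupp.smul_apply, Finsupp.onFinset_apply, smul_eq_mul]
    split_ifs with h
    · rw [mul_zero, h]
    · exact ha i

private theorem pd_free (hreg : IsSMulRegular R x) (ι : Type u) :
    HasProjectiveDimensionLT (ModuleCat.of R (ι →₀ R ⧸ Ideal.span {x})) 2 := by
  let S : ShortComplex (ModuleCat.{u} R) := (pdG x ι).shortComplexKer
  have hS : S.ShortExact := LinearMap.shortExact_shortComplexKer (pdG_surj x ι)
  have h2 : HasProjectiveDimensionLT S.X₂ 2 := by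
    have : Projective (ModuleCat.of R (ι →₀ R)) := inferInstance
    show HasProjectiveDimensionLT (ModuleCat.of R (ι →₀ R)) 2
    infer_instance
  have h1 : HasProjectiveDimensionLT S.X₁ 1 := by
    let φ : (ι →₀ R) →ₗ[R] LinearMap.ker (pdG x ι) :=
      { toFun := fun u => ⟨x • u, by
          rw [LinearMap.mem_ker, map_smul]
          ext i
          rw [Finsupp.smul_apply, Algebra.smul_def, Finsupp.zero_apply]
          have : (algebraMap R (R ⧸ Ideal.span {x})) x = 0 :=
            Ideal.Quotient.eq_zero_iff_mem.2 (Ideal.mem_span_singleton_self x)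
          rw [this, zero_mul]⟩
        map_add' := fun u v => Subtype.ext (smul_add x u v)
        map_smul' := fun r u => Subtype.ext (smul_comm x r u) }
    have hφ : Function.Bijective φ := by
      constructor
      · intro u v huv
        have h3 : x • u = x • v := congrArg Subtype.val huv
        ext i
        have h4 := DFunLike.congr_fun h3 i
        exact hreg h4
      · rintro ⟨v, hv⟩
        obtain ⟨u, hu⟩ := pdG_ker x ι v hv
        exact ⟨u, Subtype.ext hu⟩
    have h3 : Module.Projective R (LinearMap.ker (pdG x ι)) :=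
      Module.Projective.of_equiv (LinearEquiv.ofBijective φ hφ)
    have h4 : Projective (ModuleCat.of R (LinearMap.ker (pdG x ι))) := inferInstance
    show HasProjectiveDimensionLT (ModuleCat.of R (LinearMap.ker (pdG x ι))) 1
    infer_instance
  exact hS.hasProjectiveDimensionLT_X₃ 1 h1 h2

private theorem pd_restrict (hreg : IsSMulRegular R x) (m : ℕ) :
    ∀ (N : Type u) [AddCommGroup N] [Module R N] [Module (R ⧸ Ideal.span {x}) N]
      [IsScalarTower R (R ⧸ Ideal.span {x}) N],
      HasProjectiveDimensionLE (ModuleCat.of (R ⧸ Ideal.span {x}) N) m →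
      HasProjectiveDimensionLE (ModuleCat.of R N) (m + 1) := by
  induction m with
  | zero =>
    intro N _ _ _ _ h
    have h1 : Projective (ModuleCat.of (R ⧸ Ideal.span {x}) N) :=
      (projective_iff_hasProjectiveDimensionLE_zero _).2 h
    have h2 : Module.Projective (R ⧸ Ideal.span {x}) N :=
      (IsProjective.iff_projective (ModuleCat.of (R ⧸ Ideal.span {x}) N)).2 h1
    obtain ⟨s, hs⟩ := h2.out
    let p : (N →₀ R ⧸ Ideal.span {x}) →ₗ[R] N :=
      (Finsupp.linearCombination (R ⧸ Ideal.span {x}) (id : N → N)).restrictScalars R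
    let s' : N →ₗ[R] (N →₀ R ⧸ Ideal.span {x}) := s.restrictScalars R
    have hps : p ∘ₗ s' = LinearMap.id := by
      ext v
      exact hs v
    have ret : Retract (ModuleCat.of R N) (ModuleCat.of R (N →₀ R ⧸ Ideal.span {x})) :=
      { i := ModuleCat.ofHom s'
        r := ModuleCat.ofHom p
        retract := by
          rw [← ModuleCat.ofHom_comp, hps]
          rfl }
    have h3 := pd_free x hreg N
    exact ret.hasProjectiveDimensionLT 2
  | succ m ih =>
    intro N _ _ _ _ h
    let f : (N →₀ R ⧸ Ideal.span {x}) →ₗ[R ⧸ Ideal.span {x}] N :=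
      Finsupp.linearCombination (R ⧸ Ideal.span {x}) (id : N → N)
    have hf : Function.Surjective f := by
      intro v
      exact ⟨Finsupp.single v 1, by simp [f]⟩
    let S : ShortComplex (ModuleCat.{u} (R ⧸ Ideal.span {x})) := f.shortComplexKer
    have hS : S.ShortExact := LinearMap.shortExact_shortComplexKer hf
    have hX2 : Projective S.X₂ := by
      show Projective (ModuleCat.of (R ⧸ Ideal.span {x}) (N →₀ R ⧸ Ideal.span {x}))
      infer_instance
    have h1 : HasProjectiveDimensionLE (ModuleCat.of (R ⧸ Ideal.span {x}) (LinearMap.ker f)) m :=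
      (hS.hasProjectiveDimensionLT_X₃_iff m hX2).1 h
    have h2 := ih (LinearMap.ker f) h1
    -- over `R`
    let f' : (N →₀ R ⧸ Ideal.span {x}) →ₗ[R] N := f.restrictScalars R
    let S' : ShortComplex (ModuleCat.{u} R) := f'.shortComplexKer
    have hS' : S'.ShortExact := LinearMap.shortExact_shortComplexKer (f := f') hf
    let E : LinearMap.ker f ≃ₗ[R] LinearMap.ker f' :=
      { toFun := fun v => ⟨v.1, v.2⟩
        invFun := fun v => ⟨v.1, v.2⟩
        map_add' := fun _ _ => rfl
        map_smul' := fun _ _ => rfl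
        left_inv := fun _ => rfl
        right_inv := fun _ => rfl }
    have h3 : HasProjectiveDimensionLE (ModuleCat.of R (LinearMap.ker f')) (m + 1) :=
      ModuleCat.hasProjectiveDimensionLE_of_linearEquiv (M := ModuleCat.of R (LinearMap.ker f)) E (m + 1)
    have h4 : HasProjectiveDimensionLT (ModuleCat.of R (N →₀ R ⧸ Ideal.span {x})) 2 :=
      pd_free x hreg N
    have h5 : HasProjectiveDimensionLT (ModuleCat.of R (N →₀ R ⧸ Ideal.span {x})) (m + 2 + 1) :=
      hasProjectiveDimensionLT_of_ge _ 2 (m + 2 + 1) (by omega)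
    exact hS'.hasProjectiveDimensionLT_X₃ (m + 2) h3 h5

end

theorem pd_of_quot {R : Type u} [CommRing R] [IsLocalRing R] [IsNoetherianRing R] (x : R)
    (hx : x ∈ IsLocalRing.maximalIdeal R) (hreg : IsSMulRegular R x)
    (K : Type u) [AddCommGroup K] [Module R K] [Module.Finite R K] (hK : IsSMulRegular K x) (m : ℕ)
    (hpd : HasProjectiveDimensionLE
      (ModuleCat.of (R ⧸ Ideal.span {x}) (K ⧸ (Ideal.span {x} • (⊤ : Submodule R K)))) m) :
    HasProjectiveDimensionLE (ModuleCat.of R K) m := by
  have h1 := pd_restrict x hreg m (K ⧸ (Ideal.span {x} • (⊤ : Submodule R K))) hpd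
  have h2 : HasProjectiveDimensionLE (ModuleCat.of R (QuotSMulTop x K)) (m + 1) := by
    have E : (K ⧸ (Ideal.span {x} • (⊤ : Submodule R K))) ≃ₗ[R] QuotSMulTop x K :=
      Submodule.quotEquivOfEq _ _ (Submodule.ideal_span_singleton_smul x ⊤)
    exact ModuleCat.hasProjectiveDimensionLE_of_linearEquiv
      (M := ModuleCat.of R (K ⧸ (Ideal.span {x} • (⊤ : Submodule R K)))) E (m + 1)
  have h3 := ModuleCat.projectiveDimension_quotSMulTop_eq_succ_of_isSMulRegular (ModuleCat.of R K) x hK hx
  have h4 := (projectiveDimension_le_iff (ModuleCat.of R (QuotSMulTop x K)) (m + 1)).2 h2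
  rw [← projectiveDimension_le_iff]
  have h5 : projectiveDimension (ModuleCat.of R K) + 1 ≤ ((m + 1 : ℕ) : WithBot ℕ∞) := by
    rw [← h3]
    exact h4
  rw [Nat.cast_add, Nat.cast_one] at h5
  have h6 : projectiveDimension (ModuleCat.of R K) + ((1 : ℕ) : WithBot ℕ∞) ≤ (m : WithBot ℕ∞) + ((1 : ℕ) : WithBot ℕ∞) := by
    rw [Nat.cast_one]
    exact h5
  rwa [ENat.WithBot.add_le_add_natCast_right_iff] at h6

private theorem pd_regular_aux (m : ℕ) : ∀ (R : Type u) [CommRing R] [IsLocalRing R] [IsNoetherianRing R]
    (x : Fin m → R), Ideal.span (Set.range x) = IsLocalRing.maximalIdeal R →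
    RingTheory.Sequence.IsRegular R (List.ofFn x) →
    ∀ (M : Type u) [AddCommGroup M] [Module R M] [Module.Finite R M],
    HasProjectiveDimensionLE (ModuleCat.of R M) m := by
  induction m with
  | zero =>
    intro R _ _ _ x hx _ M _ _ _
    have h1 : IsLocalRing.maximalIdeal R = ⊥ := by
      rw [← hx, Set.range_eq_empty, Ideal.span_empty]
    have h2 : IsField R := IsLocalRing.isField_iff_maximalIdeal_eq.2 h1
    have h3 : Module.Projective R M := by
      let _ := h2.toField
      have : Module.Free R M := Module.Free.of_divisionRing R M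
      infer_instance
    have h4 : Projective (ModuleCat.of R M) := inferInstance
    exact (projective_iff_hasProjectiveDimensionLE_zero _).1 h4
  | succ m ih =>
    intro R _ _ _ x hx hreg M _ _ _
    rw [List.ofFn_succ, RingTheory.Sequence.isRegular_cons_iff'] at hreg
    obtain ⟨hr0, hr1⟩ := hreg
    have hx0 : x 0 ∈ IsLocalRing.maximalIdeal R := by
      rw [← hx]
      exact Ideal.subset_span ⟨0, rfl⟩
    have hne : Ideal.span {x 0} ≠ ⊤ := by
      intro h
      have h1 : Ideal.span {x 0} ≤ IsLocalRing.maximalIdeal R := by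
        rw [Ideal.span_le]
        rintro _ rfl
        exact hx0
      rw [h, top_le_iff] at h1
      exact (IsLocalRing.maximalIdeal.isMaximal R).ne_top h1
    have : Nontrivial (R ⧸ Ideal.span {x 0}) := Ideal.Quotient.nontrivial_iff.2 hne
    have : IsLocalRing (R ⧸ Ideal.span {x 0}) :=
      IsLocalRing.of_surjective' (Ideal.Quotient.mk (Ideal.span {x 0})) Ideal.Quotient.mk_surjective
    obtain ⟨r, p, hp⟩ := Module.Finite.exists_fin' R M
    let S : ShortComplex (ModuleCat.{u} R) := p.shortComplexKer
    have hS : S.ShortExact := LinearMap.shortExact_shortComplexKer hp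
    have h2 : HasProjectiveDimensionLT S.X₂ (m + 2) := by
      have h1 : Projective (ModuleCat.of R (Fin r → R)) := inferInstance
      have h3 : HasProjectiveDimensionLT (ModuleCat.of R (Fin r → R)) 1 := inferInstance
      exact hasProjectiveDimensionLT_of_ge _ 1 (m + 2) (by omega)
    have hK : IsSMulRegular (LinearMap.ker p) (x 0) := by
      intro u v huv
      apply Subtype.ext
      funext j
      exact hr0 (congrFun (congrArg Subtype.val huv) j)
    -- the images of the other elements
    have hx' : Ideal.span (Set.range fun i : Fin m => Ideal.Quotient.mk (Ideal.span {x 0}) (x i.succ))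
        = IsLocalRing.maximalIdeal (R ⧸ Ideal.span {x 0}) := by
      rw [← IsLocalRing.map_maximalIdeal_of_surjective (Ideal.Quotient.mk (Ideal.span {x 0}))
        Ideal.Quotient.mk_surjective, ← hx, Ideal.map_span]
      apply le_antisymm
      · rw [Ideal.span_le]
        rintro _ ⟨i, rfl⟩
        exact Ideal.subset_span ⟨x i.succ, ⟨i.succ, rfl⟩, rfl⟩
      · rw [Ideal.span_le]
        rintro _ ⟨_, ⟨i, rfl⟩, rfl⟩
        refine Fin.cases ?_ ?_ i
        · have h0 : Ideal.Quotient.mk (Ideal.span {x 0}) (x 0) = 0 :=
            Ideal.Quotient.eq_zero_iff_mem.2 (Ideal.mem_span_singleton_self _)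
          rw [h0]
          exact Ideal.zero_mem _
        · intro j
          exact Ideal.subset_span ⟨j, rfl⟩
    have hreg' : RingTheory.Sequence.IsRegular (R ⧸ Ideal.span {x 0})
        (List.ofFn fun i : Fin m => Ideal.Quotient.mk (Ideal.span {x 0}) (x i.succ)) := by
      rw [List.map_ofFn] at hr1
      have e1 : QuotSMulTop (x 0) R ≃ₗ[R] (R ⧸ Ideal.span {x 0}) :=
        Submodule.quotEquivOfEq _ _ (by
          rw [← Submodule.ideal_span_singleton_smul, smul_eq_mul, Ideal.mul_top])
      have e2 : QuotSMulTop (x 0) R ≃ₗ[R ⧸ Ideal.span {x 0}] (R ⧸ Ideal.span {x 0}) :=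
        LinearEquiv.extendScalarsOfSurjective (R := R) Ideal.Quotient.mk_surjective e1
      exact (LinearEquiv.isRegular_congr e2 _).1 hr1
    have : Module.Finite (R ⧸ Ideal.span {x 0})
        (LinearMap.ker p ⧸ (Ideal.span {x 0} • (⊤ : Submodule R (LinearMap.ker p)))) :=
      Module.Finite.of_restrictScalars_finite R _ _
    have h1 : HasProjectiveDimensionLE (ModuleCat.of R (LinearMap.ker p)) m := by
      refine pd_of_quot (x 0) hx0 hr0 (LinearMap.ker p) hK m ?_
      exact ih (R ⧸ Ideal.span {x 0}) (fun i => Ideal.Quotient.mk (Ideal.span {x 0}) (x i.succ)) hx' hreg'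
        (LinearMap.ker p ⧸ (Ideal.span {x 0} • (⊤ : Submodule R (LinearMap.ker p))))
    exact hS.hasProjectiveDimensionLT_X₃ (m + 1) h1 h2

theorem pd_regular {R : Type u} [CommRing R] [IsLocalRing R] [IsNoetherianRing R] {m : ℕ}
    (x : Fin m → R) (hx : Ideal.span (Set.range x) = IsLocalRing.maximalIdeal R)
    (hreg : RingTheory.Sequence.IsRegular R (List.ofFn x))
    (M : Type u) [AddCommGroup M] [Module R M] [Module.Finite R M] :
    HasProjectiveDimensionLE (ModuleCat.of R M) m :=
  pd_regular_aux m R x hx hreg M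

end Pool.Agent.HT21
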