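import Mathlib

/-!
# The four term sequence over a hypersurface

`B → Q` surjective with kernel `(h)`, `h` a nonzerodivisor, `W` a finitely generated `Q`-module with
`pd_B W ≤ 1`.  Choose `L = B^r → W` surjective with kernel `K`, a projective `B`-module
(`ShortExact.hasProjectiveDimensionLT_X₃_iff`); `h L ≤ K`.  Then
`0 → W → K/hK → L/hL → W → 0` is exact over `Q`
(the first map is multiplication by `h`: `W = L/K → K/hK`), with projective middle terms.

Derivations: for a derivation `δ` of `B`, multiplication by `δ(h)` on `W` factors through `α`.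
`φ : K → L` the inclusion, `ψ : L → K` with `φ ψ = h`, `ψ φ = h`.  On a
projective `B`-module `P` there is an additive `∇ : P → P` with `∇(b x) = δ(b) x + b ∇ x` (for a direct
summand of a free module compress the coordinatewise `δ`).  `δφ := ∇_L φ - φ ∇_K` is `B`-linear
`K → L`, `δψ := ∇_K ψ - ψ ∇_L` is `B`-linear `L → K`, and
`δφ ψ + φ δψ = [∇_L, h] = δ(h)`.  So multiplication by `δ(h)` on `W = L/φK` is
`x ↦ δφ (ψ x)` modulo `φ K`: it is `ε ∘ α` with `ε : K/hK → W`, `κ ↦ δφ κ`
(well defined, `δφ (h κ) = h δφ κ ∈ h L ≤ K`).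
-/

universe u

namespace Pool.Agent.HT21

open CategoryTheory

open scoped TensorProduct

section prelim

private lemma ft_nabla {B : Type u} [CommRing B] (K : Type u) [AddCommGroup K] [Module B K]
    [Module.Projective B K] (δ : Derivation ℤ B B) :
    ∃ D : K →+ K, ∀ (b : B) (x : K), D (b • x) = δ b • x + b • D x := by
  obtain ⟨s, hs⟩ := Module.projective_def'.mp (inferInstance : Module.Projective B K)
  refine ⟨(Finsupp.linearCombination B id).toAddMonoidHom.comp
    ((Finsupp.mapRange.addMonoidHom ((δ : B →ₗ[ℤ] B).toAddMonoidHom)).comp s.toAddMonoidHom), ?_⟩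
  intro b x
  have key : ∀ f : K →₀ B, Finsupp.mapRange.addMonoidHom ((δ : B →ₗ[ℤ] B).toAddMonoidHom) (b • f)
      = δ b • f + b • Finsupp.mapRange.addMonoidHom ((δ : B →ₗ[ℤ] B).toAddMonoidHom) f := by
    intro f
    ext i
    simp only [Finsupp.mapRange.addMonoidHom_apply, Finsupp.mapRange_apply, Finsupp.coe_smul,
      Finsupp.coe_add, Pi.add_apply, Pi.smul_apply, smul_eq_mul]
    have := δ.leibniz b (f i)
    simp only [smul_eq_mul] at this
    show δ (b * f i) = δ b * f i + b * δ (f i)
    rw [this]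
    ring
  have hs' : ∀ y, Finsupp.linearCombination B id (s y) = y := fun y => by
    have := LinearMap.congr_fun hs y
    simpa using this
  simp only [AddMonoidHom.comp_apply, LinearMap.toAddMonoidHom_coe, map_smul]
  rw [key]
  rw [map_add, map_smul, map_smul, hs']

private lemma ft_surj {B Q : Type u} [CommRing B] [CommRing Q] [Algebra B Q]
    (hsurj : Function.Surjective (algebraMap B Q)) (N : Type u) [AddCommGroup N] [Module B N]
    (t : Q ⊗[B] N) : ∃ x : N, t = (1 : Q) ⊗ₜ[B] x := by
  induction t using TensorProduct.induction_on with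
  | zero => exact ⟨0, by simp⟩
  | tmul q x =>
    obtain ⟨b, rfl⟩ := hsurj q
    refine ⟨b • x, ?_⟩
    rw [TensorProduct.tmul_smul, TensorProduct.smul_tmul', Algebra.smul_def, mul_one]
  | add a b ha hb =>
    obtain ⟨x, hx⟩ := ha
    obtain ⟨y, hy⟩ := hb
    exact ⟨x + y, by rw [hx, hy, TensorProduct.tmul_add]⟩

private lemma ft_zero {B Q : Type u} [CommRing B] [CommRing Q] [Algebra B Q]
    (hsurj : Function.Surjective (algebraMap B Q)) (h : B)
    (hker : RingHom.ker (algebraMap B Q) = Ideal.span {h}) (N : Type u) [AddCommGroup N]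
    [Module B N] (x : N) (hx : (1 : Q) ⊗ₜ[B] x = 0) : ∃ y : N, x = h • y := by
  let e1 : (B ⧸ RingHom.ker (Algebra.ofId B Q)) ≃ₐ[B] Q :=
    Ideal.quotientKerAlgEquivOfSurjective (f := Algebra.ofId B Q) hsurj
  have h2 : RingHom.ker (Algebra.ofId B Q) = Ideal.span {h} := hker
  let e2 : (B ⧸ RingHom.ker (Algebra.ofId B Q)) ≃ₐ[B] (B ⧸ Ideal.span {h}) :=
    Ideal.quotientEquivAlgOfEq B h2
  let g : Q →ₗ[B] (B ⧸ Ideal.span {h}) := (e1.symm.trans e2).toLinearMap
  have hg : g 1 = 1 := map_one (e1.symm.trans e2)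
  have h3 : (LinearMap.rTensor N g) ((1 : Q) ⊗ₜ[B] x) = 0 := by rw [hx, map_zero]
  rw [LinearMap.rTensor_tmul, hg] at h3
  have h4 := congrArg (TensorProduct.quotTensorEquivQuotSMul N (Ideal.span {h})) h3
  rw [map_zero, show (1 : B ⧸ Ideal.span {h}) = Ideal.Quotient.mk _ 1 from rfl,
    TensorProduct.quotTensorEquivQuotSMul_mk_tmul, one_smul, Submodule.Quotient.mk_eq_zero,
    Submodule.ideal_span_singleton_smul, Submodule.mem_smul_pointwise_iff_exists] at h4
  obtain ⟨y, -, hy⟩ := h4
  exact ⟨y, hy.symm⟩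

end prelim

section

variable {B Q : Type u} [CommRing B] [CommRing Q] [Algebra B Q] [IsNoetherianRing B]
  (hsurj : Function.Surjective (algebraMap B Q)) (h : B)
  (hker : RingHom.ker (algebraMap B Q) = Ideal.span {h}) (hreg : h ∈ nonZeroDivisors B)

include hsurj hker hreg

/-- The four term sequence, together with the factorization of `δ(h)`. -/
theorem four_term (W : Type u) [AddCommGroup W] [Module Q W] [Module B W] [IsScalarTower B Q W]
    [Module.Finite Q W] (hpd : HasProjectiveDimensionLE (ModuleCat.of B W) 1) :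
    ∃ (P₁ P₀ : Type u) (_ : AddCommGroup P₁) (_ : Module Q P₁) (_ : Module.Projective Q P₁)
      (_ : AddCommGroup P₀) (_ : Module Q P₀) (_ : Module.Projective Q P₀)
      (α : W →ₗ[Q] P₁) (β : P₁ →ₗ[Q] P₀) (γ : P₀ →ₗ[Q] W),
      Function.Injective α ∧ Function.Exact α β ∧ Function.Exact β γ ∧ Function.Surjective γ ∧
      ∀ δ : Derivation ℤ B B, ∃ ε : P₁ →ₗ[Q] W, ∀ w, ε (α w) = algebraMap B Q (δ h) • w := by
  have hW : ∀ w : W, h • w = 0 := fun w => by
    have : algebraMap B Q h = 0 := by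
      have : h ∈ RingHom.ker (algebraMap B Q) := by
        rw [hker]; exact Ideal.mem_span_singleton_self h
      exact this
    rw [← algebraMap_smul Q h w, this, zero_smul]
  -- the presentation
  let L : Type u := W →₀ B
  let π : L →ₗ[B] W := Finsupp.linearCombination B id
  have hπ : Function.Surjective π := fun w => ⟨Finsupp.single w 1, by
    show Finsupp.linearCombination B id (Finsupp.single w (1 : B)) = w
    rw [Finsupp.linearCombination_single, id, one_smul]⟩
  let K : Submodule B L := LinearMap.ker π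
  have hKproj : Module.Projective B K := by
    have hS := LinearMap.shortExact_shortComplexKer hπ
    have h2 : Projective (π.shortComplexKer).X₂ := by
      have : Module.Projective B L := inferInstance
      exact (IsProjective.iff_projective (R := B) L).mp this
    have h1 : HasProjectiveDimensionLT (π.shortComplexKer).X₃ 2 := hpd
    have h3 := (hS.hasProjectiveDimensionLT_X₃_iff 0 h2).mp h1
    have h4 : Projective (ModuleCat.of B K) := by
      rw [projective_iff_hasProjectiveDimensionLT_one]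
      exact h3
    exact (IsProjective.iff_projective (R := B) K).mpr h4
  have hreg' : ∀ x y : L, h • x = h • y → x = y := by
    intro x y hxy
    ext i
    have := DFunLike.congr_fun hxy i
    exact (mul_cancel_left_mem_nonZeroDivisors hreg).mp this
  let ψ : L →ₗ[B] K := LinearMap.codRestrict K (h • LinearMap.id) (fun l => by
    show π (h • l) = 0
    rw [map_smul, hW])
  have hψ : ∀ l, ((ψ l : K) : L) = h • l := fun l => rfl
  have hψK : ∀ κ : K, ψ (κ : L) = h • κ := fun κ => rfl
  have hh0 : ∀ (N : Type u) [AddCommGroup N] [Module B N] (x : N),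
      (1 : Q) ⊗ₜ[B] (h • x) = 0 := by
    intro N _ _ x
    rw [TensorProduct.tmul_smul, TensorProduct.smul_tmul', Algebra.smul_def, mul_one]
    have : algebraMap B Q h = 0 := by
      have : h ∈ RingHom.ker (algebraMap B Q) := by
        rw [hker]; exact Ideal.mem_span_singleton_self h
      exact this
    rw [this, TensorProduct.zero_tmul]
  -- the map alpha
  let ι : L →ₗ[B] Q ⊗[B] K := (TensorProduct.mk B Q K 1) ∘ₗ ψ
  have hιK : LinearMap.ker π ≤ LinearMap.ker ι := by
    intro κ hκ
    show (1 : Q) ⊗ₜ[B] (ψ κ) = 0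
    rw [show ψ κ = h • (⟨κ, hκ⟩ : K) from hψK ⟨κ, hκ⟩]
    exact hh0 K _
  let α0 : W →ₗ[B] Q ⊗[B] K :=
    ((LinearMap.ker π).liftQ ι hιK) ∘ₗ (π.quotKerEquivOfSurjective hπ).symm.toLinearMap
  have hα0 : ∀ l, α0 (π l) = (1 : Q) ⊗ₜ[B] (ψ l) := by
    intro l
    have : (π.quotKerEquivOfSurjective hπ).symm (π l) = Submodule.Quotient.mk l := by
      rw [LinearEquiv.symm_apply_eq]
      rfl
    show ((LinearMap.ker π).liftQ ι hιK) ((π.quotKerEquivOfSurjective hπ).symm (π l)) = _
    rw [this]
    rfl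
  let α : W →ₗ[Q] Q ⊗[B] K :=
    { toFun := α0
      map_add' := α0.map_add
      map_smul' := by
        intro q w
        obtain ⟨b, rfl⟩ := hsurj q
        simp only [RingHom.id_apply, algebraMap_smul]
        exact α0.map_smul b w }
  have hα : ∀ l, α (π l) = (1 : Q) ⊗ₜ[B] (ψ l) := hα0
  let β : Q ⊗[B] K →ₗ[Q] Q ⊗[B] L := LinearMap.baseChange Q K.subtype
  have hβ : ∀ κ : K, β ((1 : Q) ⊗ₜ[B] κ) = (1 : Q) ⊗ₜ[B] (κ : L) := fun κ => rfl
  let γ : Q ⊗[B] L →ₗ[Q] W := LinearMap.liftBaseChange Q π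
  have hγ : ∀ l : L, γ ((1 : Q) ⊗ₜ[B] l) = π l := fun l => by simp [γ]
  refine ⟨Q ⊗[B] K, Q ⊗[B] L, inferInstance, inferInstance, inferInstance, inferInstance,
    inferInstance, inferInstance, α, β, γ, ?_, ?_, ?_, ?_, ?_⟩
  · rw [injective_iff_map_eq_zero]
    intro w hw
    obtain ⟨l, rfl⟩ := hπ w
    rw [hα] at hw
    obtain ⟨y, hy⟩ := ft_zero hsurj h hker K _ hw
    have h5 : h • l = h • (y : L) := by
      rw [← hψ l, hy]; rfl
    rw [hreg' _ _ h5]
    exact y.2
  · intro t
    obtain ⟨κ, rfl⟩ := ft_surj hsurj K t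
    rw [hβ]
    constructor
    · intro h0
      obtain ⟨l, hl⟩ := ft_zero hsurj h hker L _ h0
      refine ⟨π l, ?_⟩
      rw [hα]
      congr 1
      exact Subtype.ext ((hψ l).trans hl.symm)
    · rintro ⟨w, hw⟩
      obtain ⟨l, rfl⟩ := hπ w
      rw [hα] at hw
      rw [← hβ, ← hw, hβ, hψ]
      exact hh0 L l
  · intro t
    obtain ⟨l, rfl⟩ := ft_surj hsurj L t
    rw [hγ]
    constructor
    · intro h0
      exact ⟨(1 : Q) ⊗ₜ[B] (⟨l, h0⟩ : K), hβ _⟩
    · rintro ⟨s, hs⟩
      obtain ⟨κ, rfl⟩ := ft_surj hsurj K s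
      rw [hβ] at hs
      rw [← hγ, ← hs, hγ]
      exact κ.2
  · intro w
    obtain ⟨l, rfl⟩ := hπ w
    exact ⟨(1 : Q) ⊗ₜ[B] l, hγ l⟩
  · intro δ
    obtain ⟨DK, hDK⟩ := ft_nabla K δ
    obtain ⟨DL, hDL⟩ := ft_nabla L δ
    let E : K →ₗ[B] L :=
      { toFun := fun κ => DL (κ : L) - (DK κ : L)
        map_add' := by
          intro x y
          simp only [Submodule.coe_add, map_add]
          abel
        map_smul' := by
          intro b x
          simp only [RingHom.id_apply, Submodule.coe_smul, hDL, hDK, Submodule.coe_add, smul_sub]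
          abel }
    refine ⟨LinearMap.liftBaseChange Q (π ∘ₗ E), ?_⟩
    intro w
    obtain ⟨l, rfl⟩ := hπ w
    rw [hα, LinearMap.liftBaseChange_tmul, one_smul]
    show π (DL ((ψ l : K) : L) - (DK (ψ l) : L)) = _
    rw [map_sub, hψ, hDL, map_add, map_smul, map_smul, hW, add_zero,
      show π ((DK (ψ l) : K) : L) = 0 from (DK (ψ l)).2, sub_zero, algebraMap_smul]

end

end Pool.Agent.HT21
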