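import Pool.Agent.HT21.TorMat

/-!
# Resolutions by matrices exist over Noetherian rings; Tor is finitely generated

`exists_matRes`: recursively choose finite generating systems of the syzygy modules (submodules
of `Fin r → R`).  `tor_finite`: the modules in `torLen_matRes` are subquotients of `Fin r → W`;
use the same identification (not only the equality of lengths), or any other argument (for
instance: `TorMod` is the homology of `W ⊗ P` for a resolution `P` by finite free modules).
-/

universe u

namespace Pool.Agent.HT21

open CategoryTheory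

/-! ### matrices -/

private lemma torFin_range {R : Type u} [CommRing R] {r n : ℕ} (c : Fin n → (Fin r → R)) :
    LinearMap.range (mact (Matrix.of fun k l => c l k) R) = Submodule.span R (Set.range c) := by
  have h : ∀ x : Fin n → R, mact (Matrix.of fun k l => c l k) R x = ∑ l, x l • c l := by
    intro x
    funext k
    rw [mact_apply, Finset.sum_apply]
    refine Finset.sum_congr rfl fun l _ => ?_
    rw [Matrix.of_apply, Pi.smul_apply, smul_eq_mul, smul_eq_mul, mul_comm]
  ext y
  rw [LinearMap.mem_range, Submodule.mem_span_range_iff_exists_fun]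
  exact ⟨fun ⟨x, hx⟩ => ⟨x, by rw [← h, hx]⟩, fun ⟨x, hx⟩ => ⟨x, by rw [h, hx]⟩⟩

private lemma torFin_gen {R : Type u} [CommRing R] [IsNoetherianRing R] (r : ℕ)
    (S : Submodule R (Fin r → R)) :
    ∃ (n : ℕ) (D : Matrix (Fin r) (Fin n) R), LinearMap.range (mact D R) = S := by
  obtain ⟨n, c, hc⟩ := Submodule.fg_iff_exists_fin_generating_family.1
    (IsNoetherian.noetherian S)
  exact ⟨n, _, (torFin_range c).trans hc⟩

/-- Over a Noetherian ring every finitely generated module has a resolution by matrices. -/
theorem exists_matRes (R : Type u) [CommRing R] [IsNoetherianRing R] (V : Type u) [AddCommGroup V]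
    [Module R V] [Module.Finite R V] : Nonempty (MatRes R V) := by
  choose n D hD using fun (r : ℕ) (S : Submodule R (Fin r → R)) => torFin_gen r S
  obtain ⟨r0, e, he⟩ := Module.Finite.exists_fin (R := R) (M := V)
  let S0 : Submodule R (Fin r0 → R) := LinearMap.ker (Fintype.linearCombination R e)
  let st : ℕ → Σ r : ℕ, Submodule R (Fin r → R) := fun i =>
    Nat.rec ⟨r0, S0⟩ (fun _ p => ⟨n p.1 p.2, LinearMap.ker (mact (D p.1 p.2) R)⟩) i
  refine ⟨⟨fun i => (st i).1, fun i => D (st i).1 (st i).2, e, fun v => ?_, fun c => ?_,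
    fun i c => ?_⟩⟩
  · have hv : v ∈ Submodule.span R (Set.range e) := by rw [he]; trivial
    exact (Submodule.mem_span_range_iff_exists_fun R).1 hv
  · have h : c ∈ S0 ↔ ∑ k, c k • e k = 0 := by
      rw [LinearMap.mem_ker, Fintype.linearCombination_apply]
      exact Iff.rfl
    rw [← h, ← hD r0 S0]
    rfl
  · have h : c ∈ LinearMap.ker (mact (D (st i).1 (st i).2) R) ↔ ∃ c',
        mact (D (st (i + 1)).1 (st (i + 1)).2) R c' = c := by
      rw [← LinearMap.mem_range, hD (st (i + 1)).1 (st (i + 1)).2]
    rw [← h, LinearMap.mem_ker]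

/-! ### the resolution -/

section

variable {R : Type u} [CommRing R] {V : Type u} [AddCommGroup V] [Module R V]

private lemma torFin_dd (P : MatRes R V) (n : ℕ) (c : Fin (P.r (n + 2)) → R) :
    mact (P.D n) R (mact (P.D (n + 1)) R c) = 0 :=
  (P.ex n _).2 ⟨c, rfl⟩

private noncomputable def torFin_cx (P : MatRes R V) : ChainComplex (ModuleCat.{u} R) ℕ :=
  ChainComplex.of (fun n => ModuleCat.of R (Fin (P.r n) → R))
    (fun n => ModuleCat.ofHom (mact (P.D n) R)) fun n => by
      refine ModuleCat.hom_ext (LinearMap.ext fun c => ?_)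
      exact torFin_dd P n c

private noncomputable def torFin_aug (P : MatRes R V) :
    ModuleCat.of R (Fin (P.r 0) → R) ⟶ ModuleCat.of R V :=
  ModuleCat.ofHom (Fintype.linearCombination R P.e)

private lemma torFin_d (P : MatRes R V) (n : ℕ) :
    (torFin_cx P).d (n + 1) n = ModuleCat.ofHom (mact (P.D n) R) :=
  ChainComplex.of_d (fun n => ModuleCat.of R (Fin (P.r n) → R))
    (fun n => ModuleCat.ofHom (mact (P.D n) R)) n

private lemma torFin_d_aug (P : MatRes R V) :
    ModuleCat.ofHom (mact (P.D 0) R) ≫ torFin_aug P = 0 := by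
  refine ModuleCat.hom_ext (LinearMap.ext fun c => ?_)
  have h := (P.ex0 (mact (P.D 0) R c)).2 ⟨c, rfl⟩
  show Fintype.linearCombination R P.e (mact (P.D 0) R c) = 0
  rw [Fintype.linearCombination_apply]
  exact h

private lemma torFin_exact0 (P : MatRes R V) :
    (ShortComplex.mk (ModuleCat.ofHom (mact (P.D 0) R)) (torFin_aug P) (torFin_d_aug P)).Exact := by
  rw [ShortComplex.moduleCat_exact_iff]
  intro x hx
  have h1 : ∑ k, x k • P.e k = 0 := by
    have h2 : Fintype.linearCombination R P.e x = 0 := hx
    rw [Fintype.linearCombination_apply] at h2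
    exact h2
  obtain ⟨c, hc⟩ := (P.ex0 x).1 h1
  exact ⟨c, hc⟩

private lemma torFin_epi (P : MatRes R V) : Epi (torFin_aug P) := by
  rw [ModuleCat.epi_iff_surjective]
  intro v
  obtain ⟨c, hc⟩ := P.surj v
  refine ⟨c, ?_⟩
  show Fintype.linearCombination R P.e c = v
  rw [Fintype.linearCombination_apply]
  exact hc

private lemma torFin_exactAt (P : MatRes R V) (n : ℕ) : (torFin_cx P).ExactAt (n + 1) := by
  rw [HomologicalComplex.exactAt_iff' _ (n + 1 + 1) (n + 1) n (by simp) (by simp),
    ShortComplex.moduleCat_exact_iff]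
  intro x hx
  have h1 : ((torFin_cx P).d (n + 1) n) x = 0 := hx
  rw [torFin_d] at h1
  obtain ⟨c, hc⟩ := (P.ex n x).1 h1
  refine ⟨c, ?_⟩
  show ((torFin_cx P).d (n + 1 + 1) (n + 1)) c = x
  rw [torFin_d]
  exact hc

private instance torFin_proj (P : MatRes R V) (n : ℕ) : Projective ((torFin_cx P).X n) :=
  (IsProjective.iff_projective (R := R) (Fin (P.r n) → R)).1 inferInstance

set_option backward.defeqAttrib.useBackward true in
set_option backward.isDefEq.respectTransparency false in
private noncomputable def torFin_res (P : MatRes R V) :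
    ProjectiveResolution (ModuleCat.of R V) where
  complex := torFin_cx P
  π := (ChainComplex.toSingle₀Equiv _ _).symm ⟨torFin_aug P, by
    rw [torFin_d]
    exact torFin_d_aug P⟩
  quasiIso := ⟨fun n => by
    cases n
    · rw [ChainComplex.quasiIsoAt₀_iff, ShortComplex.quasiIso_iff_of_zeros']
      · dsimp
        refine (ShortComplex.exact_and_epi_g_iff_of_iso ?_).2
          ⟨torFin_exact0 P, by dsimp; exact torFin_epi P⟩
        exact ShortComplex.isoMk (Iso.refl _) (Iso.refl _) (Iso.refl _)
          (by simp only [Iso.refl_hom, Category.id_comp, Category.comp_id]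
              exact (torFin_d P 0).symm) (by simp)
      all_goals rfl
    · rw [quasiIsoAt_iff_exactAt']
      · apply torFin_exactAt
      · apply ChainComplex.exactAt_succ_single_obj⟩

end

/-- Tor of finitely generated modules over a Noetherian ring is finitely generated. -/
theorem tor_finite (R : Type u) [CommRing R] [IsNoetherianRing R] (W V : Type u) [AddCommGroup W]
    [Module R W] [AddCommGroup V] [Module R V] [Module.Finite R W] [Module.Finite R V] (i : ℕ) :
    Module.Finite R (TorMod R (i + 1) W V) := by
  obtain ⟨P⟩ := exists_matRes R V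
  let F : ModuleCat.{u} R ⥤ ModuleCat.{u} R :=
    (MonoidalCategory.tensoringLeft (ModuleCat.{u} R)).obj (ModuleCat.of R W)
  let K : ChainComplex (ModuleCat.{u} R) ℕ := (F.mapHomologicalComplex _).obj (torFin_cx P)
  have hX : ∀ n, IsNoetherian R (K.X n) := fun n => by
    have h1 : Module.Finite R (TensorProduct R W (Fin (P.r n) → R)) := inferInstance
    have h2 : IsNoetherian R (TensorProduct R W (Fin (P.r n) → R)) := inferInstance
    exact h2
  have hK : Module.Finite R (K.homology (i + 1)) := by
    have h1 : Function.Injective (K.iCycles (i + 1)) :=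
      (ModuleCat.mono_iff_injective _).1 inferInstance
    have h2 : Function.Surjective (K.homologyπ (i + 1)) :=
      (ModuleCat.epi_iff_surjective _).1 inferInstance
    have := hX (i + 1)
    have h3 : IsNoetherian R (K.cycles (i + 1)) :=
      isNoetherian_of_injective (K.iCycles (i + 1)).hom h1
    exact Module.Finite.of_surjective (K.homologyπ (i + 1)).hom h2
  have e : TorMod R (i + 1) W V ≃ₗ[R] K.homology (i + 1) :=
    ((torFin_res P).isoLeftDerivedObj F (i + 1)).toLinearEquiv
  exact Module.Finite.equiv e.symm

end Pool.Agent.HT21
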