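import Pool.Agent.HT21.TorPd
import Pool.Agent.HT21.FourTerm
import Pool.Agent.HT21.TorFin

/-!
# Periodicity and annihilation of Tor over a hypersurface

`per_of_four_term`: two applications of `tor_shift` (with the image of `β`), `torLen_projective`.
`per`: `syz_pd_one`, `four_term`, `per_of_four_term`.  `jac`: `syz_pd_one` (isomorphism), `four_term`,
`tor_smul_zero`.  `torLen_ne_top`: Tor is finitely generated (`tor_finite`) and killed by the ideal
of the derivatives, whose quotient has finite length.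
-/

universe u

namespace Pool.Agent.HT21

open CategoryTheory

/-- Periodicity for modules with a four term sequence. -/
theorem per_of_four_term {Q : Type u} [CommRing Q] (W V : Type u) [AddCommGroup W] [Module Q W]
    [AddCommGroup V] [Module Q V] {P₁ P₀ : Type u} [AddCommGroup P₁] [Module Q P₁]
    [Module.Projective Q P₁] [AddCommGroup P₀] [Module Q P₀] [Module.Projective Q P₀]
    (α : W →ₗ[Q] P₁) (β : P₁ →ₗ[Q] P₀) (γ : P₀ →ₗ[Q] W) (h1 : Function.Injective α)
    (h2 : Function.Exact α β) (h3 : Function.Exact β γ) (h4 : Function.Surjective γ) (i : ℕ) :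
    Nonempty (TorMod Q (i + 3) W V ≃ₗ[Q] TorMod Q (i + 1) W V) := by
  have hex1 : Function.Exact α β.rangeRestrict := by
    intro x
    rw [← h2 x]
    constructor
    · intro hx
      exact congrArg Subtype.val hx
    · intro hx
      exact Subtype.ext hx
  have hex2 : Function.Exact (LinearMap.range β).subtype γ := by
    intro x
    rw [h3 x]
    constructor
    · rintro ⟨y, rfl⟩
      exact ⟨⟨β y, y, rfl⟩, rfl⟩
    · rintro ⟨⟨y, z, hz⟩, rfl⟩
      exact ⟨z, hz⟩
  obtain ⟨e1⟩ := tor_shift V (LinearMap.range β).subtype γ (Submodule.subtype_injective _) h4 hex2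
    (i + 2) (torLen_projective _ _ _) (torLen_projective _ _ _)
  obtain ⟨e2⟩ := tor_shift V α β.rangeRestrict h1 β.surjective_rangeRestrict hex1
    (i + 1) (torLen_projective _ _ _) (torLen_projective _ _ _)
  exact ⟨e1.trans e2⟩

section

variable {B Q : Type u} [CommRing B] [CommRing Q] [Algebra B Q] [IsNoetherianRing B]
  (hsurj : Function.Surjective (algebraMap B Q)) (h : B)
  (hker : RingHom.ker (algebraMap B Q) = Ideal.span {h}) (hreg : h ∈ nonZeroDivisors B) (c : ℕ)
  (hpd : ∀ (M : Type u) [AddCommGroup M] [Module B M], Module.Finite B M →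
    HasProjectiveDimensionLE (ModuleCat.of B M) (c + 1))

include hsurj hker hreg hpd

/-- Periodicity over a hypersurface. -/
theorem per (W V : Type u) [AddCommGroup W] [Module Q W] [Module.Finite Q W]
    [AddCommGroup V] [Module Q V] (i : ℕ) (hi : c < i) :
    torLen Q (i + 2) W V = torLen Q i W V := by
  obtain ⟨j, rfl⟩ : ∃ j, i = j + 1 + c := ⟨i - 1 - c, by omega⟩
  let _ : Module B W := Module.compHom W (algebraMap B Q)
  have : IsScalarTower B Q W := ⟨fun b q w => by
    rw [Algebra.smul_def, mul_smul]; rfl⟩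
  obtain ⟨W', _, _, _, _, _, hW', hT⟩ := syz_pd_one hsurj h hker hreg c hpd W
  obtain ⟨P₁, P₀, _, _, _, _, _, _, α, β, γ, h1, h2, h3, h4, -⟩ :=
    four_term hsurj h hker hreg W' hW'
  obtain ⟨e⟩ := per_of_four_term W' V α β γ h1 h2 h3 h4 j
  obtain ⟨e1⟩ := hT V j
  obtain ⟨e2⟩ := hT V (j + 2)
  rw [show j + 1 + c + 2 = j + 2 + 1 + c by omega, torLen, torLen, e2.length_eq, e1.length_eq]
  exact e.length_eq

/-- `δ(h)` kills `Tor_i`, `i > c`, for every derivation `δ` of `B`. -/
theorem jac (W V : Type u) [AddCommGroup W] [Module Q W] [Module.Finite Q W]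
    [AddCommGroup V] [Module Q V] (i : ℕ) (hi : c < i) (δ : Derivation ℤ B B)
    (t : TorMod Q i W V) : algebraMap B Q (δ h) • t = 0 := by
  obtain ⟨j, rfl⟩ : ∃ j, i = j + 1 + c := ⟨i - 1 - c, by omega⟩
  let _ : Module B W := Module.compHom W (algebraMap B Q)
  have : IsScalarTower B Q W := ⟨fun b q w => by
    rw [Algebra.smul_def, mul_smul]; rfl⟩
  obtain ⟨W', _, _, _, _, _, hW', hT⟩ := syz_pd_one hsurj h hker hreg c hpd W
  obtain ⟨P₁, P₀, _, _, _, _, _, _, α, β, γ, h1, h2, h3, h4, h5⟩ :=
    four_term hsurj h hker hreg W' hW'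
  obtain ⟨ε, hε⟩ := h5 δ
  obtain ⟨e⟩ := hT V j
  have h6 := tor_smul_zero V (algebraMap B Q (δ h)) α ε hε j (e t)
  rw [← map_smul] at h6
  exact (LinearEquiv.map_eq_zero_iff e).1 h6

/-- If the derivatives of `h` generate an ideal of finite colength in `Q` then
`Tor_i`, `i > c`, of finitely generated modules has finite length. -/
theorem torLen_ne_top (W V : Type u) [AddCommGroup W] [Module Q W] [Module.Finite Q W]
    [AddCommGroup V] [Module Q V] [Module.Finite Q V] {m : ℕ} (δ : Fin m → Derivation ℤ B B)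
    (hJ : Module.length Q (Q ⧸ Ideal.span (Set.range fun j => algebraMap B Q (δ j h))) ≠ ⊤)
    (i : ℕ) (hi : c < i) : torLen Q i W V ≠ ⊤ := by
  have hQ : IsNoetherianRing Q := isNoetherianRing_of_surjective B Q (algebraMap B Q) hsurj
  have hfin : Module.Finite Q (TorMod Q i W V) := by
    obtain ⟨k, rfl⟩ : ∃ k, i = k + 1 := ⟨i - 1, by omega⟩
    exact tor_finite Q W V k
  have hkill : ∀ q ∈ Ideal.span (Set.range fun j => algebraMap B Q (δ j h)),
      ∀ t : TorMod Q i W V, q • t = 0 := by
    intro q hq t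
    have h1 : Ideal.span (Set.range fun j => algebraMap B Q (δ j h)) ≤
        LinearMap.ker (LinearMap.toSpanSingleton Q (TorMod Q i W V) t) := by
      rw [Ideal.span_le]
      rintro _ ⟨j, rfl⟩
      exact jac hsurj h hker hreg c hpd W V i hi (δ j) t
    exact h1 hq
  rw [Module.length_ne_top_iff, isFiniteLength_iff_isNoetherian_isArtinian] at hJ
  have hA := hJ.2
  obtain ⟨n, g, hg⟩ := Module.Finite.exists_fin (R := Q) (M := TorMod Q i W V)
  let f : (Fin n → (Q ⧸ Ideal.span (Set.range fun j => algebraMap B Q (δ j h)))) →ₗ[Q]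
      TorMod Q i W V :=
    ∑ k, (Submodule.liftQ _ (LinearMap.toSpanSingleton Q (TorMod Q i W V) (g k))
      (fun q hq => hkill q hq (g k))) ∘ₗ LinearMap.proj k
  have hf : Function.Surjective f := by
    rw [← LinearMap.range_eq_top, eq_top_iff, ← hg, Submodule.span_le]
    rintro _ ⟨k, rfl⟩
    refine ⟨Pi.single k (Submodule.Quotient.mk 1), ?_⟩
    simp only [f, LinearMap.sum_apply, LinearMap.comp_apply, LinearMap.proj_apply]
    rw [Finset.sum_eq_single k]
    · rw [Pi.single_eq_same, Submodule.liftQ_apply, LinearMap.toSpanSingleton_apply, one_smul]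
    · intro b _ hb
      rw [Pi.single_eq_of_ne hb, map_zero]
    · intro hk
      exact absurd (Finset.mem_univ k) hk
  have hA2 : IsArtinian Q (TorMod Q i W V) := isArtinian_of_surjective _ f hf
  have hN2 : IsNoetherian Q (TorMod Q i W V) := inferInstance
  rw [torLen, Module.length_ne_top_iff, isFiniteLength_iff_isNoetherian_isArtinian]
  exact ⟨hN2, hA2⟩

end

end Pool.Agent.HT21
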