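import Pool.Agent.HT21.GrHyp
import Pool.Agent.HT21.PerJac
import Pool.Agent.HT21.PdReg
import Pool.Agent.HT21.PdPoly

/-!
# The tangent cone theorem for hypersurfaces

`R` regular local of dimension `d + 1` (the maximal ideal is generated by a regular sequence `x`),
weights `w`, `f` with weighted leading form `f0` of weight `N`, `A = R/(f)`,
`k[X]/(f0, ∂f0)` finite dimensional.

`hypA`: facts over `A`: `per` for `R → A` (`pd_regular`, `f_regular`), with `c = d`.
`hypG`: facts over `gr A`: `gr_hyp` gives `φ : k[X] → gr A` surjective with kernel `(f0)`; regard `gr A`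
as an algebra over `k[X]` through `φ` (`φ.toAlgebra`); `f0 ≠ 0` in the domain `k[X]`;
`per`, `torLen_ne_top` with `B = k[X]`, `c = d`, `pd_mvPolynomial`, the derivations
`pderiv i` (restricted to a `ℤ`-derivation, `Derivation.restrictScalars`); `gr A` modulo the
derivatives of `f0` is the quotient `k[X]/(f0, ∂f0)`, finite dimensional over `k`, hence of finite
length over `k[X]` and over `gr A`.
`tangent_cone`: `tangent_cone_general` with `s = d` gives `ζ`; all lengths over `gr A` are finite, so
those over `A` are finite; `num_lemma_enat` with `g i = torLen gr (i+1)`, `a i = torLen A (i+1)` gives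
the equality of the theta functions.
-/

universe u

namespace Pool.Agent.HT21

open MvPolynomial IsLocalRing

/-- The ideal generated by `F` and its partial derivatives. -/
noncomputable def jacIdeal {k : Type u} [Field k] {m : ℕ} (F : MvPolynomial (Fin m) k) :
    Ideal (MvPolynomial (Fin m) k) :=
  Ideal.span ({F} ∪ Set.range fun i => pderiv i F)

/-- `Q / (derivatives of F)` has finite length if `k[X]/(F, ∂F)` is finite dimensional. -/
theorem hypAG_length {k : Type u} [Field k] {m : ℕ} {Q : Type u} [CommRing Q]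
    (φ : MvPolynomial (Fin m) k →+* Q) (hs : Function.Surjective φ) (F : MvPolynomial (Fin m) k)
    (hker : RingHom.ker φ = Ideal.span {F})
    (hJ : Module.Finite k (MvPolynomial (Fin m) k ⧸ jacIdeal F)) :
    Module.length Q (Q ⧸ Ideal.span (Set.range fun j => φ (pderiv j F))) ≠ ⊤ := by
  letI : Algebra k Q := (φ.comp (C : k →+* MvPolynomial (Fin m) k)).toAlgebra
  let ψ : MvPolynomial (Fin m) k →ₐ[k] Q := { φ with commutes' := fun _ => rfl }
  let I : Ideal Q := Ideal.span (Set.range fun j => φ (pderiv j F))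
  let g : MvPolynomial (Fin m) k →ₐ[k] Q ⧸ I := (Ideal.Quotient.mkₐ k I).comp ψ
  have hg : Function.Surjective g := by
    intro y
    obtain ⟨z, rfl⟩ := Ideal.Quotient.mk_surjective y
    obtain ⟨p, rfl⟩ := hs z
    exact ⟨p, rfl⟩
  have hle : jacIdeal F ≤ RingHom.ker g := by
    unfold jacIdeal
    rw [Ideal.span_le]
    rintro p (hp | ⟨j, rfl⟩)
    · rw [Set.mem_singleton_iff] at hp
      subst hp
      have h1 : p ∈ RingHom.ker φ := by
        rw [hker]
        exact Ideal.mem_span_singleton_self p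
      rw [RingHom.mem_ker] at h1
      show g p = 0
      show Ideal.Quotient.mk I (φ p) = 0
      rw [h1, map_zero]
    · show Ideal.Quotient.mk I (φ (pderiv j F)) = 0
      rw [Ideal.Quotient.eq_zero_iff_mem]
      exact Ideal.subset_span ⟨j, rfl⟩
  let G : (MvPolynomial (Fin m) k ⧸ jacIdeal F) →ₐ[k] Q ⧸ I :=
    Ideal.Quotient.liftₐ (jacIdeal F) g (fun a ha => hle ha)
  have hG : Function.Surjective G := by
    intro y
    obtain ⟨p, rfl⟩ := hg y
    exact ⟨Ideal.Quotient.mk _ p, rfl⟩
  have hfin : Module.Finite k (Q ⧸ I) := Module.Finite.of_surjective G.toLinearMap hG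
  have : IsNoetherian k (Q ⧸ I) := inferInstance
  have : IsArtinian k (Q ⧸ I) := inferInstance
  have h3 : IsNoetherian Q (Q ⧸ I) := isNoetherian_of_tower k inferInstance
  have h4 : IsArtinian Q (Q ⧸ I) := isArtinian_of_tower k inferInstance
  rw [Module.length_ne_top_iff]
  exact isFiniteLength_iff_isNoetherian_isArtinian.2 ⟨h3, h4⟩

section

variable {R : Type u} [CommRing R] [IsLocalRing R] [IsNoetherianRing R] (d : ℕ)
  (x : Fin (d + 1) → R) (w : Fin (d + 1) → ℕ) (hw : ∀ i, 0 < w i)
  (hx : Ideal.span (Set.range x) = maximalIdeal R)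
  (hreg : RingTheory.Sequence.IsRegular R (List.ofFn x))
  (N : ℕ) (hN : 0 < N) (P : MvPolynomial (Fin (d + 1)) R) (hP : P.IsWeightedHomogeneous w N)
  (hP0 : P.map (residue R) ≠ 0) (f : R) (hf : f - aeval x P ∈ (wFilt x w).F (N + 1))

include hw hx hreg hN hP hP0 hf

theorem hypA (W V : Type u) [AddCommGroup W] [Module (R ⧸ Ideal.span {f}) W]
    [Module.Finite (R ⧸ Ideal.span {f}) W] [AddCommGroup V] [Module (R ⧸ Ideal.span {f}) V]
    (i : ℕ) (hi : d < i) :
    torLen (R ⧸ Ideal.span {f}) (i + 2) W V = torLen (R ⧸ Ideal.span {f}) i W V := by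
  have _ := hN
  exact per (B := R) (Q := R ⧸ Ideal.span {f}) Ideal.Quotient.mk_surjective f Ideal.mk_ker
    (f_regular x w hw hx hreg.toIsWeaklyRegular N P hP hP0 f hf) d
    (fun M _ _ _ => pd_regular x hx hreg M) W V i hi

theorem hypG_per (W V : Type u) [AddCommGroup W]
    [Module (wFilt (fun i => Ideal.Quotient.mk (Ideal.span {f}) (x i)) w).gr W]
    [Module.Finite (wFilt (fun i => Ideal.Quotient.mk (Ideal.span {f}) (x i)) w).gr W]
    [AddCommGroup V] [Module (wFilt (fun i => Ideal.Quotient.mk (Ideal.span {f}) (x i)) w).gr V]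
    (i : ℕ) (hi : d < i) :
    torLen (wFilt (fun i => Ideal.Quotient.mk (Ideal.span {f}) (x i)) w).gr (i + 2) W V
      = torLen (wFilt (fun i => Ideal.Quotient.mk (Ideal.span {f}) (x i)) w).gr i W V := by
  have _ := hN
  obtain ⟨φ, h1, h2, -, -⟩ := gr_hyp x w hw hx hreg.toIsWeaklyRegular N P hP hP0 f hf
  letI : Algebra (MvPolynomial (Fin (d + 1)) (ResidueField R))
    (wFilt (fun i => Ideal.Quotient.mk (Ideal.span {f}) (x i)) w).gr := φ.toAlgebra
  exact per (B := MvPolynomial (Fin (d + 1)) (ResidueField R)) h1 (P.map (residue R)) h2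
    (mem_nonZeroDivisors_of_ne_zero hP0) d
    (fun M _ _ _ => pd_mvPolynomial (ResidueField R) (d + 1) M) W V i hi

theorem hypG_fin (hJ : Module.Finite (ResidueField R)
      (MvPolynomial (Fin (d + 1)) (ResidueField R) ⧸ jacIdeal (P.map (residue R))))
    (W V : Type u) [AddCommGroup W]
    [Module (wFilt (fun i => Ideal.Quotient.mk (Ideal.span {f}) (x i)) w).gr W]
    [Module.Finite (wFilt (fun i => Ideal.Quotient.mk (Ideal.span {f}) (x i)) w).gr W]
    [AddCommGroup V] [Module (wFilt (fun i => Ideal.Quotient.mk (Ideal.span {f}) (x i)) w).gr V]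
    [Module.Finite (wFilt (fun i => Ideal.Quotient.mk (Ideal.span {f}) (x i)) w).gr V]
    (i : ℕ) (hi : d < i) :
    torLen (wFilt (fun i => Ideal.Quotient.mk (Ideal.span {f}) (x i)) w).gr i W V ≠ ⊤ := by
  have _ := hN
  obtain ⟨φ, h1, h2, -, -⟩ := gr_hyp x w hw hx hreg.toIsWeaklyRegular N P hP hP0 f hf
  have hlen := hypAG_length φ h1 (P.map (residue R)) h2 hJ
  letI : Algebra (MvPolynomial (Fin (d + 1)) (ResidueField R))
    (wFilt (fun i => Ideal.Quotient.mk (Ideal.span {f}) (x i)) w).gr := φ.toAlgebra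
  exact torLen_ne_top (B := MvPolynomial (Fin (d + 1)) (ResidueField R)) h1 (P.map (residue R)) h2
    (mem_nonZeroDivisors_of_ne_zero hP0) d
    (fun M _ _ _ => pd_mvPolynomial (ResidueField R) (d + 1) M) W V
    (fun j => (pderiv j).restrictScalars ℤ) hlen i hi

end

end Pool.Agent.HT21
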