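import Mathlib

/-!
# The numerical lemma

If `g i = a i + ζ i + ζ (i+1)` for `i ≥ s` and `g`, `a` are `2`-periodic from `s` on, then
`g (i+1) - g i = a (i+1) - a i` for `i ≥ s`.
Proof.  Put `u i = g i - a i` (integers), `D i = u (i+1) - u i = ζ (i+2) - ζ i`.  Periodicity of `u`
gives `D (i+1) = - D i`, so `D (i+2) = D i` and `ζ (i + 2 k) = ζ i + k D i` for all `k`; as `ζ ≥ 0`
this forces `D i ≥ 0`; the same for `D (i+1) = - D i`, so `D i = 0`.
-/

namespace Pool.Agent.HT21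

private theorem num_step (g a ζ : ℕ → ℕ) (s : ℕ) (h : ∀ i, s ≤ i → g i = a i + ζ i + ζ (i + 1))
    (hg : ∀ i, s ≤ i → g (i + 2) = g i) (ha : ∀ i, s ≤ i → a (i + 2) = a i) (j : ℕ) (hj : s ≤ j) :
    ζ j ≤ ζ (j + 2) := by
  have key : ∀ k : ℕ, (ζ (j + 2 * k) : ℤ) = ζ j + k * ((ζ (j + 2) : ℤ) - ζ j) ∧
      (ζ (j + 2 * k + 2) : ℤ) - ζ (j + 2 * k) = (ζ (j + 2) : ℤ) - ζ j := by
    intro k
    induction k with
    | zero => simp
    | succ k ih =>
      obtain ⟨h1, h2⟩ := ih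
      have e1 : j + 2 * (k + 1) = j + 2 * k + 2 := by ring
      rw [e1]
      have a0 := h (j + 2 * k) (by omega)
      have a1 := h (j + 2 * k + 1) (by omega)
      have a2 := h (j + 2 * k + 2) (by omega)
      have a3 := h (j + 2 * k + 3) (by omega)
      have b0 := hg (j + 2 * k) (by omega)
      have b1 := hg (j + 2 * k + 1) (by omega)
      have c0 := ha (j + 2 * k) (by omega)
      have c1 := ha (j + 2 * k + 1) (by omega)
      have e2 : j + 2 * k + 1 + 2 = j + 2 * k + 3 := by ring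
      have e3 : j + 2 * k + 3 + 1 = j + 2 * k + 2 + 2 := by ring
      have e4 : j + 2 * k + 1 + 1 = j + 2 * k + 2 := by ring
      have e5 : j + 2 * k + 2 + 1 = j + 2 * k + 3 := by ring
      rw [e2] at b1 c1
      rw [e3] at a3
      rw [e4] at a1
      rw [e5] at a2
      constructor
      · push_cast
        linarith
      · have d0 : (g (j + 2 * k) : ℤ) = a (j + 2 * k) + ζ (j + 2 * k) + ζ (j + 2 * k + 1) := by exact_mod_cast a0
        have d1 : (g (j + 2 * k + 1) : ℤ) = a (j + 2 * k + 1) + ζ (j + 2 * k + 1) + ζ (j + 2 * k + 2) := by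
          exact_mod_cast a1
        have d2 : (g (j + 2 * k + 2) : ℤ) = a (j + 2 * k + 2) + ζ (j + 2 * k + 2) + ζ (j + 2 * k + 3) := by
          exact_mod_cast a2
        have d3 : (g (j + 2 * k + 3) : ℤ) = a (j + 2 * k + 3) + ζ (j + 2 * k + 3) + ζ (j + 2 * k + 2 + 2) := by
          exact_mod_cast a3
        rw [b0, c0] at d2
        rw [b1, c1] at d3
        linarith
  by_contra hlt
  push Not at hlt
  have hk := (key (ζ j + 1)).1
  have h0 : (0 : ℤ) ≤ ζ (j + 2 * (ζ j + 1)) := Int.natCast_nonneg _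
  have hD : (ζ (j + 2) : ℤ) - ζ j ≤ -1 := by
    have : (ζ (j + 2) : ℤ) < ζ j := by exact_mod_cast hlt
    linarith
  have hz : (0 : ℤ) ≤ (ζ j : ℤ) + 1 := by positivity
  push_cast at hk
  nlinarith [mul_le_mul_of_nonneg_left hD hz]

theorem num_lemma (g a ζ : ℕ → ℕ) (s : ℕ) (h : ∀ i, s ≤ i → g i = a i + ζ i + ζ (i + 1))
    (hg : ∀ i, s ≤ i → g (i + 2) = g i) (ha : ∀ i, s ≤ i → a (i + 2) = a i) (i : ℕ) (hi : s ≤ i) :
    (g (i + 1) : ℤ) - g i = (a (i + 1) : ℤ) - a i := by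
  have h1 := num_step g a ζ s h hg ha i hi
  have h2 := num_step g a ζ s h hg ha (i + 1) (by omega)
  have a0 := h i hi
  have a1 := h (i + 1) (by omega)
  have a2 := h (i + 2) (by omega)
  have b0 := hg i hi
  have c0 := ha i hi
  have e1 : i + 1 + 2 = i + 3 := by ring
  have e2 : i + 1 + 1 = i + 2 := by ring
  have e3 : i + 2 + 1 = i + 3 := by ring
  rw [e1] at h2
  rw [e2] at a1
  rw [e3] at a2
  rw [b0, c0] at a2
  omega

/-- The same in `ℕ∞`, all values finite. -/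
theorem num_lemma_enat (g a ζ : ℕ → ℕ∞) (s : ℕ) (h : ∀ i, s ≤ i → g i = a i + ζ i + ζ (i + 1))
    (hfin : ∀ i, s ≤ i → g i ≠ ⊤)
    (hg : ∀ i, s ≤ i → g (i + 2) = g i) (ha : ∀ i, s ≤ i → a (i + 2) = a i) (i : ℕ) (hi : s ≤ i) :
    ((g (i + 1)).toNat : ℤ) - (g i).toNat = ((a (i + 1)).toNat : ℤ) - (a i).toNat := by
  refine num_lemma (fun i => (g i).toNat) (fun i => (a i).toNat) (fun i => (ζ i).toNat) s ?_ ?_ ?_ i hi
  · intro j hj
    have h1 := h j hj
    have h2 := hfin j hj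
    rw [h1] at h2
    have h3 : a j + ζ j ≠ ⊤ := fun h4 => h2 (by rw [h4, top_add])
    have h4 : ζ (j + 1) ≠ ⊤ := fun h5 => h2 (by rw [h5, add_top])
    have h5 : a j ≠ ⊤ := fun h6 => h3 (by rw [h6, top_add])
    have h6 : ζ j ≠ ⊤ := fun h7 => h3 (by rw [h7, add_top])
    show (g j).toNat = (a j).toNat + (ζ j).toNat + (ζ (j + 1)).toNat
    rw [h1, ENat.toNat_add h3 h4, ENat.toNat_add h5 h6]
  · intro j hj
    show (g (j + 2)).toNat = (g j).toNat
    rw [hg j hj]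
  · intro j hj
    show (a (j + 2)).toNat = (a j).toNat
    rw [ha j hj]

end Pool.Agent.HT21
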