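import Pool.Agent.HT21.T1
import Pool.Agent.HT21.HypAG
import Pool.Agent.HT21.Num

/-!
# The tangent cone theorem for hypersurfaces

`tangent_cone_general` with `s = d` gives `ζ` (its hypotheses: `rees_noetherian`, `F 1 ≤ m` from
`F_one` and `mem_wFilt_quot`, `A = R/(f)` is local because `f ∈ m`, as `N > 0`;
`hypG_fin`, `gr_finite`); all lengths over `gr A` are finite, so
those over `A` are finite; `num_lemma_enat` with `g i = torLen gr (i+1)`, `a i = torLen A (i+1)`,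
periodic by `hypG_per`, `hypA`, gives the equality of the theta functions.
-/

universe u

namespace Pool.Agent.HT21

open MvPolynomial IsLocalRing

/-- The basic facts on `A = R/(f)` and its filtration. -/
private theorem finalA_setup {R : Type u} [CommRing R] [IsLocalRing R] [IsNoetherianRing R]
    {m : ℕ} (x : Fin m → R) (w : Fin m → ℕ) (hw : ∀ i, 0 < w i)
    (hx : Ideal.span (Set.range x) = maximalIdeal R)
    (N : ℕ) (hN : 0 < N) (P : MvPolynomial (Fin m) R) (hP : P.IsWeightedHomogeneous w N)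
    (f : R) (hf : f - aeval x P ∈ (wFilt x w).F (N + 1)) :
    ∃ _ : IsLocalRing (R ⧸ Ideal.span {f}),
      (wFilt (fun i => Ideal.Quotient.mk (Ideal.span {f}) (x i)) w).F 1
        ≤ maximalIdeal (R ⧸ Ideal.span {f}) := by
  have hF1 := F_one x w hw hx
  have hfm : f ∈ maximalIdeal R := by
    have h1 : f - aeval x P ∈ (wFilt x w).F 1 := (wFilt x w).anti' (by omega) hf
    have h2 : aeval x P ∈ (wFilt x w).F 1 := (wFilt x w).anti' (by omega) (aeval_mem x w N P hP)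
    rw [hF1] at h1 h2
    have h3 := Ideal.add_mem _ h1 h2
    rwa [sub_add_cancel] at h3
  have hle : Ideal.span {f} ≤ maximalIdeal R := by
    rw [Ideal.span_le]
    intro y hy
    rw [Set.mem_singleton_iff] at hy
    subst hy
    exact hfm
  have hnt : Nontrivial (R ⧸ Ideal.span {f}) := by
    refine Ideal.Quotient.nontrivial_iff.mpr ?_
    intro h
    rw [h, top_le_iff] at hle
    exact (maximalIdeal.isMaximal R).ne_top hle
  have hloc : IsLocalRing (R ⧸ Ideal.span {f}) :=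
    IsLocalRing.of_surjective' (Ideal.Quotient.mk (Ideal.span {f})) Ideal.Quotient.mk_surjective
  refine ⟨hloc, ?_⟩
  intro a ha
  obtain ⟨b, hb, rfl⟩ := (mem_wFilt_quot f x w 1 a).mp ha
  rw [hF1] at hb
  rw [mem_maximalIdeal, mem_nonunits_iff]
  intro hu
  obtain ⟨c, hc⟩ := hu.exists_right_inv
  obtain ⟨c, rfl⟩ := Ideal.Quotient.mk_surjective c
  have h1 : b * c - 1 ∈ Ideal.span {f} := by
    rw [← Ideal.Quotient.eq_zero_iff_mem, map_sub, map_mul, map_one, hc, sub_self]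
  have h2 : b * c ∈ maximalIdeal R := Ideal.mul_mem_right _ _ hb
  have h3 : (1 : R) ∈ maximalIdeal R := by
    have h4 := Ideal.sub_mem _ h2 (hle h1)
    rwa [sub_sub_cancel] at h4
  exact (maximalIdeal.isMaximal R).ne_top ((Ideal.eq_top_iff_one _).mpr h3)

section

variable {R : Type u} [CommRing R] [IsLocalRing R] [IsNoetherianRing R] (d : ℕ)
  (x : Fin (d + 1) → R) (w : Fin (d + 1) → ℕ) (hw : ∀ i, 0 < w i)
  (hx : Ideal.span (Set.range x) = maximalIdeal R)
  (hreg : RingTheory.Sequence.IsRegular R (List.ofFn x))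
  (N : ℕ) (hN : 0 < N) (P : MvPolynomial (Fin (d + 1)) R) (hP : P.IsWeightedHomogeneous w N)
  (hP0 : P.map (residue R) ≠ 0) (f : R) (hf : f - aeval x P ∈ (wFilt x w).F (N + 1))

include hw hx hreg hN hP hP0 hf

/-- The relation between the lengths over `A` and over `gr A`. -/
private theorem finalA_zeta (hJ : Module.Finite (ResidueField R)
      (MvPolynomial (Fin (d + 1)) (ResidueField R) ⧸ jacIdeal (P.map (residue R))))
    (L M : Type u) [AddCommGroup L] [Module (R ⧸ Ideal.span {f}) L]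
    [AddCommGroup M] [Module (R ⧸ Ideal.span {f}) M]
    (𝓛 : MFilt (wFilt (fun i => Ideal.Quotient.mk (Ideal.span {f}) (x i)) w) L)
    (𝓜 : MFilt (wFilt (fun i => Ideal.Quotient.mk (Ideal.span {f}) (x i)) w) M)
    (hL : 𝓛.Good) (hM : 𝓜.Good) :
    (∃ ζ : ℕ → ℕ∞, ∀ i, d ≤ i →
      torLen (wFilt (fun i => Ideal.Quotient.mk (Ideal.span {f}) (x i)) w).gr (i + 1) 𝓛.gr 𝓜.gr
      = torLen (R ⧸ Ideal.span {f}) (i + 1) L M + ζ i + ζ (i + 1)) ∧
    (∀ i, d ≤ i →
      torLen (wFilt (fun i => Ideal.Quotient.mk (Ideal.span {f}) (x i)) w).gr (i + 1) 𝓛.gr 𝓜.gr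
      ≠ ⊤) ∧
    (∀ i, d ≤ i →
      torLen (wFilt (fun i => Ideal.Quotient.mk (Ideal.span {f}) (x i)) w).gr (i + 2 + 1)
        𝓛.gr 𝓜.gr
      = torLen (wFilt (fun i => Ideal.Quotient.mk (Ideal.span {f}) (x i)) w).gr (i + 1)
        𝓛.gr 𝓜.gr) ∧
    (∀ i, d ≤ i → torLen (R ⧸ Ideal.span {f}) (i + 2 + 1) L M
      = torLen (R ⧸ Ideal.span {f}) (i + 1) L M) := by
  obtain ⟨hloc, h1⟩ := finalA_setup x w hw hx N hN P hP f hf
  have hfinL : Module.Finite (R ⧸ Ideal.span {f}) L := hL.finite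
  have hgL := gr_finite 𝓛 hL
  have hgM := gr_finite 𝓜 hM
  have hrees : IsNoetherianRing
      (wFilt (fun i => Ideal.Quotient.mk (Ideal.span {f}) (x i)) w).Rees :=
    rees_noetherian _ w
  have hfin : ∀ i, d ≤ i →
      torLen (wFilt (fun i => Ideal.Quotient.mk (Ideal.span {f}) (x i)) w).gr (i + 1) 𝓛.gr 𝓜.gr
      ≠ ⊤ := fun i hi =>
    hypG_fin d x w hw hx hreg N hN P hP hP0 f hf hJ 𝓛.gr 𝓜.gr (i + 1) (by omega)
  refine ⟨?_, hfin, ?_, ?_⟩
  · exact tangent_cone_general _ h1 𝓜 𝓛 hM hL d hfin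
  · intro i hi
    have h := hypG_per d x w hw hx hreg N hN P hP hP0 f hf 𝓛.gr 𝓜.gr (i + 1) (by omega)
    exact h
  · intro i hi
    have h := hypA d x w hw hx hreg N hN P hP hP0 f hf L M (i + 1) (by omega)
    exact h

theorem tangent_cone (hJ : Module.Finite (ResidueField R)
      (MvPolynomial (Fin (d + 1)) (ResidueField R) ⧸ jacIdeal (P.map (residue R))))
    (L M : Type u) [AddCommGroup L] [Module (R ⧸ Ideal.span {f}) L]
    [AddCommGroup M] [Module (R ⧸ Ideal.span {f}) M]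
    (𝓛 : MFilt (wFilt (fun i => Ideal.Quotient.mk (Ideal.span {f}) (x i)) w) L)
    (𝓜 : MFilt (wFilt (fun i => Ideal.Quotient.mk (Ideal.span {f}) (x i)) w) M)
    (hL : 𝓛.Good) (hM : 𝓜.Good) :
    (∀ i, d < i → torLen (R ⧸ Ideal.span {f}) i L M ≠ ⊤ ∧
      (torLen (wFilt (fun i => Ideal.Quotient.mk (Ideal.span {f}) (x i)) w).gr i 𝓛.gr 𝓜.gr ≠ ⊤)) ∧
    ∀ e, d ≤ 2 * e → theta (R ⧸ Ideal.span {f}) e L M
      = theta (wFilt (fun i => Ideal.Quotient.mk (Ideal.span {f}) (x i)) w).gr e 𝓛.gr 𝓜.gr := by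
  obtain ⟨⟨ζ, hζ⟩, hfin, hg, ha⟩ :=
    finalA_zeta d x w hw hx hreg N hN P hP hP0 f hf hJ L M 𝓛 𝓜 hL hM
  refine ⟨?_, ?_⟩
  · intro i hi
    obtain ⟨j, rfl⟩ : ∃ j, i = j + 1 := ⟨i - 1, by omega⟩
    have h1 := hζ j (by omega)
    have h2 := hfin j (by omega)
    refine ⟨?_, h2⟩
    intro h3
    rw [h3, top_add, top_add] at h1
    exact h2 h1
  · intro e he
    have h := num_lemma_enat
      (fun i => torLen (wFilt (fun i => Ideal.Quotient.mk (Ideal.span {f}) (x i)) w).gr (i + 1)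
        𝓛.gr 𝓜.gr)
      (fun i => torLen (R ⧸ Ideal.span {f}) (i + 1) L M) ζ d hζ hfin hg ha (2 * e) he
    unfold theta
    exact h.symm

/-- Step used for the vanishing theorem: if the lengths over `gr A` are constant then so are the
lengths over `A`. -/
theorem const_transfer (hJ : Module.Finite (ResidueField R)
      (MvPolynomial (Fin (d + 1)) (ResidueField R) ⧸ jacIdeal (P.map (residue R))))
    (L M : Type u) [AddCommGroup L] [Module (R ⧸ Ideal.span {f}) L]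
    [AddCommGroup M] [Module (R ⧸ Ideal.span {f}) M]
    (𝓛 : MFilt (wFilt (fun i => Ideal.Quotient.mk (Ideal.span {f}) (x i)) w) L)
    (𝓜 : MFilt (wFilt (fun i => Ideal.Quotient.mk (Ideal.span {f}) (x i)) w) M)
    (hL : 𝓛.Good) (hM : 𝓜.Good)
    (hc : ∀ i, d < i →
      torLen (wFilt (fun i => Ideal.Quotient.mk (Ideal.span {f}) (x i)) w).gr (i + 1) 𝓛.gr 𝓜.gr
      = torLen (wFilt (fun i => Ideal.Quotient.mk (Ideal.span {f}) (x i)) w).gr i 𝓛.gr 𝓜.gr)
    (i : ℕ) (hi : d < i) :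
    torLen (R ⧸ Ideal.span {f}) (i + 1) L M = torLen (R ⧸ Ideal.span {f}) i L M := by
  obtain ⟨⟨ζ, hζ⟩, hfin, hg, ha⟩ :=
    finalA_zeta d x w hw hx hreg N hN P hP hP0 f hf hJ L M 𝓛 𝓜 hL hM
  obtain ⟨j, rfl⟩ : ∃ j, i = j + 1 := ⟨i - 1, by omega⟩
  have h := num_lemma_enat
    (fun i => torLen (wFilt (fun i => Ideal.Quotient.mk (Ideal.span {f}) (x i)) w).gr (i + 1)
      𝓛.gr 𝓜.gr)
    (fun i => torLen (R ⧸ Ideal.span {f}) (i + 1) L M) ζ d hζ hfin hg ha j (by omega)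
  have h0 : torLen (wFilt (fun i => Ideal.Quotient.mk (Ideal.span {f}) (x i)) w).gr (j + 1 + 1)
      𝓛.gr 𝓜.gr
    = torLen (wFilt (fun i => Ideal.Quotient.mk (Ideal.span {f}) (x i)) w).gr (j + 1)
      𝓛.gr 𝓜.gr := hc (j + 1) hi
  have hA : ∀ k, d ≤ k → torLen (R ⧸ Ideal.span {f}) (k + 1) L M ≠ ⊤ := by
    intro k hk h3
    have h1 := hζ k hk
    rw [h3, top_add, top_add] at h1
    exact hfin k hk h1
  have hA0 := hA j (by omega)
  have hA1 := hA (j + 1) (by omega)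
  simp only [h0, sub_self] at h
  have h2 : (torLen (R ⧸ Ideal.span {f}) (j + 1 + 1) L M).toNat
      = (torLen (R ⧸ Ideal.span {f}) (j + 1) L M).toNat := by omega
  rw [← ENat.natCast_toNat hA0, ← ENat.natCast_toNat hA1, h2]

end

end Pool.Agent.HT21
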