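import Mathlib

/-!
# `k[Z, X]/(Z^n - g(X))` is free over `k[X]` with basis `1, Z, .., Z^(n-1)`

`φ : k[X_0, .., X_d] → Q` surjective with kernel `(X_0^n - rename succ g)`,
`Q` an algebra over `S = k[X_1, .., X_d] = MvPolynomial (Fin d) k` through
`φ ∘ rename Fin.succ`.  Proof: `MvPolynomial.finSuccEquiv` identifies `k[X_0, .., X_d]` with
`S[Z]` and the kernel with the ideal of the monic polynomial `Z^n - C g` of degree `n`; division with
remainder by a monic polynomial (`Polynomial.modByMonic`, or `AdjoinRoot.powerBasis'`).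
-/

universe u

namespace Pool.Agent.HT21

open MvPolynomial

private theorem freeZ_rename {k : Type u} [Field k] {d : ℕ} (p : MvPolynomial (Fin d) k) :
    finSuccEquiv k d (rename Fin.succ p) = Polynomial.C p := by
  have h : ((finSuccEquiv k d : MvPolynomial (Fin (d + 1)) k →+*
      Polynomial (MvPolynomial (Fin d) k)).comp
      (rename (R := k) (Fin.succ : Fin d → Fin (d + 1)) :
        MvPolynomial (Fin d) k →+* MvPolynomial (Fin (d + 1)) k)) = Polynomial.C := by
    apply MvPolynomial.ringHom_ext
    · intro r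
      show finSuccEquiv k d (rename Fin.succ (C r)) = Polynomial.C (C r)
      rw [rename_C]
      simp [finSuccEquiv_apply]
    · intro i
      show finSuccEquiv k d (rename Fin.succ (X i)) = Polynomial.C (X i)
      rw [rename_X, finSuccEquiv_X_succ]
  exact congrArg (fun f : MvPolynomial (Fin d) k →+* Polynomial (MvPolynomial (Fin d) k) => f p) h

theorem exists_basis {k : Type u} [Field k] {d : ℕ} (n : ℕ) (hn : 0 < n)
    (g : MvPolynomial (Fin d) k) {Q : Type u} [CommRing Q]
    (φ : MvPolynomial (Fin (d + 1)) k →+* Q) (hφ : Function.Surjective φ)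
    (hker : RingHom.ker φ = Ideal.span {X 0 ^ n - rename Fin.succ g})
    [Algebra (MvPolynomial (Fin d) k) Q]
    (halg : ∀ p : MvPolynomial (Fin d) k, algebraMap (MvPolynomial (Fin d) k) Q p
      = φ (rename Fin.succ p)) :
    ∃ b : Module.Basis (Fin n) (MvPolynomial (Fin d) k) Q,
      ∀ j : Fin n, b j = (φ (X 0)) ^ (j : ℕ) := by
  let m : Polynomial (MvPolynomial (Fin d) k) := Polynomial.X ^ n - Polynomial.C g
  have hm : m.Monic := Polynomial.monic_X_pow_sub_C g hn.ne'
  have hdeg : m.natDegree = n := Polynomial.natDegree_X_pow_sub_C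
  let Ψ : Polynomial (MvPolynomial (Fin d) k) →ₐ[MvPolynomial (Fin d) k] Q :=
    Polynomial.aeval (φ (X 0))
  -- compatibility with `finSuccEquiv`
  have hcomp : ∀ p : MvPolynomial (Fin (d + 1)) k, Ψ (finSuccEquiv k d p) = φ p := by
    intro p
    have h : ((Ψ : Polynomial (MvPolynomial (Fin d) k) →+* Q).comp
        ((finSuccEquiv k d : MvPolynomial (Fin (d + 1)) k →+*
          Polynomial (MvPolynomial (Fin d) k)))) = φ := by
      apply MvPolynomial.ringHom_ext
      · intro r
        show Ψ (finSuccEquiv k d (C r)) = φ (C r)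
        rw [← rename_C (Fin.succ : Fin d → Fin (d + 1)) r, freeZ_rename]
        show Polynomial.aeval (φ (X 0)) (Polynomial.C (C r)) = _
        rw [Polynomial.aeval_C, halg]
      · intro i
        refine Fin.cases ?_ ?_ i
        · show Ψ (finSuccEquiv k d (X 0)) = φ (X 0)
          rw [finSuccEquiv_X_zero]
          exact Polynomial.aeval_X _
        · intro j
          show Ψ (finSuccEquiv k d (X j.succ)) = φ (X j.succ)
          rw [finSuccEquiv_X_succ]
          show Polynomial.aeval (φ (X 0)) (Polynomial.C (X j)) = φ (X j.succ)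
          rw [Polynomial.aeval_C, halg, rename_X]
    exact congrArg (fun f : MvPolynomial (Fin (d + 1)) k →+* Q => f p) h
  have hsurj : Function.Surjective Ψ := by
    intro q
    obtain ⟨p, hp⟩ := hφ q
    exact ⟨finSuccEquiv k d p, by rw [hcomp, hp]⟩
  have hFm : finSuccEquiv k d (X 0 ^ n - rename Fin.succ g) = m := by
    rw [map_sub, map_pow, finSuccEquiv_X_zero, freeZ_rename]
  have hkerΨ : Ideal.span {m} = RingHom.ker Ψ := by
    ext x
    obtain ⟨p, rfl⟩ := (finSuccEquiv k d).surjective x
    rw [RingHom.mem_ker, hcomp, Ideal.mem_span_singleton, ← hFm, map_dvd_iff,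
      ← Ideal.mem_span_singleton, ← hker, RingHom.mem_ker]
  let E : AdjoinRoot m ≃ₐ[MvPolynomial (Fin d) k] Q :=
    (Ideal.quotientEquivAlgOfEq (MvPolynomial (Fin d) k) hkerΨ).trans
      (Ideal.quotientKerAlgEquivOfSurjective hsurj)
  have hE : ∀ x, E (AdjoinRoot.mk m x) = Ψ x := fun x => rfl
  have hdim : (AdjoinRoot.powerBasis' hm).dim = n := by
    rw [AdjoinRoot.powerBasis'_dim, hdeg]
  refine ⟨((AdjoinRoot.powerBasis' hm).basis.reindex (finCongr hdim)).map E.toLinearEquiv, ?_⟩
  intro j
  rw [Module.Basis.map_apply, Module.Basis.reindex_apply, PowerBasis.basis_eq_pow,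
    AdjoinRoot.powerBasis'_gen]
  show E (AdjoinRoot.root m ^ _) = _
  rw [map_pow]
  have hroot : E (AdjoinRoot.root m) = φ (X 0) := by
    show E (AdjoinRoot.mk m Polynomial.X) = _
    rw [hE]
    exact Polynomial.aeval_X _
  rw [hroot]
  rfl

end Pool.Agent.HT21
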