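import Pool.Agent.HT21.GrIface

/-!
# The part of a graded module in the degrees divisible by `n`

`W` with `τ` the associated graded module of a filtration `G` of `M` (`IsGr 𝓕 G W τ`), `n ≥ 1`,
`z ∈ F w0` with `gcd (w0, n) = 1`, `Z = σ w0 z`.
`Udeg n` is the additive subgroup of the `∑_j τ (n j) (y j)`, `y j ∈ G (n j)`.
(a) `σ (n i) a` maps it into itself.
(b) `Z^n v ∈ span U` for all `v`: for `v = τ j y` there is `e < n` with
`n ∣ j + e w0`, and `Z^e v = τ (j + e w0) (z^e y) ∈ U`, `Z^n v = Z^(n-e) (Z^e v)`.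
(c) if `∑_{j<n} Z^j u_j = 0` with `u_j ∈ U` then all `Z^j u_j = 0`: `Z^j u_j` has components in
degrees congruent to `j w0` modulo `n` only, and these classes are distinct for `j < n`; use `indep`.
-/

universe u

namespace Pool.Agent.HT21

variable {A : Type u} [CommRing A] {𝓕 : RFilt A} {M : Type u} [AddCommGroup M] [Module A M]
  {G : ℕ → Submodule A M} {W : Type u} [AddCommGroup W] [Module 𝓕.gr W] {τ : ℕ → M → W}

/-- The part in degrees divisible by `n`. -/
def Udeg (G : ℕ → Submodule A M) (τ : ℕ → M → W) (n : ℕ) : AddSubgroup W :=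
  AddSubgroup.closure {v | ∃ (j : ℕ) (y : M), y ∈ G (n * j) ∧ v = τ (n * j) y}

private theorem gradU_tau_zero (h : IsGr 𝓕 G W τ) (n : ℕ) : τ n 0 = 0 :=
  (h.ker n 0 (Submodule.zero_mem _)).2 (Submodule.zero_mem _)

private theorem gradU_tau_neg (h : IsGr 𝓕 G W τ) (n : ℕ) (x : M) (hx : x ∈ G n) :
    τ n (-x) = -τ n x := by
  have h1 := h.add n x (-x) hx (Submodule.neg_mem _ hx)
  rw [add_neg_cancel, gradU_tau_zero h] at h1
  exact (neg_eq_of_add_eq_zero_right h1.symm).symm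

private theorem gradU_tau_sum (h : IsGr 𝓕 G W τ) (n : ℕ) {ι : Type} (s : Finset ι) (x : ι → M)
    (hx : ∀ i ∈ s, x i ∈ G n) : τ n (∑ i ∈ s, x i) = ∑ i ∈ s, τ n (x i) := by
  classical
  induction s using Finset.induction_on with
  | empty => simp [gradU_tau_zero h]
  | insert a s ha ih =>
    rw [Finset.sum_insert ha, Finset.sum_insert ha, h.add n _ _ (hx a (Finset.mem_insert_self _ _))
      (Submodule.sum_mem _ fun i hi => hx i (Finset.mem_insert_of_mem hi)),
      ih fun i hi => hx i (Finset.mem_insert_of_mem hi)]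

theorem Udeg_smul (h : IsGr 𝓕 G W τ) (n i : ℕ) (a : A)
    (ha : a ∈ 𝓕.F (n * i)) (v : W) (hv : v ∈ Udeg G τ n) : 𝓕.σ (n * i) a • v ∈ Udeg G τ n := by
  unfold Udeg at hv ⊢
  induction hv using AddSubgroup.closure_induction with
  | mem x hx =>
    obtain ⟨j, y, hy, rfl⟩ := hx
    refine AddSubgroup.subset_closure ⟨i + j, a • y, ?_, ?_⟩
    · rw [mul_add]; exact h.smul_mem _ _ _ _ ha hy
    · rw [mul_add]; exact h.smul _ _ _ _ ha hy
  | zero => rw [smul_zero]; exact AddSubgroup.zero_mem _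
  | add x y _ _ hx hy => rw [smul_add]; exact AddSubgroup.add_mem _ hx hy
  | neg x _ hx => rw [smul_neg]; exact AddSubgroup.neg_mem _ hx

private theorem gradU_pow (h : IsGr 𝓕 G W τ) (w0 : ℕ) (z : A) (hz : z ∈ 𝓕.F w0) (e : ℕ) (j : ℕ)
    (y : M) (hy : y ∈ G j) :
    z ^ e • y ∈ G (e * w0 + j) ∧ (𝓕.σ w0 z) ^ e • τ j y = τ (e * w0 + j) (z ^ e • y) := by
  induction e with
  | zero => simp [hy]
  | succ e ih =>
    obtain ⟨h1, h2⟩ := ih
    have he : (e + 1) * w0 + j = w0 + (e * w0 + j) := by ring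
    constructor
    · rw [he, pow_succ', mul_smul]
      exact h.smul_mem _ _ _ _ hz h1
    · rw [he, pow_succ', mul_smul, h2, h.smul _ _ _ _ hz h1, pow_succ', mul_smul]

theorem Udeg_span (h : IsGr 𝓕 G W τ) (n : ℕ) (hn : 0 < n)
    (w0 : ℕ) (hco : Nat.Coprime w0 n) (z : A) (hz : z ∈ 𝓕.F w0) (v : W) :
    (𝓕.σ w0 z) ^ n • v ∈ Submodule.span 𝓕.gr (Udeg G τ n : Set W) := by
  obtain ⟨m, y, hy, rfl⟩ := h.surj v
  rw [Finset.smul_sum]
  refine Submodule.sum_mem _ fun j _ => ?_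
  obtain ⟨k, hk1, hk2⟩ := Nat.chineseRemainder hco 0 (j * (n - 1))
  obtain ⟨e', he'⟩ := (Nat.modEq_zero_iff_dvd.1 hk1)
  have hdv : n ∣ (e' % n) * w0 + j := by
    have h1 : ((e' % n) * w0 + j) ≡ (j * (n - 1) + j) [MOD n] := by
      refine Nat.ModEq.add_right _ ?_
      refine Nat.ModEq.trans ?_ hk2
      rw [he', mul_comm w0 e']
      exact Nat.ModEq.mul_right _ (Nat.mod_modEq _ _)
    have h2 : j * (n - 1) + j = n * j := by
      obtain ⟨n', rfl⟩ : ∃ n', n = n' + 1 := ⟨n - 1, by omega⟩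
      simp only [Nat.add_sub_cancel]; ring
    rw [h2] at h1
    exact (Nat.modEq_zero_iff_dvd.1 (h1.trans (Nat.modEq_zero_iff_dvd.2 (dvd_mul_right _ _))))
  obtain ⟨q, hq⟩ := hdv
  have hlt : e' % n < n := Nat.mod_lt _ hn
  obtain ⟨h1, h2⟩ := gradU_pow h w0 z hz (e' % n) j (y j) (hy j)
  have hsp : (𝓕.σ w0 z) ^ n = (𝓕.σ w0 z) ^ (n - e' % n) * (𝓕.σ w0 z) ^ (e' % n) := by
    rw [← pow_add]; congr 1; omega
  rw [hsp, mul_smul, h2]
  refine Submodule.smul_mem _ _ (Submodule.subset_span ?_)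
  rw [hq] at h1 ⊢
  exact AddSubgroup.subset_closure ⟨q, _, h1, rfl⟩

/-- `u` is the sum of the `τ d (y d)`, `d < m`, for all `m ≥ N`. -/
private def GradURp (G : ℕ → Submodule A M) (τ : ℕ → M → W) (N : ℕ) (y : ℕ → M) (u : W) : Prop :=
  (∀ d, y d ∈ G d) ∧ ∀ m, N ≤ m → u = ∑ d ∈ Finset.range m, τ d (y d)

private theorem gradU_rp_add (h : IsGr 𝓕 G W τ) {N N' : ℕ} {y y' : ℕ → M} {u u' : W}
    (h1 : GradURp G τ N y u) (h2 : GradURp G τ N' y' u') :
    GradURp G τ (max N N') (fun d => y d + y' d) (u + u') := by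
  refine ⟨fun d => Submodule.add_mem _ (h1.1 d) (h2.1 d), fun m hm => ?_⟩
  rw [h1.2 m (le_trans (le_max_left _ _) hm), h2.2 m (le_trans (le_max_right _ _) hm),
    ← Finset.sum_add_distrib]
  exact Finset.sum_congr rfl fun d _ => (h.add d _ _ (h1.1 d) (h2.1 d)).symm

private theorem gradU_rp_neg (h : IsGr 𝓕 G W τ) {N : ℕ} {y : ℕ → M} {u : W}
    (h1 : GradURp G τ N y u) : GradURp G τ N (fun d => -y d) (-u) := by
  refine ⟨fun d => Submodule.neg_mem _ (h1.1 d), fun m hm => ?_⟩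
  rw [h1.2 m hm, ← Finset.sum_neg_distrib]
  exact Finset.sum_congr rfl fun d _ => (gradU_tau_neg h d _ (h1.1 d)).symm

private theorem gradU_rp_shift (h : IsGr 𝓕 G W τ) {w0 : ℕ} {z : A} (hz : z ∈ 𝓕.F w0) {N : ℕ}
    {y : ℕ → M} {u : W} (h1 : GradURp G τ N y u) :
    GradURp G τ (w0 + N) (fun e => if w0 ≤ e then z • y (e - w0) else 0) (𝓕.σ w0 z • u) := by
  constructor
  · intro d
    by_cases hd : w0 ≤ d
    · simp only [hd, if_true]
      have := h.smul_mem w0 (d - w0) z (y (d - w0)) hz (h1.1 _)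
      rwa [Nat.add_sub_cancel' hd] at this
    · simp only [hd, if_false]; exact Submodule.zero_mem _
  · intro m hm
    obtain ⟨m', rfl⟩ : ∃ m', m = w0 + m' := ⟨m - w0, by omega⟩
    rw [h1.2 m' (by omega), Finset.smul_sum, Finset.sum_range_add]
    have h0 : ∑ x ∈ Finset.range w0, τ x (if w0 ≤ x then z • y (x - w0) else 0) = 0 := by
      refine Finset.sum_eq_zero fun x hx => ?_
      rw [if_neg (by have := Finset.mem_range.1 hx; omega)]
      exact gradU_tau_zero h x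
    rw [h0, zero_add]
    refine Finset.sum_congr rfl fun d _ => ?_
    show _ = τ (w0 + d) (if w0 ≤ w0 + d then z • y (w0 + d - w0) else 0)
    rw [if_pos (Nat.le_add_right _ _), Nat.add_sub_cancel_left, h.smul _ _ _ _ hz (h1.1 d)]

private theorem gradU_normal (h : IsGr 𝓕 G W τ) (n : ℕ) (u : W) (hu : u ∈ Udeg G τ n) :
    ∃ (N : ℕ) (y : ℕ → M), GradURp G τ N y u ∧ ∀ e, y e ≠ 0 → ∃ i, e = n * i := by
  unfold Udeg at hu
  induction hu using AddSubgroup.closure_induction with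
  | mem x hx =>
    obtain ⟨j, y, hy, rfl⟩ := hx
    classical
    refine ⟨n * j + 1, fun d => if d = n * j then y else 0, ⟨fun d => ?_, fun m hm => ?_⟩, ?_⟩
    · by_cases hd : d = n * j
      · simp only [hd, if_true]; exact hy
      · simp only [hd, if_false]; exact Submodule.zero_mem _
    · rw [Finset.sum_eq_single (n * j)]
      · show _ = τ (n * j) (if n * j = n * j then y else 0)
        rw [if_pos rfl]
      · intro b _ hb
        show τ b (if b = n * j then y else 0) = 0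
        rw [if_neg hb]; exact gradU_tau_zero h b
      · intro hb
        exact absurd (Finset.mem_range.2 (by omega)) hb
    · intro e he
      by_cases hd : e = n * j
      · exact ⟨j, hd⟩
      · exact absurd (if_neg hd) he
  | zero =>
    refine ⟨0, fun _ => 0, ⟨fun _ => Submodule.zero_mem _, fun m _ => ?_⟩, fun e he => absurd rfl he⟩
    exact (Finset.sum_eq_zero fun x _ => gradU_tau_zero h x).symm
  | add x y _ _ hx hy =>
    obtain ⟨N, a, ha, ha'⟩ := hx
    obtain ⟨N', b, hb, hb'⟩ := hy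
    refine ⟨_, _, gradU_rp_add h ha hb, fun e he => ?_⟩
    by_cases h1 : a e = 0
    · exact hb' e (fun h2 => he (by simp [h1, h2]))
    · exact ha' e h1
  | neg x _ hx =>
    obtain ⟨N, a, ha, ha'⟩ := hx
    exact ⟨_, _, gradU_rp_neg h ha, fun e he => ha' e fun h2 => he (by simp [h2])⟩

private theorem gradU_normal_pow (h : IsGr 𝓕 G W τ) (n : ℕ) (w0 : ℕ) (z : A) (hz : z ∈ 𝓕.F w0)
    (u : W) (hu : u ∈ Udeg G τ n) (j : ℕ) :
    ∃ (N : ℕ) (y : ℕ → M), GradURp G τ N y ((𝓕.σ w0 z) ^ j • u) ∧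
      ∀ e, y e ≠ 0 → ∃ i, e = n * i + j * w0 := by
  induction j with
  | zero =>
    obtain ⟨N, y, h1, h2⟩ := gradU_normal h n u hu
    refine ⟨N, y, by simpa using h1, fun e he => ?_⟩
    obtain ⟨i, hi⟩ := h2 e he
    exact ⟨i, by rw [hi]; ring⟩
  | succ j ih =>
    obtain ⟨N, y, h1, h2⟩ := ih
    refine ⟨w0 + N, fun e => if w0 ≤ e then z • y (e - w0) else 0, ?_, fun e he => ?_⟩
    · rw [pow_succ', mul_smul]
      exact gradU_rp_shift h hz h1
    · by_cases hd : w0 ≤ e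
      · simp only [hd, if_true] at he
        obtain ⟨i, hi⟩ := h2 (e - w0) (fun h3 => he (by rw [h3, smul_zero]))
        refine ⟨i, ?_⟩
        have : e = (e - w0) + w0 := by omega
        rw [this, hi]; ring
      · simp only [hd, if_false] at he
        exact absurd rfl he

theorem Udeg_indep (h : IsGr 𝓕 G W τ) (n : ℕ) (hn : 0 < n)
    (w0 : ℕ) (hco : Nat.Coprime w0 n) (z : A) (hz : z ∈ 𝓕.F w0) (u : Fin n → W)
    (hu : ∀ j, u j ∈ Udeg G τ n) (h0 : ∑ j : Fin n, (𝓕.σ w0 z) ^ (j : ℕ) • u j = 0) (j : Fin n) :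
    (𝓕.σ w0 z) ^ (j : ℕ) • u j = 0 := by
  classical
  choose N y hR hS using fun j : Fin n => gradU_normal_pow h n w0 z hz (u j) (hu j) (j : ℕ)
  have hN : ∀ j, N j ≤ ∑ i, N i := fun j => Finset.single_le_sum (fun _ _ => Nat.zero_le _) (Finset.mem_univ j)
  have hsum : ∑ e ∈ Finset.range (∑ i, N i), τ e (∑ j, y j e) = 0 := by
    rw [← h0]
    have h1 : ∀ j : Fin n, (𝓕.σ w0 z) ^ (j : ℕ) • u j = ∑ e ∈ Finset.range (∑ i, N i), τ e (y j e) :=
      fun j => (hR j).2 _ (hN j)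
    rw [Finset.sum_congr rfl fun j _ => h1 j, Finset.sum_comm]
    refine Finset.sum_congr rfl fun e _ => ?_
    exact gradU_tau_sum h e _ _ fun i _ => (hR i).1 e
  have hin := h.indep _ (fun e => ∑ j, y j e) (fun e => Submodule.sum_mem _ fun i _ => (hR i).1 e) hsum
  rw [(hR j).2 _ (hN j)]
  refine Finset.sum_eq_zero fun e he => ?_
  by_cases hy : y j e = 0
  · rw [hy]; exact gradU_tau_zero h e
  · have hs : ∑ i, y i e = y j e := by
      refine Finset.sum_eq_single j (fun i _ hij => ?_) (fun hj => absurd (Finset.mem_univ _) hj)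
      by_contra hne
      obtain ⟨a, ha⟩ := hS j e hy
      obtain ⟨b, hb⟩ := hS i e hne
      apply hij
      have hmod : (i : ℕ) * w0 ≡ (j : ℕ) * w0 [MOD n] := by
        have h2 : n * b + (i : ℕ) * w0 = n * a + (j : ℕ) * w0 := hb.symm.trans ha
        have h3 : (n * b + (i : ℕ) * w0) % n = (n * a + (j : ℕ) * w0) % n := by rw [h2]
        rw [Nat.mul_add_mod, Nat.mul_add_mod] at h3
        exact h3
      have h4 : (i : ℕ) ≡ (j : ℕ) [MOD n] :=
        Nat.ModEq.cancel_right_of_coprime (by rw [Nat.gcd_comm]; exact hco) hmod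
      exact Fin.ext (Nat.ModEq.eq_of_lt_of_lt h4 i.2 j.2)
    have h5 := hin e (Finset.mem_range.1 he)
    simp only [hs] at h5
    exact (h.ker e _ ((hR j).1 e)).2 h5

end Pool.Agent.HT21
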