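import Pool.Agent.HT21.TorPd

/-!
# Induced modules have vanishing higher Tor

`Q` is an `S`-algebra, free as an `S`-module (finite basis), and every `S`-module has projective
dimension `≤ d`.  Then `Tor_i^Q(Q ⊗_S U, V) = 0` for `i > d`: extension of scalars to `Q` is exact
and preserves projective modules, so `pd_Q (Q ⊗_S U) ≤ pd_S U ≤ d` (induction on `pd`), and use
`tor_pd`.
-/

universe u

namespace Pool.Agent.HT21

open TensorProduct CategoryTheory

private theorem indPd_step {S Q : Type u} [CommRing S] [CommRing Q] [Algebra S Q] [Module.Flat S Q]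
    (n : ℕ) {K P U : Type u} [AddCommGroup K] [Module S K] [AddCommGroup P] [Module S P]
    [AddCommGroup U] [Module S U] [Module.Projective S P] (f : K →ₗ[S] P) (g : P →ₗ[S] U)
    (hf : Function.Injective f) (hg : Function.Surjective g) (hfg : Function.Exact f g)
    (hK : HasProjectiveDimensionLE (ModuleCat.of Q (Q ⊗[S] K)) n) :
    HasProjectiveDimensionLE (ModuleCat.of Q (Q ⊗[S] U)) (n + 1) := by
  let f' : (Q ⊗[S] K) →ₗ[Q] (Q ⊗[S] P) := f.baseChange Q
  let g' : (Q ⊗[S] P) →ₗ[Q] (Q ⊗[S] U) := g.baseChange Q
  have hinj : Function.Injective f' :=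
    Module.Flat.lTensor_preserves_injective_linearMap (M := Q) f hf
  have hsurj : Function.Surjective g' := LinearMap.lTensor_surjective Q hg
  have hexact : Function.Exact f' g' := lTensor_exact Q hfg hg
  have hzero : g'.comp f' = 0 := hexact.linearMap_comp_eq_zero
  have hex2 := ModuleCat.shortComplex_shortExact
    (ModuleCat.shortComplexOfCompEqZero f' g' hzero) hexact hinj hsurj
  have hproj2 : Projective (ModuleCat.shortComplexOfCompEqZero f' g' hzero).X₂ :=
    (IsProjective.iff_projective (Q ⊗[S] P)).mp inferInstance
  exact (hex2.hasProjectiveDimensionLT_X₃_iff n hproj2).mpr hK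

theorem pd_baseChange {S Q : Type u} [CommRing S] [CommRing Q] [Algebra S Q] [Module.Flat S Q]
    (d : ℕ) (U : Type u) [AddCommGroup U] [Module S U]
    (h : HasProjectiveDimensionLE (ModuleCat.of S U) d) :
    HasProjectiveDimensionLE (ModuleCat.of Q (Q ⊗[S] U)) d := by
  induction d generalizing U with
  | zero =>
    rw [← projective_iff_hasProjectiveDimensionLE_zero, ← IsProjective.iff_projective] at h ⊢
    infer_instance
  | succ n ih =>
    have hg : Function.Surjective (Finsupp.linearCombination S (id : U → U)) :=
      Finsupp.linearCombination_surjective _ Function.surjective_id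
    set g : (U →₀ S) →ₗ[S] U := Finsupp.linearCombination S (id : U → U)
    have hex1 := LinearMap.shortExact_shortComplexKer hg
    have hproj1 : Projective g.shortComplexKer.X₂ :=
      (IsProjective.iff_projective (U →₀ S)).mp inferInstance
    have hK : HasProjectiveDimensionLE (ModuleCat.of S (LinearMap.ker g)) n :=
      (hex1.hasProjectiveDimensionLT_X₃_iff n hproj1).mp h
    have hKQ := ih (LinearMap.ker g) hK
    exact indPd_step (K := LinearMap.ker g) (P := U →₀ S) (U := U) n
      (LinearMap.ker g).subtype g (LinearMap.ker g).injective_subtype hg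
      (g.exact_subtype_ker_map) hKQ

theorem tor_induced {S Q : Type u} [CommRing S] [CommRing Q] [Algebra S Q] [Module.Flat S Q]
    (d : ℕ) (U V : Type u) [AddCommGroup U] [Module S U] [AddCommGroup V] [Module Q V]
    (h : HasProjectiveDimensionLE (ModuleCat.of S U) d) (i : ℕ) (hi : d < i) :
    torLen Q i (Q ⊗[S] U) V = 0 :=
  tor_pd (Q ⊗[S] U) V d (pd_baseChange d U h) i hi

end Pool.Agent.HT21
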