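import Pool.Agent.HT21.GrIface

/-!
# Good filtrations are cofinal with the powers of the maximal ideal

If the Rees ring is Noetherian and `F 1 ≤ m`, then for every `c` there is `n` with `F n ≤ m^c`:
the ideal `⊕_{n ≥ 1} F n X^n` of the Rees ring is finitely generated, so there are finitely many
`a l ∈ F (k l)`, `k l ≥ 1`, with `F n = ∑ F (n - k l) a l` for `n ≥ 1` (take the coefficients of
generators); with `D = max k l`, `F n ≤ F (n - D) * F 1 ≤ m * F (n - D)` for `n ≥ 1`.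
Hence `F (c D) ≤ m^c` (`D ≥ 1`).  For a good filtration of a module,
`G n = ∑ F (n - b k) e k ≤ F (n - max b) • ⊤`.
-/

universe u

namespace Pool.Agent.HT21

variable {A : Type u} [CommRing A] {𝓕 : RFilt A} {M : Type u} [AddCommGroup M] [Module A M]

/-- the elements of the Rees ring without constant term -/
private noncomputable def smJ (𝓕 : RFilt A) : Ideal 𝓕.Rees :=
  RingHom.ker ((Polynomial.constantCoeff).comp 𝓕.val)

private lemma smMono (𝓕 : RFilt A) (n : ℕ) (x : A) (hx : x ∈ 𝓕.F n) :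
    ∃ f : 𝓕.Rees, 𝓕.val f = Polynomial.monomial n x := by
  have h : Polynomial.monomial n x ∈ 𝓕.reesAlg := by
    intro k
    rw [Polynomial.coeff_monomial]
    split_ifs with hk
    · rw [← hk]; exact hx
    · exact Ideal.zero_mem _
  exact ⟨(⟨Polynomial.monomial n x, h⟩ : 𝓕.reesAlg), rfl⟩

private lemma smStep (𝓕 : RFilt A) [IsNoetherianRing 𝓕.Rees] (m : Ideal A) (h1 : 𝓕.F 1 ≤ m) :
    ∃ D : ℕ, 1 ≤ D ∧ ∀ n, 1 ≤ n → 𝓕.F n ≤ 𝓕.F (n - D) * m := by
  classical
  obtain ⟨S, hS⟩ := (isNoetherianRing_iff_ideal_fg 𝓕.Rees).1 inferInstance (smJ 𝓕)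
  refine ⟨S.sup (fun g => (𝓕.val g).natDegree) + 1, by omega, fun n hn x hx => ?_⟩
  set D : ℕ := S.sup (fun g => (𝓕.val g).natDegree) + 1 with hD
  obtain ⟨f, hf⟩ := smMono 𝓕 n x hx
  have hfJ : f ∈ smJ 𝓕 := by
    show (Polynomial.constantCoeff) (𝓕.val f) = 0
    rw [hf, Polynomial.constantCoeff_apply, Polynomial.coeff_monomial, if_neg (by omega)]
  rw [← hS] at hfJ
  -- every element of the ideal has its `n`-th coefficient in `F (n - D) * m`
  have key : ∀ g ∈ Ideal.span (S : Set 𝓕.Rees), (𝓕.val g).coeff n ∈ 𝓕.F (n - D) * m := by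
    intro g hg
    refine Submodule.span_induction (p := fun g _ => ∀ c : 𝓕.Rees, (𝓕.val (c * g)).coeff n ∈ 𝓕.F (n - D) * m)
      ?_ ?_ ?_ ?_ hg |> fun h => by simpa using h 1
    · intro g hg c
      rw [map_mul, Polynomial.coeff_mul]
      refine Ideal.sum_mem _ fun p hp => ?_
      have h := Finset.HasAntidiagonal.mem_antidiagonal.mp hp
      rcases Nat.eq_zero_or_pos p.2 with h0 | h0
      · have h2 : g ∈ smJ 𝓕 := by
          rw [← hS]
          exact Ideal.subset_span hg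
        have h3 : (𝓕.val g).coeff 0 = 0 := h2
        rw [h0, h3, mul_zero]
        exact Ideal.zero_mem _
      · rcases Nat.lt_or_ge D p.2 with h4 | h4
        · have h5 : (𝓕.val g).natDegree ≤ S.sup (fun g => (𝓕.val g).natDegree) :=
            Finset.le_sup (f := fun g => (𝓕.val g).natDegree) hg
          have h6 : (𝓕.val g).coeff p.2 = 0 := Polynomial.coeff_eq_zero_of_natDegree_lt (by omega)
          rw [h6, mul_zero]
          exact Ideal.zero_mem _
        · refine Ideal.mul_mem_mul (𝓕.anti' (by omega) (𝓕.val_coeff_mem c p.1)) (h1 ?_)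
          exact 𝓕.anti' h0 (𝓕.val_coeff_mem g p.2)
    · intro c
      rw [mul_zero, map_zero, Polynomial.coeff_zero]
      exact Ideal.zero_mem _
    · intro x y _ _ hx hy c
      rw [mul_add, map_add, Polynomial.coeff_add]
      exact Ideal.add_mem _ (hx c) (hy c)
    · intro a x _ hx c
      rw [smul_eq_mul, ← mul_assoc]
      exact hx (c * a)
  have h2 := key f hfJ
  rw [hf, Polynomial.coeff_monomial, if_pos rfl] at h2
  exact h2

theorem F_small (𝓕 : RFilt A) [IsNoetherianRing 𝓕.Rees] (m : Ideal A) (h1 : 𝓕.F 1 ≤ m) (c : ℕ) :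
    ∃ n, 𝓕.F n ≤ m ^ c := by
  obtain ⟨D, hD, hstep⟩ := smStep 𝓕 m h1
  refine ⟨c * D, ?_⟩
  induction c with
  | zero =>
    rw [pow_zero, Ideal.one_eq_top]
    exact le_top
  | succ c ih =>
    have h2 : (c + 1) * D - D = c * D := by
      rw [Nat.succ_mul]
      omega
    have h3 : 1 ≤ (c + 1) * D := by
      rw [Nat.succ_mul]
      omega
    have h4 := hstep _ h3
    rw [h2] at h4
    rw [pow_succ]
    exact h4.trans (Ideal.mul_mono_left ih)

theorem G_small (𝓜 : MFilt 𝓕 M) [IsNoetherianRing 𝓕.Rees] (m : Ideal A) (h1 : 𝓕.F 1 ≤ m)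
    (h : 𝓜.Good) (c : ℕ) : ∃ n, 𝓜.G n ≤ m ^ c • (⊤ : Submodule A M) := by
  classical
  obtain ⟨s, b, e, he, hx⟩ := h
  obtain ⟨N, hN⟩ := F_small 𝓕 m h1 c
  refine ⟨N + Finset.univ.sup b, fun x hxG => ?_⟩
  obtain ⟨a, ha, rfl⟩ := hx _ x hxG
  refine Submodule.sum_mem _ fun k _ => ?_
  have h2 : b k ≤ Finset.univ.sup b := Finset.le_sup (Finset.mem_univ k)
  exact Submodule.smul_mem_smul (hN (𝓕.anti' (by omega) (ha k))) Submodule.mem_top

/-- A module with a good filtration is finitely generated. -/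
theorem MFilt.Good.finite {𝓜 : MFilt 𝓕 M} (h : 𝓜.Good) : Module.Finite A M := by
  classical
  obtain ⟨s, b, e, he, hx⟩ := h
  refine ⟨⟨Finset.univ.image e, ?_⟩⟩
  rw [Submodule.eq_top_iff']
  intro x
  obtain ⟨c, _, rfl⟩ := hx 0 x (by rw [𝓜.zero']; trivial)
  refine Submodule.sum_mem _ fun k _ => Submodule.smul_mem _ _ (Submodule.subset_span ?_)
  rw [Finset.mem_coe, Finset.mem_image]
  exact ⟨k, Finset.mem_univ k, rfl⟩

private lemma sm_tau_zero (𝓜 : MFilt 𝓕 M) (n : ℕ) : 𝓜.τ n (0 : M) = 0 :=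
  ((isGr_mod 𝓜).ker n 0 (Submodule.zero_mem _)).2 (Submodule.zero_mem _)

private lemma sm_tau_sum (𝓜 : MFilt 𝓕 M) (n : ℕ) {s : ℕ} (y : Fin s → M) (hy : ∀ k, y k ∈ 𝓜.G n) :
    𝓜.τ n (∑ k, y k) = ∑ k, 𝓜.τ n (y k) := by
  classical
  have h : ∀ T : Finset (Fin s), 𝓜.τ n (∑ k ∈ T, y k) = ∑ k ∈ T, 𝓜.τ n (y k) := by
    intro T
    induction T using Finset.induction_on with
    | empty => rw [Finset.sum_empty, Finset.sum_empty, sm_tau_zero]
    | insert a T ha ih =>
      rw [Finset.sum_insert ha, Finset.sum_insert ha, ← ih]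
      exact (isGr_mod 𝓜).add n _ _ (hy a) (Submodule.sum_mem _ fun k _ => hy k)
  exact h Finset.univ

/-- If moreover the Rees ring is Noetherian then `gr A` is Noetherian, and `gr M` is finitely
generated over `gr A` for a good filtration (by the symbols of the `e k`). -/
theorem gr_finite (𝓜 : MFilt 𝓕 M) (h : 𝓜.Good) : Module.Finite 𝓕.gr 𝓜.gr := by
  classical
  obtain ⟨s, b, e, he, hx⟩ := h
  have hG := isGr_mod 𝓜
  refine ⟨⟨Finset.univ.image (fun k => 𝓜.τ (b k) (e k)), ?_⟩⟩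
  rw [Submodule.eq_top_iff']
  intro v
  obtain ⟨m, y, hy, rfl⟩ := hG.surj v
  refine Submodule.sum_mem _ fun n _ => ?_
  obtain ⟨c, hc, hyn⟩ := hx n (y n) (hy n)
  have hmem : ∀ k, c k • e k ∈ 𝓜.G n := by
    intro k
    rcases Nat.lt_or_ge n (b k) with h1 | h1
    · exact Submodule.smul_mem _ _ (𝓜.anti' h1.le (he k))
    · have h2 := hG.smul_mem (n - b k) (b k) (c k) (e k) (hc k) (he k)
      rwa [Nat.sub_add_cancel h1] at h2
  rw [hyn, sm_tau_sum 𝓜 n _ hmem]
  refine Submodule.sum_mem _ fun k _ => ?_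
  rcases Nat.lt_or_ge n (b k) with h1 | h1
  · have h2 : c k • e k ∈ 𝓜.G (n + 1) := Submodule.smul_mem _ _ (𝓜.anti' h1 (he k))
    rw [(hG.ker n _ (hmem k)).2 h2]
    exact Submodule.zero_mem _
  · have h2 := hG.smul (n - b k) (b k) (c k) (e k) (hc k) (he k)
    rw [Nat.sub_add_cancel h1] at h2
    rw [← h2]
    refine Submodule.smul_mem _ _ (Submodule.subset_span ?_)
    rw [Finset.mem_coe, Finset.mem_image]
    exact ⟨k, Finset.mem_univ k, rfl⟩

end Pool.Agent.HT21
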