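import Pool.Agent.HT21.TorLes
import Pool.Agent.HT21.Num

/-!
# Additivity of theta in the first variable

`Q` a ring, `V` a module, such that for finitely generated `W` the lengths of `Tor_i(W, V)` are
finite and `2`-periodic for `i > c`.  Then `theta Q e W V`, `c < 2e+1`, is additive
in `W` on short exact sequences of finitely generated modules: `torLen_ses` and `num_lemma_enat` with
`g i = torLen i W₁ + torLen i W₃`, `a i = torLen i W₂`, `ζ = ρ`, `s = c + 1`.
-/

universe u

namespace Pool.Agent.HT21

theorem theta_add {Q : Type u} [CommRing Q] (V : Type u) [AddCommGroup V] [Module Q V] (c : ℕ)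
    (hper : ∀ (W : Type u) [AddCommGroup W] [Module Q W] [Module.Finite Q W] (i : ℕ), c < i →
      torLen Q (i + 2) W V = torLen Q i W V)
    (hfin : ∀ (W : Type u) [AddCommGroup W] [Module Q W] [Module.Finite Q W] (i : ℕ), c < i →
      torLen Q i W V ≠ ⊤)
    (W : Type u) [AddCommGroup W] [Module Q W] [Module.Finite Q W] [IsNoetherianRing Q]
    (N : Submodule Q W) (e : ℕ) (he : c < 2 * e + 1) :
    theta Q e W V = theta Q e N V + theta Q e (W ⧸ N) V := by
  obtain ⟨ρ, hρ⟩ := torLen_ses V N.subtype N.mkQ (Submodule.subtype_injective N)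
    (Submodule.mkQ_surjective N) (LinearMap.exact_subtype_mkQ N)
  have key := num_lemma_enat (fun i => torLen Q i N V + torLen Q i (W ⧸ N) V)
    (fun i => torLen Q i W V) ρ (c + 1)
    (by
      intro i _
      show torLen Q i N V + torLen Q i (W ⧸ N) V = torLen Q i W V + ρ i + ρ (i + 1)
      rw [← hρ i, add_right_comm])
    (by
      intro i hi
      exact WithTop.add_ne_top.mpr ⟨hfin N i (by omega), hfin (W ⧸ N) i (by omega)⟩)
    (by
      intro i hi
      show torLen Q (i + 2) N V + torLen Q (i + 2) (W ⧸ N) V
        = torLen Q i N V + torLen Q i (W ⧸ N) V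
      rw [hper N i (by omega), hper (W ⧸ N) i (by omega)])
    (by
      intro i hi
      exact hper W i (by omega))
    (2 * e + 1) (by omega)
  rw [ENat.toNat_add (hfin N _ (by omega)) (hfin (W ⧸ N) _ (by omega)),
    ENat.toNat_add (hfin N _ (by omega)) (hfin (W ⧸ N) _ (by omega))] at key
  unfold theta
  have e1 : 2 * e + 1 + 1 = 2 * e + 2 := by ring
  rw [e1] at key
  push_cast at key
  linarith

theorem theta_congr {Q : Type u} [CommRing Q] (V : Type u) [AddCommGroup V] [Module Q V]
    (W W' : Type u) [AddCommGroup W] [Module Q W] [AddCommGroup W'] [Module Q W']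
    (e : W ≃ₗ[Q] W') (n : ℕ) : theta Q n W V = theta Q n W' V := by
  unfold theta
  rw [torLen_congr e (LinearEquiv.refl Q V) (2 * n + 2),
    torLen_congr e (LinearEquiv.refl Q V) (2 * n + 1)]

/-- If `theta` vanishes and the lengths are periodic and finite, all lengths agree. -/
theorem const_of_theta_zero {Q : Type u} [CommRing Q] (W V : Type u) [AddCommGroup V] [Module Q V]
    [AddCommGroup W] [Module Q W] (c : ℕ)
    (hper : ∀ i, c < i → torLen Q (i + 2) W V = torLen Q i W V)
    (hfin : ∀ i, c < i → torLen Q i W V ≠ ⊤)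
    (h0 : ∀ e, c < 2 * e + 1 → theta Q e W V = 0) (i : ℕ) (hi : c < i) :
    torLen Q (i + 1) W V = torLen Q i W V := by
  -- for odd degrees `2e+1 > c` the equality with degree `2e+2` is `theta = 0`
  have hodd : ∀ e, c < 2 * e + 1 → torLen Q (2 * e + 2) W V = torLen Q (2 * e + 1) W V := by
    intro e he
    have h1 := h0 e he
    unfold theta at h1
    have h2 : (torLen Q (2 * e + 2) W V).toNat = (torLen Q (2 * e + 1) W V).toNat := by omega
    have h3 := ENat.natCast_toNat (hfin (2 * e + 2) (by omega))
    have h4 := ENat.natCast_toNat (hfin (2 * e + 1) he)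
    rw [← h3, ← h4, h2]
  rcases Nat.even_or_odd' i with ⟨k, hk | hk⟩
  · subst hk
    rw [← hper (2 * k) hi]
    exact (hodd k (by omega)).symm
  · subst hk
    exact hodd k hi

end Pool.Agent.HT21
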