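import Mathlib

/-!
# Additive functions vanish on graded modules over `S[Z]/(Z^n - g)`

`Q` is free over `S` with basis `1, Z, .., Z^(n-1)`, `Z^n = g ∈ S`, `S` Noetherian.
`lam` is an additive integer valued function on finitely generated `Q`-modules which vanishes on
all `Q ⊗_S U`.

(i) `lam Y = 0` if `Z Y = 0`: the `Q`-module `T = Q ⊗_S Y = ⊕_{j<n} Z^j ⊗ Y` has the chain
`T ≥ Z T ≥ .. ≥ Z^n T = 0` (`Z^n ⊗ y = 1 ⊗ g y = 0` since `g y = Z^n y = 0`), and
`Z^j T / Z^(j+1) T ≅ Y` for `j < n`, so `0 = lam T = n * lam Y`.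
(ii) `lam W = 0` if `Z^m W = 0` for some `m`: induction on `m` with the submodule `Z W`
(`Z^(m-1) (Z W) = 0`, `W / Z W` is killed by `Z`).
(iii) Let `U ≤ W` be an `S`-submodule such that `Z^n W ≤ Q U`, and such that `∑_{j<n} Z^j u_j = 0`,
`u_j ∈ U`, implies `Z^j u_j = 0` for all `j`.  Then `lam W = 0`: let `Φ : Q ⊗_S U → W`;
its range is `Q U`, `Z^n (W / Q U) = 0`, and its kernel `K` satisfies `Z^n K = 0`: an element of `K` is
`∑ Z^j ⊗ u_j` with `∑ Z^j u_j = 0`, so `Z^j u_j = 0`, and
`Z^n ∑ Z^j ⊗ u_j = ∑ Z^j ⊗ g u_j`, `g u_j = Z^n u_j = Z^(n-j) Z^j u_j = 0`.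
So `lam W = lam (Q U) + lam (W / Q U) = lam (Q U) = lam (Q ⊗ U) - lam K = 0`.
-/

universe u

namespace Pool.Agent.HT21

open TensorProduct

section

variable {S Q : Type u} [CommRing S] [CommRing Q] [Algebra S Q]
  (n : ℕ) (Z : Q) (g : S) (hZ : Z ^ n = algebraMap S Q g)
  (b : Module.Basis (Fin n) S Q) (hb : ∀ j : Fin n, b j = Z ^ (j : ℕ))

include hb hZ

private lemma vanish_repr_succ (q : Q) (k : ℕ) (hk : k + 1 < n) :
    b.repr (Z * q) ⟨k + 1, hk⟩ = b.repr q ⟨k, by omega⟩ := by
  have hn : 0 < n := by omega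
  have key : (b.coord ⟨k + 1, hk⟩) ∘ₗ (LinearMap.mulLeft S Z) = b.coord ⟨k, by omega⟩ := by
    refine b.ext fun j => ?_
    have e1 : Z * b j = Z ^ ((j : ℕ) + 1) := by rw [hb, pow_succ']
    rw [LinearMap.comp_apply, LinearMap.mulLeft_apply, e1]
    by_cases hj : (j : ℕ) + 1 < n
    · have e2 : Z ^ ((j : ℕ) + 1) = b ⟨(j : ℕ) + 1, hj⟩ := by rw [hb]
      rw [e2, Module.Basis.coord_apply, Module.Basis.coord_apply, Module.Basis.repr_self,
        Module.Basis.repr_self, Finsupp.single_apply, Finsupp.single_apply]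
      refine if_congr ?_ rfl rfl
      rw [Fin.ext_iff, Fin.ext_iff]
      simp
    · have hj2 : (j : ℕ) + 1 = n := by have := j.2; omega
      have e2 : Z ^ ((j : ℕ) + 1) = g • b ⟨0, hn⟩ := by
        rw [hj2, hZ, hb, Algebra.smul_def]
        simp
      rw [e2, Module.Basis.coord_apply, Module.Basis.coord_apply, map_smul,
        Module.Basis.repr_self, Module.Basis.repr_self, Finsupp.smul_apply,
        Finsupp.single_apply, Finsupp.single_apply, if_neg, if_neg, smul_zero]
      · intro h
        have := Fin.ext_iff.mp h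
        simp at this
        omega
      · intro h
        have := Fin.ext_iff.mp h
        simp at this
  have := congrArg (fun f : Q →ₗ[S] S => f q) key
  simpa using this

private lemma vanish_repr_zero (hn : 0 < n) (q : Q) :
    b.repr (Z * q) ⟨0, hn⟩ = g * b.repr q ⟨n - 1, by omega⟩ := by
  have key : (b.coord ⟨0, hn⟩) ∘ₗ (LinearMap.mulLeft S Z) =
      g • b.coord ⟨n - 1, by omega⟩ := by
    refine b.ext fun j => ?_
    have e1 : Z * b j = Z ^ ((j : ℕ) + 1) := by rw [hb, pow_succ']
    rw [LinearMap.comp_apply, LinearMap.mulLeft_apply, e1, LinearMap.smul_apply]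
    by_cases hj : (j : ℕ) + 1 < n
    · have e2 : Z ^ ((j : ℕ) + 1) = b ⟨(j : ℕ) + 1, hj⟩ := by rw [hb]
      rw [e2, Module.Basis.coord_apply, Module.Basis.coord_apply, Module.Basis.repr_self,
        Module.Basis.repr_self, Finsupp.single_apply, Finsupp.single_apply, if_neg, if_neg,
        smul_zero]
      · intro h
        have := Fin.ext_iff.mp h
        simp at this
        omega
      · intro h
        have := Fin.ext_iff.mp h
        simp at this
    · have hj2 : (j : ℕ) + 1 = n := by have := j.2; omega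
      have e2 : Z ^ ((j : ℕ) + 1) = g • b ⟨0, hn⟩ := by
        rw [hj2, hZ, hb, Algebra.smul_def]
        simp
      rw [e2, Module.Basis.coord_apply, Module.Basis.coord_apply, map_smul,
        Module.Basis.repr_self, Module.Basis.repr_self, Finsupp.smul_apply,
        Finsupp.single_apply, Finsupp.single_apply, if_pos rfl, if_pos]
      rw [Fin.ext_iff]
      simp
      omega
  have := congrArg (fun f : Q →ₗ[S] S => f q) key
  simpa using this

omit hZ in
private lemma vanish_stable {W : Type u} [AddCommGroup W] [Module Q W] [Module S W]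
    [IsScalarTower S Q W] (N : Submodule S W) (hN : ∀ w ∈ N, Z • w ∈ N) (q : Q) (w : W)
    (hw : w ∈ N) : q • w ∈ N := by
  have hpow : ∀ m : ℕ, Z ^ m • w ∈ N := by
    intro m
    induction m with
    | zero => simpa using hw
    | succ m ih => rw [pow_succ', mul_smul]; exact hN _ ih
  have hq : q = ∑ i, b.repr q i • Z ^ (i : ℕ) := by
    conv_lhs => rw [← b.sum_repr q]
    exact Finset.sum_congr rfl fun i _ => by rw [hb]
  rw [hq, Finset.sum_smul]
  refine N.sum_mem fun i _ => ?_
  rw [smul_assoc]
  exact N.smul_mem _ (hpow _)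

end

section

variable {S Q : Type u} [CommRing S] [IsNoetherianRing S] [CommRing Q] [Algebra S Q]
  (n : ℕ) (hn : 0 < n) (Z : Q) (g : S) (hZ : Z ^ n = algebraMap S Q g)
  (b : Module.Basis (Fin n) S Q) (hb : ∀ j : Fin n, b j = Z ^ (j : ℕ))
  (lam : (W : Type u) → [AddCommGroup W] → [Module Q W] → ℤ)
  (hadd : ∀ (W : Type u) [AddCommGroup W] [Module Q W] [Module.Finite Q W] (N : Submodule Q W),
    lam W = lam N + lam (W ⧸ N))
  (hiso : ∀ (W W' : Type u) [AddCommGroup W] [Module Q W] [AddCommGroup W'] [Module Q W'],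
    (W ≃ₗ[Q] W') → lam W = lam W')
  (hind : ∀ (U : Type u) [AddCommGroup U] [Module S U] [Module.Finite S U],
    lam (Q ⊗[S] U) = 0)

section aux

omit [CommRing S] [IsNoetherianRing S] [Algebra S Q] in
include hadd hiso in
private lemma vanish_subsingleton (W : Type u) [AddCommGroup W] [Module Q W]
    [Subsingleton W] : lam W = 0 := by
  have h1 := hadd W (⊤ : Submodule Q W)
  have h2 : lam (⊤ : Submodule Q W) = lam W := hiso _ _ Submodule.topEquiv
  have h3 : lam (W ⧸ (⊤ : Submodule Q W)) = lam W := by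
    refine hiso _ _ ?_
    exact LinearEquiv.ofBijective (0 : (W ⧸ (⊤ : Submodule Q W)) →ₗ[Q] W)
      ⟨fun x y _ => Subsingleton.elim _ _, fun y => ⟨0, Subsingleton.elim _ _⟩⟩
  omega

omit [CommRing S] [IsNoetherianRing S] [Algebra S Q] in
include hadd hiso in
private lemma vanish_surj (W Y : Type u) [AddCommGroup W] [Module Q W] [Module.Finite Q W]
    [AddCommGroup Y] [Module Q Y] (f : W →ₗ[Q] Y) (hf : Function.Surjective f) :
    lam W = lam (LinearMap.ker f) + lam Y := by
  rw [hadd W (LinearMap.ker f), hiso _ _ (LinearMap.quotKerEquivOfSurjective f hf)]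

omit [CommRing S] [IsNoetherianRing S] [Algebra S Q] in
include hadd hiso in
private lemma vanish_exact (K W Y : Type u) [AddCommGroup K] [Module Q K] [AddCommGroup W]
    [Module Q W] [Module.Finite Q W] [AddCommGroup Y] [Module Q Y] (i : K →ₗ[Q] W)
    (hi : Function.Injective i) (f : W →ₗ[Q] Y) (hf : Function.Surjective f)
    (hex : ∀ w, f w = 0 ↔ ∃ k, i k = w) :
    lam W = lam K + lam Y := by
  have hker : LinearMap.ker f = LinearMap.range i := by
    ext w
    rw [LinearMap.mem_ker, hex, LinearMap.mem_range]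
  rw [vanish_surj lam hadd hiso W Y f hf, hker, hiso _ _ (LinearEquiv.ofInjective i hi)]

end aux

include hn hZ hb hadd hiso hind

theorem lam_of_smul_zero (Y : Type u) [AddCommGroup Y] [Module Q Y] [Module.Finite Q Y]
    (hY : ∀ y : Y, Z • y = 0) : lam Y = 0 := by
  let _ : Module S Y := Module.compHom Y (algebraMap S Q)
  have : IsScalarTower S Q Y := IsScalarTower.of_algebraMap_smul fun r x => rfl
  have : Module.Finite S Q := Module.Finite.of_basis b
  have : IsNoetherianRing Q := IsNoetherianRing.of_finite S Q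
  have : Module.Finite S Y := Module.Finite.trans Q Y
  have hg : ∀ y : Y, g • y = 0 := by
    intro y
    have : g • y = Z ^ n • y := by rw [hZ, algebraMap_smul]
    rw [this]
    obtain ⟨m, rfl⟩ : ∃ m, n = m + 1 := ⟨n - 1, by omega⟩
    rw [pow_succ, mul_smul, hY, smul_zero]
  -- coordinates
  let c : Fin n → (Q ⊗[S] Y) →ₗ[S] Y := fun i =>
    (TensorProduct.lid S Y).toLinearMap ∘ₗ (b.coord i).rTensor Y
  have hc : ∀ (i : Fin n) (q : Q) (y : Y), c i (q ⊗ₜ[S] y) = b.repr q i • y := by
    intro i q y
    simp [c]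
  have hcsucc : ∀ (k : ℕ) (hk : k + 1 < n) (z : Q ⊗[S] Y),
      c ⟨k + 1, hk⟩ (Z • z) = c ⟨k, by omega⟩ z := by
    intro k hk z
    induction z using TensorProduct.induction_on with
    | zero => simp
    | tmul q y =>
      rw [TensorProduct.smul_tmul', smul_eq_mul, hc, hc, vanish_repr_succ n Z g hZ b hb]
    | add x y hx hy => rw [smul_add, map_add, map_add, hx, hy]
  have hczero : ∀ z : Q ⊗[S] Y, c ⟨0, hn⟩ (Z • z) = 0 := by
    intro z
    induction z using TensorProduct.induction_on with
    | zero => simp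
    | tmul q y =>
      rw [TensorProduct.smul_tmul', smul_eq_mul, hc, vanish_repr_zero n Z g hZ b hb hn, mul_smul,
        hg]
    | add x y hx hy => rw [smul_add, map_add, hx, hy, add_zero]
  -- the chain
  let NS : ℕ → Submodule S (Q ⊗[S] Y) := fun j =>
    { carrier := {z | ∀ i : Fin n, (i : ℕ) < j → c i z = 0}
      add_mem' := by
        intro x y hx hy i hi
        rw [map_add, hx i hi, hy i hi, add_zero]
      zero_mem' := by
        intro i _
        rw [map_zero]
      smul_mem' := by
        intro s x hx i hi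
        rw [map_smul, hx i hi, smul_zero] }
  have hNZ : ∀ j, ∀ z ∈ NS j, Z • z ∈ NS j := by
    intro j z hz i hi
    rcases Nat.eq_zero_or_pos (i : ℕ) with h0 | h0
    · have : i = ⟨0, hn⟩ := Fin.ext h0
      rw [this]
      exact hczero z
    · have hlt : ((i : ℕ) - 1) + 1 < n := by have := i.2; omega
      have : i = ⟨((i : ℕ) - 1) + 1, hlt⟩ := Fin.ext (by simp; omega)
      rw [this, hcsucc]
      exact hz _ (by simp; omega)
  let N : ℕ → Submodule Q (Q ⊗[S] Y) := fun j =>
    { carrier := NS j
      add_mem' := (NS j).add_mem'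
      zero_mem' := (NS j).zero_mem'
      smul_mem' := fun q z hz => vanish_stable n Z b hb (NS j) (hNZ j) q z hz }
  have hmemN : ∀ j (z : Q ⊗[S] Y), z ∈ N j ↔ ∀ i : Fin n, (i : ℕ) < j → c i z = 0 :=
    fun j z => Iff.rfl
  have : IsNoetherian Q (Q ⊗[S] Y) := isNoetherian_of_isNoetherianRing_of_finite Q _
  have step : ∀ j, j < n → lam (N j) = lam (N (j + 1)) + lam Y := by
    intro j hj
    -- the coordinate map
    have hlin : ∀ (q : Q) (z : N j), c ⟨j, hj⟩ (q • (z : Q ⊗[S] Y)) = q • c ⟨j, hj⟩ z := by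
      intro q z
      -- the set of q for which this holds for all z
      have hZZ : ∀ x : Q ⊗[S] Y, x ∈ N j → c ⟨j, hj⟩ (Z • x) = 0 := by
        intro x hx
        rcases Nat.eq_zero_or_pos j with h0 | h0
        · have e0 : (⟨j, hj⟩ : Fin n) = ⟨0, hn⟩ := Fin.ext h0
          rw [e0]
          exact hczero x
        · have hlt : (j - 1) + 1 < n := by omega
          have e0 : (⟨j, hj⟩ : Fin n) = ⟨(j - 1) + 1, hlt⟩ := Fin.ext (by simp; omega)
          rw [e0, hcsucc]
          exact hx _ (by simp; omega)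
      have hq : q = ∑ i, b.repr q i • Z ^ (i : ℕ) := by
        conv_lhs => rw [← b.sum_repr q]
        exact Finset.sum_congr rfl fun i _ => by rw [hb]
      have hpow : ∀ m : ℕ, c ⟨j, hj⟩ (Z ^ m • (z : Q ⊗[S] Y)) = Z ^ m • c ⟨j, hj⟩ z := by
        intro m
        induction m with
        | zero => simp
        | succ m ih =>
          rw [pow_succ', mul_smul, mul_smul, hY]
          exact hZZ _ ((N j).smul_mem _ z.2)
      rw [hq, Finset.sum_smul, Finset.sum_smul, map_sum]
      refine Finset.sum_congr rfl fun i _ => ?_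
      rw [smul_assoc, smul_assoc, map_smul, hpow]
    obtain ⟨f, hf0⟩ : ∃ f : N j →ₗ[Q] Y, ∀ z : N j, f z = c ⟨j, hj⟩ z :=
      ⟨{ toFun := fun z => c ⟨j, hj⟩ z
         map_add' := by
          intro x y
          rw [Submodule.coe_add, map_add]
         map_smul' := by
          intro q z
          rw [Submodule.coe_smul, hlin]
          rfl }, fun z => rfl⟩
    have hf : Function.Surjective f := by
      intro y
      refine ⟨⟨b ⟨j, hj⟩ ⊗ₜ[S] y, ?_⟩, ?_⟩
      · rw [hmemN]
        intro i hi
        rw [hc, Module.Basis.repr_self, Finsupp.single_apply, if_neg, zero_smul]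
        intro h
        rw [← h] at hi
        simp at hi
      · rw [hf0]
        show c ⟨j, hj⟩ (b ⟨j, hj⟩ ⊗ₜ[S] y) = y
        rw [hc, Module.Basis.repr_self, Finsupp.single_apply, if_pos rfl, one_smul]
    have hle : N (j + 1) ≤ N j := by
      intro z hz i hi
      exact hz i (by omega)
    refine vanish_exact lam hadd hiso (N (j + 1)) (N j) Y (Submodule.inclusion hle)
      (Submodule.inclusion_injective hle) f hf ?_
    intro w
    rw [hf0]
    constructor
    · intro hw
      refine ⟨⟨w, ?_⟩, Subtype.ext rfl⟩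
      intro i hi
      rcases Nat.lt_or_ge (i : ℕ) j with h | h
      · exact w.2 i h
      · have : i = ⟨j, hj⟩ := Fin.ext (by simp; omega)
        rw [this]
        exact hw
    · rintro ⟨k, rfl⟩
      exact k.2 ⟨j, hj⟩ (by simp)
  have hsum : ∀ j, j ≤ n → lam (N 0) = lam (N j) + j * lam Y := by
    intro j
    induction j with
    | zero => intro _; simp
    | succ j ih =>
      intro hj
      rw [ih (by omega), step j (by omega)]
      push_cast
      ring
  have hN0 : lam (N 0) = 0 := by
    have htop : N 0 = ⊤ := by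
      rw [eq_top_iff]
      intro z _ i hi
      omega
    rw [hiso (N 0) (⊤ : Submodule Q (Q ⊗[S] Y)) (LinearEquiv.ofEq _ _ htop),
      hiso _ _ Submodule.topEquiv]
    exact hind Y
  have hNn : lam (N n) = 0 := by
    have hbot : ∀ z ∈ N n, z = 0 := by
      intro z hz
      have hrep : ∀ z : Q ⊗[S] Y, z = ∑ i, b i ⊗ₜ[S] c i z := by
        intro z
        induction z using TensorProduct.induction_on with
        | zero => simp
        | tmul q y =>
          conv_lhs => rw [← b.sum_repr q, TensorProduct.sum_tmul]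
          refine Finset.sum_congr rfl fun i _ => ?_
          rw [hc, TensorProduct.smul_tmul]
        | add x y hx hy =>
          conv_lhs => rw [hx, hy]
          rw [← Finset.sum_add_distrib]
          refine Finset.sum_congr rfl fun i _ => ?_
          rw [map_add, TensorProduct.tmul_add]
      rw [hrep z]
      refine Finset.sum_eq_zero fun i _ => ?_
      rw [hz i i.2, TensorProduct.tmul_zero]
    have : Subsingleton (N n) :=
      ⟨fun x y => Subtype.ext (by rw [hbot x x.2, hbot y y.2])⟩
    exact vanish_subsingleton lam hadd hiso (N n)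
  have h := hsum n le_rfl
  rw [hN0, hNn, zero_add] at h
  rcases mul_eq_zero.mp h.symm with h1 | h1
  · exfalso
    have : n = 0 := by exact_mod_cast h1
    omega
  · exact h1

theorem lam_of_pow_smul_zero (m : ℕ) (W : Type u) [AddCommGroup W] [Module Q W]
    [Module.Finite Q W] (hW : ∀ y : W, Z ^ m • y = 0) : lam W = 0 := by
  have : Module.Finite S Q := Module.Finite.of_basis b
  have : IsNoetherianRing Q := IsNoetherianRing.of_finite S Q
  induction m generalizing W with
  | zero =>
    have : Subsingleton W := ⟨fun x y => by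
      have h1 := hW x
      have h2 := hW y
      rw [pow_zero, one_smul] at h1 h2
      rw [h1, h2]⟩
    exact vanish_subsingleton lam hadd hiso W
  | succ m ih =>
    have : IsNoetherian Q W := isNoetherian_of_isNoetherianRing_of_finite Q W
    let N : Submodule Q W := LinearMap.range (LinearMap.lsmul Q W Z)
    have h1 : lam N = 0 := by
      refine ih N ?_
      rintro ⟨y, x, rfl⟩
      apply Subtype.ext
      show Z ^ m • (Z • x) = 0
      rw [← mul_smul, ← pow_succ]
      exact hW x
    have h2 : lam (W ⧸ N) = 0 := by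
      refine lam_of_smul_zero n hn Z g hZ b hb lam hadd hiso hind (W ⧸ N) ?_
      intro y
      obtain ⟨x, rfl⟩ := Submodule.Quotient.mk_surjective N y
      rw [← Submodule.Quotient.mk_smul, Submodule.Quotient.mk_eq_zero]
      exact ⟨x, rfl⟩
    rw [hadd W N, h1, h2, add_zero]

theorem lam_of_grading (W : Type u) [AddCommGroup W] [Module Q W] [Module.Finite Q W]
    [Module S W] [IsScalarTower S Q W] (U : Submodule S W)
    (h1 : ∀ w : W, Z ^ n • w ∈ Submodule.span Q (U : Set W))
    (h2 : ∀ u : Fin n → W, (∀ j, u j ∈ U) → ∑ j : Fin n, Z ^ (j : ℕ) • u j = 0 →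
      ∀ j : Fin n, Z ^ (j : ℕ) • u j = 0) : lam W = 0 := by
  have : Module.Finite S Q := Module.Finite.of_basis b
  have : IsNoetherianRing Q := IsNoetherianRing.of_finite S Q
  have : Module.Finite S W := Module.Finite.trans Q W
  have : IsNoetherian S W := isNoetherian_of_isNoetherianRing_of_finite S W
  have : Module.Finite S U := inferInstance
  have : IsNoetherian Q (Q ⊗[S] U) := isNoetherian_of_isNoetherianRing_of_finite Q _
  let Φ : (Q ⊗[S] U) →ₗ[Q] W := LinearMap.liftBaseChange Q U.subtype
  have hΦ : ∀ (q : Q) (x : U), Φ (q ⊗ₜ[S] x) = q • (x : W) := by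
    intro q x
    simp [Φ]
  -- every element is a sum of pure tensors of basis elements
  have hrep : ∀ z : Q ⊗[S] U, ∃ c : Fin n → U, z = ∑ i, b i ⊗ₜ[S] c i := by
    intro z
    induction z using TensorProduct.induction_on with
    | zero => exact ⟨0, by simp⟩
    | tmul q y =>
      refine ⟨fun i => b.repr q i • y, ?_⟩
      conv_lhs => rw [← b.sum_repr q, TensorProduct.sum_tmul]
      exact Finset.sum_congr rfl fun i _ => by rw [TensorProduct.smul_tmul]
    | add x y hx hy =>
      obtain ⟨c, hc⟩ := hx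
      obtain ⟨d, hd⟩ := hy
      refine ⟨fun i => c i + d i, ?_⟩
      rw [hc, hd, ← Finset.sum_add_distrib]
      exact Finset.sum_congr rfl fun i _ => by rw [TensorProduct.tmul_add]
  have hK : lam (LinearMap.ker Φ) = 0 := by
    refine lam_of_pow_smul_zero n hn Z g hZ b hb lam hadd hiso hind n (LinearMap.ker Φ) ?_
    rintro ⟨z, hz⟩
    apply Subtype.ext
    show Z ^ n • z = 0
    obtain ⟨c, hc⟩ := hrep z
    have hz' : ∑ j : Fin n, Z ^ (j : ℕ) • (c j : W) = 0 := by
      have : Φ z = 0 := hz
      rw [hc, map_sum] at this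
      rw [← this]
      exact Finset.sum_congr rfl fun i _ => by rw [hΦ, hb]
    have h3 := h2 (fun j => (c j : W)) (fun j => (c j).2) hz'
    have h4 : ∀ j, g • c j = 0 := by
      intro j
      apply Subtype.ext
      have e : (g • c j : U) = (g • (c j : W) : W) := rfl
      rw [e]
      have e2 : g • (c j : W) = Z ^ n • (c j : W) := by rw [hZ, algebraMap_smul]
      rw [e2]
      have e3 : n = (n - (j : ℕ)) + (j : ℕ) := by have := j.2; omega
      have e4 : Z ^ n • (c j : W) = Z ^ (n - (j : ℕ)) • (Z ^ (j : ℕ) • (c j : W)) := by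
        rw [← mul_smul, ← pow_add, ← e3]
      rw [e4, h3 j, smul_zero]
      rfl
    rw [hc, Finset.smul_sum]
    refine Finset.sum_eq_zero fun i _ => ?_
    have e5 : Z ^ n • (b i ⊗ₜ[S] c i) = b i ⊗ₜ[S] (g • c i) := by
      rw [hZ, algebraMap_smul, TensorProduct.tmul_smul]
    rw [e5, h4, TensorProduct.tmul_zero]
  have hR : lam (LinearMap.range Φ) = 0 := by
    have e1 := hadd (Q ⊗[S] U) (LinearMap.ker Φ)
    rw [hind U, hK, zero_add, hiso _ _ (LinearMap.quotKerEquivRange Φ)] at e1
    exact e1.symm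
  have hspan : Submodule.span Q (U : Set W) ≤ LinearMap.range Φ := by
    rw [Submodule.span_le]
    intro x hx
    exact ⟨1 ⊗ₜ[S] ⟨x, hx⟩, by rw [hΦ, one_smul]⟩
  have hQ : lam (W ⧸ LinearMap.range Φ) = 0 := by
    refine lam_of_pow_smul_zero n hn Z g hZ b hb lam hadd hiso hind n
      (W ⧸ LinearMap.range Φ) ?_
    intro y
    obtain ⟨x, rfl⟩ := Submodule.Quotient.mk_surjective _ y
    rw [← Submodule.Quotient.mk_smul, Submodule.Quotient.mk_eq_zero]
    exact hspan (h1 x)
  rw [hadd W (LinearMap.range Φ), hR, hQ, add_zero]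

end

end Pool.Agent.HT21
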