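import Pool.Agent.HT21.HypAG
import Pool.Agent.HT21.Small
import Pool.Agent.HT21.Vanish
import Pool.Agent.HT21.ThetaAdd
import Pool.Agent.HT21.GradU
import Pool.Agent.HT21.FreeZ
import Pool.Agent.HT21.IndPd

/-!
# Vanishing for weighted leading forms `z^n - g`, `gcd(n, deg g) = 1`

`gr_const`: over `Q = gr A ≅ k[X]/(X_0^n - g0)` the lengths of `Tor_i(gr L, gr M)`, `i > d`, are
constant.  Proof: `lam W = theta Q e W V` with `V = gr M`, `d < 2e+1`, is additive
(`theta_add` with `c = d`, `hypG_per`, `hypG_fin`), vanishes on induced modules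
(`tor_induced` with `S = k[X_1, .., X_d]`, `pd_mvPolynomial`, `Q` free over `S` by `exists_basis`), so
`lam_of_grading` applies to `W = gr L` with `U = Udeg 𝓛.G 𝓛.τ n` (an `S`-submodule by `Udeg_smul`,
because `X_i`, `i ≥ 1`, acts as `σ (n * w i) (x̄ i)` and constants as `σ 0 r̄`), `Z = σ w0 x̄_0`,
`Udeg_span`, `Udeg_indep`.  Conclude with `const_of_theta_zero`.
`coprime_vanish`: `const_transfer` with the standard filtrations (`MFilt.std_good`).
`double_point`: the case `f ≡ z^2 + ∑ u_j v_j` modulo `m^3`: take `n = 2`, `w0 = 3`, weights `1` for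
`u_j` and `2` for `v_j` (so `2` and `4` in `R`), `g = - ∑ U_j V_j - (cubic form in the U_j)`.
-/

universe u

namespace Pool.Agent.HT21

open MvPolynomial IsLocalRing

/-- weights: `w0` for `x 0` and `n * w i` for `x (i+1)` -/
def cw {d : ℕ} (n w0 : ℕ) (w : Fin d → ℕ) : Fin (d + 1) → ℕ := Fin.cons w0 fun i => n * w i

open TensorProduct in
/-- the statement in terms of a presentation of the graded ring -/
private theorem gr_const_aux {k : Type u} [Field k] {A : Type u} [CommRing A] (𝓕 : RFilt A) (d : ℕ)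
    (n w0 : ℕ) (w : Fin d → ℕ) (hn : 0 < n) (hco : Nat.Coprime w0 n)
    (φ : MvPolynomial (Fin (d + 1)) k →+* 𝓕.gr) (hφ : Function.Surjective φ)
    (gk : MvPolynomial (Fin d) k)
    (hker : RingHom.ker φ = Ideal.span {X 0 ^ n - rename Fin.succ gk})
    (z : Fin (d + 1) → A) (hz0 : z 0 ∈ 𝓕.F w0) (hzs : ∀ i : Fin d, z i.succ ∈ 𝓕.F (n * w i))
    (hφ0 : φ (X 0) = 𝓕.σ w0 (z 0))
    (hφs : ∀ i : Fin d, φ (X i.succ) = 𝓕.σ (n * w i) (z i.succ))
    (hφC : ∀ c : k, ∃ a : A, φ (C c) = 𝓕.σ 0 a)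
    (L M : Type u) [AddCommGroup L] [Module A L] [AddCommGroup M] [Module A M]
    (𝓛 : MFilt 𝓕 L) (𝓜 : MFilt 𝓕 M) (hL : Module.Finite 𝓕.gr 𝓛.gr)
    (hper : ∀ (W : Type u) [AddCommGroup W] [Module 𝓕.gr W] [Module.Finite 𝓕.gr W] (i : ℕ), d < i →
      torLen 𝓕.gr (i + 2) W 𝓜.gr = torLen 𝓕.gr i W 𝓜.gr)
    (hfin : ∀ (W : Type u) [AddCommGroup W] [Module 𝓕.gr W] [Module.Finite 𝓕.gr W] (i : ℕ), d < i →
      torLen 𝓕.gr i W 𝓜.gr ≠ ⊤)
    (i : ℕ) (hi : d < i) :
    torLen 𝓕.gr (i + 1) 𝓛.gr 𝓜.gr = torLen 𝓕.gr i 𝓛.gr 𝓜.gr := by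
  have : IsNoetherianRing 𝓕.gr := isNoetherianRing_of_surjective _ _ φ hφ
  let _ : Algebra (MvPolynomial (Fin d) k) 𝓕.gr :=
    (φ.comp (rename (R := k) (Fin.succ : Fin d → Fin (d + 1)) :
      MvPolynomial (Fin d) k →+* MvPolynomial (Fin (d + 1)) k)).toAlgebra
  have halg : ∀ p : MvPolynomial (Fin d) k, algebraMap (MvPolynomial (Fin d) k) 𝓕.gr p
      = φ (rename Fin.succ p) := fun p => rfl
  obtain ⟨b, hb⟩ := exists_basis n hn gk φ hφ hker halg
  have : Module.Free (MvPolynomial (Fin d) k) 𝓕.gr := Module.Free.of_basis b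
  have hZ : (φ (X 0)) ^ n = algebraMap (MvPolynomial (Fin d) k) 𝓕.gr gk := by
    have h1 : (X 0 ^ n - rename Fin.succ gk : MvPolynomial (Fin (d + 1)) k) ∈ RingHom.ker φ := by
      rw [hker]
      exact Ideal.subset_span rfl
    rw [RingHom.mem_ker, map_sub, map_pow, sub_eq_zero] at h1
    rw [h1, halg]
  let _ : Module (MvPolynomial (Fin d) k) 𝓛.gr :=
    Module.compHom 𝓛.gr (algebraMap (MvPolynomial (Fin d) k) 𝓕.gr)
  have hsm : ∀ (s : MvPolynomial (Fin d) k) (v : 𝓛.gr),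
      s • v = algebraMap (MvPolynomial (Fin d) k) 𝓕.gr s • v := fun s v => rfl
  have : IsScalarTower (MvPolynomial (Fin d) k) 𝓕.gr 𝓛.gr := by
    refine ⟨fun s q v => ?_⟩
    rw [hsm, Algebra.smul_def, mul_smul]
  have hU : ∀ (s : MvPolynomial (Fin d) k) (v : 𝓛.gr), v ∈ Udeg 𝓛.G 𝓛.τ n →
      s • v ∈ Udeg 𝓛.G 𝓛.τ n := by
    intro s
    induction s using MvPolynomial.induction_on with
    | C c =>
      intro v hv
      obtain ⟨a, ha⟩ := hφC c
      rw [hsm, halg, rename_C, ha]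
      have h0 : a ∈ 𝓕.F (n * 0) := by
        rw [Nat.mul_zero, 𝓕.zero']
        trivial
      have h1 := Udeg_smul (isGr_mod 𝓛) n 0 a h0 v hv
      rw [Nat.mul_zero] at h1
      exact h1
    | add p q hp hq =>
      intro v hv
      rw [add_smul]
      exact AddSubgroup.add_mem _ (hp v hv) (hq v hv)
    | mul_X p j hp =>
      intro v hv
      rw [mul_smul]
      refine hp _ ?_
      rw [hsm, halg, rename_X, hφs]
      exact Udeg_smul (isGr_mod 𝓛) n (w j) _ (hzs j) v hv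
  let U : Submodule (MvPolynomial (Fin d) k) 𝓛.gr :=
    { carrier := Udeg 𝓛.G 𝓛.τ n
      add_mem' := fun ha hb => AddSubgroup.add_mem _ ha hb
      zero_mem' := AddSubgroup.zero_mem _
      smul_mem' := fun s v hv => hU s v hv }
  refine const_of_theta_zero 𝓛.gr 𝓜.gr d (fun i hi => hper 𝓛.gr i hi) (fun i hi => hfin 𝓛.gr i hi)
    ?_ i hi
  intro e he
  refine lam_of_grading n hn (φ (X 0)) gk hZ b hb
    (fun W _ _ => theta 𝓕.gr e W 𝓜.gr) ?_ ?_ ?_ 𝓛.gr U ?_ ?_
  · intro W _ _ _ N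
    exact theta_add 𝓜.gr d (fun W _ _ _ i hi => hper W i hi) (fun W _ _ _ i hi => hfin W i hi) W N e he
  · intro W W' _ _ _ _ E
    exact theta_congr 𝓜.gr W W' E e
  · intro Y _ _ _
    have hpd := pd_mvPolynomial k d Y
    show theta 𝓕.gr e (𝓕.gr ⊗[MvPolynomial (Fin d) k] Y) 𝓜.gr = 0
    unfold theta
    rw [tor_induced d Y 𝓜.gr hpd (2 * e + 2) (by omega), tor_induced d Y 𝓜.gr hpd (2 * e + 1) (by omega)]
    simp
  · intro v
    rw [hφ0]
    exact Udeg_span (isGr_mod 𝓛) n hn w0 hco (z 0) hz0 v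
  · intro u hu h0 j
    rw [hφ0] at h0 ⊢
    exact Udeg_indep (isGr_mod 𝓛) n hn w0 hco (z 0) hz0 u hu h0 j

private theorem cw_pos {d : ℕ} {n w0 : ℕ} {w : Fin d → ℕ} (hn : 0 < n) (hw0 : 0 < w0)
    (hw : ∀ i, 0 < w i) (i : Fin (d + 1)) : 0 < cw n w0 w i := by
  refine Fin.cases ?_ ?_ i
  · exact hw0
  · intro j
    exact Nat.mul_pos hn (hw j)

private theorem cw_zero {d : ℕ} (n w0 : ℕ) (w : Fin d → ℕ) : cw n w0 w 0 = w0 := rfl

private theorem cw_succ {d : ℕ} (n w0 : ℕ) (w : Fin d → ℕ) (i : Fin d) :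
    cw n w0 w i.succ = n * w i := rfl

private theorem cw_mem {A : Type u} [CommRing A] {m : ℕ} (x : Fin m → A) (w : Fin m → ℕ) (i : Fin m) :
    x i ∈ (wFilt x w).F (w i) := by
  classical
  refine Ideal.subset_span ⟨Pi.single i 1, ?_, ?_⟩
  · rw [Finset.sum_eq_single i]
    · simp
    · intro j _ hj
      simp [hj]
    · intro h
      exact absurd (Finset.mem_univ i) h
  · rw [Finset.prod_eq_single i]
    · simp
    · intro j _ hj
      simp [hj]
    · intro h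
      exact absurd (Finset.mem_univ i) h

private theorem cw_whom {R : Type u} [CommRing R] {d : ℕ} (n w0 : ℕ) (w : Fin d → ℕ)
    (g : MvPolynomial (Fin d) R) (hg : g.IsWeightedHomogeneous w w0) :
    (X 0 ^ n - rename Fin.succ g : MvPolynomial (Fin (d + 1)) R).IsWeightedHomogeneous
      (cw n w0 w) (n * w0) := by
  classical
  have h1 : (X 0 ^ n : MvPolynomial (Fin (d + 1)) R).IsWeightedHomogeneous (cw n w0 w) (n * w0) := by
    have h := (isWeightedHomogeneous_X R (cw n w0 w) (0 : Fin (d + 1))).pow n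
    rw [cw_zero] at h
    simpa [smul_eq_mul] using h
  have h2 : (rename Fin.succ g : MvPolynomial (Fin (d + 1)) R).IsWeightedHomogeneous
      (cw n w0 w) (n * w0) := by
    intro m hm
    obtain ⟨u, hu, hgu⟩ := coeff_rename_ne_zero _ _ _ hm
    have h3 := hg hgu
    rw [← hu]
    rw [Finsupp.weight_apply] at h3 ⊢
    rw [Finsupp.sum_mapDomain_index (by intro i; simp) (by intro i a b; simp [add_mul])]
    rw [← h3, Finsupp.sum, Finsupp.sum, Finset.mul_sum]
    refine Finset.sum_congr rfl fun i _ => ?_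
    rw [cw_succ]
    simp only [smul_eq_mul]
    ring
  exact (weightedHomogeneousSubmodule R (cw n w0 w) (n * w0)).sub_mem h1 h2

private theorem cw_ne {k : Type u} [Field k] {d : ℕ} (n : ℕ) (hn : 0 < n)
    (g : MvPolynomial (Fin d) k) :
    (X 0 ^ n - rename Fin.succ g : MvPolynomial (Fin (d + 1)) k) ≠ 0 := by
  classical
  intro h
  have h1 := congrArg (coeff (Finsupp.single (0 : Fin (d + 1)) n)) h
  rw [coeff_sub, coeff_zero, coeff_X_pow, if_pos rfl] at h1
  have h2 : coeff (Finsupp.single (0 : Fin (d + 1)) n) (rename Fin.succ g) = 0 := by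
    refine coeff_rename_eq_zero _ _ _ ?_
    intro u hu
    exfalso
    have h3 := DFunLike.congr_fun hu (0 : Fin (d + 1))
    rw [Finsupp.mapDomain_of_notMem_range, Finsupp.single_eq_same] at h3
    · omega
    · rintro ⟨j, hj⟩
      exact Fin.succ_ne_zero j hj
  rw [h2] at h1
  simp at h1

section

variable {R : Type u} [CommRing R] [IsLocalRing R] [IsNoetherianRing R] (d : ℕ)
  (x : Fin (d + 1) → R)
  (hx : Ideal.span (Set.range x) = maximalIdeal R)
  (hreg : RingTheory.Sequence.IsRegular R (List.ofFn x))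
  (n w0 : ℕ) (w : Fin d → ℕ) (hn : 0 < n) (hw0 : 0 < w0) (hw : ∀ i, 0 < w i)
  (hco : Nat.Coprime w0 n)
  (g : MvPolynomial (Fin d) R) (hg : g.IsWeightedHomogeneous w w0)
  (f : R) (hf : f - (x 0 ^ n - aeval (fun i => x (Fin.succ i)) g)
    ∈ (wFilt x (cw n w0 w)).F (n * w0 + 1))
  (hJ : Module.Finite (ResidueField R) (MvPolynomial (Fin (d + 1)) (ResidueField R) ⧸
    jacIdeal (X 0 ^ n - rename Fin.succ (g.map (residue R)))))

include hx hreg hn hw0 hw hco hg hf hJ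

theorem gr_const (L M : Type u) [AddCommGroup L] [Module (R ⧸ Ideal.span {f}) L]
    [AddCommGroup M] [Module (R ⧸ Ideal.span {f}) M]
    (𝓛 : MFilt (wFilt (fun i => Ideal.Quotient.mk (Ideal.span {f}) (x i)) (cw n w0 w)) L)
    (𝓜 : MFilt (wFilt (fun i => Ideal.Quotient.mk (Ideal.span {f}) (x i)) (cw n w0 w)) M)
    (hL : 𝓛.Good) (hM : 𝓜.Good) (i : ℕ) (hi : d < i) :
    torLen (wFilt (fun i => Ideal.Quotient.mk (Ideal.span {f}) (x i)) (cw n w0 w)).gr (i + 1)
        𝓛.gr 𝓜.gr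
      = torLen (wFilt (fun i => Ideal.Quotient.mk (Ideal.span {f}) (x i)) (cw n w0 w)).gr i
        𝓛.gr 𝓜.gr := by
  have hPm : (X 0 ^ n - rename Fin.succ g : MvPolynomial (Fin (d + 1)) R).map (residue R)
      = X 0 ^ n - rename Fin.succ (g.map (residue R)) := by
    rw [map_sub, map_pow, map_X, map_rename]
  have hP := cw_whom n w0 w g hg
  have hP0 : (X 0 ^ n - rename Fin.succ g : MvPolynomial (Fin (d + 1)) R).map (residue R) ≠ 0 := by
    rw [hPm]
    exact cw_ne n hn _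
  have hf' : f - aeval x (X 0 ^ n - rename Fin.succ g : MvPolynomial (Fin (d + 1)) R)
      ∈ (wFilt x (cw n w0 w)).F (n * w0 + 1) := by
    have h1 : aeval x (X 0 ^ n - rename Fin.succ g : MvPolynomial (Fin (d + 1)) R)
        = x 0 ^ n - aeval (fun i => x (Fin.succ i)) g := by
      rw [map_sub, map_pow, aeval_X, aeval_rename]
      rfl
    rw [h1]
    exact hf
  have hN : 0 < n * w0 := Nat.mul_pos hn hw0
  have hcw : ∀ i, 0 < cw n w0 w i := cw_pos hn hw0 hw
  obtain ⟨φ, hφ, hker, hφX, hφC⟩ := gr_hyp x (cw n w0 w) hcw hx hreg.toIsWeaklyRegular (n * w0) _ hP hP0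
    f hf'
  rw [hPm] at hker
  have : Module.Finite (wFilt (fun i => Ideal.Quotient.mk (Ideal.span {f}) (x i)) (cw n w0 w)).gr 𝓜.gr :=
    gr_finite 𝓜 hM
  refine gr_const_aux (wFilt (fun i => Ideal.Quotient.mk (Ideal.span {f}) (x i)) (cw n w0 w)) d n w0 w
    hn hco φ hφ (g.map (residue R)) hker (fun i => Ideal.Quotient.mk (Ideal.span {f}) (x i)) ?_ ?_ ?_ ?_ ?_
    L M 𝓛 𝓜 (gr_finite 𝓛 hL) ?_ ?_ i hi
  · exact cw_mem _ (cw n w0 w) 0
  · intro j
    exact cw_mem (fun i => Ideal.Quotient.mk (Ideal.span {f}) (x i)) (cw n w0 w) j.succ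
  · exact hφX 0
  · intro j
    exact hφX j.succ
  · intro c
    obtain ⟨r, rfl⟩ := IsLocalRing.residue_surjective c
    exact ⟨_, hφC r⟩
  · intro W _ _ _ i hi
    exact hypG_per d x (cw n w0 w) hcw hx hreg (n * w0) hN _ hP hP0 f hf' W 𝓜.gr i hi
  · intro W _ _ _ i hi
    refine hypG_fin d x (cw n w0 w) hcw hx hreg (n * w0) hN _ hP hP0 f hf' ?_ W 𝓜.gr i hi
    rw [hPm]
    exact hJ

end

end Pool.Agent.HT21
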