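import Pool.Agent.HT21.Defs

/-!
# The standard filtration `F n • M`
-/

universe u

namespace Pool.Agent.HT21

variable {A : Type u} [CommRing A]

/-- The standard filtration `F n • M` of a module. -/
def MFilt.std (𝓕 : RFilt A) (M : Type u) [AddCommGroup M] [Module A M] : MFilt 𝓕 M where
  G n := 𝓕.F n • (⊤ : Submodule A M)
  zero' := by
    rw [𝓕.zero', Submodule.top_smul]
  anti' := by
    intro a b hab
    exact Submodule.smul_mono_left (𝓕.anti' hab)
  smul' := by
    intro i j
    rw [← mul_smul]
    exact Submodule.smul_mono_left (𝓕.mul' i j)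

/-- The standard filtration of a finitely generated module is good (all `b k = 0`). -/
theorem MFilt.std_good (𝓕 : RFilt A) (M : Type u) [AddCommGroup M] [Module A M]
    [Module.Finite A M] : (MFilt.std 𝓕 M).Good := by
  obtain ⟨s, e, he⟩ := Module.Finite.exists_fin (R := A) (M := M)
  refine ⟨s, fun _ => 0, e, fun k => ?_, fun n x hx => ?_⟩
  · rw [(MFilt.std 𝓕 M).zero']
    trivial
  · have hx' : x ∈ 𝓕.F n • (⊤ : Submodule A M) := hx
    rw [← he, Submodule.mem_ideal_smul_span_iff_exists_sum] at hx'
    obtain ⟨a, ha, hax⟩ := hx'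
    refine ⟨a, fun k => by simpa using ha k, ?_⟩
    rw [← hax]
    exact Finsupp.sum_fintype _ _ (fun i => zero_smul A (e i))

end Pool.Agent.HT21
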