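import Pool.Agent.HT21.FinalA
import Pool.Agent.HT21.GrConst
import Pool.Agent.HT21.Std

/-!
# Vanishing for weighted leading forms `z^n - g`, `gcd(n, deg g) = 1`

`coprime_vanish`: `const_transfer` and `tangent_cone` (finiteness) with
`P = X 0 ^ n - rename Fin.succ g`, `N = n * w0`, weights `cw n w0 w`, the standard filtrations
(`MFilt.std_good`), and `gr_const`.
-/

universe u

namespace Pool.Agent.HT21

open MvPolynomial IsLocalRing

private theorem finalB_weight {d : ℕ} (n w0 : ℕ) (w : Fin d → ℕ) (α : Fin d →₀ ℕ) :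
    Finsupp.weight (cw n w0 w) (α.mapDomain Fin.succ) = n * Finsupp.weight w α := by
  rw [Finsupp.weight_apply, Finsupp.weight_apply, Finsupp.sum_mapDomain_index_inj
    (Fin.succ_injective d), Finsupp.sum, Finsupp.sum, Finset.mul_sum]
  refine Finset.sum_congr rfl fun i _ => ?_
  simp only [cw, Fin.cons_succ, smul_eq_mul]
  ring

private theorem finalB_rename {R : Type u} [CommRing R] {d : ℕ} (n w0 : ℕ) (w : Fin d → ℕ)
    (g : MvPolynomial (Fin d) R) (hg : g.IsWeightedHomogeneous w w0) :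
    (rename Fin.succ g).IsWeightedHomogeneous (cw n w0 w) (n * w0) := by
  intro β hβ
  obtain ⟨α, rfl, hα⟩ := coeff_rename_ne_zero _ _ _ hβ
  rw [finalB_weight, hg hα]

private theorem finalB_hom {R : Type u} [CommRing R] {d : ℕ} (n w0 : ℕ) (w : Fin d → ℕ)
    (g : MvPolynomial (Fin d) R) (hg : g.IsWeightedHomogeneous w w0) :
    (X 0 ^ n - rename Fin.succ g : MvPolynomial (Fin (d + 1)) R).IsWeightedHomogeneous
      (cw n w0 w) (n * w0) := by
  have h1 : (X 0 ^ n : MvPolynomial (Fin (d + 1)) R).IsWeightedHomogeneous (cw n w0 w)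
      (n * w0) := by
    have h2 := (isWeightedHomogeneous_X R (cw n w0 w) 0).pow n
    simpa [cw] using h2
  exact (weightedHomogeneousSubmodule R (cw n w0 w) (n * w0)).sub_mem h1
    (finalB_rename n w0 w g hg)

private theorem finalB_ne {k : Type u} [CommRing k] [Nontrivial k] {d : ℕ} (n : ℕ) (hn : 0 < n)
    (g : MvPolynomial (Fin d) k) :
    (X 0 ^ n - rename Fin.succ g : MvPolynomial (Fin (d + 1)) k) ≠ 0 := by
  intro h
  have h1 : coeff (Finsupp.single 0 n) (rename Fin.succ g : MvPolynomial (Fin (d + 1)) k) = 0 := by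
    refine coeff_rename_eq_zero _ _ _ ?_
    intro α hα
    exfalso
    have h2 : (α.mapDomain Fin.succ) 0 = n := by
      rw [hα, Finsupp.single_eq_same]
    rw [Finsupp.mapDomain_of_notMem_range] at h2
    · omega
    · rintro ⟨y, hy⟩
      exact Fin.succ_ne_zero y hy
  have h3 := congrArg (coeff (Finsupp.single 0 n)) h
  rw [coeff_sub, h1, coeff_X_pow, if_pos rfl, coeff_zero, sub_zero] at h3
  exact one_ne_zero h3

section

variable {R : Type u} [CommRing R] [IsLocalRing R] [IsNoetherianRing R] (d : ℕ)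
  (x : Fin (d + 1) → R)
  (hx : Ideal.span (Set.range x) = maximalIdeal R)
  (hreg : RingTheory.Sequence.IsRegular R (List.ofFn x))
  (n w0 : ℕ) (w : Fin d → ℕ) (hn : 0 < n) (hw0 : 0 < w0) (hw : ∀ i, 0 < w i)
  (hco : Nat.Coprime w0 n)
  (g : MvPolynomial (Fin d) R) (hg : g.IsWeightedHomogeneous w w0)
  (f : R) (hf : f - (x 0 ^ n - aeval (fun i => x (Fin.succ i)) g)
    ∈ (wFilt x (cw n w0 w)).F (n * w0 + 1))
  (hJ : Module.Finite (ResidueField R) (MvPolynomial (Fin (d + 1)) (ResidueField R) ⧸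
    jacIdeal (X 0 ^ n - rename Fin.succ (g.map (residue R)))))

include hx hreg hn hw0 hw hco hg hf hJ

theorem coprime_vanish (L M : Type u) [AddCommGroup L] [Module (R ⧸ Ideal.span {f}) L]
    [AddCommGroup M] [Module (R ⧸ Ideal.span {f}) M]
    [Module.Finite (R ⧸ Ideal.span {f}) L] [Module.Finite (R ⧸ Ideal.span {f}) M]
    (i : ℕ) (hi : d < i) :
    torLen (R ⧸ Ideal.span {f}) i L M ≠ ⊤ ∧
      torLen (R ⧸ Ideal.span {f}) (i + 1) L M = torLen (R ⧸ Ideal.span {f}) i L M := by
  have hw' : ∀ i, 0 < cw n w0 w i := by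
    intro i
    refine Fin.cases ?_ (fun j => ?_) i
    · simpa [cw] using hw0
    · simpa [cw] using Nat.mul_pos hn (hw j)
  have hN : 0 < n * w0 := Nat.mul_pos hn hw0
  have hP := finalB_hom n w0 w g hg
  have hmap : (X 0 ^ n - rename Fin.succ g : MvPolynomial (Fin (d + 1)) R).map (residue R)
      = X 0 ^ n - rename Fin.succ (g.map (residue R)) := by
    rw [map_sub, map_pow, map_X, map_rename]
  have hP0 : (X 0 ^ n - rename Fin.succ g : MvPolynomial (Fin (d + 1)) R).map (residue R) ≠ 0 := by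
    rw [hmap]
    exact finalB_ne n hn _
  have hf' : f - aeval x (X 0 ^ n - rename Fin.succ g : MvPolynomial (Fin (d + 1)) R)
      ∈ (wFilt x (cw n w0 w)).F (n * w0 + 1) := by
    have h1 : aeval x (X 0 ^ n - rename Fin.succ g : MvPolynomial (Fin (d + 1)) R)
        = x 0 ^ n - aeval (fun i => x (Fin.succ i)) g := by
      rw [map_sub, map_pow, aeval_X, aeval_rename]
      rfl
    rw [h1]
    exact hf
  have hJ' : Module.Finite (ResidueField R) (MvPolynomial (Fin (d + 1)) (ResidueField R) ⧸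
      jacIdeal ((X 0 ^ n - rename Fin.succ g : MvPolynomial (Fin (d + 1)) R).map
        (residue R))) := by
    rw [hmap]
    exact hJ
  have hL := MFilt.std_good (wFilt (fun i => Ideal.Quotient.mk (Ideal.span {f}) (x i))
    (cw n w0 w)) L
  have hM := MFilt.std_good (wFilt (fun i => Ideal.Quotient.mk (Ideal.span {f}) (x i))
    (cw n w0 w)) M
  have h1 := (tangent_cone d x (cw n w0 w) hw' hx hreg (n * w0) hN _ hP hP0 f hf' hJ' L M _ _
    hL hM).1 i hi
  refine ⟨h1.1, ?_⟩
  exact const_transfer d x (cw n w0 w) hw' hx hreg (n * w0) hN _ hP hP0 f hf' hJ' L M _ _ hL hM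
    (fun j hj => gr_const d x hx hreg n w0 w hn hw0 hw hco g hg f hf hJ L M _ _ hL hM j hj) i hi

end

end Pool.Agent.HT21
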