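import Pool.Agent.HT21.IfaceDefs

/-!
# Submodules of `A^r` with the induced filtration are good

The Rees ring is Noetherian.  The set of `x : Fin r → A[X]` with coefficients
`x_n := (k ↦ coeff n (x k))` in `Z ⊓ shiftG F a n` is a submodule of the Rees module
`{x | x_n ∈ shiftG F a n}`, which is a finitely generated module over the Rees ring (generated by the
`X^j e_k`, `0 ≤ j ≤ a k`: an element `c X^n e_k`, `c ∈ F (n - a k)`, is
`c X^(n - a k) * X^(a k) e_k` if `n ≥ a k`, and `c * X^n e_k` if `n < a k`);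
the Rees ring is Noetherian, so the submodule is finitely generated; take all coefficients
of a finite system of generators as the `z l` (coefficient `j` gets `b l = j`) and compare
coefficients.
-/

universe u

namespace Pool.Agent.HT21

variable {A : Type u} [CommRing A]

private theorem gk_smul_mem (𝓕 : RFilt A) {r : ℕ} (a : Fin r → ℕ) {m n : ℕ} {c : A} {x : Fin r → A}
    (hc : c ∈ 𝓕.F m) (hx : x ∈ shiftG 𝓕.F a n) : c • x ∈ shiftG 𝓕.F a (m + n) := by
  intro k
  have h1 : (c • x) k = c * x k := rfl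
  rw [h1]
  exact 𝓕.anti' (by omega) (𝓕.mul' _ _ (Ideal.mul_mem_mul hc (hx k)))

/-- The submodule of the Rees module cut out by `Z`. -/
private noncomputable def gkSub (𝓕 : RFilt A) {r : ℕ} (a : Fin r → ℕ) (Z : Submodule A (Fin r → A)) :
    Submodule 𝓕.Rees (PolynomialModule A (Fin r → A)) where
  carrier := {f | ∀ n, f.coeff n ∈ Z ⊓ shiftG 𝓕.F a n}
  add_mem' := fun hf hg n => Submodule.add_mem _ (hf n) (hg n)
  zero_mem' := fun n => Submodule.zero_mem _
  smul_mem' := by
    intro c f hf n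
    rw [rees_smul_def, PolynomialModule.smul_apply]
    refine Submodule.sum_mem _ fun p hp => ?_
    have h := Finset.HasAntidiagonal.mem_antidiagonal.mp hp
    refine ⟨Z.smul_mem _ (hf _).1, ?_⟩
    rw [← h]
    exact gk_smul_mem 𝓕 a (𝓕.val_coeff_mem c _) (hf _).2

/-- The element `c X^m` of the Rees ring. -/
private noncomputable def gkMon (𝓕 : RFilt A) (m : ℕ) (c : A) (hc : c ∈ 𝓕.F m) : 𝓕.Rees :=
  (⟨Polynomial.monomial m c, by
    intro n
    rw [Polynomial.coeff_monomial]
    split_ifs with h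
    · rw [← h]; exact hc
    · exact Ideal.zero_mem _⟩ : 𝓕.reesAlg)

private theorem gkMon_val (𝓕 : RFilt A) (m : ℕ) (c : A) (hc : c ∈ 𝓕.F m) :
    𝓕.val (gkMon 𝓕 m c hc) = Polynomial.monomial m c := rfl

/-- The generators. -/
private noncomputable def gkGen {r : ℕ} (a : Fin r → ℕ) (p : Σ k : Fin r, Fin (a k + 1)) :
    PolynomialModule A (Fin r → A) :=
  PolynomialModule.single A (p.2 : ℕ) (Pi.single p.1 1)

private theorem gk_single_mem (𝓕 : RFilt A) {r : ℕ} (a : Fin r → ℕ) (n : ℕ) (k : Fin r) (c : A)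
    (hc : c ∈ 𝓕.F (n - a k)) :
    PolynomialModule.single A n (Pi.single k c : Fin r → A) ∈
      Submodule.span 𝓕.Rees (Set.range (gkGen (A := A) a)) := by
  have e0 : ∀ c : A, (Pi.single k c : Fin r → A) = c • (Pi.single k 1 : Fin r → A) := by
    intro c
    rw [← Pi.single_smul, smul_eq_mul, mul_one]
  by_cases h : n ≤ a k
  · have hc0 : c ∈ 𝓕.F 0 := by rw [𝓕.zero']; trivial
    have e1 : PolynomialModule.single A n (Pi.single k c : Fin r → A) =
        gkMon 𝓕 0 c hc0 • gkGen a ⟨k, ⟨n, by omega⟩⟩ := by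
      rw [rees_smul_def, gkMon_val, gkGen, PolynomialModule.monomial_smul_single, zero_add, ← e0]
    rw [e1]
    exact Submodule.smul_mem _ _ (Submodule.subset_span ⟨_, rfl⟩)
  · have e1 : PolynomialModule.single A n (Pi.single k c : Fin r → A) =
        gkMon 𝓕 (n - a k) c hc • gkGen a ⟨k, ⟨a k, by omega⟩⟩ := by
      rw [rees_smul_def, gkMon_val, gkGen, PolynomialModule.monomial_smul_single, ← e0]
      congr 1
      simp only
      omega
    rw [e1]
    exact Submodule.smul_mem _ _ (Submodule.subset_span ⟨_, rfl⟩)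

private theorem gk_sum_single {r : ℕ} (f : PolynomialModule A (Fin r → A)) :
    f = ∑ n ∈ f.coeff.support, ∑ k : Fin r, PolynomialModule.single A n (Pi.single k (f.coeff n k)) := by
  apply PolynomialModule.coeff_injective
  rw [PolynomialModule.coeff_sum]
  simp only [PolynomialModule.coeff_sum, PolynomialModule.coeff_single]
  conv_lhs => rw [← Finsupp.sum_single f.coeff]
  rw [Finsupp.sum]
  refine Finset.sum_congr rfl fun n _ => ?_
  rw [← Finsupp.single_finsetSum]
  congr 1
  exact (Finset.univ_sum_single (f.coeff n)).symm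

private theorem gk_le (𝓕 : RFilt A) {r : ℕ} (a : Fin r → ℕ) (Z : Submodule A (Fin r → A)) :
    gkSub 𝓕 a Z ≤ Submodule.span 𝓕.Rees (Set.range (gkGen (A := A) a)) := by
  intro f hf
  rw [gk_sum_single f]
  refine Submodule.sum_mem _ fun n _ => Submodule.sum_mem _ fun k _ => ?_
  exact gk_single_mem 𝓕 a n k _ ((hf n).2 k)

private theorem gk_fg (𝓕 : RFilt A) [IsNoetherianRing 𝓕.Rees] {r : ℕ} (a : Fin r → ℕ)
    (Z : Submodule A (Fin r → A)) : (gkSub 𝓕 a Z).FG := by
  have h1 : (Submodule.span 𝓕.Rees (Set.range (gkGen (A := A) a))).FG :=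
    Submodule.fg_span (Set.finite_range _)
  have h2 := isNoetherian_of_fg_of_noetherian _ h1
  exact isNoetherian_submodule.1 h2 _ (gk_le 𝓕 a Z)

private theorem gk_antidiag {V : Type u} [AddCommGroup V] (F : ℕ → ℕ → V) (D n : ℕ)
    (hD : ∀ i j, D ≤ j → F i j = 0) :
    ∑ p ∈ Finset.HasAntidiagonal.antidiagonal n, F p.1 p.2 = ∑ j : Fin D, if (j : ℕ) ≤ n then F (n - j) j else 0 := by
  rw [← Finset.Nat.sum_antidiagonal_swap]
  simp only [Prod.fst_swap, Prod.snd_swap]
  rw [Finset.Nat.sum_antidiagonal_eq_sum_range_succ (fun i j => F j i),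
    Fin.sum_univ_eq_sum_range (fun j => if j ≤ n then F (n - j) j else 0) D]
  have e1 : ∑ j ∈ Finset.range D, (if j ≤ n then F (n - j) j else 0) =
      ∑ j ∈ Finset.range (max D (n + 1)), (if j ≤ n then F (n - j) j else 0) := by
    refine Finset.sum_subset (Finset.range_mono (le_max_left _ _)) fun j _ hj => ?_
    rw [Finset.mem_range, not_lt] at hj
    split_ifs
    · exact hD _ _ hj
    · rfl
  have e2 : ∑ j ∈ Finset.range (n + 1), F (n - j) j =
      ∑ j ∈ Finset.range (max D (n + 1)), (if j ≤ n then F (n - j) j else 0) := by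
    rw [← Finset.sum_subset (Finset.range_mono (le_max_right D (n + 1)))]
    · refine Finset.sum_congr rfl fun j hj => ?_
      rw [Finset.mem_range] at hj
      rw [if_pos (by omega)]
    · intro j _ hj
      rw [Finset.mem_range] at hj
      rw [if_neg (by omega)]
  rw [e1, ← e2]

theorem good_kernel (𝓕 : RFilt A) [IsNoetherianRing 𝓕.Rees] {r : ℕ} (a : Fin r → ℕ)
    (Z : Submodule A (Fin r → A)) :
    ∃ (q : ℕ) (b : Fin q → ℕ) (z : Fin q → Fin r → A),
      (∀ l, z l ∈ Z ⊓ shiftG 𝓕.F a (b l)) ∧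
      ∀ n, ∀ x ∈ Z ⊓ shiftG 𝓕.F a n, ∃ c : Fin q → A, (∀ l, c l ∈ 𝓕.F (n - b l)) ∧
        x = ∑ l, c l • z l := by
  classical
  obtain ⟨S, hS⟩ := gk_fg 𝓕 a Z
  obtain ⟨D, hD⟩ : ∃ D : ℕ, ∀ g ∈ S, ∀ n, D ≤ n → g.coeff n = 0 := by
    refine ⟨(S.sup fun g => g.coeff.support.sup id) + 1, fun g hg n hn => ?_⟩
    by_contra h
    have h1 : n ∈ g.coeff.support := Finsupp.mem_support_iff.2 h
    have h2 : n ≤ g.coeff.support.sup id := Finset.le_sup (f := id) h1
    have h3 : g.coeff.support.sup id ≤ S.sup fun g => g.coeff.support.sup id :=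
      Finset.le_sup (f := fun g : PolynomialModule A (Fin r → A) => g.coeff.support.sup id) hg
    omega
  let ι := {g // g ∈ S} × Fin D
  let e : ι ≃ Fin (Fintype.card ι) := Fintype.equivFin ι
  refine ⟨Fintype.card ι, fun l => ((e.symm l).2 : ℕ), fun l => (e.symm l).1.1.coeff (e.symm l).2, ?_, ?_⟩
  · intro l
    have h1 : (e.symm l).1.1 ∈ gkSub 𝓕 a Z := by
      rw [← hS]
      exact Submodule.subset_span (e.symm l).1.2
    exact h1 _
  · intro n x hx
    have hx1 : PolynomialModule.single A n x ∈ gkSub 𝓕 a Z := by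
      intro m
      rw [PolynomialModule.coeff_single, Finsupp.single_apply]
      split_ifs with h
      · rw [← h]; exact hx
      · exact Submodule.zero_mem _
    rw [← hS, Submodule.mem_span_finset'] at hx1
    obtain ⟨w, hw⟩ := hx1
    refine ⟨fun l => if ((e.symm l).2 : ℕ) ≤ n then (𝓕.val (w (e.symm l).1)).coeff (n - (e.symm l).2) else 0,
      fun l => ?_, ?_⟩
    · show (if ((e.symm l).2 : ℕ) ≤ n then (𝓕.val (w (e.symm l).1)).coeff (n - (e.symm l).2) else 0) ∈ _
      split_ifs
      · exact 𝓕.val_coeff_mem _ _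
      · exact Ideal.zero_mem _
    · have h1 := congrArg (fun f : PolynomialModule A (Fin r → A) => f.coeff n) hw
      simp only [PolynomialModule.coeff_sum, Finsupp.finsetSum_apply, PolynomialModule.coeff_single,
        Finsupp.single_eq_same] at h1
      rw [← h1]
      rw [Equiv.sum_comp e.symm (fun p : ι => (if (p.2 : ℕ) ≤ n then (𝓕.val (w p.1)).coeff (n - p.2) else 0) •
        p.1.1.coeff p.2), Fintype.sum_prod_type]
      refine Finset.sum_congr rfl fun g _ => ?_
      rw [rees_smul_def, PolynomialModule.smul_apply,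
        gk_antidiag (fun i j => (𝓕.val (w g)).coeff i • g.1.coeff j) D n
          (fun i j hj => by rw [hD _ g.2 _ hj, smul_zero])]
      refine Finset.sum_congr rfl fun j _ => ?_
      rw [ite_smul, zero_smul]

end Pool.Agent.HT21
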