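import Pool.Agent.HT21.GrIface

/-!
# Exactness passes to the graded level

`C2 → C1 → C0` filtered, with associated graded `V2 → V1 → V0`.  If
`x ∈ G1 n`, `d1 x ∈ G0 (n+1)` implies `x ∈ d2 (G2 n) + G1 (n+1)` for all `n`, then `V2 → V1 → V0` is
exact at `V1`: write `v = ∑ τ1 n (x n)`; then `0 = D1 v = ∑ τ0 n (d1 (x n))`, so
`d1 (x n) ∈ G0 (n+1)` by independence, so `x n - d2 (y n) ∈ G1 (n+1)`, `y n ∈ G2 n`, and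
`τ1 n (x n) = τ1 n (d2 (y n)) = D2 (τ2 n (y n))`.
-/

universe u

namespace Pool.Agent.HT21

theorem gr_exact {A : Type u} [CommRing A] {𝓕 : RFilt A}
    {C0 C1 C2 : Type u} [AddCommGroup C0] [Module A C0] [AddCommGroup C1] [Module A C1]
    [AddCommGroup C2] [Module A C2]
    {G0 : ℕ → Submodule A C0} {G1 : ℕ → Submodule A C1} {G2 : ℕ → Submodule A C2}
    {V0 V1 V2 : Type u} [AddCommGroup V0] [Module 𝓕.gr V0] [AddCommGroup V1] [Module 𝓕.gr V1]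
    [AddCommGroup V2] [Module 𝓕.gr V2] {τ0 : ℕ → C0 → V0} {τ1 : ℕ → C1 → V1} {τ2 : ℕ → C2 → V2}
    (h0 : IsGr 𝓕 G0 V0 τ0) (h1 : IsGr 𝓕 G1 V1 τ1) (h2 : IsGr 𝓕 G2 V2 τ2)
    (d1 : C1 →ₗ[A] C0) (d2 : C2 →ₗ[A] C1)
    (m1 : ∀ n x, x ∈ G1 n → d1 x ∈ G0 n) (m2 : ∀ n x, x ∈ G2 n → d2 x ∈ G1 n)
    (D1 : V1 →ₗ[𝓕.gr] V0) (D2 : V2 →ₗ[𝓕.gr] V1)
    (c1 : ∀ n x, x ∈ G1 n → D1 (τ1 n x) = τ0 n (d1 x))
    (c2 : ∀ n x, x ∈ G2 n → D2 (τ2 n x) = τ1 n (d2 x))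
    (hex : ∀ n, ∀ x ∈ G1 n, d1 x ∈ G0 (n + 1) → ∃ y ∈ G2 n, x - d2 y ∈ G1 (n + 1))
    (v : V1) (hv : D1 v = 0) : ∃ u, D2 u = v := by
  classical
  have _ := h2
  obtain ⟨m, x, hx, rfl⟩ := h1.surj v
  rw [map_sum] at hv
  have hv2 : ∑ n ∈ Finset.range m, τ0 n (d1 (x n)) = 0 := by
    rw [← hv]
    exact Finset.sum_congr rfl fun n _ => (c1 n (x n) (hx n)).symm
  have h3 := h0.indep m (fun n => d1 (x n)) (fun n => m1 n _ (hx n)) hv2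
  have h4 : ∀ n : ℕ, ∃ y : C2, n < m → y ∈ G2 n ∧ x n - d2 y ∈ G1 (n + 1) := by
    intro n
    by_cases hn : n < m
    · obtain ⟨y, hy1, hy2⟩ := hex n (x n) (hx n) (h3 n hn)
      exact ⟨y, fun _ => ⟨hy1, hy2⟩⟩
    · exact ⟨0, fun h => absurd h hn⟩
  choose y hy using h4
  refine ⟨∑ n ∈ Finset.range m, τ2 n (y n), ?_⟩
  rw [map_sum]
  refine Finset.sum_congr rfl fun n hn => ?_
  obtain ⟨hy1, hy2⟩ := hy n (Finset.mem_range.1 hn)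
  rw [c2 n (y n) hy1]
  have h5 : x n - d2 (y n) ∈ G1 n := h1.anti (Nat.le_succ n) hy2
  have h6 := h1.add n (d2 (y n)) (x n - d2 (y n)) (m2 n _ hy1) h5
  rw [(h1.ker n _ h5).2 hy2, add_zero, add_sub_cancel] at h6
  exact h6.symm

end Pool.Agent.HT21
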