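import Pool.Agent.HT21.IfaceDefs

/-!
# The interface `IsGr` for finite powers with shifts, and the action of symbol matrices

Only the fields of `IsGr` are needed.  `isGr_shift`: componentwise; in the truncated case
`n < a k ≤ m + n` of `smul` use `smul_mem` (`a • x k ∈ G m ≤ G (m + n - a k + 1)`) and `ker`.
-/

universe u

namespace Pool.Agent.HT21

variable {A : Type u} [CommRing A] {𝓕 : RFilt A} {M : Type u} [AddCommGroup M] [Module A M]

private lemma ish_sum {V : Type u} [AddCommGroup V] (a : ℕ) (f : ℕ → ℕ → V) (m : ℕ) :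
    ∑ n ∈ Finset.range m, (if a ≤ n then f (n - a) n else 0) =
      ∑ j ∈ Finset.range (m - a), f j (j + a) := by
  induction m with
  | zero => simp
  | succ m ih =>
    rw [Finset.sum_range_succ, ih]
    by_cases h : a ≤ m
    · rw [if_pos h, Nat.succ_sub h, Finset.sum_range_succ, Nat.sub_add_cancel h]
    · rw [if_neg h, add_zero]
      have h1 : m - a = 0 := by omega
      have h2 : m + 1 - a = 0 := by omega
      rw [h1, h2]

private lemma ish_zero {G : ℕ → Submodule A M} {V : Type u} [AddCommGroup V] [Module 𝓕.gr V] {τ : ℕ → M → V}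
    (h : IsGr 𝓕 G V τ) (n : ℕ) : τ n 0 = 0 :=
  (h.ker n 0 (Submodule.zero_mem _)).2 (Submodule.zero_mem _)

private lemma ish_top {G : ℕ → Submodule A M} {V : Type u} [AddCommGroup V] [Module 𝓕.gr V] {τ : ℕ → M → V}
    (h : IsGr 𝓕 G V τ) {n : ℕ} (hn : n = 0) (x : M) : x ∈ G n := by
  rw [hn, h.zero]
  trivial

private lemma ish_tsum {G : ℕ → Submodule A M} {V : Type u} [AddCommGroup V] [Module 𝓕.gr V] {τ : ℕ → M → V}
    (h : IsGr 𝓕 G V τ) (n : ℕ) {q : ℕ} (s : Finset (Fin q)) (y : Fin q → M) (hy : ∀ l, y l ∈ G n) :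
    τ n (∑ l ∈ s, y l) = ∑ l ∈ s, τ n (y l) := by
  classical
  induction s using Finset.induction_on with
  | empty => simp [ish_zero h]
  | insert a s ha ih =>
    rw [Finset.sum_insert ha, Finset.sum_insert ha, h.add n _ _ (hy a) (Submodule.sum_mem _ fun l _ => hy l), ih]

theorem isGr_shift {G : ℕ → Submodule A M} {V : Type u} [AddCommGroup V] [Module 𝓕.gr V] {τ : ℕ → M → V} (h : IsGr 𝓕 G V τ)
    {r : ℕ} (a : Fin r → ℕ) : IsGr 𝓕 (shiftG G a) (Fin r → V) (shiftT τ a) := by
  classical
  refine ⟨?_, ?_, ?_, ?_, ?_, ?_, ?_, ?_⟩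
  · intro n m hnm x hx k
    exact h.anti (Nat.sub_le_sub_right hnm (a k)) (hx k)
  · rw [eq_top_iff]
    intro x _ k
    exact ish_top h (Nat.zero_sub _) _
  · intro m n c x hc hx k
    exact h.anti (by omega) (h.smul_mem m (n - a k) c (x k) hc (hx k))
  · intro n x y hx hy
    funext k
    simp only [shiftT, Pi.add_apply]
    split_ifs with hk
    · exact h.add _ _ _ (hx k) (hy k)
    · rw [add_zero]
  · intro m n c x hc hx
    funext k
    simp only [shiftT, Pi.smul_apply]
    by_cases hk : a k ≤ n
    · rw [if_pos hk, if_pos (by omega), h.smul _ _ _ _ hc (hx k)]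
      congr 1
      omega
    · rw [if_neg hk, smul_zero]
      by_cases hk2 : a k ≤ m + n
      · rw [if_pos hk2]
        symm
        have h1 : c • x k ∈ G (m + n - a k + 1) :=
          h.anti (by omega) (h.smul_mem m (n - a k) c (x k) hc (hx k))
        exact (h.ker _ _ (h.anti (Nat.le_succ _) h1)).2 h1
      · rw [if_neg hk2]
  · intro n x hx
    constructor
    · intro h0 k
      have h1 := congrFun h0 k
      simp only [shiftT, Pi.zero_apply] at h1
      by_cases hk : a k ≤ n
      · rw [if_pos hk] at h1
        have h2 := (h.ker _ _ (hx k)).1 h1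
        have h3 : n + 1 - a k = n - a k + 1 := by omega
        rw [h3]
        exact h2
      · exact ish_top h (by omega) _
    · intro h0
      funext k
      simp only [shiftT, Pi.zero_apply]
      split_ifs with hk
      · have h3 : n + 1 - a k = n - a k + 1 := by omega
        have h2 := h0 k
        rw [h3] at h2
        exact (h.ker _ _ (hx k)).2 h2
      · rfl
  · intro v
    choose m y hy hv using fun k => h.surj (v k)
    refine ⟨Finset.univ.sup fun k => m k + a k,
      fun n k => if a k ≤ n ∧ n - a k < m k then y k (n - a k) else 0, ?_, ?_⟩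
    · intro n k
      simp only
      split_ifs
      · exact hy k _
      · exact Submodule.zero_mem _
    · funext k
      rw [Finset.sum_apply]
      simp only [shiftT]
      rw [ish_sum (a k) (fun j n => τ j (if a k ≤ n ∧ n - a k < m k then y k (n - a k) else 0)), hv k]
      have hle : m k ≤ (Finset.univ.sup fun k => m k + a k) - a k := by
        have := Finset.le_sup (f := fun k => m k + a k) (Finset.mem_univ k)
        omega
      rw [← Finset.sum_subset (Finset.range_mono hle)]
      · apply Finset.sum_congr rfl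
        intro j hj
        rw [Finset.mem_range] at hj
        rw [if_pos ⟨by omega, by omega⟩, Nat.add_sub_cancel]
      · intro j _ hj
        rw [Finset.mem_range, not_lt] at hj
        rw [if_neg (by omega), ish_zero h]
  · intro m y hy hsum n hn k
    have h1 := congrFun hsum k
    rw [Finset.sum_apply, Pi.zero_apply] at h1
    simp only [shiftT] at h1
    rw [ish_sum (a k) (fun j n => τ j (y n k))] at h1
    by_cases hk : a k ≤ n
    · have h2 := h.indep (m - a k) (fun j => y (j + a k) k) (fun j => by
        have := hy (j + a k) k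
        rwa [Nat.add_sub_cancel] at this) h1 (n - a k) (by omega)
      rw [Nat.sub_add_cancel hk] at h2
      have h3 : n + 1 - a k = n - a k + 1 := by omega
      rw [h3]
      exact h2
    · exact ish_top h (by omega) _

theorem mact_mem_shift {G : ℕ → Submodule A M} {V : Type u} [AddCommGroup V] [Module 𝓕.gr V]
    {τ : ℕ → M → V} (h : IsGr 𝓕 G V τ) {p q : ℕ} (a : Fin p → ℕ) (b : Fin q → ℕ)
    (C : Matrix (Fin p) (Fin q) A) (hC : ∀ k l, C k l ∈ 𝓕.F (b l - a k)) (n : ℕ) (x : Fin q → M)
    (hx : x ∈ shiftG G b n) : mact C M x ∈ shiftG G a n := by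
  intro k
  rw [mact_apply]
  refine Submodule.sum_mem _ fun l _ => ?_
  exact h.anti (by omega) (h.smul_mem (b l - a k) (n - b l) (C k l) (x l) (hC k l) (hx l))

/-- The symbol of the matrix acts on symbols as it should (all truncated cases are consistent:
if `b l < a k` then `C k l • x l ∈ G (n - b l) ≤ G (n - a k + 1)`, and if `n < b l`, `a k ≤ n`, then
`C k l ∈ F (b l - a k) ≤ F (n + 1 - a k)`). -/
theorem symb_act {G : ℕ → Submodule A M} {V : Type u} [AddCommGroup V] [Module 𝓕.gr V] {τ : ℕ → M → V} (h : IsGr 𝓕 G V τ)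
    {p q : ℕ} (a : Fin p → ℕ) (b : Fin q → ℕ)
    (C : Matrix (Fin p) (Fin q) A) (hC : ∀ k l, C k l ∈ 𝓕.F (b l - a k)) (n : ℕ) (x : Fin q → M)
    (hx : x ∈ shiftG G b n) :
    mact (symb 𝓕 a b C) V (shiftT τ b n x) = shiftT τ a n (mact C M x) := by
  classical
  funext k
  rw [mact_apply]
  simp only [shiftT, symb]
  by_cases hk : a k ≤ n
  · rw [if_pos hk, mact_apply]
    have hm : ∀ l, C k l • x l ∈ G (n - a k) := fun l =>
      h.anti (by omega) (h.smul_mem (b l - a k) (n - b l) (C k l) (x l) (hC k l) (hx l))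
    rw [ish_tsum h (n - a k) Finset.univ (fun l => C k l • x l) hm]
    apply Finset.sum_congr rfl
    intro l _
    by_cases h1 : a k ≤ b l
    · rw [if_pos h1]
      by_cases h2 : b l ≤ n
      · rw [if_pos h2, h.smul _ _ _ _ (hC k l) (hx l)]
        congr 1
        omega
      · rw [if_neg h2, smul_zero]
        symm
        exact (h.ker _ _ (hm l)).2
          (h.anti (by omega) (h.smul_mem (b l - a k) (n - b l) (C k l) (x l) (hC k l) (hx l)))
    · rw [if_neg h1, zero_smul]
      symm
      exact (h.ker _ _ (hm l)).2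
        (h.anti (by omega) (h.smul_mem (b l - a k) (n - b l) (C k l) (x l) (hC k l) (hx l)))
  · rw [if_neg hk]
    apply Finset.sum_eq_zero
    intro l _
    by_cases h1 : a k ≤ b l
    · rw [if_neg (show ¬ b l ≤ n by omega), smul_zero]
    · rw [if_neg h1, zero_smul]

end Pool.Agent.HT21

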