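import Pool.Agent.HT21.IfaceConc
import Pool.Agent.HT21.IfaceShift

/-!
# Symbols: the interface to associated graded modules (collects the parts)
-/
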