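import Pool.Agent.HT21.Defs

/-!
# The Rees ring of a weighted filtration is Noetherian; weighted filtrations of quotients

`rees_noetherian`: the Rees ring of a weighted filtration over a Noetherian ring `A` is
generated over `A` by the `x i * X^j`, `j ≤ w i` (a monomial `∏ x i ^ α i * X^n`,
`n ≤ ∑ w i α i`, is a product of such elements), so it is a quotient of a polynomial ring in
finitely many variables over `A`.
`mem_wFilt_quot`: generators go to generators.
-/

universe u

namespace Pool.Agent.HT21

section

variable {A : Type u} [CommRing A] {m : ℕ}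

/-- The generators of the Rees ring. -/
private def reesGens (x : Fin m → A) (w : Fin m → ℕ) : Set (Polynomial A) :=
  {f | ∃ i : Fin m, ∃ j ≤ w i, f = Polynomial.monomial j (x i)}

private lemma reesGens_finite (x : Fin m → A) (w : Fin m → ℕ) : (reesGens x w).Finite := by
  have h : reesGens x w =
      ⋃ i : Fin m, (fun j : ℕ => Polynomial.monomial j (x i)) '' (Set.Iic (w i)) := by
    ext f
    simp only [reesGens, Set.mem_ofPred_eq, Set.mem_iUnion, Set.mem_image, Set.mem_Iic]
    constructor
    · rintro ⟨i, j, hj, rfl⟩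
      exact ⟨i, j, hj, rfl⟩
    · rintro ⟨i, j, hj, rfl⟩
      exact ⟨i, j, hj, rfl⟩
  rw [h]
  exact Set.finite_iUnion fun i => (Set.finite_Iic (w i)).image _

private lemma gen_mem (x : Fin m → A) (w : Fin m → ℕ) (i : Fin m) (j : ℕ) (hj : j ≤ w i) :
    Polynomial.monomial j (x i) ∈ Algebra.adjoin A (reesGens x w) :=
  Algebra.subset_adjoin ⟨i, j, hj, rfl⟩

private lemma pow_mem (x : Fin m → A) (w : Fin m → ℕ) (i : Fin m) :
    ∀ (k n : ℕ), n ≤ w i * k →
      Polynomial.monomial n (x i ^ k) ∈ Algebra.adjoin A (reesGens x w) := by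
  intro k
  induction k with
  | zero =>
    intro n hn
    have h0 : n = 0 := by simpa using hn
    subst h0
    rw [pow_zero, Polynomial.monomial_zero_one]
    exact Subalgebra.one_mem _
  | succ k ih =>
    intro n hn
    rw [Nat.mul_succ] at hn
    have h1 : min n (w i) ≤ w i := min_le_right _ _
    have h2 : n - min n (w i) ≤ w i * k := by omega
    have h3 : Polynomial.monomial n (x i ^ (k + 1)) =
        Polynomial.monomial (n - min n (w i)) (x i ^ k) *
          Polynomial.monomial (min n (w i)) (x i) := by
      have h4 : n - min n (w i) + min n (w i) = n := by omega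
      rw [Polynomial.monomial_mul_monomial, pow_succ, h4]
    rw [h3]
    exact Subalgebra.mul_mem _ (ih _ h2) (gen_mem x w i _ h1)

private lemma prod_mem (x : Fin m → A) (w : Fin m → ℕ) (α : Fin m → ℕ) (s : Finset (Fin m)) :
    ∀ n : ℕ, n ≤ ∑ i ∈ s, w i * α i →
      Polynomial.monomial n (∏ i ∈ s, x i ^ α i) ∈ Algebra.adjoin A (reesGens x w) := by
  classical
  induction s using Finset.induction_on with
  | empty =>
    intro n hn
    have h0 : n = 0 := by simpa using hn
    subst h0
    rw [Finset.prod_empty, Polynomial.monomial_zero_one]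
    exact Subalgebra.one_mem _
  | insert a s ha ih =>
    intro n hn
    rw [Finset.sum_insert ha] at hn
    have h1 : min n (w a * α a) ≤ w a * α a := min_le_right _ _
    have h2 : n - min n (w a * α a) ≤ ∑ i ∈ s, w i * α i := by omega
    have h3 : Polynomial.monomial n (∏ i ∈ insert a s, x i ^ α i) =
        Polynomial.monomial (min n (w a * α a)) (x a ^ α a) *
          Polynomial.monomial (n - min n (w a * α a)) (∏ i ∈ s, x i ^ α i) := by
      have h4 : min n (w a * α a) + (n - min n (w a * α a)) = n := by omega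
      rw [Polynomial.monomial_mul_monomial, Finset.prod_insert ha, h4]
    rw [h3]
    exact Subalgebra.mul_mem _ (pow_mem x w a _ _ h1) (ih _ h2)

private lemma monomial_mem (x : Fin m → A) (w : Fin m → ℕ) (n : ℕ) (a : A)
    (ha : a ∈ (wFilt x w).F n) :
    Polynomial.monomial n a ∈ Algebra.adjoin A (reesGens x w) := by
  refine Submodule.span_induction (p := fun a _ =>
    Polynomial.monomial n a ∈ Algebra.adjoin A (reesGens x w)) ?_ ?_ ?_ ?_ ha
  · rintro y ⟨α, h1, rfl⟩
    exact prod_mem x w α Finset.univ n h1
  · rw [map_zero]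
    exact Subalgebra.zero_mem _
  · intro y z _ _ hy hz
    rw [map_add]
    exact Subalgebra.add_mem _ hy hz
  · intro c y _ hy
    rw [← Polynomial.smul_monomial]
    exact Subalgebra.smul_mem _ hy c

private lemma reesAlg_eq (x : Fin m → A) (w : Fin m → ℕ) :
    Algebra.adjoin A (reesGens x w) = (wFilt x w).reesAlg := by
  apply le_antisymm
  · rw [Algebra.adjoin_le_iff]
    rintro f ⟨i, j, hj, rfl⟩ n
    rw [Polynomial.coeff_monomial]
    split_ifs with h
    · subst h
      refine Ideal.subset_span ⟨Pi.single i 1, ?_, ?_⟩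
      · rw [Finset.sum_eq_single i]
        · simpa using hj
        · intro b _ hb
          simp [Pi.single_eq_of_ne hb]
        · intro h
          exact absurd (Finset.mem_univ i) h
      · rw [Finset.prod_eq_single i]
        · simp
        · intro b _ hb
          simp [Pi.single_eq_of_ne hb]
        · intro h
          exact absurd (Finset.mem_univ i) h
    · exact Ideal.zero_mem _
  · intro f hf
    rw [f.as_sum_support]
    exact Subalgebra.sum_mem _ fun n _ => monomial_mem x w n _ (hf n)

end

theorem rees_noetherian {A : Type u} [CommRing A] [IsNoetherianRing A] {m : ℕ} (x : Fin m → A)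
    (w : Fin m → ℕ) : IsNoetherianRing (wFilt x w).Rees := by
  have h1 : (wFilt x w).reesAlg.FG := by
    refine ⟨(reesGens_finite x w).toFinset, ?_⟩
    rw [Set.Finite.coe_toFinset]
    exact reesAlg_eq x w
  have h2 : Algebra.FiniteType A (wFilt x w).reesAlg :=
    (Subalgebra.fg_iff_finiteType _).mp h1
  exact Algebra.FiniteType.isNoetherianRing A (wFilt x w).reesAlg

theorem mem_wFilt_quot {R : Type u} [CommRing R] (f : R) {m : ℕ} (x : Fin m → R) (w : Fin m → ℕ)
    (n : ℕ) (a : R ⧸ Ideal.span {f}) :
    a ∈ (wFilt (fun i => Ideal.Quotient.mk (Ideal.span {f}) (x i)) w).F n ↔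
      ∃ b ∈ (wFilt x w).F n, Ideal.Quotient.mk (Ideal.span {f}) b = a := by
  have h : (wFilt (fun i => Ideal.Quotient.mk (Ideal.span {f}) (x i)) w).F n =
      Ideal.map (Ideal.Quotient.mk (Ideal.span {f})) ((wFilt x w).F n) := by
    show Ideal.span _ = Ideal.map _ (Ideal.span _)
    rw [Ideal.map_span]
    congr 1
    ext y
    constructor
    · rintro ⟨α, h1, rfl⟩
      refine ⟨∏ i, x i ^ α i, ⟨α, h1, rfl⟩, ?_⟩
      rw [map_prod]
      simp only [map_pow]
    · rintro ⟨z, ⟨α, h1, rfl⟩, rfl⟩
      refine ⟨α, h1, ?_⟩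
      rw [map_prod]
      simp only [map_pow]
  rw [h]
  exact Ideal.mem_map_iff_of_surjective _ Ideal.Quotient.mk_surjective

end Pool.Agent.HT21
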