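import Pool.Agent.HT21.InitForm
import Pool.Agent.HT21.GrIface
import Pool.Agent.HT21.ReesNoeth

/-!
# The associated graded ring of a hypersurface

`R`, `x`, `w`, `P`, `N`, `f` as in `InitForm`, `A = R/(f)`, `x̄` the images of the `x i`.
Then `gr A` (weighted filtration `wFilt x̄ w`) is `k[X]/(f0)`: there is a surjective ring map
`φ : k[X] → gr A` with kernel `(f0)`, `φ (X i) = σ (w i) (x̄ i)`, `φ (C (residue r)) = σ 0 r̄`.

Proof.  `(wFilt x̄ w).F n` is the image of `(wFilt x w).F n` (generators go to generators).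
`r ↦ σ 0 r̄` is a ring map `R → gr A` killing `m = F 1`, so it factors through `k`; let `φ` be
`MvPolynomial.eval₂Hom`.  On a weighted homogeneous `p̄` of weight `n`, `p` a weighted homogeneous
lift, `φ p̄ = σ n (class of p(x))` (`sigma_mul`).  Surjectivity: `gr A` is spanned by the
`σ n ā`, `a ∈ F n`, and `a = p(x)` modulo `F (n+1)` (`exists_leading`).  Kernel: split into weighted
homogeneous components; if `∑ φ p̄_n = 0` then each `σ n (p_n(x)) = 0` by independence
(`isGr_ring`), so `p_n(x) ∈ F (n+1) + f R`, so `f0 ∣ p̄_n` (`leading_dvd`); conversely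
`φ f0 = σ N (class of P(x)) = σ N (class of P(x) - f) = 0`.

`rees_noetherian`: the Rees ring of a weighted filtration over a Noetherian ring `A` is
generated over `A` by the `x i * X^j`, `j ≤ w i` (a monomial `∏ x i ^ α i * X^n`,
`n ≤ ∑ w i α i`, is a product of such elements), so it is Noetherian.
-/

universe u

namespace Pool.Agent.HT21

open MvPolynomial IsLocalRing

private lemma gh_zero {A : Type u} [CommRing A] (𝓕 : RFilt A) (n : ℕ) : 𝓕.σ n 0 = 0 :=
  ((isGr_ring 𝓕).ker n 0 (Ideal.zero_mem _)).2 (Ideal.zero_mem _)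

private lemma gh_sum {A : Type u} [CommRing A] (𝓕 : RFilt A) (n : ℕ) {ι : Type*} (s : Finset ι)
    (y : ι → A) (hy : ∀ l ∈ s, y l ∈ 𝓕.F n) :
    𝓕.σ n (∑ l ∈ s, y l) = ∑ l ∈ s, 𝓕.σ n (y l) := by
  classical
  induction s using Finset.induction_on with
  | empty => simp [gh_zero]
  | insert a s ha ih =>
    rw [Finset.sum_insert ha, Finset.sum_insert ha,
      (isGr_ring 𝓕).add n _ _ (hy a (Finset.mem_insert_self _ _))
        (Submodule.sum_mem _ fun l hl => hy l (Finset.mem_insert_of_mem hl)),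
      ih fun l hl => hy l (Finset.mem_insert_of_mem hl)]

private lemma gh_top {A : Type u} [CommRing A] (𝓕 : RFilt A) (a : A) : a ∈ 𝓕.F 0 := by
  rw [𝓕.zero']; trivial

private lemma gh_powmem {A : Type u} [CommRing A] (𝓕 : RFilt A) (n : ℕ) (a : A)
    (ha : a ∈ 𝓕.F n) (k : ℕ) : a ^ k ∈ 𝓕.F (n * k) := by
  induction k with
  | zero => exact gh_top 𝓕 _
  | succ k ih =>
    rw [pow_succ, Nat.mul_succ]
    exact 𝓕.mul' _ _ (Ideal.mul_mem_mul ih ha)

private lemma gh_pow {A : Type u} [CommRing A] (𝓕 : RFilt A) (n : ℕ) (a : A)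
    (ha : a ∈ 𝓕.F n) (k : ℕ) : 𝓕.σ n a ^ k = 𝓕.σ (n * k) (a ^ k) := by
  induction k with
  | zero => rw [pow_zero, pow_zero, Nat.mul_zero, sigma_one]
  | succ k ih =>
    rw [pow_succ, ih, sigma_mul 𝓕 _ _ _ _ (gh_powmem 𝓕 n a ha k) ha, pow_succ, Nat.mul_succ]

private lemma gh_prod {A : Type u} [CommRing A] (𝓕 : RFilt A) {ι : Type*} (s : Finset ι)
    (n : ι → ℕ) (y : ι → A) (hy : ∀ i, y i ∈ 𝓕.F (n i)) :
    (∏ i ∈ s, y i ∈ 𝓕.F (∑ i ∈ s, n i)) ∧
    ∏ i ∈ s, 𝓕.σ (n i) (y i) = 𝓕.σ (∑ i ∈ s, n i) (∏ i ∈ s, y i) := by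
  classical
  induction s using Finset.induction_on with
  | empty =>
    refine ⟨gh_top 𝓕 _, ?_⟩
    rw [Finset.prod_empty, Finset.sum_empty, Finset.prod_empty, sigma_one]
  | insert a s ha ih =>
    rw [Finset.prod_insert ha, Finset.sum_insert ha, Finset.prod_insert ha, ih.2]
    exact ⟨𝓕.mul' _ _ (Ideal.mul_mem_mul (hy a) ih.1), sigma_mul 𝓕 _ _ _ _ (hy a) ih.1⟩

theorem gr_hyp {R : Type u} [CommRing R] [IsLocalRing R] [IsNoetherianRing R] {m : ℕ}
    (x : Fin m → R) (w : Fin m → ℕ) (hw : ∀ i, 0 < w i)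
    (hx : Ideal.span (Set.range x) = maximalIdeal R)
    (hreg : RingTheory.Sequence.IsWeaklyRegular R (List.ofFn x))
    (N : ℕ) (P : MvPolynomial (Fin m) R) (hP : P.IsWeightedHomogeneous w N)
    (hP0 : P.map (residue R) ≠ 0) (f : R) (hf : f - aeval x P ∈ (wFilt x w).F (N + 1)) :
    ∃ φ : MvPolynomial (Fin m) (ResidueField R) →+*
        (wFilt (fun i => Ideal.Quotient.mk (Ideal.span {f}) (x i)) w).gr,
      Function.Surjective φ ∧
      RingHom.ker φ = Ideal.span {P.map (residue R)} ∧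
      (∀ i, φ (X i) = (wFilt (fun i => Ideal.Quotient.mk (Ideal.span {f}) (x i)) w).σ (w i)
        (Ideal.Quotient.mk (Ideal.span {f}) (x i))) ∧
      (∀ r : R, φ (C (residue R r)) =
        (wFilt (fun i => Ideal.Quotient.mk (Ideal.span {f}) (x i)) w).σ 0
          (Ideal.Quotient.mk (Ideal.span {f}) r)) := by
  classical
  set q : R →+* R ⧸ Ideal.span {f} := Ideal.Quotient.mk (Ideal.span {f}) with hq
  set 𝓕 : RFilt (R ⧸ Ideal.span {f}) := wFilt (fun i => q (x i)) w with h𝓕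
  have hqmem : ∀ n b, b ∈ (wFilt x w).F n → q b ∈ 𝓕.F n := fun n b hb =>
    (mem_wFilt_quot f x w n (q b)).2 ⟨b, hb, rfl⟩
  have hqx : ∀ i, q (x i) ∈ 𝓕.F (w i) := by
    intro i
    refine hqmem _ _ ?_
    have h := aeval_mem x w (w i) (X i : MvPolynomial (Fin m) R)
      (isWeightedHomogeneous_X R w i)
    rwa [aeval_X] at h
  have hsub : ∀ n a b, a ∈ 𝓕.F n → b ∈ 𝓕.F n → a - b ∈ 𝓕.F (n + 1) → 𝓕.σ n a = 𝓕.σ n b := by
    intro n a b ha hb hab
    have e : a = (a - b) + b := by ring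
    rw [e, (isGr_ring 𝓕).add n _ _ (Ideal.sub_mem _ ha hb) hb,
      ((isGr_ring 𝓕).ker n _ (Ideal.sub_mem _ ha hb)).2 hab, zero_add]
  let ψ0 : R →+* 𝓕.gr :=
    { toFun := fun r => 𝓕.σ 0 (q r)
      map_one' := by rw [map_one, sigma_one]
      map_zero' := by rw [map_zero, gh_zero]
      map_mul' := by
        intro a b
        rw [sigma_mul 𝓕 0 0 _ _ (gh_top 𝓕 _) (gh_top 𝓕 _), map_mul]
      map_add' := by
        intro a b
        rw [map_add, (isGr_ring 𝓕).add 0 _ _ (gh_top 𝓕 _) (gh_top 𝓕 _)] }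
  have hψ0 : ∀ r, ψ0 r = 𝓕.σ 0 (q r) := fun _ => rfl
  have hψm : ∀ r ∈ maximalIdeal R, ψ0 r = 0 := by
    intro r hr
    rw [← F_one x w hw hx] at hr
    exact ((isGr_ring 𝓕).ker 0 _ (gh_top 𝓕 _)).2 (hqmem 1 r hr)
  let ψ : ResidueField R →+* 𝓕.gr := Ideal.Quotient.lift (maximalIdeal R) ψ0 hψm
  have hψ : ∀ r, ψ (residue R r) = 𝓕.σ 0 (q r) := fun r => by
    exact Ideal.Quotient.lift_mk (maximalIdeal R) ψ0 hψm
  let φ : MvPolynomial (Fin m) (ResidueField R) →+* 𝓕.gr :=
    eval₂Hom ψ fun i => 𝓕.σ (w i) (q (x i))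
  have hφX : ∀ i, φ (X i) = 𝓕.σ (w i) (q (x i)) := fun i => eval₂Hom_X' _ _ _
  have hφC : ∀ r : R, φ (C (residue R r)) = 𝓕.σ 0 (q r) := fun r => by
    show eval₂Hom _ _ _ = _
    rw [eval₂Hom_C, hψ]
  -- the value on reductions of weighted homogeneous polynomials
  have key : ∀ (n : ℕ) (p : MvPolynomial (Fin m) R), p.IsWeightedHomogeneous w n →
      φ (p.map (residue R)) = 𝓕.σ n (q (aeval x p)) := by
    intro n p hp
    have h1 : φ (p.map (residue R)) = ∑ α ∈ p.support,
        𝓕.σ 0 (q (p.coeff α)) * ∏ i, 𝓕.σ (w i) (q (x i)) ^ α i := by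
      show eval₂Hom ψ _ (map (residue R) p) = _
      rw [coe_eval₂Hom, eval₂_map, eval₂_eq']
      refine Finset.sum_congr rfl fun α _ => ?_
      rw [RingHom.comp_apply, hψ]
    have h2 : q (aeval x p) = ∑ α ∈ p.support, q (p.coeff α) * ∏ i, q (x i) ^ α i := by
      rw [aeval_def, eval₂_eq', map_sum]
      refine Finset.sum_congr rfl fun α _ => ?_
      rw [map_mul, map_prod]
      simp only [map_pow, Algebra.algebraMap_self, RingHom.id_apply]
    have h3 : ∀ α ∈ p.support, ∑ i, w i * α i = n := by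
      intro α hα
      have h := hp (mem_support_iff.1 hα)
      rw [Finsupp.weight_apply, Finsupp.sum_fintype _ _ (fun i => by simp)] at h
      simp only [smul_eq_mul] at h
      rw [← h]
      exact Finset.sum_congr rfl fun i _ => mul_comm _ _
    have h4 : ∀ α ∈ p.support, (∏ i, q (x i) ^ α i) ∈ 𝓕.F n ∧
        ∏ i, 𝓕.σ (w i) (q (x i)) ^ α i = 𝓕.σ n (∏ i, q (x i) ^ α i) := by
      intro α hα
      have h := gh_prod 𝓕 Finset.univ (fun i => w i * α i) (fun i => q (x i) ^ α i)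
        (fun i => gh_powmem 𝓕 _ _ (hqx i) _)
      rw [h3 α hα] at h
      refine ⟨h.1, ?_⟩
      rw [← h.2]
      exact Finset.prod_congr rfl fun i _ => gh_pow 𝓕 _ _ (hqx i) _
    rw [h1, h2, gh_sum 𝓕 n _ _ fun α hα => Ideal.mul_mem_left _ _ (h4 α hα).1]
    refine Finset.sum_congr rfl fun α hα => ?_
    rw [(h4 α hα).2, sigma_mul 𝓕 0 n _ _ (gh_top 𝓕 _) (h4 α hα).1, zero_add]
  refine ⟨φ, ?_, ?_, hφX, hφC⟩
  · -- surjectivity
    intro v
    obtain ⟨M, y, hy, rfl⟩ := (isGr_ring 𝓕).surj v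
    have h : ∀ n, ∃ g, φ g = 𝓕.σ n (y n) := by
      intro n
      obtain ⟨b, hb, hby⟩ := (mem_wFilt_quot f x w n (y n)).1 (hy n)
      obtain ⟨p, hp, hbp⟩ := exists_leading x w n b hb
      refine ⟨p.map (residue R), ?_⟩
      rw [key n p hp]
      refine hsub n _ _ (hqmem _ _ (aeval_mem x w n p hp)) (hy n) ?_
      rw [← hby, ← neg_sub, ← map_sub]
      exact Ideal.neg_mem_iff _ |>.2 (hqmem _ _ hbp)
    choose g hg using h
    refine ⟨∑ n ∈ Finset.range M, g n, ?_⟩
    rw [map_sum]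
    exact Finset.sum_congr rfl fun n _ => hg n
  · -- the kernel
    apply le_antisymm
    · intro g hg
      rw [RingHom.mem_ker] at hg
      rw [Ideal.mem_span_singleton]
      obtain ⟨G, rfl⟩ := map_surjective (residue R) residue_surjective g
      obtain ⟨M, hM⟩ : ∃ M : ℕ, ∀ α ∈ G.support, Finsupp.weight w α < M :=
        ⟨G.support.sup (fun α => Finsupp.weight w α) + 1, fun α hα =>
          Nat.lt_succ_of_le (Finset.le_sup (f := fun α => Finsupp.weight w α) hα)⟩
      have hG : G = ∑ n ∈ Finset.range M, weightedHomogeneousComponent w n G := by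
        ext α
        rw [coeff_sum]
        simp only [coeff_weightedHomogeneousComponent]
        rw [Finset.sum_ite_eq]
        split_ifs with h
        · rfl
        · by_contra hcon
          exact h (Finset.mem_range.2 (hM α (mem_support_iff.2 hcon)))
      have hwh : ∀ n, (weightedHomogeneousComponent w n G).IsWeightedHomogeneous w n := fun n =>
        weightedHomogeneousComponent_isWeightedHomogeneous n G
      have h0 : ∑ n ∈ Finset.range M,
          𝓕.σ n (q (aeval x (weightedHomogeneousComponent w n G))) = 0 := by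
        rw [← hg]
        conv_rhs => rw [hG]
        rw [map_sum, map_sum]
        exact Finset.sum_congr rfl fun n _ => (key n _ (hwh n)).symm
      have h1 := (isGr_ring 𝓕).indep M
        (fun n => q (aeval x (weightedHomogeneousComponent w n G)))
        (fun n => hqmem _ _ (aeval_mem x w n _ (hwh n))) h0
      conv_rhs => rw [hG]
      rw [map_sum]
      refine Finset.dvd_sum fun n hn => ?_
      obtain ⟨b, hb, hbn⟩ := (mem_wFilt_quot f x w (n + 1) _).1 (h1 n (Finset.mem_range.1 hn))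
      have h2 : aeval x (weightedHomogeneousComponent w n G) - b ∈ Ideal.span {f} :=
        Ideal.Quotient.eq.1 hbn.symm
      obtain ⟨c, hc⟩ := Ideal.mem_span_singleton.1 h2
      refine leading_dvd x w hw hx hreg N P hP hP0 f hf n _ (hwh n) c ?_
      rw [← hc, sub_sub_cancel]
      exact hb
    · rw [Ideal.span_singleton_le_iff_mem, RingHom.mem_ker, key N P hP]
      refine ((isGr_ring 𝓕).ker N _ (hqmem _ _ (aeval_mem x w N P hP))).2 ?_
      have hqf : q f = 0 := Ideal.Quotient.eq_zero_iff_mem.2 (Ideal.mem_span_singleton_self f)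
      have e : q (aeval x P) = - q (f - aeval x P) := by
        rw [map_sub, hqf, zero_sub, neg_neg]
      rw [e]
      exact Ideal.neg_mem_iff _ |>.2 (hqmem _ _ hf)

end Pool.Agent.HT21
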