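import Pool.Agent.HT21.TorMat

/-!
# Lengths of subquotients

`qlen B Z` is the length of `Z / (B ∩ Z)` for submodules `B`, `Z` of a module.
All statements hold in `ℕ∞` without finiteness assumptions (additivity of `Module.length` on short
exact sequences, second and third isomorphism theorems).
-/

universe u

namespace Pool.Agent.HT21

variable {R : Type u} [CommRing R] {M N : Type u} [AddCommGroup M] [Module R M]
  [AddCommGroup N] [Module R N]

private theorem qlen_mem {B Z : Submodule R M} {z : Z} : z ∈ B.submoduleOf Z ↔ (z : M) ∈ B :=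
  Iff.rfl

private theorem qlen_of_surj {P : Type u} [AddCommGroup P] [Module R P] (B Z : Submodule R M)
    (φ : Z →ₗ[R] P) (hφ : Function.Surjective φ) (hk : ∀ z : Z, φ z = 0 ↔ (z : M) ∈ B) :
    qlen B Z = Module.length R P := by
  have hk' : LinearMap.ker φ = B.submoduleOf Z := by
    ext z
    rw [LinearMap.mem_ker, hk, qlen_mem]
  unfold qlen
  rw [← hk']
  exact (φ.quotKerEquivOfSurjective hφ).length_eq

theorem qlen_eq_zero_iff (B Z : Submodule R M) : qlen B Z = 0 ↔ Z ≤ B := by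
  unfold qlen
  rw [Module.length_eq_zero_iff, Submodule.Quotient.subsingleton_iff]
  constructor
  · intro h z hz
    have h1 : (⟨z, hz⟩ : Z) ∈ B.submoduleOf Z := by
      rw [h]
      trivial
    exact h1
  · intro h
    rw [eq_top_iff]
    intro z _
    exact h z.2

theorem qlen_inf (B Z : Submodule R M) : qlen (B ⊓ Z) Z = qlen B Z := by
  have h : (B ⊓ Z).submoduleOf Z = B.submoduleOf Z := by
    ext z
    rw [qlen_mem, qlen_mem]
    exact ⟨fun h => h.1, fun h => ⟨h, z.2⟩⟩
  unfold qlen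
  rw [h]

theorem qlen_sup (B Z : Submodule R M) : qlen B (B ⊔ Z) = qlen B Z := by
  refine (qlen_of_surj B Z
    ((B.submoduleOf (B ⊔ Z)).mkQ ∘ₗ Submodule.inclusion (le_sup_right : Z ≤ B ⊔ Z)) ?_ ?_).symm
  · intro y
    obtain ⟨⟨y, hy⟩, rfl⟩ := Submodule.mkQ_surjective _ y
    obtain ⟨b, hb, z, hz, rfl⟩ := Submodule.mem_sup.1 hy
    refine ⟨⟨z, hz⟩, ?_⟩
    rw [LinearMap.comp_apply, ← sub_eq_zero, ← map_sub, Submodule.mkQ_apply,
      Submodule.Quotient.mk_eq_zero, qlen_mem]
    have h1 : ((Submodule.inclusion (le_sup_right : Z ≤ B ⊔ Z) ⟨z, hz⟩ - ⟨b + z, hy⟩ :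
        ↥(B ⊔ Z)) : M) = -b := by
      show z - (b + z) = -b
      abel
    rw [h1]
    exact B.neg_mem hb
  · intro z
    rw [LinearMap.comp_apply, Submodule.mkQ_apply, Submodule.Quotient.mk_eq_zero, qlen_mem]
    rfl

/-- additivity in a chain `B ≤ C ≤ Z` -/
theorem qlen_add (B C Z : Submodule R M) (h1 : B ≤ C) (h2 : C ≤ Z) :
    qlen B Z = qlen B C + qlen C Z := by
  have hle : B.submoduleOf C ≤ (B.submoduleOf Z).comap (Submodule.inclusion h2) := fun z hz => hz
  have hle' : B.submoduleOf Z ≤ (C.submoduleOf Z).comap LinearMap.id := fun z hz => h1 hz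
  refine Module.length_eq_add_of_exact
    ((B.submoduleOf C).mapQ (B.submoduleOf Z) (Submodule.inclusion h2) hle)
    ((B.submoduleOf Z).mapQ (C.submoduleOf Z) LinearMap.id hle') ?_ ?_ ?_
  · rw [← LinearMap.ker_eq_bot, LinearMap.ker_eq_bot']
    intro y hy
    obtain ⟨z, rfl⟩ := Submodule.mkQ_surjective _ y
    rw [Submodule.mkQ_apply, Submodule.mapQ_apply, Submodule.Quotient.mk_eq_zero] at hy
    rw [Submodule.mkQ_apply, Submodule.Quotient.mk_eq_zero]
    exact hy
  · intro y
    obtain ⟨z, rfl⟩ := Submodule.mkQ_surjective _ y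
    exact ⟨Submodule.Quotient.mk z, by rw [Submodule.mapQ_apply]; rfl⟩
  · intro y
    obtain ⟨z, rfl⟩ := Submodule.mkQ_surjective _ y
    rw [Submodule.mkQ_apply, Submodule.mapQ_apply, Submodule.Quotient.mk_eq_zero]
    constructor
    · intro hz
      refine ⟨Submodule.Quotient.mk ⟨z, hz⟩, ?_⟩
      rw [Submodule.mapQ_apply]
      rfl
    · rintro ⟨w, hw⟩
      obtain ⟨c, rfl⟩ := Submodule.mkQ_surjective _ w
      rw [Submodule.mkQ_apply, Submodule.mapQ_apply, ← sub_eq_zero, ← Submodule.Quotient.mk_sub,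
        Submodule.Quotient.mk_eq_zero] at hw
      have hw' : (c : M) - (z : M) ∈ B := hw
      have hc : (c : M) ∈ C := c.2
      have : (z : M) = (c : M) - ((c : M) - (z : M)) := by abel
      show (z : M) ∈ C
      rw [this]
      exact C.sub_mem hc (h1 hw')

/-- `Z / (B + (ker f ∩ Z)) ≅ f(Z) / f(B)` for `B ≤ Z`. -/
theorem qlen_map (f : M →ₗ[R] N) (B Z : Submodule R M) (h : B ≤ Z) :
    qlen (B.map f) (Z.map f) = qlen (B ⊔ (LinearMap.ker f ⊓ Z)) Z := by
  refine (qlen_of_surj _ Z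
    (((B.map f).submoduleOf (Z.map f)).mkQ ∘ₗ
      f.restrict (p := Z) (q := Z.map f) (fun z hz => Submodule.mem_map_of_mem hz)) ?_ ?_).symm
  · intro y
    obtain ⟨⟨y, hy⟩, rfl⟩ := Submodule.mkQ_surjective _ y
    obtain ⟨z, hz, rfl⟩ := hy
    exact ⟨⟨z, hz⟩, rfl⟩
  · intro z
    rw [LinearMap.comp_apply, Submodule.mkQ_apply, Submodule.Quotient.mk_eq_zero, qlen_mem]
    constructor
    · rintro ⟨b, hb, hbz⟩
      have hbz' : f b = f z := hbz
      rw [Submodule.mem_sup]
      refine ⟨b, hb, (z : M) - b, ⟨?_, Z.sub_mem z.2 (h hb)⟩, by abel⟩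
      show f (z - b) = 0
      rw [map_sub, hbz', sub_self]
    · intro hz
      obtain ⟨b, hb, k, ⟨hk, -⟩, hbk⟩ := Submodule.mem_sup.1 hz
      refine ⟨b, hb, ?_⟩
      show f b = f z
      have hk' : f k = 0 := hk
      rw [← hbk, map_add, hk', add_zero]

theorem qlen_mono_left (B B' Z : Submodule R M) (h : B ≤ B') : qlen B' Z ≤ qlen B Z := by
  have hle : B.submoduleOf Z ≤ (B'.submoduleOf Z).comap LinearMap.id := fun z hz => h hz
  refine Module.length_le_of_surjective
    ((B.submoduleOf Z).mapQ (B'.submoduleOf Z) LinearMap.id hle) ?_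
  intro y
  obtain ⟨z, rfl⟩ := Submodule.mkQ_surjective _ y
  exact ⟨Submodule.Quotient.mk z, by rw [Submodule.mapQ_apply]; rfl⟩

theorem qlen_mono_right (B Z Z' : Submodule R M) (h : Z ≤ Z') : qlen B Z ≤ qlen B Z' := by
  have hle : B.submoduleOf Z ≤ (B.submoduleOf Z').comap (Submodule.inclusion h) :=
    fun z hz => hz
  refine Module.length_le_of_injective
    ((B.submoduleOf Z).mapQ (B.submoduleOf Z') (Submodule.inclusion h) hle) ?_
  rw [← LinearMap.ker_eq_bot, LinearMap.ker_eq_bot']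
  intro y hy
  obtain ⟨z, rfl⟩ := Submodule.mkQ_surjective _ y
  rw [Submodule.mkQ_apply, Submodule.mapQ_apply, Submodule.Quotient.mk_eq_zero] at hy
  rw [Submodule.mkQ_apply, Submodule.Quotient.mk_eq_zero]
  exact hy

end Pool.Agent.HT21
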