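import Pool.Agent.HT21.GrIface
import Pool.Agent.HT21.QLen

/-!
# The length of the homology of a graded complex is the sum of the lengths of its pieces

Same situation as in `gr_exact`, with `d1 ∘ d2 = 0`.  Put
`Z' n = G1 n ⊓ d1⁻¹ (G0 (n+1))`, `B' n = d2 (G2 n) ⊔ G1 (n+1)` and `h n = len (Z' n / B' n)` over `A`.
If the homology `ker D1 / range D2` has finite length over `gr A`, then `h n = 0` for large `n` and
the length is `∑ h n`.

Proof.  Let `T n = range D2 ⊔ {v ∈ ker D1 | v = sum of τ1 j (x j), j ≥ n}` (a `gr A`-submodule: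
`σ m a • τ1 j x = τ1 (m+j) (a x)`).  `T 0 = ker D1`, `T` is decreasing, and
`T n / T (n+1)` is isomorphic to `Z' n / B' n`: map `x ∈ Z' n` to the class of `τ1 n x`
(`D1 (τ1 n x) = τ0 n (d1 x) = 0`); it is surjective; `τ1 n x ∈ T (n+1)` iff
`τ1 n x - D2 u` is a sum of `τ1 j`, `j > n`, iff (degree `n` part of `u`) `x - d2 y ∈ G1 (n+1)` for
some `y ∈ G2 n`.  On `T n / T (n+1)` the symbols `σ m a`, `m ≥ 1`, act as zero, so every element of
`gr A` acts as some `a ∈ A` does and the lattices of `gr A`-submodules of `T n / T (n+1)` and of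
`A`-submodules of `Z' n / B' n` are isomorphic: the lengths agree.  Finite length implies that the
chain `T n` is eventually constant, so `h n = 0` for `n ≥ n0`; then `T n0 = range D2`
(an element `∑_{j ≥ n0} τ1 j (x j)` of `ker D1` has every `x j ∈ Z' j = B' j`, so every
`τ1 j (x j) ∈ range D2`).  Add the lengths of the `n0` steps.
-/
universe u

namespace Pool.Agent.HT21

/-- lengths over two rings agree along an additive surjection compatible with the actions -/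
private theorem gl_len {A R M N : Type u} [Ring A] [Ring R] [AddCommGroup M] [Module A M]
    [AddCommGroup N] [Module R N] (B : Submodule A M) (ψ : M →+ N)
    (hs : Function.Surjective ψ) (hk : ∀ x, ψ x = 0 ↔ x ∈ B)
    (h1 : ∀ (a : A) x, ∃ r : R, ψ (a • x) = r • ψ x)
    (h2 : ∀ (r : R) x, ∃ a : A, r • ψ x = ψ (a • x)) :
    Module.length A (M ⧸ B) = Module.length R N := by
  have e : Submodule R N ≃o Set.Ici B :=
    { toFun := fun p => ⟨{ carrier := {x | ψ x ∈ p}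
                           add_mem' := by
                             intro x y hx hy
                             show ψ (x + y) ∈ p
                             rw [map_add]
                             exact p.add_mem hx hy
                           zero_mem' := by
                             show ψ 0 ∈ p
                             rw [map_zero]
                             exact p.zero_mem
                           smul_mem' := by
                             intro a x hx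
                             obtain ⟨r, hr⟩ := h1 a x
                             show ψ (a • x) ∈ p
                             rw [hr]
                             exact p.smul_mem r hx }, by
                         intro x hx
                         show ψ x ∈ p
                         rw [(hk x).2 hx]
                         exact p.zero_mem⟩
      invFun := fun q => { carrier := ψ '' (q.1 : Set M)
                           add_mem' := by
                             rintro _ _ ⟨x, hx, rfl⟩ ⟨y, hy, rfl⟩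
                             exact ⟨x + y, q.1.add_mem hx hy, map_add _ _ _⟩
                           zero_mem' := ⟨0, q.1.zero_mem, map_zero _⟩
                           smul_mem' := by
                             rintro r _ ⟨x, hx, rfl⟩
                             obtain ⟨a, ha⟩ := h2 r x
                             exact ⟨a • x, q.1.smul_mem a hx, ha.symm⟩ }
      left_inv := by
        intro p
        ext y
        constructor
        · rintro ⟨x, hx, rfl⟩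
          exact hx
        · intro hy
          obtain ⟨x, rfl⟩ := hs y
          exact ⟨x, hy, rfl⟩
      right_inv := by
        intro q
        apply Subtype.ext
        ext x
        constructor
        · rintro ⟨y, hy, hxy⟩
          have h3 : x - y ∈ B := by
            rw [← hk, map_sub, hxy, sub_self]
          have h4 := q.1.add_mem hy (q.2 h3)
          rwa [add_sub_cancel] at h4
        · intro hx
          exact ⟨x, hx, rfl⟩
      map_rel_iff' := by
        intro p p'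
        constructor
        · intro h y hy
          obtain ⟨x, rfl⟩ := hs y
          exact h (show ψ x ∈ p from hy)
        · intro h x hx
          exact h hx }
  apply WithBot.coe_injective
  rw [Module.coe_length, Module.coe_length]
  exact Order.krullDim_eq_of_orderIso ((Submodule.comapMkQRelIso B).trans e.symm)

section

variable {A : Type u} [CommRing A] {𝓕 : RFilt A} {M : Type u} [AddCommGroup M] [Module A M]
  {G : ℕ → Submodule A M} {V : Type u} [AddCommGroup V] [Module 𝓕.gr V] {τ : ℕ → M → V}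

/-- `v` is the sum of the symbols of the `y n` -/
private def Rp (G : ℕ → Submodule A M) (τ : ℕ → M → V) (v : V) (y : ℕ → M) : Prop :=
  (∀ n, y n ∈ G n) ∧ ∃ m, ∀ m', m ≤ m' → v = ∑ n ∈ Finset.range m', τ n (y n)

private theorem gl_tau_zero (h : IsGr 𝓕 G V τ) (n : ℕ) : τ n 0 = 0 :=
  (h.ker n 0 (Submodule.zero_mem _)).2 (Submodule.zero_mem _)

private theorem gl_tau_neg (h : IsGr 𝓕 G V τ) (n : ℕ) (x : M) (hx : x ∈ G n) :
    τ n (-x) = -τ n x := by
  have h1 := h.add n x (-x) hx (Submodule.neg_mem _ hx)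
  rw [add_neg_cancel, gl_tau_zero h] at h1
  exact (neg_eq_of_add_eq_zero_right h1.symm).symm

private theorem rp_exists (h : IsGr 𝓕 G V τ) (v : V) : ∃ y, Rp G τ v y := by
  obtain ⟨m, y, hy, rfl⟩ := h.surj v
  refine ⟨fun n => if n < m then y n else 0, ?_, m, ?_⟩
  · intro n
    by_cases hn : n < m
    · simp only [hn, if_true]
      exact hy n
    · simp only [hn, if_false]
      exact Submodule.zero_mem _
  · intro m' hm'
    obtain ⟨k, rfl⟩ := Nat.exists_eq_add_of_le hm'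
    rw [Finset.sum_range_add]
    have h1 : ∑ x ∈ Finset.range k, τ (m + x) (if m + x < m then y (m + x) else 0) = 0 := by
      refine Finset.sum_eq_zero fun x _ => ?_
      have : ¬ (m + x < m) := by omega
      rw [if_neg this]
      exact gl_tau_zero h _
    rw [h1, add_zero]
    refine Finset.sum_congr rfl fun n hn => ?_
    show τ n (y n) = τ n (if n < m then y n else 0)
    rw [if_pos (Finset.mem_range.1 hn)]

private theorem rp_add (h : IsGr 𝓕 G V τ) {v w : V} {y z : ℕ → M} (hv : Rp G τ v y)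
    (hw : Rp G τ w z) : Rp G τ (v + w) (fun n => y n + z n) := by
  obtain ⟨hy, m, hm⟩ := hv
  obtain ⟨hz, l, hl⟩ := hw
  refine ⟨fun n => Submodule.add_mem _ (hy n) (hz n), max m l, ?_⟩
  intro m' hm'
  rw [hm m' ((le_max_left _ _).trans hm'), hl m' ((le_max_right _ _).trans hm'),
    ← Finset.sum_add_distrib]
  exact Finset.sum_congr rfl fun n _ => (h.add n _ _ (hy n) (hz n)).symm

private theorem rp_neg (h : IsGr 𝓕 G V τ) {v : V} {y : ℕ → M} (hv : Rp G τ v y) :
    Rp G τ (-v) (fun n => -y n) := by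
  obtain ⟨hy, m, hm⟩ := hv
  refine ⟨fun n => Submodule.neg_mem _ (hy n), m, ?_⟩
  intro m' hm'
  rw [hm m' hm', ← Finset.sum_neg_distrib]
  exact Finset.sum_congr rfl fun n _ => (gl_tau_neg h n _ (hy n)).symm

private theorem rp_zero (h : IsGr 𝓕 G V τ) {y : ℕ → M} (hv : Rp G τ 0 y) (n : ℕ) :
    y n ∈ G (n + 1) := by
  obtain ⟨hy, m, hm⟩ := hv
  exact h.indep (max m (n + 1)) y hy (hm _ (le_max_left _ _)).symm n
    (lt_of_lt_of_le (Nat.lt_succ_self n) (le_max_right _ _))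

private theorem rp_single (h : IsGr 𝓕 G V τ) (n : ℕ) (x : M) (hx : x ∈ G n) :
    Rp G τ (τ n x) (fun k => if k = n then x else 0) := by
  refine ⟨fun k => ?_, n + 1, ?_⟩
  · by_cases hk : k = n
    · subst hk
      simp only [if_true]
      exact hx
    · simp only [hk, if_false]
      exact Submodule.zero_mem _
  · intro m' hm'
    rw [Finset.sum_eq_single n]
    · show τ n x = τ n (if n = n then x else 0)
      rw [if_pos rfl]
    · intro b _ hb
      show τ b (if b = n then x else 0) = 0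
      rw [if_neg hb]
      exact gl_tau_zero h _
    · intro hn
      exact absurd (Finset.mem_range.2 (by omega)) hn

private theorem rp_smul (h : IsGr 𝓕 G V τ) {v : V} {y : ℕ → M} (hv : Rp G τ v y) (i : ℕ) (a : A)
    (ha : a ∈ 𝓕.F i) :
    Rp G τ (𝓕.σ i a • v) (fun n => if i ≤ n then a • y (n - i) else 0) := by
  obtain ⟨hy, m, hm⟩ := hv
  refine ⟨fun n => ?_, i + m, ?_⟩
  · by_cases hn : i ≤ n
    · simp only [hn, if_true]
      have h1 := h.smul_mem i (n - i) a (y (n - i)) ha (hy _)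
      rwa [Nat.add_sub_cancel' hn] at h1
    · simp only [hn, if_false]
      exact Submodule.zero_mem _
  · intro m' hm'
    obtain ⟨k, rfl⟩ := Nat.exists_eq_add_of_le (show i ≤ m' by omega)
    rw [hm k (by omega), Finset.smul_sum, Finset.sum_range_add]
    have h1 : ∑ x ∈ Finset.range i, τ x (if i ≤ x then a • y (x - i) else 0) = 0 := by
      refine Finset.sum_eq_zero fun x hx => ?_
      have : ¬ (i ≤ x) := by
        have := Finset.mem_range.1 hx
        omega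
      rw [if_neg this]
      exact gl_tau_zero h _
    rw [h1, zero_add]
    refine Finset.sum_congr rfl fun x _ => ?_
    show 𝓕.σ i a • τ x (y x) = τ (i + x) (if i ≤ i + x then a • y (i + x - i) else 0)
    rw [if_pos (Nat.le_add_right i x), Nat.add_sub_cancel_left]
    exact h.smul i x a (y x) ha (hy x)

/-- the elements with symbols in degrees at least `n` -/
private noncomputable def Wn (h : IsGr 𝓕 G V τ) (n : ℕ) : Submodule 𝓕.gr V where
  carrier := {v | ∃ y, Rp G τ v y ∧ ∀ j, j < n → y j = 0}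
  add_mem' := by
    rintro v w ⟨y, hy, hy0⟩ ⟨z, hz, hz0⟩
    refine ⟨_, rp_add h hy hz, fun j hj => ?_⟩
    show y j + z j = 0
    rw [hy0 j hj, hz0 j hj, add_zero]
  zero_mem' := by
    refine ⟨fun _ => 0, ⟨fun _ => Submodule.zero_mem _, 0, fun m' _ => ?_⟩, fun _ _ => rfl⟩
    rw [Finset.sum_eq_zero fun x _ => gl_tau_zero h x]
  smul_mem' := by
    rintro r v ⟨y, hy, hy0⟩
    obtain ⟨m, c, hc, rfl⟩ := (isGr_ring 𝓕).surj r
    rw [Finset.sum_smul]
    have key : ∀ m : ℕ, ∃ z, Rp G τ (∑ i ∈ Finset.range m, 𝓕.σ i (c i) • v) z ∧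
        ∀ j, j < n → z j = 0 := by
      intro m
      induction m with
      | zero =>
        refine ⟨fun _ => 0, ⟨fun _ => Submodule.zero_mem _, 0, fun m' _ => ?_⟩, fun _ _ => rfl⟩
        rw [Finset.sum_eq_zero fun x _ => gl_tau_zero h x, Finset.range_zero, Finset.sum_empty]
      | succ m ih =>
        obtain ⟨z, hz, hz0⟩ := ih
        refine ⟨fun k => z k + (if m ≤ k then c m • y (k - m) else 0), ?_, ?_⟩
        · rw [Finset.sum_range_succ]
          exact rp_add h hz (rp_smul h hy m (c m) (hc m))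
        · intro j hj
          show z j + (if m ≤ j then c m • y (j - m) else 0) = 0
          rw [hz0 j hj, zero_add]
          by_cases hm : m ≤ j
          · rw [if_pos hm, hy0 (j - m) (by omega), smul_zero]
          · rw [if_neg hm]
    exact key m

private theorem tau_mem_Wn (h : IsGr 𝓕 G V τ) (n k : ℕ) (hk : n ≤ k) (x : M) (hx : x ∈ G k) :
    τ k x ∈ Wn h n :=
  ⟨_, rp_single h k x hx, fun j hj => if_neg (by omega)⟩

private theorem Wn_zero (h : IsGr 𝓕 G V τ) : Wn h 0 = ⊤ := by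
  rw [eq_top_iff]
  intro v _
  obtain ⟨y, hy⟩ := rp_exists h v
  exact ⟨y, hy, fun j hj => absurd hj (Nat.not_lt_zero j)⟩

private theorem Wn_succ (h : IsGr 𝓕 G V τ) (n : ℕ) : Wn h (n + 1) ≤ Wn h n := by
  rintro v ⟨y, hy, hy0⟩
  exact ⟨y, hy, fun j hj => hy0 j (by omega)⟩

/-- peel off the part of degree `n` -/
private theorem Wn_peel (h : IsGr 𝓕 G V τ) (n : ℕ) {v : V} {y : ℕ → M} (hv : Rp G τ v y)
    (hy0 : ∀ j, j < n → y j = 0) : v - τ n (y n) ∈ Wn h (n + 1) := by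
  refine ⟨fun j => y j + -(if j = n then y n else 0), ?_, ?_⟩
  · rw [sub_eq_add_neg]
    exact rp_add h hv (rp_neg h (rp_single h n (y n) (hv.1 n)))
  · intro j hj
    show y j + -(if j = n then y n else 0) = 0
    by_cases hjn : j = n
    · rw [if_pos hjn, hjn, add_neg_cancel]
    · rw [if_neg hjn, hy0 j (by omega), neg_zero, add_zero]

end

private theorem rp_map {A : Type u} [CommRing A] {𝓕 : RFilt A}
    {C0 C1 : Type u} [AddCommGroup C0] [Module A C0] [AddCommGroup C1] [Module A C1]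
    {G0 : ℕ → Submodule A C0} {G1 : ℕ → Submodule A C1}
    {V0 V1 : Type u} [AddCommGroup V0] [Module 𝓕.gr V0] [AddCommGroup V1] [Module 𝓕.gr V1]
    {τ0 : ℕ → C0 → V0} {τ1 : ℕ → C1 → V1}
    (d1 : C1 →ₗ[A] C0) (m1 : ∀ n x, x ∈ G1 n → d1 x ∈ G0 n) (D1 : V1 →ₗ[𝓕.gr] V0)
    (c1 : ∀ n x, x ∈ G1 n → D1 (τ1 n x) = τ0 n (d1 x)) {v : V1} {y : ℕ → C1}
    (hv : Rp G1 τ1 v y) : Rp G0 τ0 (D1 v) (fun n => d1 (y n)) := by
  obtain ⟨hy, m, hm⟩ := hv
  refine ⟨fun n => m1 n _ (hy n), m, fun m' hm' => ?_⟩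
  rw [hm m' hm', map_sum]
  exact Finset.sum_congr rfl fun n _ => c1 n _ (hy n)

section

variable {A : Type u} [CommRing A] {𝓕 : RFilt A}
    {C0 C1 C2 : Type u} [AddCommGroup C0] [Module A C0] [AddCommGroup C1] [Module A C1]
    [AddCommGroup C2] [Module A C2]
    {G0 : ℕ → Submodule A C0} {G1 : ℕ → Submodule A C1} {G2 : ℕ → Submodule A C2}
    {V0 V1 V2 : Type u} [AddCommGroup V0] [Module 𝓕.gr V0] [AddCommGroup V1] [Module 𝓕.gr V1]
    [AddCommGroup V2] [Module 𝓕.gr V2] {τ0 : ℕ → C0 → V0} {τ1 : ℕ → C1 → V1} {τ2 : ℕ → C2 → V2}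

/-- the chain `T n` -/
private noncomputable def Tn (h1 : IsGr 𝓕 G1 V1 τ1) (D1 : V1 →ₗ[𝓕.gr] V0) (D2 : V2 →ₗ[𝓕.gr] V1) (n : ℕ) :
    Submodule 𝓕.gr V1 :=
  LinearMap.range D2 ⊔ (LinearMap.ker D1 ⊓ Wn h1 n)

private theorem gl_DD (h0 : IsGr 𝓕 G0 V0 τ0) (h2 : IsGr 𝓕 G2 V2 τ2)
    (d1 : C1 →ₗ[A] C0) (d2 : C2 →ₗ[A] C1) (hd : ∀ x, d1 (d2 x) = 0)
    (m1 : ∀ n x, x ∈ G1 n → d1 x ∈ G0 n) (m2 : ∀ n x, x ∈ G2 n → d2 x ∈ G1 n)
    (D1 : V1 →ₗ[𝓕.gr] V0) (D2 : V2 →ₗ[𝓕.gr] V1)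
    (c1 : ∀ n x, x ∈ G1 n → D1 (τ1 n x) = τ0 n (d1 x))
    (c2 : ∀ n x, x ∈ G2 n → D2 (τ2 n x) = τ1 n (d2 x)) :
    LinearMap.range D2 ≤ LinearMap.ker D1 := by
  rintro _ ⟨u, rfl⟩
  obtain ⟨y, hy⟩ := rp_exists h2 u
  obtain ⟨-, m, hm⟩ := rp_map d1 m1 D1 c1 (rp_map d2 m2 D2 c2 hy)
  rw [LinearMap.mem_ker, hm m le_rfl]
  refine Finset.sum_eq_zero fun n _ => ?_
  show τ0 n (d1 (d2 (y n))) = 0
  rw [hd]
  exact gl_tau_zero h0 n

/-- `x ∈ Z' n`: `τ1 n x` is a cycle -/
private theorem gl_cyc (h0 : IsGr 𝓕 G0 V0 τ0) (d1 : C1 →ₗ[A] C0)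
    (m1 : ∀ n x, x ∈ G1 n → d1 x ∈ G0 n) (D1 : V1 →ₗ[𝓕.gr] V0)
    (c1 : ∀ n x, x ∈ G1 n → D1 (τ1 n x) = τ0 n (d1 x)) (n : ℕ) (x : C1)
    (hx : x ∈ G1 n ⊓ (G0 (n + 1)).comap d1) : D1 (τ1 n x) = 0 := by
  rw [c1 n x hx.1]
  exact (h0.ker n _ (m1 n x hx.1)).2 hx.2

/-- `x ∈ B' n`: `τ1 n x` is a boundary -/
private theorem gl_bd (h1 : IsGr 𝓕 G1 V1 τ1)
    (d2 : C2 →ₗ[A] C1) (m2 : ∀ n x, x ∈ G2 n → d2 x ∈ G1 n) (D2 : V2 →ₗ[𝓕.gr] V1)
    (c2 : ∀ n x, x ∈ G2 n → D2 (τ2 n x) = τ1 n (d2 x)) (n : ℕ) (x : C1)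
    (hx : x ∈ (G2 n).map d2 ⊔ G1 (n + 1)) : τ1 n x ∈ LinearMap.range D2 := by
  obtain ⟨b, ⟨y, hy, rfl⟩, g, hg, rfl⟩ := Submodule.mem_sup.1 hx
  have hg' : g ∈ G1 n := h1.anti (Nat.le_succ n) hg
  rw [h1.add n _ _ (m2 n y hy) hg', (h1.ker n g hg').2 hg, add_zero, ← c2 n y hy]
  exact ⟨_, rfl⟩

private theorem gl_step (h0 : IsGr 𝓕 G0 V0 τ0) (h1 : IsGr 𝓕 G1 V1 τ1) (h2 : IsGr 𝓕 G2 V2 τ2)
    (d1 : C1 →ₗ[A] C0) (d2 : C2 →ₗ[A] C1)
    (m1 : ∀ n x, x ∈ G1 n → d1 x ∈ G0 n) (m2 : ∀ n x, x ∈ G2 n → d2 x ∈ G1 n)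
    (D1 : V1 →ₗ[𝓕.gr] V0) (D2 : V2 →ₗ[𝓕.gr] V1)
    (c1 : ∀ n x, x ∈ G1 n → D1 (τ1 n x) = τ0 n (d1 x))
    (c2 : ∀ n x, x ∈ G2 n → D2 (τ2 n x) = τ1 n (d2 x)) (n : ℕ) :
    qlen (Tn h1 D1 D2 (n + 1)) (Tn h1 D1 D2 n) =
      qlen ((G2 n).map d2 ⊔ G1 (n + 1)) (G1 n ⊓ (G0 (n + 1)).comap d1) := by
  have hle : Tn h1 D1 D2 (n + 1) ≤ Tn h1 D1 D2 n :=
    sup_le_sup_left (inf_le_inf_left _ (Wn_succ h1 n)) _
  have hT : Tn h1 D1 D2 n = Tn h1 D1 D2 (n + 1) ⊔ (LinearMap.ker D1 ⊓ Wn h1 n) := by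
    apply le_antisymm
    · exact sup_le_sup_right le_sup_left _
    · exact sup_le hle le_sup_right
  rw [hT, qlen_sup]
  -- the additive map
  have hmem : ∀ x : ↥(G1 n ⊓ (G0 (n + 1)).comap d1),
      τ1 n (x : C1) ∈ LinearMap.ker D1 ⊓ Wn h1 n := fun x =>
    ⟨gl_cyc h0 d1 m1 D1 c1 n x x.2, tau_mem_Wn h1 n n le_rfl _ x.2.1⟩
  let ψ0 : ↥(G1 n ⊓ (G0 (n + 1)).comap d1) →+ ↥(LinearMap.ker D1 ⊓ Wn h1 n) :=
    AddMonoidHom.mk' (fun x => ⟨τ1 n (x : C1), hmem x⟩) (by
      intro x y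
      apply Subtype.ext
      exact h1.add n _ _ x.2.1 y.2.1)
  let π := ((Tn h1 D1 D2 (n + 1)).submoduleOf (LinearMap.ker D1 ⊓ Wn h1 n)).mkQ
  let ψ : ↥(G1 n ⊓ (G0 (n + 1)).comap d1) →+
      (↥(LinearMap.ker D1 ⊓ Wn h1 n) ⧸
        (Tn h1 D1 D2 (n + 1)).submoduleOf (LinearMap.ker D1 ⊓ Wn h1 n)) :=
    π.toAddMonoidHom.comp ψ0
  have hψ : ∀ x, ψ x = π (ψ0 x) := fun _ => rfl
  -- equality of classes
  have heq : ∀ v w : ↥(LinearMap.ker D1 ⊓ Wn h1 n), (v : V1) - w ∈ Tn h1 D1 D2 (n + 1) →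
      π v = π w := by
    intro v w hvw
    exact (Submodule.Quotient.eq _).2 hvw
  unfold qlen
  symm
  refine gl_len _ ψ ?_ ?_ ?_ ?_
  · -- surjective
    intro q
    obtain ⟨⟨v, hvk, y, hy, hy0⟩, rfl⟩ := Submodule.mkQ_surjective _ q
    have hz : Rp G0 τ0 0 (fun n => d1 (y n)) := by
      have h3 := rp_map d1 m1 D1 c1 hy
      rwa [show D1 v = 0 from hvk] at h3
    have hyn : y n ∈ G1 n ⊓ (G0 (n + 1)).comap d1 := ⟨hy.1 n, rp_zero h0 hz n⟩
    refine ⟨⟨y n, hyn⟩, ?_⟩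
    rw [hψ]
    refine heq _ _ ?_
    show τ1 n (y n) - v ∈ Tn h1 D1 D2 (n + 1)
    rw [← neg_sub]
    refine Submodule.neg_mem _ (Submodule.mem_sup_right ⟨?_, Wn_peel h1 n hy hy0⟩)
    exact Submodule.sub_mem _ hvk (gl_cyc h0 d1 m1 D1 c1 n _ hyn)
  · -- kernel
    intro x
    rw [hψ]
    constructor
    · intro hx
      have hx' : τ1 n (x : C1) ∈ Tn h1 D1 D2 (n + 1) := by
        have hx2 := (Submodule.Quotient.mk_eq_zero
          ((Tn h1 D1 D2 (n + 1)).submoduleOf (LinearMap.ker D1 ⊓ Wn h1 n))).1 hx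
        exact hx2
      obtain ⟨_, ⟨u, rfl⟩, w, ⟨-, z, hz, hz0⟩, huw⟩ := Submodule.mem_sup.1 hx'
      obtain ⟨y, hy⟩ := rp_exists h2 u
      have h3 := rp_map d2 m2 D2 c2 hy
      have h4 := rp_add h1 (rp_add h1 h3 hz) (rp_neg h1 (rp_single h1 n (x : C1) x.2.1))
      rw [huw, add_neg_cancel] at h4
      have h5 : d2 (y n) + z n + -(if n = n then (x : C1) else 0) ∈ G1 (n + 1) := rp_zero h1 h4 n
      rw [if_pos rfl, hz0 n (Nat.lt_succ_self n), add_zero] at h5
      show (x : C1) ∈ (G2 n).map d2 ⊔ G1 (n + 1)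
      have h6 : (x : C1) = d2 (y n) + -(d2 (y n) + -(x : C1)) := by abel
      rw [h6]
      exact Submodule.add_mem_sup ⟨y n, hy.1 n, rfl⟩ (Submodule.neg_mem _ h5)
    · intro hx
      exact (Submodule.Quotient.mk_eq_zero _).2
        (Submodule.mem_sup_left (gl_bd h1 d2 m2 D2 c2 n x hx) :
          τ1 n (x : C1) ∈ Tn h1 D1 D2 (n + 1))
  · -- action of `A`
    intro a x
    refine ⟨𝓕.σ 0 a, ?_⟩
    rw [hψ, hψ, ← map_smul]
    congr 1
    apply Subtype.ext
    show τ1 n (a • (x : C1)) = 𝓕.σ 0 a • τ1 n (x : C1)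
    have ha : a ∈ 𝓕.F 0 := by rw [𝓕.zero']; trivial
    rw [h1.smul 0 n a x ha x.2.1, zero_add]
  · -- action of `gr A`
    intro r x
    obtain ⟨m, c, hc, rfl⟩ := (isGr_ring 𝓕).surj r
    have key : ∀ m : ℕ, ∃ a : A, (∑ i ∈ Finset.range m, 𝓕.σ i (c i)) • ψ x = ψ (a • x) := by
      intro m
      induction m with
      | zero =>
        refine ⟨0, ?_⟩
        rw [Finset.range_zero, Finset.sum_empty, zero_smul, zero_smul, map_zero]
      | succ m ih =>
        obtain ⟨a, ha⟩ := ih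
        rw [Finset.sum_range_succ, add_smul, ha]
        rcases Nat.eq_zero_or_pos m with hm | hm
        · subst hm
          refine ⟨a + c 0, ?_⟩
          rw [add_smul, map_add]
          congr 1
          rw [hψ, hψ, ← map_smul]
          congr 1
          apply Subtype.ext
          show 𝓕.σ 0 (c 0) • τ1 n (x : C1) = τ1 n (c 0 • (x : C1))
          rw [h1.smul 0 n (c 0) x (hc 0) x.2.1, zero_add]
        · refine ⟨a, ?_⟩
          have h7 : 𝓕.σ m (c m) • ψ x = 0 := by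
            rw [hψ, ← map_smul]
            refine (Submodule.Quotient.mk_eq_zero _).2
              (Submodule.mem_sup_right ⟨?_, ?_⟩ :
                𝓕.σ m (c m) • τ1 n (x : C1) ∈ Tn h1 D1 D2 (n + 1))
            · exact Submodule.smul_mem _ _ (hmem x).1
            · rw [h1.smul m n (c m) x (hc m) x.2.1]
              exact tau_mem_Wn h1 (n + 1) (m + n) (by omega) _
                (h1.smul_mem m n (c m) x (hc m) x.2.1)
          rw [h7, add_zero]
    exact key m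

end

private theorem gl_nat_stab (s : ℕ → ℕ) (hs : Monotone s) (L : ℕ) (hL : ∀ n, s n ≤ L) :
    ∃ n0, ∀ n, n0 ≤ n → s n = s n0 := by
  by_contra hcon
  push Not at hcon
  have h1 : ∀ k : ℕ, ∃ n, k ≤ s n := by
    intro k
    induction k with
    | zero => exact ⟨0, Nat.zero_le _⟩
    | succ k ih =>
      obtain ⟨n, hn⟩ := ih
      obtain ⟨m, hm, hne⟩ := hcon n
      exact ⟨m, lt_of_le_of_lt hn (lt_of_le_of_ne (hs hm) (Ne.symm hne))⟩
  obtain ⟨n, hn⟩ := h1 (L + 1)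
  exact absurd (hL n) (by omega)

theorem gr_len {A : Type u} [CommRing A] {𝓕 : RFilt A}
    {C0 C1 C2 : Type u} [AddCommGroup C0] [Module A C0] [AddCommGroup C1] [Module A C1]
    [AddCommGroup C2] [Module A C2]
    {G0 : ℕ → Submodule A C0} {G1 : ℕ → Submodule A C1} {G2 : ℕ → Submodule A C2}
    {V0 V1 V2 : Type u} [AddCommGroup V0] [Module 𝓕.gr V0] [AddCommGroup V1] [Module 𝓕.gr V1]
    [AddCommGroup V2] [Module 𝓕.gr V2] {τ0 : ℕ → C0 → V0} {τ1 : ℕ → C1 → V1} {τ2 : ℕ → C2 → V2}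
    (h0 : IsGr 𝓕 G0 V0 τ0) (h1 : IsGr 𝓕 G1 V1 τ1) (h2 : IsGr 𝓕 G2 V2 τ2)
    (d1 : C1 →ₗ[A] C0) (d2 : C2 →ₗ[A] C1) (hd : ∀ x, d1 (d2 x) = 0)
    (m1 : ∀ n x, x ∈ G1 n → d1 x ∈ G0 n) (m2 : ∀ n x, x ∈ G2 n → d2 x ∈ G1 n)
    (D1 : V1 →ₗ[𝓕.gr] V0) (D2 : V2 →ₗ[𝓕.gr] V1)
    (c1 : ∀ n x, x ∈ G1 n → D1 (τ1 n x) = τ0 n (d1 x))
    (c2 : ∀ n x, x ∈ G2 n → D2 (τ2 n x) = τ1 n (d2 x))
    (hfin : qlen (LinearMap.range D2) (LinearMap.ker D1) ≠ ⊤) :
    ∃ n0 : ℕ,
      (∀ n, n0 ≤ n → qlen ((G2 n).map d2 ⊔ G1 (n + 1)) (G1 n ⊓ (G0 (n + 1)).comap d1) = 0) ∧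
      qlen (LinearMap.range D2) (LinearMap.ker D1) = ∑ n ∈ Finset.range n0,
        qlen ((G2 n).map d2 ⊔ G1 (n + 1)) (G1 n ⊓ (G0 (n + 1)).comap d1) := by
  set hh : ℕ → ℕ∞ := fun n =>
    qlen ((G2 n).map d2 ⊔ G1 (n + 1)) (G1 n ⊓ (G0 (n + 1)).comap d1) with hhdef
  have hDD := gl_DD h0 h2 d1 d2 hd m1 m2 D1 D2 c1 c2
  have hT0 : Tn h1 D1 D2 0 = LinearMap.ker D1 := by
    unfold Tn
    rw [Wn_zero h1, inf_top_eq]
    exact sup_eq_right.2 hDD
  have hTle : ∀ n, Tn h1 D1 D2 (n + 1) ≤ Tn h1 D1 D2 n := fun n =>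
    sup_le_sup_left (inf_le_inf_left _ (Wn_succ h1 n)) _
  have hsum : ∀ N, qlen (LinearMap.range D2) (LinearMap.ker D1) =
      ∑ n ∈ Finset.range N, hh n + qlen (LinearMap.range D2) (Tn h1 D1 D2 N) := by
    intro N
    induction N with
    | zero => rw [Finset.range_zero, Finset.sum_empty, zero_add, hT0]
    | succ N ih =>
      rw [ih, qlen_add (LinearMap.range D2) (Tn h1 D1 D2 (N + 1)) (Tn h1 D1 D2 N) le_sup_left
        (hTle N), gl_step h0 h1 h2 d1 d2 m1 m2 D1 D2 c1 c2 N, Finset.sum_range_succ, add_assoc]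
      congr 1
      exact add_comm _ _
  have hfinS : ∀ N, ∑ n ∈ Finset.range N, hh n ≠ ⊤ := by
    intro N hN
    apply hfin
    rw [hsum N, hN, top_add]
  obtain ⟨n0, hn0⟩ := gl_nat_stab (fun N => (∑ n ∈ Finset.range N, hh n).toNat)
    (by
      intro a b hab
      exact ENat.toNat_le_toNat (Finset.sum_le_sum_of_subset (Finset.range_mono hab)) (hfinS b))
    (qlen (LinearMap.range D2) (LinearMap.ker D1)).toNat
    (by
      intro N
      refine ENat.toNat_le_toNat ?_ hfin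
      rw [hsum N]
      exact le_self_add)
  have hz : ∀ n, n0 ≤ n → hh n = 0 := by
    intro n hn
    have h3 := hn0 n hn
    have h4 := hn0 (n + 1) (hn.trans (Nat.le_succ n))
    have h5 : (∑ k ∈ Finset.range (n + 1), hh k).toNat = (∑ k ∈ Finset.range n, hh k).toNat :=
      h4.trans h3.symm
    have h6 : ∑ k ∈ Finset.range (n + 1), hh k = ∑ k ∈ Finset.range n, hh k := by
      rw [← ENat.natCast_toNat (hfinS (n + 1)), ← ENat.natCast_toNat (hfinS n), h5]
    rw [Finset.sum_range_succ] at h6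
    have h7 : ∑ k ∈ Finset.range n, hh k + hh n = ∑ k ∈ Finset.range n, hh k + 0 := by
      rw [h6, add_zero]
    exact ENat.add_right_injective_of_ne_top (hfinS n) h7
  refine ⟨n0, hz, ?_⟩
  rw [hsum n0]
  have hlast : qlen (LinearMap.range D2) (Tn h1 D1 D2 n0) = 0 := by
    rw [qlen_eq_zero_iff]
    refine sup_le le_rfl ?_
    rintro v ⟨hvk, y, hy, hy0⟩
    have hzr : Rp G0 τ0 0 (fun n => d1 (y n)) := by
      have h3 := rp_map d1 m1 D1 c1 hy
      rwa [show D1 v = 0 from hvk] at h3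
    obtain ⟨m, hm⟩ := hy.2
    rw [hm m le_rfl]
    refine Submodule.sum_mem _ fun j _ => ?_
    by_cases hj : j < n0
    · rw [hy0 j hj, gl_tau_zero h1]
      exact Submodule.zero_mem _
    · have h8 := (qlen_eq_zero_iff _ _).1 (hz j (by omega))
      exact gl_bd h1 d2 m2 D2 c2 j _ (h8 ⟨hy.1 j, rp_zero h0 hzr j⟩)
  rw [hlast, add_zero]

end Pool.Agent.HT21
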