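import Pool.Agent.HT21.Strict
import Pool.Agent.HT21.GrExact

/-!
# The associated graded resolution

The symbols of a strict resolution of `M` form a resolution of `gr M` over `gr A`.
All exactness statements are instances of `gr_exact` (with `isGr_ring`, `isGr_shift`, `isGr_mod`,
`symb_act`); its hypothesis `hex` follows from strictness: if `x ∈ shiftG F (a (i+1)) n` and
`mact (C i) x ∈ shiftG F (a i) (n+1)`, choose `x' ∈ shiftG F (a (i+1)) (n+1)` with the same image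
(for `i = 0` and the map to `M`: by `surj` in degree `n+1`; otherwise by `ex`/`ex0` in degree `n+1`,
since the image is killed by the next map); then `x - x'` is killed, so
`x - x' = mact (C (i+1)) y` with `y ∈ shiftG F (a (i+2)) n`, by `ex` in degree `n`.
For surjectivity: `τ n x` for `x ∈ G n`, `x = ∑ c k • e k`, is `∑ shiftT σ (a 0) n c k • τ (a 0 k) (e k)`.
-/

universe u

namespace Pool.Agent.HT21

variable {A : Type u} [CommRing A] {𝓕 : RFilt A} {M : Type u} [AddCommGroup M] [Module A M]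

private lemma gres_zero {G : ℕ → Submodule A M} {V : Type u} [AddCommGroup V] [Module 𝓕.gr V]
    {τ : ℕ → M → V} (h : IsGr 𝓕 G V τ) (n : ℕ) : τ n 0 = 0 :=
  (h.ker n 0 (Submodule.zero_mem _)).2 (Submodule.zero_mem _)

private lemma gres_tsum {G : ℕ → Submodule A M} {V : Type u} [AddCommGroup V] [Module 𝓕.gr V]
    {τ : ℕ → M → V} (h : IsGr 𝓕 G V τ) (n : ℕ) {q : ℕ} (s : Finset (Fin q)) (y : Fin q → M)
    (hy : ∀ l, y l ∈ G n) : τ n (∑ l ∈ s, y l) = ∑ l ∈ s, τ n (y l) := by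
  classical
  induction s using Finset.induction_on with
  | empty => simp [gres_zero h]
  | insert a s ha ih =>
    rw [Finset.sum_insert ha, Finset.sum_insert ha,
      h.add n _ _ (hy a) (Submodule.sum_mem _ fun l _ => hy l), ih]

/-- the augmentation `(gr A)^(r 0) → gr M` on symbols -/
theorem aug_act (𝓜 : MFilt 𝓕 M) {r : ℕ} (a : Fin r → ℕ) (e : Fin r → M)
    (he : ∀ k, e k ∈ 𝓜.G (a k)) (n : ℕ) (c : Fin r → A) (hc : c ∈ shiftG 𝓕.F a n) :
    (∑ k, c k • e k ∈ 𝓜.G n) ∧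
      ∑ k, shiftT 𝓕.σ a n c k • 𝓜.τ (a k) (e k) = 𝓜.τ n (∑ k, c k • e k) := by
  have h := isGr_mod 𝓜
  have h1 : ∀ k, c k • e k ∈ 𝓜.G (n - a k + a k) := fun k =>
    h.smul_mem (n - a k) (a k) (c k) (e k) (hc k) (he k)
  have h2 : ∀ k, c k • e k ∈ 𝓜.G n := fun k => h.anti (by omega) (h1 k)
  refine ⟨Submodule.sum_mem _ fun k _ => h2 k, ?_⟩
  rw [gres_tsum h n Finset.univ (fun k => c k • e k) h2]
  refine Finset.sum_congr rfl fun k _ => ?_
  simp only [shiftT]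
  by_cases hk : a k ≤ n
  · rw [if_pos hk, h.smul _ _ _ _ (hc k) (he k)]
    congr 1
    omega
  · rw [if_neg hk, zero_smul]
    exact ((h.ker n _ (h2 k)).2 (h.anti (by omega) (h1 k))).symm

private lemma gres_aug_sum {𝓜 : MFilt 𝓕 M} (P : StrictRes 𝓜) (m : ℕ)
    (y : ℕ → Fin (P.r 0) → A) (hy : ∀ n, y n ∈ shiftG 𝓕.F (P.a 0) n) :
    ∑ k, (∑ n ∈ Finset.range m, shiftT 𝓕.σ (P.a 0) n (y n)) k • 𝓜.τ (P.a 0 k) (P.e k) =
      ∑ n ∈ Finset.range m, 𝓜.τ n (∑ k, y n k • P.e k) := by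
  simp only [Finset.sum_apply, Finset.sum_smul]
  rw [Finset.sum_comm]
  exact Finset.sum_congr rfl fun n _ => (aug_act 𝓜 (P.a 0) P.e P.he n (y n) (hy n)).2

private lemma gres_mact_sum {𝓜 : MFilt 𝓕 M} (P : StrictRes 𝓜) (i m : ℕ)
    (y : ℕ → Fin (P.r (i + 1)) → A) (hy : ∀ n, y n ∈ shiftG 𝓕.F (P.a (i + 1)) n) :
    mact (symb 𝓕 (P.a i) (P.a (i + 1)) (P.C i)) 𝓕.gr
        (∑ n ∈ Finset.range m, shiftT 𝓕.σ (P.a (i + 1)) n (y n)) =
      ∑ n ∈ Finset.range m, shiftT 𝓕.σ (P.a i) n (mact (P.C i) A (y n)) := by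
  rw [map_sum]
  exact Finset.sum_congr rfl fun n _ =>
    symb_act (isGr_ring 𝓕) (P.a i) (P.a (i + 1)) (P.C i) (P.hC i) n (y n) (hy n)

/-- The associated graded resolution. -/
noncomputable def StrictRes.toGrRes {𝓜 : MFilt 𝓕 M} (P : StrictRes 𝓜) : MatRes 𝓕.gr 𝓜.gr where
  r := P.r
  D := fun i => symb 𝓕 (P.a i) (P.a (i + 1)) (P.C i)
  e := fun k => 𝓜.τ (P.a 0 k) (P.e k)
  surj := by
    intro v
    obtain ⟨m, y, hy, rfl⟩ := (isGr_mod 𝓜).surj v
    choose c hc hc' using fun n => P.surj n (y n) (hy n)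
    refine ⟨∑ n ∈ Finset.range m, shiftT 𝓕.σ (P.a 0) n (c n), ?_⟩
    rw [gres_aug_sum P m c hc]
    exact Finset.sum_congr rfl fun n _ => by rw [hc' n]
  ex0 := by
    intro c
    constructor
    · intro hc
      refine gr_exact (isGr_mod 𝓜) (isGr_shift (isGr_ring 𝓕) (P.a 0))
        (isGr_shift (isGr_ring 𝓕) (P.a 1)) (Fintype.linearCombination A P.e) (mact (P.C 0) A)
        (fun n x hx => (aug_act 𝓜 (P.a 0) P.e P.he n x hx).1)
        (fun n x hx => mact_mem_shift (isGr_ring 𝓕) (P.a 0) (P.a 1) (P.C 0) (P.hC 0) n x hx)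
        (Fintype.linearCombination 𝓕.gr fun k => 𝓜.τ (P.a 0 k) (P.e k))
        (mact (symb 𝓕 (P.a 0) (P.a 1) (P.C 0)) 𝓕.gr)
        (fun n x hx => (aug_act 𝓜 (P.a 0) P.e P.he n x hx).2)
        (fun n x hx => symb_act (isGr_ring 𝓕) (P.a 0) (P.a 1) (P.C 0) (P.hC 0) n x hx)
        ?_ c hc
      intro n x hx hx1
      obtain ⟨x', hx', h1⟩ := P.surj (n + 1) _ hx1
      have h2 : x' ∈ shiftG 𝓕.F (P.a 0) n :=
        (isGr_shift (isGr_ring 𝓕) (P.a 0)).anti (Nat.le_succ n) hx'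
      obtain ⟨y, hy, hy'⟩ := P.ex0 n (x - x') (Submodule.sub_mem _ hx h2) (by
        have h3 : ∑ k, (x - x') k • P.e k = ∑ k, x k • P.e k - ∑ k, x' k • P.e k := by
          rw [← Finset.sum_sub_distrib]
          exact Finset.sum_congr rfl fun k _ => by rw [Pi.sub_apply, sub_smul]
        rw [h3, h1]
        exact sub_self _)
      refine ⟨y, hy, ?_⟩
      rw [hy', sub_sub_cancel]
      exact hx'
    · rintro ⟨u, rfl⟩
      obtain ⟨m, y, hy, rfl⟩ := (isGr_shift (isGr_ring 𝓕) (P.a 1)).surj u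
      rw [gres_mact_sum P 0 m y hy, gres_aug_sum P m _ fun n =>
        mact_mem_shift (isGr_ring 𝓕) (P.a 0) (P.a 1) (P.C 0) (P.hC 0) n (y n) (hy n)]
      refine Finset.sum_eq_zero fun n _ => ?_
      rw [P.zero0]
      exact gres_zero (isGr_mod 𝓜) n
  ex := by
    intro i c
    constructor
    · intro hc
      refine gr_exact (isGr_shift (isGr_ring 𝓕) (P.a i)) (isGr_shift (isGr_ring 𝓕) (P.a (i + 1)))
        (isGr_shift (isGr_ring 𝓕) (P.a (i + 2))) (mact (P.C i) A) (mact (P.C (i + 1)) A)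
        (fun n x hx => mact_mem_shift (isGr_ring 𝓕) (P.a i) (P.a (i + 1)) (P.C i) (P.hC i) n x hx)
        (fun n x hx => mact_mem_shift (isGr_ring 𝓕) (P.a (i + 1)) (P.a (i + 2)) (P.C (i + 1))
          (P.hC (i + 1)) n x hx)
        (mact (symb 𝓕 (P.a i) (P.a (i + 1)) (P.C i)) 𝓕.gr)
        (mact (symb 𝓕 (P.a (i + 1)) (P.a (i + 2)) (P.C (i + 1))) 𝓕.gr)
        (fun n x hx => symb_act (isGr_ring 𝓕) (P.a i) (P.a (i + 1)) (P.C i) (P.hC i) n x hx)
        (fun n x hx => symb_act (isGr_ring 𝓕) (P.a (i + 1)) (P.a (i + 2)) (P.C (i + 1))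
          (P.hC (i + 1)) n x hx)
        ?_ c hc
      intro n x hx hx1
      have h0 : ∃ x' ∈ shiftG 𝓕.F (P.a (i + 1)) (n + 1), mact (P.C i) A x' = mact (P.C i) A x := by
        cases i with
        | zero => exact P.ex0 (n + 1) _ hx1 (P.zero0 x)
        | succ i => exact P.ex i (n + 1) _ hx1 (P.zero i x)
      obtain ⟨x', hx', h1⟩ := h0
      have h2 : x' ∈ shiftG 𝓕.F (P.a (i + 1)) n :=
        (isGr_shift (isGr_ring 𝓕) (P.a (i + 1))).anti (Nat.le_succ n) hx'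
      obtain ⟨y, hy, hy'⟩ := P.ex i n (x - x') (Submodule.sub_mem _ hx h2) (by
        rw [map_sub, h1, sub_self])
      refine ⟨y, hy, ?_⟩
      rw [hy', sub_sub_cancel]
      exact hx'
    · rintro ⟨u, rfl⟩
      obtain ⟨m, y, hy, rfl⟩ := (isGr_shift (isGr_ring 𝓕) (P.a (i + 2))).surj u
      rw [gres_mact_sum P (i + 1) m y hy, gres_mact_sum P i m _ fun n =>
        mact_mem_shift (isGr_ring 𝓕) (P.a (i + 1)) (P.a (i + 2)) (P.C (i + 1)) (P.hC (i + 1)) n
          (y n) (hy n)]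
      refine Finset.sum_eq_zero fun n _ => ?_
      rw [P.zero]
      exact gres_zero (isGr_shift (isGr_ring 𝓕) (P.a i)) n

end Pool.Agent.HT21
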