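import Pool.Agent.HT21.IfaceDefs

/-!
# The interface `IsGr` for the ring and for a filtered module

Everything by looking at coefficients in the Rees ring and the Rees module.
-/

universe u

namespace Pool.Agent.HT21

variable {A : Type u} [CommRing A] {𝓕 : RFilt A} {M : Type u} [AddCommGroup M] [Module A M]

/-! ### the ring -/

private lemma ic_mem (𝓕 : RFilt A) (n : ℕ) (a : A) (ha : a ∈ 𝓕.F n) :
    Polynomial.monomial n a ∈ 𝓕.reesAlg := by
  intro k
  rw [Polynomial.coeff_monomial]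
  split_ifs with h
  · rw [← h]; exact ha
  · exact Ideal.zero_mem _

/-- the element `a X^n` of the Rees ring -/
private noncomputable def ic_el (𝓕 : RFilt A) (n : ℕ) (a : A) (ha : a ∈ 𝓕.F n) : 𝓕.Rees :=
  (⟨Polynomial.monomial n a, ic_mem 𝓕 n a ha⟩ : 𝓕.reesAlg)

private lemma ic_val (𝓕 : RFilt A) (n : ℕ) (a : A) (ha : a ∈ 𝓕.F n) :
    𝓕.val (ic_el 𝓕 n a ha) = Polynomial.monomial n a := rfl

private lemma ic_val_inj (𝓕 : RFilt A) {f g : 𝓕.Rees} (h : 𝓕.val f = 𝓕.val g) : f = g :=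
  Subtype.ext h

private lemma ic_sigma (𝓕 : RFilt A) (n : ℕ) (a : A) (ha : a ∈ 𝓕.F n) :
    𝓕.σ n a = Ideal.Quotient.mk 𝓕.reesPlus (ic_el 𝓕 n a ha) := by
  unfold RFilt.σ
  rw [dif_pos (ic_mem 𝓕 n a ha)]
  rfl

private lemma ic_plus (𝓕 : RFilt A) (f : 𝓕.Rees) :
    f ∈ 𝓕.reesPlus ↔ ∀ n, (𝓕.val f).coeff n ∈ 𝓕.F (n + 1) := Iff.rfl

theorem sigma_mul (𝓕 : RFilt A) (m n : ℕ) (a b : A) (ha : a ∈ 𝓕.F m) (hb : b ∈ 𝓕.F n) :
    𝓕.σ m a * 𝓕.σ n b = 𝓕.σ (m + n) (a * b) := by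
  rw [ic_sigma 𝓕 m a ha, ic_sigma 𝓕 n b hb,
    ic_sigma 𝓕 (m + n) (a * b) (𝓕.mul' m n (Ideal.mul_mem_mul ha hb)), ← map_mul]
  congr 1
  apply ic_val_inj
  rw [map_mul, ic_val, ic_val, ic_val, Polynomial.monomial_mul_monomial]

theorem sigma_one (𝓕 : RFilt A) : 𝓕.σ 0 1 = 1 := by
  have h1 : (1 : A) ∈ 𝓕.F 0 := by rw [𝓕.zero']; trivial
  rw [ic_sigma 𝓕 0 1 h1, ← map_one (Ideal.Quotient.mk 𝓕.reesPlus)]
  congr 1

private lemma ic_add (𝓕 : RFilt A) (n : ℕ) (x y : A) (hx : x ∈ 𝓕.F n) (hy : y ∈ 𝓕.F n) :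
    𝓕.σ n (x + y) = 𝓕.σ n x + 𝓕.σ n y := by
  rw [ic_sigma 𝓕 n x hx, ic_sigma 𝓕 n y hy, ic_sigma 𝓕 n (x + y) (Ideal.add_mem _ hx hy),
    ← map_add]
  congr 1
  apply ic_val_inj
  rw [map_add, ic_val, ic_val, ic_val, map_add]

private lemma ic_ker (𝓕 : RFilt A) (n : ℕ) (x : A) (hx : x ∈ 𝓕.F n) :
    𝓕.σ n x = 0 ↔ x ∈ 𝓕.F (n + 1) := by
  rw [ic_sigma 𝓕 n x hx, Ideal.Quotient.eq_zero_iff_mem, ic_plus]
  constructor
  · intro h
    have h2 := h n
    rwa [ic_val, Polynomial.coeff_monomial, if_pos rfl] at h2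
  · intro h k
    rw [ic_val, Polynomial.coeff_monomial]
    split_ifs with h2
    · rw [← h2]; exact h
    · exact Ideal.zero_mem _

private lemma ic_sum_coeff (𝓕 : RFilt A) (m : ℕ) (y : ℕ → A) (hy : ∀ n, y n ∈ 𝓕.F n) (k : ℕ) :
    (𝓕.val (∑ n ∈ Finset.range m, ic_el 𝓕 n (y n) (hy n))).coeff k = if k < m then y k else 0 := by
  rw [map_sum, Polynomial.finsetSum_coeff]
  simp only [ic_val, Polynomial.coeff_monomial]
  rw [Finset.sum_ite_eq']
  simp only [Finset.mem_range]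

theorem isGr_ring (𝓕 : RFilt A) : IsGr 𝓕 𝓕.F 𝓕.gr 𝓕.σ where
  anti := 𝓕.anti'
  zero := 𝓕.zero'
  smul_mem := by
    intro m n a x ha hx
    rw [smul_eq_mul]
    exact 𝓕.mul' m n (Ideal.mul_mem_mul ha hx)
  add := ic_add 𝓕
  smul := by
    intro m n a x ha hx
    rw [smul_eq_mul, smul_eq_mul]
    exact sigma_mul 𝓕 m n a x ha hx
  ker := ic_ker 𝓕
  surj := by
    intro v
    obtain ⟨f, rfl⟩ := Ideal.Quotient.mk_surjective v
    refine ⟨(𝓕.val f).natDegree + 1, fun n => (𝓕.val f).coeff n, fun n => 𝓕.val_coeff_mem f n, ?_⟩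
    have h : f = ∑ n ∈ Finset.range ((𝓕.val f).natDegree + 1),
        ic_el 𝓕 n ((𝓕.val f).coeff n) (𝓕.val_coeff_mem f n) := by
      apply ic_val_inj
      apply Polynomial.ext
      intro k
      rw [ic_sum_coeff 𝓕 _ (fun n => (𝓕.val f).coeff n) (fun n => 𝓕.val_coeff_mem f n)]
      split_ifs with h1
      · rfl
      · exact Polynomial.coeff_eq_zero_of_natDegree_lt (by omega)
    conv_lhs => rw [h]
    rw [map_sum]
    refine Finset.sum_congr rfl fun n _ => ?_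
    rw [ic_sigma 𝓕 n _ (𝓕.val_coeff_mem f n)]
  indep := by
    intro m y hy h n hn
    have h1 : ∑ n ∈ Finset.range m, 𝓕.σ n (y n) =
        Ideal.Quotient.mk 𝓕.reesPlus (∑ n ∈ Finset.range m, ic_el 𝓕 n (y n) (hy n)) := by
      rw [map_sum]
      exact Finset.sum_congr rfl fun k _ => ic_sigma 𝓕 k _ (hy k)
    rw [h1, Ideal.Quotient.eq_zero_iff_mem, ic_plus] at h
    have h2 := h n
    rwa [ic_sum_coeff, if_pos hn] at h2

/-! ### modules -/

private lemma im_mem (𝓜 : MFilt 𝓕 M) (n : ℕ) (x : M) (hx : x ∈ 𝓜.G n) :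
    PolynomialModule.single A n x ∈ 𝓜.rees := by
  intro k
  rw [PolynomialModule.coeff_single, Finsupp.single_apply]
  split_ifs with h
  · rw [← h]; exact hx
  · exact Submodule.zero_mem _

/-- the element `x X^n` of the Rees module -/
private noncomputable def im_el (𝓜 : MFilt 𝓕 M) (n : ℕ) (x : M) (hx : x ∈ 𝓜.G n) : 𝓜.rees :=
  ⟨PolynomialModule.single A n x, im_mem 𝓜 n x hx⟩

private lemma im_val (𝓜 : MFilt 𝓕 M) (n : ℕ) (x : M) (hx : x ∈ 𝓜.G n) :
    (im_el 𝓜 n x hx : PolynomialModule A M) = PolynomialModule.single A n x := rfl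

private lemma im_tau (𝓜 : MFilt 𝓕 M) (n : ℕ) (x : M) (hx : x ∈ 𝓜.G n) :
    𝓜.τ n x = Submodule.Quotient.mk (im_el 𝓜 n x hx) := by
  unfold MFilt.τ
  rw [dif_pos (im_mem 𝓜 n x hx)]
  rfl

private lemma im_plus (𝓜 : MFilt 𝓕 M) (f : 𝓜.rees) :
    f ∈ 𝓜.reesPlus ↔ ∀ n, (f : PolynomialModule A M).coeff n ∈ 𝓜.G (n + 1) := Iff.rfl

private lemma im_sum_coeff (𝓜 : MFilt 𝓕 M) (m : ℕ) (y : ℕ → M) (hy : ∀ n, y n ∈ 𝓜.G n) (k : ℕ) :
    ((∑ n ∈ Finset.range m, im_el 𝓜 n (y n) (hy n) : 𝓜.rees) : PolynomialModule A M).coeff k =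
      if k < m then y k else 0 := by
  rw [AddSubmonoidClass.coe_finsetSum, PolynomialModule.coeff_sum, Finsupp.finsetSum_apply]
  simp only [im_val, PolynomialModule.coeff_single, Finsupp.single_apply]
  rw [Finset.sum_ite_eq']
  simp only [Finset.mem_range]

theorem isGr_mod (𝓜 : MFilt 𝓕 M) : IsGr 𝓕 𝓜.G 𝓜.gr 𝓜.τ where
  anti := 𝓜.anti'
  zero := 𝓜.zero'
  smul_mem := by
    intro m n a x ha hx
    exact 𝓜.smul' m n (Submodule.smul_mem_smul ha hx)
  add := by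
    intro n x y hx hy
    rw [im_tau 𝓜 n x hx, im_tau 𝓜 n y hy, im_tau 𝓜 n (x + y) (Submodule.add_mem _ hx hy),
      ← Submodule.Quotient.mk_add]
    congr 1
    apply Subtype.ext
    rw [Submodule.coe_add, im_val, im_val, im_val, PolynomialModule.single_add]
  smul := by
    intro m n a x ha hx
    rw [ic_sigma 𝓕 m a ha, im_tau 𝓜 n x hx,
      im_tau 𝓜 (m + n) (a • x) (𝓜.smul' m n (Submodule.smul_mem_smul ha hx))]
    show ic_el 𝓕 m a ha • (Submodule.Quotient.mk (im_el 𝓜 n x hx) : 𝓜.gr) = _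
    rw [← Submodule.Quotient.mk_smul]
    congr 1
    apply Subtype.ext
    rw [Submodule.coe_smul, rees_smul_def, im_val, im_val, ic_val,
      PolynomialModule.monomial_smul_single]
  ker := by
    intro n x hx
    rw [im_tau 𝓜 n x hx, Submodule.Quotient.mk_eq_zero, im_plus]
    constructor
    · intro h
      have h2 := h n
      rwa [im_val, PolynomialModule.coeff_single, Finsupp.single_apply, if_pos rfl] at h2
    · intro h k
      rw [im_val, PolynomialModule.coeff_single, Finsupp.single_apply]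
      split_ifs with h2
      · rw [← h2]; exact h
      · exact Submodule.zero_mem _
  surj := by
    intro v
    obtain ⟨f, rfl⟩ := Submodule.Quotient.mk_surjective _ v
    obtain ⟨m, hm⟩ : ∃ m : ℕ, ∀ k, m ≤ k → (f : PolynomialModule A M).coeff k = 0 := by
      refine ⟨((f : PolynomialModule A M).coeff.support.sup id) + 1, fun k hk => ?_⟩
      by_contra h
      have h1 : k ∈ (f : PolynomialModule A M).coeff.support := Finsupp.mem_support_iff.mpr h
      have h2 : k ≤ (f : PolynomialModule A M).coeff.support.sup id :=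
        Finset.le_sup (f := id) h1
      omega
    refine ⟨m, fun n => (f : PolynomialModule A M).coeff n, fun n => f.2 n, ?_⟩
    have h : f = ∑ n ∈ Finset.range m, im_el 𝓜 n ((f : PolynomialModule A M).coeff n) (f.2 n) := by
      apply Subtype.ext
      apply PolynomialModule.ext
      apply Finsupp.ext
      intro k
      rw [im_sum_coeff 𝓜 m (fun n => (f : PolynomialModule A M).coeff n) (fun n => f.2 n)]
      split_ifs with h1
      · rfl
      · exact hm k (by omega)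
    conv_lhs => rw [h]
    rw [← Submodule.mkQ_apply, map_sum]
    refine Finset.sum_congr rfl fun n _ => ?_
    rw [im_tau 𝓜 n _ (f.2 n), Submodule.mkQ_apply]
  indep := by
    intro m y hy h n hn
    have h1 : ∑ n ∈ Finset.range m, 𝓜.τ n (y n) =
        Submodule.Quotient.mk (∑ n ∈ Finset.range m, im_el 𝓜 n (y n) (hy n)) := by
      rw [← Submodule.mkQ_apply, map_sum]
      exact Finset.sum_congr rfl fun k _ => by rw [im_tau 𝓜 k _ (hy k), Submodule.mkQ_apply]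
    rw [h1, Submodule.Quotient.mk_eq_zero, im_plus] at h
    have h2 := h n
    rwa [im_sum_coeff, if_pos hn] at h2

end Pool.Agent.HT21
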