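import Pool.Agent.HT21.TorMat

/-!
# Symbols: the interface to associated graded modules

`𝓕.σ n a` is the class in `gr A` of `a X^n` (for `a ∈ F n`, else `0`), `𝓜.τ n x` is the class in
`gr M` of `x X^n` (for `x ∈ G n`, else `0`).  `IsGr 𝓕 G V τ` says that the `gr A`-module `V` with the
maps `τ n` is the associated graded module of the filtration `G` of `M` (`G` decreasing, `G 0 = ⊤`,
`F i • G j ≤ G (i+j)`): additive, multiplicative,
kernel of `τ n` is `G (n+1)`, and `V` is the direct sum of the images.  We need it for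
`𝓜.gr`, for the ring itself (`isGr_ring`), and for finite sums with shifts (`isGr_shift`).
All proofs are by looking at coefficients.
-/

universe u

namespace Pool.Agent.HT21

variable {A : Type u} [CommRing A] {𝓕 : RFilt A} {M : Type u} [AddCommGroup M] [Module A M]

open Classical in
/-- The symbol of `a` in degree `n`. -/
noncomputable def RFilt.σ (𝓕 : RFilt A) (n : ℕ) (a : A) : 𝓕.gr :=
  if h : Polynomial.monomial n a ∈ 𝓕.reesAlg then
    Ideal.Quotient.mk 𝓕.reesPlus (⟨Polynomial.monomial n a, h⟩ : 𝓕.reesAlg) else 0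

open Classical in
/-- The symbol of `x` in degree `n`. -/
noncomputable def MFilt.τ (𝓜 : MFilt 𝓕 M) (n : ℕ) (x : M) : 𝓜.gr :=
  if h : PolynomialModule.single A n x ∈ 𝓜.rees then
    Submodule.Quotient.mk ⟨PolynomialModule.single A n x, h⟩ else 0

/-- `V` with the maps `τ n` is the associated graded module of the filtration `G`. -/
structure IsGr (𝓕 : RFilt A) {M : Type u} [AddCommGroup M] [Module A M] (G : ℕ → Submodule A M)
    (V : Type u) [AddCommGroup V] [Module 𝓕.gr V] (τ : ℕ → M → V) : Prop where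
  anti : Antitone G
  zero : G 0 = ⊤
  smul_mem : ∀ m n a x, a ∈ 𝓕.F m → x ∈ G n → a • x ∈ G (m + n)
  add : ∀ n x y, x ∈ G n → y ∈ G n → τ n (x + y) = τ n x + τ n y
  smul : ∀ m n a x, a ∈ 𝓕.F m → x ∈ G n → 𝓕.σ m a • τ n x = τ (m + n) (a • x)
  ker : ∀ n x, x ∈ G n → (τ n x = 0 ↔ x ∈ G (n + 1))
  surj : ∀ v : V, ∃ (m : ℕ) (y : ℕ → M), (∀ n, y n ∈ G n) ∧ v = ∑ n ∈ Finset.range m, τ n (y n)
  indep : ∀ (m : ℕ) (y : ℕ → M), (∀ n, y n ∈ G n) →
    ∑ n ∈ Finset.range m, τ n (y n) = 0 → ∀ n, n < m → y n ∈ G (n + 1)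

/-- The shifted filtration on a finite power. -/
def shiftG (G : ℕ → Submodule A M) {r : ℕ} (a : Fin r → ℕ) (n : ℕ) : Submodule A (Fin r → M) where
  carrier := {x | ∀ k, x k ∈ G (n - a k)}
  add_mem' := fun hx hy k => Submodule.add_mem _ (hx k) (hy k)
  zero_mem' := fun _ => Submodule.zero_mem _
  smul_mem' := fun c _ hx k => Submodule.smul_mem _ c (hx k)

/-- The symbols of the shifted filtration. -/
noncomputable def shiftT {V : Type u} [AddCommGroup V] (τ : ℕ → M → V) {r : ℕ} (a : Fin r → ℕ)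
    (n : ℕ) (x : Fin r → M) : Fin r → V :=
  fun k => if a k ≤ n then τ (n - a k) (x k) else 0

/-- The symbol of a matrix of filtered degree: entry `(k, l)` in degree `b l - a k`. -/
noncomputable def symb (𝓕 : RFilt A) {p q : ℕ} (a : Fin p → ℕ) (b : Fin q → ℕ)
    (C : Matrix (Fin p) (Fin q) A) : Matrix (Fin p) (Fin q) 𝓕.gr :=
  fun k l => if a k ≤ b l then 𝓕.σ (b l - a k) (C k l) else 0

end Pool.Agent.HT21
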