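import Pool.Agent.HT21.QR

/-!
# Leading forms in a regular local ring

`R` Noetherian local, `x` a regular sequence generating the maximal ideal, `k` the residue field,
weights `w i > 0`, `F n` the weighted filtration; `F 1 = m`.
`f - P(x) ∈ F (N+1)`, `P` weighted homogeneous of weight `N` with nonzero reduction
`f0 ∈ k[X]`.

`mul_mem_drop`: if `y ∈ F j` and `f y ∈ F (j + N + 1)` then `y ∈ F (j+1)`: let `y = p(x)` modulo
`F (j+1)`, `p` of weight `j`; `f y = (P p)(x)` modulo `F (j+N+1)`, so all coefficients of `P p` are in `m`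
(`quasi_regular`), `f0 * p̄ = 0` in the domain `k[X]`, `p̄ = 0`, the coefficients of `p` are in `m`,
`p(x) ∈ m F j ≤ F (j+1)`.
`mul_mem_imp`: `f y ∈ F n` implies `y ∈ F (n - N)` (induction).
`leading_dvd`: if `p` is weighted homogeneous of weight `n` and `p(x) - f y ∈ F (n+1)` for some `y`,
then `f0` divides `p̄` in `k[X]`: `f y ∈ F n` so `y ∈ F (n - N)`.  If `n < N`, `f y ∈ F N ≤ F (n+1)`, so
`p(x) ∈ F (n+1)` and `p̄ = 0`.  If `n ≥ N` let `q` be a leading form of `y` in weight `n - N`; then
`(p - P q)(x) ∈ F (n+1)`, so `p̄ = f0 * q̄`.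
`f_regular`: `f` is a nonzerodivisor: `f y = 0` gives `y ∈ F j` for all `j`, and
`⋂ F j = 0` (`F n ≤ m^(n / max w)`, Krull).
-/

universe u

namespace Pool.Agent.HT21

set_option linter.unusedSectionVars false

open MvPolynomial IsLocalRing

variable {R : Type u} [CommRing R] [IsLocalRing R] [IsNoetherianRing R] {m : ℕ}
  (x : Fin m → R) (w : Fin m → ℕ) (hw : ∀ i, 0 < w i)
  (hx : Ideal.span (Set.range x) = maximalIdeal R)
  (hreg : RingTheory.Sequence.IsWeaklyRegular R (List.ofFn x))
  (N : ℕ) (P : MvPolynomial (Fin m) R) (hP : P.IsWeightedHomogeneous w N)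
  (hP0 : P.map (residue R) ≠ 0) (f : R) (hf : f - aeval x P ∈ (wFilt x w).F (N + 1))

include hw hx in
theorem F_one : (wFilt x w).F 1 = maximalIdeal R := by
  rw [← hx]
  apply le_antisymm
  · refine Ideal.span_le.2 ?_
    rintro y ⟨α, h1, rfl⟩
    have hex : ∃ i, α i ≠ 0 := by
      by_contra hcon
      push Not at hcon
      have : ∑ i, w i * α i = 0 := Finset.sum_eq_zero fun i _ => by rw [hcon i, mul_zero]
      omega
    obtain ⟨i, hi⟩ := hex
    have hd : x i ∣ ∏ i, x i ^ α i :=
      (dvd_pow_self (x i) hi).trans (Finset.dvd_prod_of_mem _ (Finset.mem_univ i))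
    exact Ideal.mem_of_dvd _ hd (Ideal.subset_span ⟨i, rfl⟩)
  · refine Ideal.span_le.2 ?_
    rintro _ ⟨i, rfl⟩
    refine Ideal.subset_span ⟨Pi.single i 1, ?_, ?_⟩
    · have : ∑ j, w j * (Pi.single i 1 : Fin m → ℕ) j = w i := by
        rw [Finset.sum_eq_single i]
        · simp
        · intro j _ hj
          simp [hj]
        · simp
      rw [this]
      exact hw i
    · rw [Finset.prod_eq_single i]
      · simp
      · intro j _ hj
        simp [hj]
      · simp

omit [IsNoetherianRing R] in
private theorem map_residue_eq_zero_iff (p : MvPolynomial (Fin m) R) :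
    p.map (residue R) = 0 ↔ ∀ α, p.coeff α ∈ maximalIdeal R := by
  constructor
  · intro h α
    have h2 := congrArg (MvPolynomial.coeff α) h
    rw [coeff_map, coeff_zero] at h2
    exact (residue_eq_zero_iff _).1 h2
  · intro h
    ext α
    rw [coeff_map, coeff_zero]
    exact (residue_eq_zero_iff _).2 (h α)

include hw hx hreg in
theorem map_residue_eq_zero (n : ℕ) (p : MvPolynomial (Fin m) R)
    (hp : p.IsWeightedHomogeneous w n) (h : aeval x p ∈ (wFilt x w).F (n + 1)) :
    p.map (residue R) = 0 := by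
  rw [map_residue_eq_zero_iff]
  intro α
  rw [← hx]
  exact quasi_regular x w hw hreg n p hp h α

include hw hx in
theorem aeval_mem_succ (n : ℕ) (p : MvPolynomial (Fin m) R)
    (hp : p.IsWeightedHomogeneous w n) (h : p.map (residue R) = 0) :
    aeval x p ∈ (wFilt x w).F (n + 1) := by
  rw [map_residue_eq_zero_iff] at h
  rw [aeval_def, eval₂_eq']
  refine Ideal.sum_mem _ fun α hα => ?_
  have h1 : p.coeff α ∈ (wFilt x w).F 1 := by
    rw [F_one x w hw hx]
    exact h α
  have h2 : ∏ i, x i ^ α i ∈ (wFilt x w).F n := by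
    refine Ideal.subset_span ⟨α, ?_, rfl⟩
    have h3 := hp (mem_support_iff.1 hα)
    rw [Finsupp.weight_apply, Finsupp.sum_fintype _ _ (fun i => by simp)] at h3
    simp only [smul_eq_mul] at h3
    rw [← h3]
    exact le_of_eq (Finset.sum_congr rfl fun i _ => mul_comm _ _)
  have h4 := (wFilt x w).mul' 1 n (Ideal.mul_mem_mul h1 h2)
  rw [add_comm 1 n] at h4
  exact h4

omit [IsLocalRing R] [IsNoetherianRing R] in
private theorem mulmem {i j k : ℕ} (a b : R) (ha : a ∈ (wFilt x w).F i)
    (hb : b ∈ (wFilt x w).F j) (hk : k ≤ i + j) : a * b ∈ (wFilt x w).F k :=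
  (wFilt x w).anti' hk ((wFilt x w).mul' i j (Ideal.mul_mem_mul ha hb))

include hw hx hreg hP hP0 hf

theorem mul_mem_drop (j : ℕ) (y : R) (hy : y ∈ (wFilt x w).F j)
    (h : f * y ∈ (wFilt x w).F (j + N + 1)) : y ∈ (wFilt x w).F (j + 1) := by
  obtain ⟨q, hq, hyq⟩ := exists_leading x w j y hy
  have h1 : aeval x (P * q) ∈ (wFilt x w).F (N + j + 1) := by
    have e : aeval x (P * q) =
        f * y - (f - aeval x P) * y - aeval x P * (y - aeval x q) := by
      rw [map_mul]; ring
    rw [e]
    refine Ideal.sub_mem _ (Ideal.sub_mem _ ?_ ?_) ?_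
    · exact (wFilt x w).anti' (by omega) h
    · exact mulmem x w _ _ hf hy (by omega)
    · exact mulmem x w _ _ (aeval_mem x w N P hP) hyq (by omega)
  have h2 := map_residue_eq_zero x w hw hx hreg (N + j) (P * q) (hP.mul hq) h1
  rw [map_mul] at h2
  have h3 : q.map (residue R) = 0 := (mul_eq_zero.1 h2).resolve_left hP0
  have h4 := aeval_mem_succ x w hw hx j q hq h3
  have e : y = (y - aeval x q) + aeval x q := by ring
  rw [e]
  exact Ideal.add_mem _ hyq h4

theorem mul_mem_imp (n : ℕ) (y : R) (h : f * y ∈ (wFilt x w).F n) :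
    y ∈ (wFilt x w).F (n - N) := by
  have key : ∀ i, i ≤ n - N → y ∈ (wFilt x w).F i := by
    intro i
    induction i with
    | zero => intro _; rw [(wFilt x w).zero']; trivial
    | succ i ih =>
      intro hi
      refine mul_mem_drop x w hw hx hreg N P hP hP0 f hf i y (ih (by omega)) ?_
      exact (wFilt x w).anti' (by omega) h
  exact key _ le_rfl

theorem leading_dvd (n : ℕ) (p : MvPolynomial (Fin m) R) (hp : p.IsWeightedHomogeneous w n)
    (y : R) (h : aeval x p - f * y ∈ (wFilt x w).F (n + 1)) :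
    P.map (residue R) ∣ p.map (residue R) := by
  have hpn := aeval_mem x w n p hp
  have hPN := aeval_mem x w N P hP
  have hfy : f * y ∈ (wFilt x w).F n := by
    have e : f * y = aeval x p - (aeval x p - f * y) := by ring
    rw [e]
    exact Ideal.sub_mem _ hpn ((wFilt x w).anti' (by omega) h)
  have hy := mul_mem_imp x w hw hx hreg N P hP hP0 f hf n y hfy
  rcases Nat.lt_or_ge n N with hnN | hnN
  · have hfN : f ∈ (wFilt x w).F N := by
      have e : f = (f - aeval x P) + aeval x P := by ring
      rw [e]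
      exact Ideal.add_mem _ ((wFilt x w).anti' (by omega) hf) hPN
    have h1 : aeval x p ∈ (wFilt x w).F (n + 1) := by
      have e : aeval x p = (aeval x p - f * y) + f * y := by ring
      rw [e]
      exact Ideal.add_mem _ h (Ideal.mul_mem_right _ _ ((wFilt x w).anti' (by omega) hfN))
    rw [map_residue_eq_zero x w hw hx hreg n p hp h1]
    exact dvd_zero _
  · obtain ⟨q, hq, hyq⟩ := exists_leading x w (n - N) y hy
    have hPq : (P * q).IsWeightedHomogeneous w n := by
      have := hP.mul hq
      rwa [Nat.add_sub_cancel' hnN] at this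
    have hsub : (p - P * q).IsWeightedHomogeneous w n :=
      (weightedHomogeneousSubmodule R w n).sub_mem hp hPq
    have h1 : aeval x (p - P * q) ∈ (wFilt x w).F (n + 1) := by
      have e : aeval x (p - P * q) = (aeval x p - f * y) + (f - aeval x P) * y
          + aeval x P * (y - aeval x q) := by
        rw [map_sub, map_mul]; ring
      rw [e]
      refine Ideal.add_mem _ (Ideal.add_mem _ h ?_) ?_
      · exact mulmem x w _ _ hf hy (by omega)
      · exact mulmem x w _ _ hPN hyq (by omega)
    have h2 := map_residue_eq_zero x w hw hx hreg n _ hsub h1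
    rw [map_sub, map_mul, sub_eq_zero] at h2
    exact ⟨_, h2⟩

theorem f_regular : f ∈ nonZeroDivisors R := by
  rw [mem_nonZeroDivisors_iff_right]
  intro y hy
  have hmem : ∀ j, y ∈ (wFilt x w).F j := by
    intro j
    have h1 := mul_mem_imp x w hw hx hreg N P hP hP0 f hf (j + N) y
      (by rw [mul_comm, hy]; exact Ideal.zero_mem _)
    rwa [Nat.add_sub_cancel] at h1
  have hle : ∀ k, (wFilt x w).F ((∑ i, w i + 1) * k) ≤ maximalIdeal R ^ k := by
    intro k
    refine Ideal.span_le.2 ?_
    rintro _ ⟨α, h1, rfl⟩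
    have h2 : k ≤ ∑ i, α i := by
      have h3 : ∑ i, w i * α i ≤ (∑ i, w i + 1) * ∑ i, α i := by
        rw [Finset.mul_sum]
        refine Finset.sum_le_sum fun i _ => Nat.mul_le_mul_right _ ?_
        exact (Finset.single_le_sum (fun j _ => Nat.zero_le (w j)) (Finset.mem_univ i)).trans
          (Nat.le_succ _)
      exact Nat.le_of_mul_le_mul_left (h1.trans h3) (Nat.succ_pos _)
    have h4 : ∏ i, x i ^ α i ∈ maximalIdeal R ^ (∑ i, α i) := by
      rw [← Finset.prod_pow_eq_pow_sum]
      refine Ideal.prod_mem_prod fun i _ => Ideal.pow_mem_pow ?_ _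
      rw [← hx]
      exact Ideal.subset_span ⟨i, rfl⟩
    exact Ideal.pow_le_pow_right h2 h4
  have hbot : y ∈ (⨅ k : ℕ, maximalIdeal R ^ k : Ideal R) := by
    rw [Submodule.mem_iInf]
    intro k
    exact hle k (hmem _)
  rw [Ideal.iInf_pow_eq_bot_of_isLocalRing _ (maximalIdeal.isMaximal R).ne_top] at hbot
  exact (Submodule.mem_bot _).1 hbot

end Pool.Agent.HT21
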