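import Pool.Agent.HT21.QRBase

/-!
# Weighted quasi-regularity

`x : Fin m → R` weakly regular sequence, weights `w i > 0`, `F n = (wFilt x w).F n`.

`quasi_regular0`: if all monomials of `P` have weight `≥ n` and `P(x) = 0`, then the coefficients of
weight exactly `n` lie in `I = (x)`.  The proof works in a fixed polynomial ring: `QRGood w l n P` says that `P` only
involves the variables of index `< l` and has only monomials of weight `≥ n`; `QRF x w l n` is the ideal of values of such
polynomials, `QRI x l` the ideal of the `x i`, `i < l`.  Induction on `l`, then strong induction on `n`.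

`quasi_regular`: `P` weighted homogeneous of weight `n` with `P(x) ∈ F (n+1)`: then all
coefficients of `P` are in `I` (subtract a polynomial with monomials of weight `≥ n+1`).
-/

universe u

namespace Pool.Agent.HT21

open MvPolynomial

variable {R : Type u} [CommRing R]

/-- `P` involves only the variables of index `< l` and has only monomials of weight `≥ n`. -/
def QRGood {M : ℕ} (w : Fin M → ℕ) (l n : ℕ) (P : MvPolynomial (Fin M) R) : Prop :=
  ∀ α : Fin M →₀ ℕ, P.coeff α ≠ 0 → (∀ i : Fin M, l ≤ (i : ℕ) → α i = 0) ∧ n ≤ Finsupp.weight w α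

theorem QRGood.add {M : ℕ} {w : Fin M → ℕ} {l n : ℕ} {P Q : MvPolynomial (Fin M) R}
    (hP : QRGood w l n P) (hQ : QRGood w l n Q) : QRGood w l n (P + Q) := by
  intro α hα
  rw [coeff_add] at hα
  by_cases h : P.coeff α = 0
  · rw [h, zero_add] at hα
    exact hQ α hα
  · exact hP α h

theorem QRGood.neg {M : ℕ} {w : Fin M → ℕ} {l n : ℕ} {P : MvPolynomial (Fin M) R}
    (hP : QRGood w l n P) : QRGood w l n (-P) := by
  intro α hα
  rw [coeff_neg, neg_ne_zero] at hα
  exact hP α hα

theorem QRGood.zero {M : ℕ} {w : Fin M → ℕ} {l n : ℕ} :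
    QRGood w l n (0 : MvPolynomial (Fin M) R) := by
  intro α hα
  simp at hα

theorem QRGood.monomial {M : ℕ} {w : Fin M → ℕ} {l n : ℕ} {β : Fin M →₀ ℕ} (c : R)
    (h1 : ∀ i : Fin M, l ≤ (i : ℕ) → β i = 0) (h2 : n ≤ Finsupp.weight w β) :
    QRGood w l n (MvPolynomial.monomial β c) := by
  classical
  intro α hα
  rw [coeff_monomial] at hα
  split_ifs at hα with h
  · subst h
    exact ⟨h1, h2⟩
  · exact absurd rfl hα

theorem QRGood.mul {M : ℕ} {w : Fin M → ℕ} {l n k : ℕ} {P Q : MvPolynomial (Fin M) R}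
    (hP : QRGood w l n P) (hQ : QRGood w l k Q) : QRGood w l (n + k) (P * Q) := by
  classical
  intro α hα
  rw [coeff_mul] at hα
  obtain ⟨p, hp, hne⟩ := Finset.exists_ne_zero_of_sum_ne_zero hα
  have h1 := hP p.1 (left_ne_zero_of_mul hne)
  have h2 := hQ p.2 (right_ne_zero_of_mul hne)
  have hp' : p.1 + p.2 = α := Finset.HasAntidiagonal.mem_antidiagonal.1 hp
  subst hp'
  refine ⟨fun i hi => ?_, ?_⟩
  · rw [Finsupp.add_apply, h1.1 i hi, h2.1 i hi]
  · rw [map_add]
    exact Nat.add_le_add h1.2 h2.2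

theorem QRGood.mono {M : ℕ} {w : Fin M → ℕ} {l n k : ℕ} {P : MvPolynomial (Fin M) R}
    (hP : QRGood w l n P) (h : k ≤ n) : QRGood w l k P :=
  fun α hα => ⟨(hP α hα).1, h.trans (hP α hα).2⟩

theorem QRGood.monoVar {M : ℕ} {w : Fin M → ℕ} {l l' n : ℕ} {P : MvPolynomial (Fin M) R}
    (hP : QRGood w l n P) (h : l ≤ l') : QRGood w l' n P :=
  fun α hα => ⟨fun i hi => (hP α hα).1 i (h.trans hi), (hP α hα).2⟩

/-- The values at `x` of the polynomials in the first `l` variables with monomials of weight `≥ n`. -/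
def QRF {M : ℕ} (x : Fin M → R) (w : Fin M → ℕ) (l n : ℕ) : Ideal R where
  carrier := {a | ∃ P : MvPolynomial (Fin M) R, QRGood w l n P ∧ aeval x P = a}
  add_mem' := by
    rintro a b ⟨P, hP, rfl⟩ ⟨Q, hQ, rfl⟩
    exact ⟨P + Q, hP.add hQ, map_add _ _ _⟩
  zero_mem' := ⟨0, QRGood.zero, map_zero _⟩
  smul_mem' := by
    rintro c a ⟨P, hP, rfl⟩
    refine ⟨C c * P, ?_, ?_⟩
    · have h : QRGood w l 0 (C c : MvPolynomial (Fin M) R) :=
        QRGood.monomial (β := 0) c (fun _ _ => rfl) (Nat.zero_le _)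
      have h2 := h.mul hP
      rwa [Nat.zero_add] at h2
    · rw [map_mul, aeval_C, smul_eq_mul]
      rfl

theorem QRF_anti {M : ℕ} {x : Fin M → R} {w : Fin M → ℕ} {l n k : ℕ} (h : k ≤ n) :
    QRF x w l n ≤ QRF x w l k := by
  rintro a ⟨P, hP, rfl⟩
  exact ⟨P, hP.mono h, rfl⟩

theorem QRF_mul {M : ℕ} {x : Fin M → R} {w : Fin M → ℕ} {l n k : ℕ} {a b : R}
    (ha : a ∈ QRF x w l n) (hb : b ∈ QRF x w l k) : a * b ∈ QRF x w l (n + k) := by
  obtain ⟨P, hP, rfl⟩ := ha
  obtain ⟨Q, hQ, rfl⟩ := hb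
  exact ⟨P * Q, hP.mul hQ, map_mul _ _ _⟩

/-- The ideal generated by the `x i`, `i < l`. -/
def QRI {M : ℕ} (x : Fin M → R) (l : ℕ) : Ideal R :=
  Ideal.span {r | ∃ i : Fin M, (i : ℕ) < l ∧ x i = r}

theorem QRI_le_QRF {M : ℕ} (x : Fin M → R) {w : Fin M → ℕ} (hw : ∀ i, 0 < w i) (l : ℕ) :
    QRI x l ≤ QRF x w l 1 := by
  classical
  refine Ideal.span_le.2 ?_
  rintro r ⟨i, hi, rfl⟩
  refine ⟨X i, ?_, aeval_X _ _⟩
  refine QRGood.monomial (1 : R) (fun j hj => ?_) ?_
  · rw [Finsupp.single_apply, if_neg]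
    rintro rfl
    omega
  · rw [Finsupp.weight_single, one_smul]
    exact hw i

/-- If the coefficients of weight `j` of `P` lie in `QRI x l`, then the value of `P` is in `QRF x w l (j+1)`. -/
theorem QRF_succ_of_coeff {M : ℕ} (x : Fin M → R) {w : Fin M → ℕ} (hw : ∀ i, 0 < w i) {l j : ℕ}
    {P : MvPolynomial (Fin M) R} (hP : QRGood w l j P)
    (hc : ∀ α, Finsupp.weight w α = j → P.coeff α ∈ QRI x l) : aeval x P ∈ QRF x w l (j + 1) := by
  classical
  have hs : aeval x P = ∑ α ∈ P.support, aeval x (MvPolynomial.monomial α (P.coeff α)) := by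
    conv_lhs => rw [P.as_sum]
    rw [map_sum]
  rw [hs]
  refine Submodule.sum_mem _ fun α hα => ?_
  have h0 : P.coeff α ≠ 0 := mem_support_iff.1 hα
  have h := hP α h0
  rcases Nat.lt_or_ge j (Finsupp.weight w α) with h1 | h1
  · exact ⟨_, QRGood.monomial _ h.1 h1, rfl⟩
  · have h2 : Finsupp.weight w α = j := le_antisymm h1 h.2
    have h3 : P.coeff α ∈ QRF x w l 1 := QRI_le_QRF x hw l (hc α h2)
    have h4 : aeval x (MvPolynomial.monomial α (1 : R)) ∈ QRF x w l j :=
      ⟨_, QRGood.monomial _ h.1 h2.ge, rfl⟩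
    have h5 : aeval x (MvPolynomial.monomial α (P.coeff α))
        = P.coeff α * aeval x (MvPolynomial.monomial α (1 : R)) := by
      rw [aeval_monomial, aeval_monomial, map_one, one_mul]
      rfl
    rw [h5, Nat.add_comm j 1]
    exact QRF_mul h3 h4

/-- The statement proved by induction on `l`. -/
def QRStat {M : ℕ} (x : Fin M → R) (w : Fin M → ℕ) (l : ℕ) : Prop :=
  ∀ (n : ℕ) (P : MvPolynomial (Fin M) R), QRGood w l n P → aeval x P = 0 →
    ∀ α, Finsupp.weight w α = n → P.coeff α ∈ QRI x l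

/-- If `y` is regular modulo `QRI x l` then `y a ∈ QRF x w l n` implies `a ∈ QRF x w l n`. -/
theorem QRF_of_mul {M : ℕ} (x : Fin M → R) {w : Fin M → ℕ} (hw : ∀ i, 0 < w i) {l : ℕ}
    (ih : QRStat x w l) (y : R) (hy : ∀ a, y * a ∈ QRI x l → a ∈ QRI x l) (n : ℕ) (a : R)
    (ha : y * a ∈ QRF x w l n) : a ∈ QRF x w l n := by
  have key : ∀ j, j ≤ n → a ∈ QRF x w l j := by
    intro j
    induction j with
    | zero =>
      intro _
      exact ⟨C a, QRGood.monomial (β := 0) a (fun _ _ => rfl) (Nat.zero_le _), aeval_C _ _⟩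
    | succ j ihj =>
      intro hj
      obtain ⟨P, hP, hPa⟩ := ihj (by omega)
      obtain ⟨Q, hQ, hQa⟩ : y * a ∈ QRF x w l (j + 1) := QRF_anti hj ha
      have hy0 : QRGood w l 0 (C y : MvPolynomial (Fin M) R) :=
        QRGood.monomial (β := 0) y (fun _ _ => rfl) (Nat.zero_le _)
      have h1 : QRGood w l j (C y * P + -Q) := by
        have h2 := hy0.mul hP
        rw [Nat.zero_add] at h2
        exact h2.add ((hQ.mono (Nat.le_succ j)).neg)
      have h0 : aeval x (C y * P + -Q) = 0 := by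
        rw [map_add, map_mul, map_neg, aeval_C, hPa, hQa]
        change y * a + -(y * a) = 0
        ring
      have h3 := ih j _ h1 h0
      rw [← hPa]
      refine QRF_succ_of_coeff x hw hP fun α hα => ?_
      have h4 := h3 α hα
      have h5 : Q.coeff α = 0 := by
        by_contra hne
        have := (hQ α hne).2
        omega
      rw [coeff_add, coeff_neg, h5, neg_zero, add_zero, coeff_C_mul] at h4
      exact hy _ h4
  exact key n le_rfl

theorem QRStat_zero {M : ℕ} (x : Fin M → R) (w : Fin M → ℕ) : QRStat x w 0 := by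
  classical
  intro n P hP h0 α _
  have hC : P = C (P.coeff 0) := by
    ext β
    rw [coeff_C]
    split_ifs with h
    · rw [h]
    · by_contra hne
      apply h
      ext i
      rw [Finsupp.zero_apply]
      exact ((hP β hne).1 i (Nat.zero_le _)).symm
  rw [hC, aeval_C] at h0
  have h1 : P.coeff 0 = 0 := h0
  rw [hC, h1, C_0, coeff_zero]
  exact Ideal.zero_mem _

theorem QRStat_succ {M : ℕ} (x : Fin M → R) {w : Fin M → ℕ} (hw : ∀ i, 0 < w i) (m : Fin M)
    (ih : QRStat x w m) (hy : ∀ a, x m * a ∈ QRI x m → a ∈ QRI x m) :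
    QRStat x w (m + 1) := by
  classical
  have hle : QRI x m ≤ QRI x (m + 1) := by
    refine Ideal.span_mono ?_
    rintro r ⟨i, hi, rfl⟩
    exact ⟨i, by omega, rfl⟩
  have hxm : x m ∈ QRI x (m + 1) := Ideal.subset_span ⟨m, by omega, rfl⟩
  intro n
  induction n using Nat.strong_induction_on with
  | _ n ihn =>
  intro P hP h0
  have hsplit := divMonomial_add_modMonomial_single P m
  set H : MvPolynomial (Fin M) R := P.divMonomial (Finsupp.single m 1) with hHdef
  set G : MvPolynomial (Fin M) R := P.modMonomial (Finsupp.single m 1) with hGdef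
  have hle_iff : ∀ α : Fin M →₀ ℕ, Finsupp.single m 1 ≤ α ↔ α m ≠ 0 := by
    intro α
    rw [Finsupp.single_le_iff]
    omega
  have hG : QRGood w m n G := by
    intro α hα
    have h1 : ¬ Finsupp.single m 1 ≤ α := fun h => hα (coeff_modMonomial_of_le P h)
    have h2 : G.coeff α = P.coeff α := coeff_modMonomial_of_not_le P h1
    rw [h2] at hα
    have h3 := hP α hα
    refine ⟨fun i hi => ?_, h3.2⟩
    rcases Nat.lt_or_ge (m : ℕ) (i : ℕ) with h4 | h4
    · exact h3.1 i h4
    · have h5 : i = m := Fin.ext (le_antisymm h4 hi)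
      subst h5
      by_contra hne
      exact h1 ((hle_iff α).2 hne)
  have hHc : ∀ α, H.coeff α = P.coeff (Finsupp.single m 1 + α) := fun α => coeff_divMonomial _ _ _
  have hH : QRGood w (m + 1) (n - w m) H := by
    intro α hα
    rw [hHc] at hα
    have h3 := hP _ hα
    refine ⟨fun i hi => ?_, ?_⟩
    · have h4 := h3.1 i hi
      rw [Finsupp.add_apply] at h4
      omega
    · have h4 := h3.2
      rw [map_add, Finsupp.weight_single, one_smul] at h4
      omega
  have hval : x m * aeval x H + aeval x G = 0 := by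
    rw [← h0]
    conv_rhs => rw [← hsplit]
    rw [map_add, map_mul, aeval_X]
  have hmem : x m * aeval x H ∈ QRF x w m n := by
    have h1 : x m * aeval x H = aeval x (-G) := by
      rw [map_neg]
      linear_combination hval
    rw [h1]
    exact ⟨-G, hG.neg, rfl⟩
  obtain ⟨h, hh, hha⟩ := QRF_of_mul x hw ih (x m) hy n _ hmem
  have hy0 : QRGood w m 0 (C (x m) : MvPolynomial (Fin M) R) :=
    QRGood.monomial (β := 0) (x m) (fun _ _ => rfl) (Nat.zero_le _)
  have hGh : QRGood w m n (G + C (x m) * h) := by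
    have h2 := hy0.mul hh
    rw [Nat.zero_add] at h2
    exact hG.add h2
  have hGh0 : aeval x (G + C (x m) * h) = 0 := by
    rw [map_add, map_mul, aeval_C, hha]
    change aeval x G + x m * aeval x H = 0
    linear_combination hval
  have hGco := ih n _ hGh hGh0
  intro α hα
  by_cases hαm : α m = 0
  · have h1 : ¬ Finsupp.single m 1 ≤ α := fun h => (hle_iff α).1 h hαm
    have h2 : G.coeff α = P.coeff α := coeff_modMonomial_of_not_le P h1
    have h3 := hGco α hα
    rw [coeff_add, coeff_C_mul, h2] at h3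
    have h4 : P.coeff α = (P.coeff α + x m * h.coeff α) - x m * h.coeff α := by ring
    rw [h4]
    exact Ideal.sub_mem _ (hle h3) (Ideal.mul_mem_right _ _ hxm)
  · obtain ⟨β, hβ⟩ := exists_add_of_le ((hle_iff α).2 hαm)
    have hwt : w m + Finsupp.weight w β = n := by
      rw [← hα, hβ, map_add, Finsupp.weight_single, one_smul]
    have hwm := hw m
    have h1 : QRGood w (m + 1) (n - w m) (H + -h) :=
      hH.add ((hh.mono (Nat.sub_le _ _)).monoVar (Nat.le_succ _)).neg
    have h2 : aeval x (H + -h) = 0 := by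
      rw [map_add, map_neg, hha]
      ring
    have h3 := ihn (n - w m) (by omega) _ h1 h2 β (by omega)
    have h4 : h.coeff β = 0 := by
      by_contra hne
      have := (hh β hne).2
      omega
    rw [coeff_add, coeff_neg, h4, neg_zero, add_zero, hHc, ← hβ] at h3
    exact h3

theorem QRStat_all {M : ℕ} (x : Fin M → R) {w : Fin M → ℕ} (hw : ∀ i, 0 < w i)
    (hreg : ∀ m : Fin M, ∀ a, x m * a ∈ QRI x m → a ∈ QRI x m) (l : ℕ) (hl : l ≤ M) :
    QRStat x w l := by
  induction l with
  | zero => exact QRStat_zero x w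
  | succ l ih => exact QRStat_succ x hw ⟨l, hl⟩ (ih (by omega)) (hreg ⟨l, hl⟩)

theorem QR_reg {M : ℕ} (x : Fin M → R)
    (hreg : RingTheory.Sequence.IsWeaklyRegular R (List.ofFn x)) (m : Fin M) (a : R)
    (ha : x m * a ∈ QRI x m) : a ∈ QRI x m := by
  have h := hreg.regular_mod_prev (m : ℕ) (by rw [List.length_ofFn]; exact m.2)
  have hI : (Ideal.ofList ((List.ofFn x).take m) • ⊤ : Submodule R R) = QRI x m := by
    rw [smul_eq_mul, Ideal.mul_top]
    unfold Ideal.ofList QRI
    congr 1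
    ext r
    rw [Set.mem_ofPred_eq, Set.mem_ofPred_eq, List.mem_take_iff_getElem]
    constructor
    · rintro ⟨i, hi, rfl⟩
      rw [List.length_ofFn] at hi
      refine ⟨⟨i, by omega⟩, by simp only; omega, ?_⟩
      rw [List.getElem_ofFn]
    · rintro ⟨i, hi, rfl⟩
      refine ⟨i, by rw [List.length_ofFn]; omega, ?_⟩
      rw [List.getElem_ofFn]
  rw [hI] at h
  have h2 : (List.ofFn x)[(m : ℕ)]'(by rw [List.length_ofFn]; exact m.2) = x m := by
    rw [List.getElem_ofFn]
  rw [h2] at h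
  have h3 := h (a₁ := Submodule.Quotient.mk a) (a₂ := 0) (by
    simp only [smul_zero]
    rw [← Submodule.Quotient.mk_smul, Submodule.Quotient.mk_eq_zero]
    exact ha)
  exact (Submodule.Quotient.mk_eq_zero _).1 h3

theorem QRI_top {M : ℕ} (x : Fin M → R) : QRI x M = Ideal.span (Set.range x) := by
  unfold QRI
  congr 1
  ext r
  constructor
  · rintro ⟨i, _, rfl⟩
    exact ⟨i, rfl⟩
  · rintro ⟨i, rfl⟩
    exact ⟨i, i.2, rfl⟩

theorem quasi_regular0 {m : ℕ} (x : Fin m → R) (w : Fin m → ℕ) (hw : ∀ i, 0 < w i)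
    (hreg : RingTheory.Sequence.IsWeaklyRegular R (List.ofFn x)) (n : ℕ)
    (P : MvPolynomial (Fin m) R) (hP : ∀ α ∈ P.support, n ≤ Finsupp.weight w α)
    (h0 : aeval x P = 0) (α : Fin m →₀ ℕ) (hα : Finsupp.weight w α = n) :
    P.coeff α ∈ Ideal.span (Set.range x) := by
  rw [← QRI_top]
  refine QRStat_all x hw (QR_reg x hreg) m le_rfl n P ?_ h0 α hα
  intro β hβ
  refine ⟨fun i hi => absurd i.2 (not_lt.2 hi), hP β (mem_support_iff.2 hβ)⟩

theorem quasi_regular {m : ℕ} (x : Fin m → R) (w : Fin m → ℕ) (hw : ∀ i, 0 < w i)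
    (hreg : RingTheory.Sequence.IsWeaklyRegular R (List.ofFn x)) (n : ℕ)
    (P : MvPolynomial (Fin m) R) (hP : P.IsWeightedHomogeneous w n)
    (h0 : aeval x P ∈ (wFilt x w).F (n + 1)) (α : Fin m →₀ ℕ) :
    P.coeff α ∈ Ideal.span (Set.range x) := by
  by_cases hα : Finsupp.weight w α = n
  · obtain ⟨Q, hQ, hQa⟩ := (mem_wFilt_iff x w (n + 1) _).1 h0
    have hQc : ∀ β, Q.coeff β ≠ 0 → n + 1 ≤ Finsupp.weight w β :=
      fun β hβ => hQ β (mem_support_iff.2 hβ)
    have h1 := quasi_regular0 x w hw hreg n (P - Q) (fun β hβ => by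
      rw [mem_support_iff, coeff_sub] at hβ
      by_cases h : P.coeff β = 0
      · rw [h, zero_sub, neg_ne_zero] at hβ
        have := hQc β hβ
        omega
      · exact (hP h).ge) (by rw [map_sub, hQa, sub_self]) α hα
    have h2 : Q.coeff α = 0 := by
      by_contra hne
      have := hQc α hne
      omega
    rwa [coeff_sub, h2, sub_zero] at h1
  · have h1 : P.coeff α = 0 := by
      by_contra hne
      exact hα (hP hne)
    rw [h1]
    exact Ideal.zero_mem _

end Pool.Agent.HT21
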