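import Pool.Agent.HT21.Defs

/-!
# Elements of the weighted filtration as values of polynomials
-/

universe u

namespace Pool.Agent.HT21

open MvPolynomial

variable {R : Type u} [CommRing R]

private lemma weight_fin {m : ℕ} (w : Fin m → ℕ) (α : Fin m →₀ ℕ) :
    Finsupp.weight w α = ∑ i, w i * α i := by
  rw [Finsupp.weight_apply, Finsupp.sum_fintype]
  · simp [mul_comm]
  · simp

theorem mem_wFilt_iff {m : ℕ} (x : Fin m → R) (w : Fin m → ℕ) (n : ℕ) (a : R) :
    a ∈ (wFilt x w).F n ↔ ∃ P : MvPolynomial (Fin m) R,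
      (∀ α ∈ P.support, n ≤ Finsupp.weight w α) ∧ aeval x P = a := by
  classical
  constructor
  · intro ha
    have ha' : a ∈ Ideal.span {y | ∃ α : Fin m → ℕ, n ≤ ∑ i, w i * α i ∧ y = ∏ i, x i ^ α i} := ha
    refine Submodule.span_induction (p := fun a _ => ∃ P : MvPolynomial (Fin m) R,
      (∀ α ∈ P.support, n ≤ Finsupp.weight w α) ∧ aeval x P = a) ?_ ?_ ?_ ?_ ha'
    · rintro y ⟨α, hα, rfl⟩
      refine ⟨monomial (Finsupp.equivFunOnFinite.symm α) 1, ?_, ?_⟩
      · intro β hβ
        have hβ' := Finset.mem_of_subset MvPolynomial.support_monomial_subset hβ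
        rw [Finset.mem_singleton] at hβ'
        subst hβ'
        rw [weight_fin]
        simpa using hα
      · rw [aeval_monomial, map_one, one_mul, Finsupp.prod_fintype]
        · simp
        · simp
    · exact ⟨0, by simp, by simp⟩
    · rintro y z _ _ ⟨P, hP, rfl⟩ ⟨Q, hQ, rfl⟩
      refine ⟨P + Q, ?_, by simp⟩
      intro α hα
      have h := Finset.mem_of_subset MvPolynomial.support_add hα
      rcases Finset.mem_union.mp h with h | h
      · exact hP α h
      · exact hQ α h
    · rintro c y _ ⟨P, hP, rfl⟩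
      refine ⟨c • P, ?_, by simp⟩
      intro α hα
      exact hP α (Finset.mem_of_subset MvPolynomial.support_smul hα)
  · rintro ⟨P, hP, rfl⟩
    rw [aeval_def, eval₂_eq']
    refine Ideal.sum_mem _ fun α hα => Ideal.mul_mem_left _ _ ?_
    refine Ideal.subset_span ⟨α, ?_, rfl⟩
    rw [← weight_fin]
    exact hP α hα

/-- Every element of `F n` has a leading form. -/
theorem exists_leading {m : ℕ} (x : Fin m → R) (w : Fin m → ℕ) (n : ℕ) (a : R)
    (ha : a ∈ (wFilt x w).F n) : ∃ P : MvPolynomial (Fin m) R, P.IsWeightedHomogeneous w n ∧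
      a - aeval x P ∈ (wFilt x w).F (n + 1) := by
  classical
  obtain ⟨P, hP, rfl⟩ := (mem_wFilt_iff x w n a).mp ha
  refine ⟨weightedHomogeneousComponent w n P,
    weightedHomogeneousComponent_isWeightedHomogeneous n P, ?_⟩
  rw [mem_wFilt_iff]
  refine ⟨P - weightedHomogeneousComponent w n P, ?_, by simp⟩
  intro α hα
  rw [mem_support_iff, coeff_sub, coeff_weightedHomogeneousComponent] at hα
  by_cases h : Finsupp.weight w α = n
  · rw [if_pos h, sub_self] at hα
    exact absurd rfl hα
  · rw [if_neg h, sub_zero] at hα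
    have := hP α (mem_support_iff.mpr hα)
    omega

/-- A weighted homogeneous polynomial of weight `n` evaluates into `F n`. -/
theorem aeval_mem {m : ℕ} (x : Fin m → R) (w : Fin m → ℕ) (n : ℕ)
    (P : MvPolynomial (Fin m) R) (hP : P.IsWeightedHomogeneous w n) :
    aeval x P ∈ (wFilt x w).F n := by
  rw [mem_wFilt_iff]
  exact ⟨P, fun α hα => (hP (mem_support_iff.mp hα)).ge, rfl⟩

end Pool.Agent.HT21
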