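import Pool.Agent.HT21.GoodKernel

/-!
# Strict free resolutions

`StrictRes 𝓜`: a resolution of `M` by finite free modules with shifts, exact in every filtration
degree.  It exists when the filtration is good and the Rees ring is Noetherian.

Key lemma `good_kernel`: let `Z ≤ A^r` be a submodule (`Fin r → A` with the shifted filtration
`shiftG F a`).  Then there are finitely many `z l ∈ Z ⊓ shiftG F a (b l)` such that every
`x ∈ Z ⊓ shiftG F a n` is `∑ c l • z l` with `c l ∈ F (n - b l)`.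
Proof: the set of `x : Fin r → A[X]` with coefficients `x_n := (k ↦ coeff n (x k))` in
`Z ⊓ shiftG F a n` is a submodule of the Rees module `{x | x_n ∈ shiftG F a n}`, which is a finitely
generated module over the Rees ring (generated by the `X^j e_k`, `0 ≤ j ≤ a k`: an element `c X^n e_k`,
`c ∈ F (n - a k)`, is `c X^(n - a k) * X^(a k) e_k` if `n ≥ a k`, and `c * X^n e_k` if `n < a k`);
the Rees ring is Noetherian, so the submodule is finitely generated; take all coefficients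
of a finite system of generators as the `z l` (coefficient `j` gets `b l = j`) and compare
coefficients.

`exists_strictRes`: choose `e`, `a 0` from goodness, then apply `good_kernel` to the kernel of
`A^(r 0) → M`, and then recursively to the kernels of `mact (C i)`.
The columns of `C i` are the `z l`; then `C i k l ∈ F (a (i+1) l - a i k)` by definition of `shiftG`.
-/

universe u

namespace Pool.Agent.HT21

variable {A : Type u} [CommRing A] {𝓕 : RFilt A} {M : Type u} [AddCommGroup M] [Module A M]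

structure StrictRes (𝓜 : MFilt 𝓕 M) where
  r : ℕ → ℕ
  a : ∀ i, Fin (r i) → ℕ
  C : ∀ i, Matrix (Fin (r i)) (Fin (r (i + 1))) A
  e : Fin (r 0) → M
  he : ∀ k, e k ∈ 𝓜.G (a 0 k)
  hC : ∀ i k l, C i k l ∈ 𝓕.F (a (i + 1) l - a i k)
  surj : ∀ n, ∀ x ∈ 𝓜.G n, ∃ c ∈ shiftG 𝓕.F (a 0) n, ∑ k, c k • e k = x
  zero0 : ∀ c : Fin (r 1) → A, ∑ k, (mact (C 0) A c) k • e k = 0
  ex0 : ∀ n, ∀ c ∈ shiftG 𝓕.F (a 0) n, ∑ k, c k • e k = 0 →
    ∃ c' ∈ shiftG 𝓕.F (a 1) n, mact (C 0) A c' = c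
  zero : ∀ i c, mact (C i) A (mact (C (i + 1)) A c) = 0
  ex : ∀ i n, ∀ c ∈ shiftG 𝓕.F (a (i + 1)) n, mact (C i) A c = 0 →
    ∃ c' ∈ shiftG 𝓕.F (a (i + 2)) n, mact (C (i + 1)) A c' = c

/-- One stage of the construction: a shifted free module with a submodule to be covered. -/
private structure SrSt (A : Type u) [CommRing A] where
  q : ℕ
  b : Fin q → ℕ
  Z : Submodule A (Fin q → A)

private theorem sr_step (𝓕 : RFilt A) [IsNoetherianRing 𝓕.Rees] (s : SrSt A) :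
    ∃ (q : ℕ) (b : Fin q → ℕ) (C : Matrix (Fin s.q) (Fin q) A),
      (∀ k l, C k l ∈ 𝓕.F (b l - s.b k)) ∧
      (∀ c, mact C A c ∈ s.Z) ∧
      ∀ n, ∀ x ∈ s.Z ⊓ shiftG 𝓕.F s.b n, ∃ c ∈ shiftG 𝓕.F b n, mact C A c = x := by
  obtain ⟨q, b, z, h1, h2⟩ := good_kernel 𝓕 s.b s.Z
  have key : ∀ c : Fin q → A, mact (Matrix.of fun k l => z l k) A c =
      ∑ l, c l • z l := by
    intro c
    funext k
    rw [mact_apply, Finset.sum_apply]
    refine Finset.sum_congr rfl fun l _ => ?_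
    rw [Matrix.of_apply, Pi.smul_apply, smul_eq_mul, smul_eq_mul, mul_comm]
  refine ⟨q, b, Matrix.of fun k l => z l k, fun k l => (h1 l).2 k, fun c => ?_,
    fun n x hx => ?_⟩
  · rw [key]
    exact Submodule.sum_mem _ fun l _ => Submodule.smul_mem _ _ (h1 l).1
  · obtain ⟨c, hc, hx'⟩ := h2 n x hx
    exact ⟨c, hc, by rw [key, hx']⟩

/-- The next stage. -/
private noncomputable def srNext (𝓕 : RFilt A) [IsNoetherianRing 𝓕.Rees] (s : SrSt A) : SrSt A where
  q := (sr_step 𝓕 s).choose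
  b := (sr_step 𝓕 s).choose_spec.choose
  Z := LinearMap.ker (mact (sr_step 𝓕 s).choose_spec.choose_spec.choose A)

/-- The matrix of a stage. -/
private noncomputable def srC (𝓕 : RFilt A) [IsNoetherianRing 𝓕.Rees] (s : SrSt A) :
    Matrix (Fin s.q) (Fin (srNext 𝓕 s).q) A :=
  (sr_step 𝓕 s).choose_spec.choose_spec.choose

private theorem srC_spec (𝓕 : RFilt A) [IsNoetherianRing 𝓕.Rees] (s : SrSt A) :
    (∀ k l, srC 𝓕 s k l ∈ 𝓕.F ((srNext 𝓕 s).b l - s.b k)) ∧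
      (∀ c, mact (srC 𝓕 s) A c ∈ s.Z) ∧
      ∀ n, ∀ x ∈ s.Z ⊓ shiftG 𝓕.F s.b n, ∃ c ∈ shiftG 𝓕.F (srNext 𝓕 s).b n,
        mact (srC 𝓕 s) A c = x :=
  (sr_step 𝓕 s).choose_spec.choose_spec.choose_spec

private theorem srNext_Z (𝓕 : RFilt A) [IsNoetherianRing 𝓕.Rees] (s : SrSt A) :
    (srNext 𝓕 s).Z = LinearMap.ker (mact (srC 𝓕 s) A) := rfl

/-- The sequence of stages. -/
private noncomputable def srSeq (𝓕 : RFilt A) [IsNoetherianRing 𝓕.Rees] (s : SrSt A) : ℕ → SrSt A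
  | 0 => s
  | i + 1 => srNext 𝓕 (srSeq 𝓕 s i)

theorem exists_strictRes (𝓜 : MFilt 𝓕 M) [IsNoetherianRing 𝓕.Rees] (h : 𝓜.Good) :
    Nonempty (StrictRes 𝓜) := by
  obtain ⟨s, b, e, he, hG⟩ := h
  let s0 : SrSt A := ⟨s, b, LinearMap.ker (Fintype.linearCombination A e)⟩
  have hZ0 : ∀ c : Fin s → A, c ∈ s0.Z ↔ ∑ k, c k • e k = 0 := by
    intro c
    exact LinearMap.mem_ker
  refine ⟨{
    r := fun i => (srSeq 𝓕 s0 i).q
    a := fun i => (srSeq 𝓕 s0 i).b
    C := fun i => srC 𝓕 (srSeq 𝓕 s0 i)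
    e := e
    he := he
    hC := fun i k l => (srC_spec 𝓕 (srSeq 𝓕 s0 i)).1 k l
    surj := ?_
    zero0 := ?_
    ex0 := ?_
    zero := ?_
    ex := ?_ }⟩
  · intro n x hx
    obtain ⟨c, hc, hx'⟩ := hG n x hx
    exact ⟨c, hc, hx'.symm⟩
  · intro c
    exact (hZ0 _).1 ((srC_spec 𝓕 s0).2.1 c)
  · intro n c hc h0
    exact (srC_spec 𝓕 s0).2.2 n c ⟨(hZ0 c).2 h0, hc⟩
  · intro i c
    exact (srC_spec 𝓕 (srNext 𝓕 (srSeq 𝓕 s0 i))).2.1 c
  · intro i n c hc h0
    exact (srC_spec 𝓕 (srNext 𝓕 (srSeq 𝓕 s0 i))).2.2 n c ⟨h0, hc⟩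

private theorem sr_top (𝓕 : RFilt A) {r : ℕ} (a : Fin r → ℕ) (c : Fin r → A) :
    c ∈ shiftG 𝓕.F a 0 := by
  intro k
  rw [Nat.zero_sub, 𝓕.zero']
  trivial

/-- The strict resolution is a resolution over `A` (use filtration degree `0`, where
`shiftG F a 0 = ⊤`). -/
def StrictRes.toMatRes {𝓜 : MFilt 𝓕 M} (P : StrictRes 𝓜) : MatRes A M where
  r := P.r
  D := P.C
  e := P.e
  surj := by
    intro v
    obtain ⟨c, -, hc⟩ := P.surj 0 v (by rw [𝓜.zero']; trivial)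
    exact ⟨c, hc⟩
  ex0 := by
    intro c
    constructor
    · intro h
      obtain ⟨c', -, hc'⟩ := P.ex0 0 c (sr_top 𝓕 _ c) h
      exact ⟨c', hc'⟩
    · rintro ⟨c', rfl⟩
      exact P.zero0 c'
  ex := by
    intro i c
    constructor
    · intro h
      obtain ⟨c', -, hc'⟩ := P.ex i 0 c (sr_top 𝓕 _ c) h
      exact ⟨c', hc'⟩
    · rintro ⟨c', rfl⟩
      exact P.zero i c'

end Pool.Agent.HT21
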