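import Pool.Agent.HT21.GrRes
import Pool.Agent.HT21.GrLen
import Pool.Agent.HT21.FiltLen
import Pool.Agent.HT21.Small

/-!
# The tangent cone theorem, general form

`A` Noetherian local, `𝓕` a filtration with Noetherian Rees ring and `F 1 ≤ m`, `M`, `N` with good
filtrations.  If `Tor_{i+1}^{gr A}(gr N, gr M)` has finite length for all `i ≥ s`, there is `ζ` with
`len Tor_{i+1}^{gr A}(gr N, gr M) = len Tor_{i+1}^A(N, M) + ζ i + ζ (i+1)` for all `i ≥ s`.

Proof.  Take a strict resolution `P` of `M`.  Apply `filt_len` to `C i = (Fin (P.r i) → N)` with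
the filtrations `shiftG 𝓝.G (P.a i)` and `d i = mact (P.C i) N`.  By `torLen_matRes` for
`P.toMatRes` the homology of `C` is `Tor^A(N, M)`; by `torLen_matRes` for `P.toGrRes` the
homology of `V i = (Fin (P.r i) → gr N)` with the maps `mact (symb ..)` is
`Tor^{gr A}(gr N, gr M)`, and by `gr_len` (with `isGr_shift`, `symb_act`) its length is the sum of the
lengths of the homologies of the graded pieces of `C`.
-/

universe u

namespace Pool.Agent.HT21

private lemma t1_shift_small {A : Type u} [CommRing A] {M : Type u} [AddCommGroup M] [Module A M]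
    (G : ℕ → Submodule A M) (hG : Antitone G) (I : Ideal A) {r : ℕ} (a : Fin r → ℕ) (n0 : ℕ)
    (h : G n0 ≤ I • (⊤ : Submodule A M)) :
    ∃ n, shiftG G a n ≤ I • (⊤ : Submodule A (Fin r → M)) := by
  classical
  refine ⟨n0 + Finset.univ.sup a, fun x hx => ?_⟩
  have hsum : x = ∑ k, LinearMap.single A (fun _ : Fin r => M) k (x k) := by
    funext j
    rw [Finset.sum_apply]
    simp only [LinearMap.single_apply]
    rw [Finset.sum_pi_single]
    simp
  rw [hsum]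
  refine Submodule.sum_mem _ fun k _ => ?_
  have h1 : a k ≤ Finset.univ.sup a := Finset.le_sup (Finset.mem_univ k)
  have h2 : x k ∈ I • (⊤ : Submodule A M) := h (hG (by omega) (hx k))
  have h3 := Submodule.mem_map_of_mem (f := LinearMap.single A (fun _ : Fin r => M) k) h2
  rw [Submodule.map_smul''] at h3
  exact (Submodule.smul_mono le_rfl le_top) h3

theorem tangent_cone_general {A : Type u} [CommRing A] [IsLocalRing A] [IsNoetherianRing A]
    (𝓕 : RFilt A) [IsNoetherianRing 𝓕.Rees] (h1 : 𝓕.F 1 ≤ IsLocalRing.maximalIdeal A)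
    {M N : Type u} [AddCommGroup M] [Module A M] [AddCommGroup N] [Module A N]
    (𝓜 : MFilt 𝓕 M) (𝓝 : MFilt 𝓕 N) (hM : 𝓜.Good) (hN : 𝓝.Good) (s : ℕ)
    (hfin : ∀ i, s ≤ i → torLen 𝓕.gr (i + 1) 𝓝.gr 𝓜.gr ≠ ⊤) :
    ∃ ζ : ℕ → ℕ∞, ∀ i, s ≤ i →
      torLen 𝓕.gr (i + 1) 𝓝.gr 𝓜.gr = torLen A (i + 1) N M + ζ i + ζ (i + 1) := by
  classical
  obtain ⟨P⟩ := exists_strictRes 𝓜 hM
  have hNfin : Module.Finite A N := hN.finite
  have hIG := isGr_mod 𝓝
  -- the complex over `A`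
  have hd : ∀ i (x : Fin (P.r (i + 2)) → N),
      mact (P.C i) N (mact (P.C (i + 1)) N x) = 0 := by
    intro i x
    have h := mact_comp_zero P.toMatRes N i
    have h2 := congrArg (fun f => f.hom x) h
    exact h2
  have hmem : ∀ i n (x : Fin (P.r (i + 1)) → N), x ∈ shiftG 𝓝.G (P.a (i + 1)) n →
      mact (P.C i) N x ∈ shiftG 𝓝.G (P.a i) n := fun i n x hx =>
    mact_mem_shift hIG (P.a i) (P.a (i + 1)) (P.C i) (P.hC i) n x hx
  have hact : ∀ i n (x : Fin (P.r (i + 1)) → N), x ∈ shiftG 𝓝.G (P.a (i + 1)) n →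
      mact (symb 𝓕 (P.a i) (P.a (i + 1)) (P.C i)) 𝓝.gr (shiftT 𝓝.τ (P.a (i + 1)) n x) =
        shiftT 𝓝.τ (P.a i) n (mact (P.C i) N x) := fun i n x hx =>
    symb_act hIG (P.a i) (P.a (i + 1)) (P.C i) (P.hC i) n x hx
  -- the Tor modules
  have hTA : ∀ i, torLen A (i + 1) N M =
      qlen (LinearMap.range (mact (P.C (i + 1)) N)) (LinearMap.ker (mact (P.C i) N)) :=
    fun i => torLen_matRes P.toMatRes N i
  have hTG : ∀ i, torLen 𝓕.gr (i + 1) 𝓝.gr 𝓜.gr =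
      qlen (LinearMap.range (mact (symb 𝓕 (P.a (i + 1)) (P.a (i + 2)) (P.C (i + 1))) 𝓝.gr))
        (LinearMap.ker (mact (symb 𝓕 (P.a i) (P.a (i + 1)) (P.C i)) 𝓝.gr)) :=
    fun i => torLen_matRes P.toGrRes 𝓝.gr i
  -- the graded pieces
  have hgl : ∀ i, s ≤ i → ∃ n0 : ℕ,
      (∀ n, n0 ≤ n → qlen ((shiftG 𝓝.G (P.a (i + 2)) n).map (mact (P.C (i + 1)) N) ⊔
          shiftG 𝓝.G (P.a (i + 1)) (n + 1))
        (shiftG 𝓝.G (P.a (i + 1)) n ⊓ (shiftG 𝓝.G (P.a i) (n + 1)).comap (mact (P.C i) N)) = 0) ∧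
      torLen 𝓕.gr (i + 1) 𝓝.gr 𝓜.gr = ∑ n ∈ Finset.range n0,
        qlen ((shiftG 𝓝.G (P.a (i + 2)) n).map (mact (P.C (i + 1)) N) ⊔
          shiftG 𝓝.G (P.a (i + 1)) (n + 1))
        (shiftG 𝓝.G (P.a (i + 1)) n ⊓ (shiftG 𝓝.G (P.a i) (n + 1)).comap (mact (P.C i) N)) := by
    intro i hi
    have hf := hfin i hi
    rw [hTG i] at hf
    rw [hTG i]
    exact gr_len (isGr_shift hIG (P.a i)) (isGr_shift hIG (P.a (i + 1)))
      (isGr_shift hIG (P.a (i + 2))) (mact (P.C i) N) (mact (P.C (i + 1)) N) (hd i)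
      (hmem i) (hmem (i + 1)) (mact (symb 𝓕 (P.a i) (P.a (i + 1)) (P.C i)) 𝓝.gr)
      (mact (symb 𝓕 (P.a (i + 1)) (P.a (i + 2)) (P.C (i + 1))) 𝓝.gr)
      (hact i) (hact (i + 1)) hf
  choose! n0 hn0 using hgl
  have key := filt_len (A := A) (fun i => Fin (P.r i) → N) (fun i => shiftG 𝓝.G (P.a i))
    (fun i => (isGr_shift hIG (P.a i)).anti) (fun i => (isGr_shift hIG (P.a i)).zero)
    (fun i c => by
      obtain ⟨n, hn⟩ := G_small 𝓝 (IsLocalRing.maximalIdeal A) h1 hN c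
      exact t1_shift_small 𝓝.G 𝓝.anti' _ (P.a i) n hn)
    (fun i => mact (P.C i) N) hd
    (fun i n => by
      rw [Submodule.map_le_iff_le_comap]
      intro x hx
      exact hmem i n x hx)
    s n0 (fun i => torLen 𝓕.gr (i + 1) 𝓝.gr 𝓜.gr)
    (fun i hi n hn => (hn0 i hi).1 n hn) (fun i hi => (hn0 i hi).2) hfin
  obtain ⟨ζ, hζ⟩ := key
  refine ⟨ζ, fun i hi => ?_⟩
  rw [hTA i]
  exact hζ i hi

end Pool.Agent.HT21
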