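import Pool.Agent.HT21.Defs

/-!
# Tor as the homology of `W ⊗ P`, functorially in `W`

`torCx V : ModuleCat R ⥤ ChainComplex (ModuleCat R) ℕ`, `W ↦ W ⊗ P` (`P` a fixed projective
resolution of `V`), `torIso : Tor_i(W, V) ≅ H_i(W ⊗ P)`.  The functor is additive, linear
(`s • 𝟙` goes to `s • 𝟙` on homology), and sends short exact sequences to short exact sequences
of complexes (the terms of `P` are projective, hence flat: `Module.Flat.lTensor_exact` /
`rTensor` ; exactness of a short complex of chain complexes is degreewise,
`HomologicalComplex.shortExact_iff_degreewise_shortExact` or similar).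
-/

universe u

namespace Pool.Agent.HT21

open CategoryTheory MonoidalCategory

variable {R : Type u} [CommRing R]

/-- A fixed projective resolution of `V`. -/
noncomputable def pres (V : ModuleCat.{u} R) : ProjectiveResolution V := projectiveResolution V

/-- The functor `W ↦ W ⊗ P`, `P` the fixed projective resolution of `V`. -/
noncomputable def torCx (V : ModuleCat.{u} R) :
    ModuleCat.{u} R ⥤ ChainComplex (ModuleCat.{u} R) ℕ where
  obj W := (((tensoringLeft (ModuleCat.{u} R)).obj W).mapHomologicalComplex _).obj (pres V).complex
  map f := (NatTrans.mapHomologicalComplex ((tensoringLeft (ModuleCat.{u} R)).map f) _).app _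
  map_id := by
    intro W
    simp
  map_comp := by
    intro W W' W'' f g
    simp

/-- `Tor_i(W, V)` is the homology of `W ⊗ P`. -/
noncomputable def torIso (V W : ModuleCat.{u} R) (i : ℕ) :
    ((Tor (ModuleCat.{u} R) i).obj W).obj V ≅ ((torCx V).obj W).homology i :=
  (pres V).isoLeftDerivedObj ((tensoringLeft (ModuleCat.{u} R)).obj W) i

private theorem torCx_map_f (V : ModuleCat.{u} R) {W W' : ModuleCat.{u} R} (f : W ⟶ W') (n : ℕ) :
    ((torCx V).map f).f n = f ▷ ((pres V).complex.X n) := rfl

instance torCx_additive (V : ModuleCat.{u} R) : (torCx V).Additive where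
  map_add := by
    intro X Y f g
    ext1 n
    rw [HomologicalComplex.add_f_apply, torCx_map_f, torCx_map_f, torCx_map_f,
      MonoidalPreadditive.add_whiskerRight]
    rfl

/-- Short exact sequences stay short exact. -/
theorem torCx_shortExact (V : ModuleCat.{u} R) (S : ShortComplex (ModuleCat.{u} R))
    (hS : S.ShortExact) : (S.map (torCx V)).ShortExact := by
  refine HomologicalComplex.shortExact_of_degreewise_shortExact _ fun n => ?_
  have hp : Module.Projective R ((pres V).complex.X n) :=
    (IsProjective.iff_projective _).2 ((pres V).projective n)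
  have hinj : Function.Injective S.f := (ModuleCat.mono_iff_injective _).1 hS.mono_f
  have hsur : Function.Surjective S.g := (ModuleCat.epi_iff_surjective _).1 hS.epi_g
  have hex : Function.Exact S.f S.g :=
    (ShortComplex.ShortExact.moduleCat_exact_iff_function_exact _).1 hS.exact
  refine ShortComplex.ShortExact.mk' ?_ ?_ ?_
  · rw [ShortComplex.ShortExact.moduleCat_exact_iff_function_exact]
    exact rTensor_exact ((pres V).complex.X n) (f := S.f.hom) (g := S.g.hom) hex hsur
  · rw [ModuleCat.mono_iff_injective]
    exact Module.Flat.rTensor_preserves_injective_linearMap (M := (pres V).complex.X n)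
      S.f.hom hinj
  · rw [ModuleCat.epi_iff_surjective]
    exact LinearMap.rTensor_surjective ((pres V).complex.X n) (g := S.g.hom) hsur

/-- Multiplication by `s` on `W` induces multiplication by `s` on the homology. -/
theorem torCx_smul (V W : ModuleCat.{u} R) (s : R) (i : ℕ) :
    HomologicalComplex.homologyMap ((torCx V).map (s • 𝟙 W)) i = s • 𝟙 _ := by
  have h1 : (torCx V).map (s • 𝟙 W) = s • 𝟙 ((torCx V).obj W) := by
    ext1 n
    rw [torCx_map_f, MonoidalLinear.smul_whiskerRight, HomologicalComplex.smul_f_apply,
      HomologicalComplex.id_f, MonoidalCategory.id_whiskerRight]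
    rfl
  have h2 : (HomologicalComplex.shortComplexFunctor (ModuleCat.{u} R) (ComplexShape.down ℕ) i).map
      (s • 𝟙 ((torCx V).obj W)) = s • 𝟙 (((torCx V).obj W).sc i) := by
    ext1 <;> rfl
  rw [h1]
  change ShortComplex.homologyMap ((HomologicalComplex.shortComplexFunctor (ModuleCat.{u} R)
    (ComplexShape.down ℕ) i).map (s • 𝟙 ((torCx V).obj W))) = _
  rw [h2, ShortComplex.homologyMap_smul, ShortComplex.homologyMap_id]
  rfl

/-- The homology of `W ⊗ P` in positive degrees vanishes for projective `W`. -/
theorem torCx_projective (V W : ModuleCat.{u} R) [Module.Projective R W] (i : ℕ) :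
    Subsingleton (((torCx V).obj W).homology (i + 1) : ModuleCat.{u} R) := by
  have h1 : ((pres V).complex.sc (i + 1)).Exact := (pres V).complex_exactAt_succ i
  rw [ShortComplex.ShortExact.moduleCat_exact_iff_function_exact] at h1
  have h2 : (((torCx V).obj W).sc (i + 1)).Exact := by
    rw [ShortComplex.ShortExact.moduleCat_exact_iff_function_exact]
    exact Module.Flat.lTensor_exact (M := W) (f := ((pres V).complex.sc (i + 1)).f.hom)
      (g := ((pres V).complex.sc (i + 1)).g.hom) h1
  exact ModuleCat.subsingleton_of_isZero
    ((HomologicalComplex.exactAt_iff_isZero_homology _ _).1 h2)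

end Pool.Agent.HT21
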