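import Pool.Agent.HT21.TorBase

/-!
# Tor toolkit: exact sequences in the first variable

Mathlib's `Tor C n` derives the SECOND variable; by `TorBase` (which you may use, also while its
proofs are still missing) `TorMod R i W V` is the homology of `(torCx V).obj W`, and `torCx V` is
exact.  Mathlib's long exact homology sequence
(`ShortComplex.ShortExact.homology_exact₁`, `..₂`, `..₃`) gives `torLen_ses` and `tor_shift`;
`tor_smul_zero`: factor `s • 𝟙` through `P` and use `torCx_smul`, `torCx_projective`.
Only lengths (or the existence of isomorphisms) are needed, so no naturality of `torIso` is required.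
-/

universe u

namespace Pool.Agent.HT21

open CategoryTheory

variable {R : Type u} [CommRing R]
variable {W₁ W₂ W₃ W W' V V' : Type u} [AddCommGroup W₁] [Module R W₁] [AddCommGroup W₂]
  [Module R W₂] [AddCommGroup W₃] [Module R W₃] [AddCommGroup W] [Module R W] [AddCommGroup W']
  [Module R W'] [AddCommGroup V] [Module R V] [AddCommGroup V'] [Module R V']

private theorem torles_len {M N : Type u} [AddCommGroup M] [Module R M] [AddCommGroup N] [Module R N]
    (l : M →ₗ[R] N) :
    Module.length R M = Module.length R (LinearMap.ker l) + Module.length R (LinearMap.range l) := by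
  refine Module.length_eq_add_of_exact (LinearMap.ker l).subtype l.rangeRestrict
    (Submodule.subtype_injective _) l.surjective_rangeRestrict ?_
  rw [LinearMap.exact_iff, LinearMap.ker_rangeRestrict, Submodule.range_subtype]

private theorem torles_lenM {M N : ModuleCat.{u} R} (l : M ⟶ N) :
    Module.length R M = Module.length R (LinearMap.ker l.hom) + Module.length R (LinearMap.range l.hom) :=
  torles_len l.hom

private theorem torles_torLen (W V : Type u) [AddCommGroup W] [Module R W] [AddCommGroup V] [Module R V] (i : ℕ) :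
    torLen R i W V = Module.length R
      (((torCx (ModuleCat.of R V)).obj (ModuleCat.of R W)).homology i : ModuleCat.{u} R) :=
  (torIso (ModuleCat.of R V) (ModuleCat.of R W) i).toLinearEquiv.length_eq

/-- The long exact sequence in terms of lengths. -/
private theorem torles_les (T : ShortComplex (ChainComplex (ModuleCat.{u} R) ℕ)) (hT : T.ShortExact) :
    ∃ ρ : ℕ → ℕ∞, ∀ i, Module.length R (T.X₂.homology i : ModuleCat.{u} R) + ρ (i + 1) + ρ i =
      Module.length R (T.X₁.homology i : ModuleCat.{u} R) +
        Module.length R (T.X₃.homology i : ModuleCat.{u} R) := by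
  have hrel : ∀ i, (ComplexShape.down ℕ).Rel (i + 1) i := fun i => rfl
  let ρ : ℕ → ℕ∞ := fun i => match i with
    | 0 => 0
    | i + 1 => Module.length R (LinearMap.range (hT.δ (i + 1) i (hrel i)).hom)
  refine ⟨ρ, fun i => ?_⟩
  have e1 := torles_lenM (HomologicalComplex.homologyMap T.f i)
  have e2 := torles_lenM (HomologicalComplex.homologyMap T.g i)
  have x1 := (hT.homology_exact₁ (i + 1) i (hrel i)).moduleCat_range_eq_ker
  have x2 := (hT.homology_exact₂ i).moduleCat_range_eq_ker
  simp only at x1 x2
  rw [← x1] at e1
  rw [← x2] at e2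
  have e3 : Module.length R (T.X₃.homology i : ModuleCat.{u} R) =
      Module.length R (LinearMap.range (HomologicalComplex.homologyMap T.g i).hom) + ρ i := by
    rcases i with _ | i
    · show _ = _ + 0
      rw [add_zero]
      have := hT.epi_g
      have : Epi (HomologicalComplex.homologyMap T.g 0) :=
        HomologicalComplex.epi_homologyMap_of_epi_of_not_rel T.g 0 (by
          intro j hj
          exact absurd (show j + 1 = 0 from hj) (by omega))
      have h4 : Function.Surjective (HomologicalComplex.homologyMap T.g 0).hom :=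
        (ModuleCat.epi_iff_surjective _).1 inferInstance
      rw [LinearMap.range_eq_top.2 h4, Module.length_top]
    · have e4 := torles_lenM (hT.δ (i + 1) i (hrel i))
      have x3 := (hT.homology_exact₃ (i + 1) i (hrel i)).moduleCat_range_eq_ker
      simp only at x3
      rw [← x3] at e4
      exact e4
  rw [e1, e2, e3]
  show _ + Module.length R (LinearMap.range (hT.δ (i + 1) i (hrel i)).hom) + _ = _
  abel

private theorem torles_short {f : W₁ →ₗ[R] W₂} {g : W₂ →ₗ[R] W₃} (hf : Function.Injective f)
    (hg : Function.Surjective g) (hfg : Function.Exact f g) :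
    ∃ w : ModuleCat.ofHom f ≫ ModuleCat.ofHom g = 0,
      (ShortComplex.mk (ModuleCat.ofHom f) (ModuleCat.ofHom g) w).ShortExact := by
  refine ⟨?_, ?_⟩
  · ext x
    exact hfg.apply_apply_eq_zero x
  · exact
      { exact := by
          rw [ShortComplex.ShortExact.moduleCat_exact_iff_function_exact]
          exact hfg
        mono_f := (ModuleCat.mono_iff_injective _).2 hf
        epi_g := (ModuleCat.epi_iff_surjective _).2 hg }

/-- Length form of the long exact sequence in the first variable: with
`ρ i = length of the image of the connecting map Tor_i(W₃, V) → Tor_{i-1}(W₁, V)`. -/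
theorem torLen_ses (V : Type u) [AddCommGroup V] [Module R V]
    (f : W₁ →ₗ[R] W₂) (g : W₂ →ₗ[R] W₃) (hf : Function.Injective f)
    (hg : Function.Surjective g) (hfg : Function.Exact f g) :
    ∃ ρ : ℕ → ℕ∞, ∀ i, torLen R i W₂ V + ρ (i + 1) + ρ i = torLen R i W₁ V + torLen R i W₃ V := by
  obtain ⟨w, hS⟩ := torles_short hf hg hfg
  have hT := torCx_shortExact (ModuleCat.of R V) _ hS
  obtain ⟨ρ, hρ⟩ := torles_les _ hT
  refine ⟨ρ, fun i => ?_⟩
  rw [torles_torLen, torles_torLen, torles_torLen]
  exact hρ i

/-- Dimension shift in the first variable. -/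
theorem tor_shift (V : Type u) [AddCommGroup V] [Module R V]
    (f : W₁ →ₗ[R] W₂) (g : W₂ →ₗ[R] W₃) (hf : Function.Injective f)
    (hg : Function.Surjective g) (hfg : Function.Exact f g) (i : ℕ)
    (h1 : torLen R (i + 1) W₂ V = 0) (h2 : torLen R i W₂ V = 0) :
    Nonempty (TorMod R (i + 1) W₃ V ≃ₗ[R] TorMod R i W₁ V) := by
  obtain ⟨w, hS⟩ := torles_short hf hg hfg
  have hT := torCx_shortExact (ModuleCat.of R V) _ hS
  rw [torles_torLen, Module.length_eq_zero_iff] at h1 h2
  have z1 := ModuleCat.isZero_iff_subsingleton.2 h1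
  have z2 := ModuleCat.isZero_iff_subsingleton.2 h2
  have e := hT.δIso (i + 1) i (show (ComplexShape.down ℕ).Rel (i + 1) i from rfl) z1 z2
  exact ⟨((torIso (ModuleCat.of R V) (ModuleCat.of R W₃) (i + 1)) ≪≫ e ≪≫
    (torIso (ModuleCat.of R V) (ModuleCat.of R W₁) i).symm).toLinearEquiv⟩

theorem torLen_projective (W V : Type u) [AddCommGroup W] [Module R W] [AddCommGroup V]
    [Module R V] [Module.Projective R W] (i : ℕ) : torLen R (i + 1) W V = 0 := by
  rw [torles_torLen, Module.length_eq_zero_iff]
  have : Module.Projective R (ModuleCat.of R W) := inferInstanceAs (Module.Projective R W)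
  exact torCx_projective (ModuleCat.of R V) (ModuleCat.of R W) i

theorem tor_congr (e : W ≃ₗ[R] W') (e' : V ≃ₗ[R] V') (i : ℕ) :
    Nonempty (TorMod R i W V ≃ₗ[R] TorMod R i W' V') :=
  ⟨((((Tor (ModuleCat.{u} R) i).mapIso e.toModuleIso).app (ModuleCat.of R V)) ≪≫
    (((Tor (ModuleCat.{u} R) i).obj (ModuleCat.of R W')).mapIso e'.toModuleIso)).toLinearEquiv⟩

theorem torLen_congr (e : W ≃ₗ[R] W') (e' : V ≃ₗ[R] V') (i : ℕ) :
    torLen R i W V = torLen R i W' V' := by
  obtain ⟨E⟩ := tor_congr e e' i
  exact E.length_eq

/-- Multiplication by `s` on `W` factors through a projective module: then `s` kills all higher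
`Tor_i(W, V)`. -/
theorem tor_smul_zero (V : Type u) [AddCommGroup V] [Module R V] {P : Type u} [AddCommGroup P]
    [Module R P] [Module.Projective R P] (s : R) (α : W →ₗ[R] P) (β : P →ₗ[R] W)
    (h : ∀ w, β (α w) = s • w) (i : ℕ) (t : TorMod R (i + 1) W V) : s • t = 0 := by
  have h1 : s • 𝟙 (ModuleCat.of R W) = ModuleCat.ofHom α ≫ ModuleCat.ofHom β := by
    ext x
    exact (h x).symm
  have h2 := torCx_smul (ModuleCat.of R V) (ModuleCat.of R W) s (i + 1)
  rw [h1, Functor.map_comp, HomologicalComplex.homologyMap_comp] at h2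
  have : Module.Projective R (ModuleCat.of R P) := inferInstanceAs (Module.Projective R P)
  have hsub := torCx_projective (ModuleCat.of R V) (ModuleCat.of R P) i
  have key : ∀ y : (((torCx (ModuleCat.of R V)).obj (ModuleCat.of R W)).homology (i + 1) : ModuleCat.{u} R),
      s • y = 0 := by
    intro y
    have h3 := congrArg (fun l => l.hom y) h2
    have h4 : (HomologicalComplex.homologyMap ((torCx (ModuleCat.of R V)).map (ModuleCat.ofHom α)) (i + 1)).hom y = 0 :=
      Subsingleton.elim _ _
    have h5 : s • y = (HomologicalComplex.homologyMap ((torCx (ModuleCat.of R V)).map (ModuleCat.ofHom β)) (i + 1)).hom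
        ((HomologicalComplex.homologyMap ((torCx (ModuleCat.of R V)).map (ModuleCat.ofHom α)) (i + 1)).hom y) :=
      h3.symm
    rw [h5, h4, map_zero]
  let E := (torIso (ModuleCat.of R V) (ModuleCat.of R W) (i + 1)).toLinearEquiv
  apply E.injective
  rw [map_smul, map_zero]
  exact key _

end Pool.Agent.HT21
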