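import Pool.Agent.HT21.Defs

/-!
# Tor toolkit: computation with a resolution by matrices

`qlen B Z` is the length of `Z / (B ∩ Z)`; `mact C` is the action of a matrix with entries in `R`
on column vectors with entries in an arbitrary `R`-module.

`torLen_matRes`: build a `ProjectiveResolution (ModuleCat.of R V)` with terms
`ModuleCat.of R (Fin (r i) → R)` and differentials `mact (D i)`, use
`ProjectiveResolution.isoLeftDerivedObj`, and identify `W ⊗ (Fin r → R)` with `Fin r → W`
(`TensorProduct.piScalarRight`) compatibly with the differentials.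
-/

universe u

namespace Pool.Agent.HT21

open CategoryTheory

/-- The length of `Z / (B ∩ Z)`. -/
noncomputable def qlen {R : Type u} [CommRing R] {M : Type u} [AddCommGroup M] [Module R M]
    (B Z : Submodule R M) : ℕ∞ :=
  Module.length R (↥Z ⧸ B.submoduleOf Z)

/-- A matrix with entries in `R` acts on column vectors with entries in an `R`-module. -/
def mact {R : Type u} [CommRing R] {p q : ℕ} (C : Matrix (Fin p) (Fin q) R) (W : Type u)
    [AddCommGroup W] [Module R W] : (Fin q → W) →ₗ[R] (Fin p → W) where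
  toFun x := fun k => ∑ l, C k l • x l
  map_add' x y := by
    funext k
    simp [smul_add, Finset.sum_add_distrib]
  map_smul' c x := by
    funext k
    simp only [Pi.smul_apply, RingHom.id_apply, Finset.smul_sum]
    exact Finset.sum_congr rfl fun l _ => smul_comm _ _ _

@[simp] lemma mact_apply {R : Type u} [CommRing R] {p q : ℕ} (C : Matrix (Fin p) (Fin q) R)
    (W : Type u) [AddCommGroup W] [Module R W] (x : Fin q → W) (k : Fin p) :
    mact C W x k = ∑ l, C k l • x l := rfl

/-- A resolution of `V` by finite free modules, given by matrices. -/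
structure MatRes (R : Type u) [CommRing R] (V : Type u) [AddCommGroup V] [Module R V] where
  r : ℕ → ℕ
  D : ∀ i, Matrix (Fin (r i)) (Fin (r (i + 1))) R
  e : Fin (r 0) → V
  surj : ∀ v : V, ∃ c : Fin (r 0) → R, ∑ k, c k • e k = v
  ex0 : ∀ c : Fin (r 0) → R, (∑ k, c k • e k = 0) ↔ ∃ c', mact (D 0) R c' = c
  ex : ∀ i, ∀ c : Fin (r (i + 1)) → R, mact (D i) R c = 0 ↔ ∃ c', mact (D (i + 1)) R c' = c

section

open MonoidalCategory

variable {R : Type u} [CommRing R] {V : Type u} [AddCommGroup V] [Module R V] (P : MatRes R V)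

/-- The complex of the resolution. -/
noncomputable def mrCx : ChainComplex (ModuleCat.{u} R) ℕ :=
  ChainComplex.of (fun i => ModuleCat.of R (Fin (P.r i) → R))
    (fun i => ModuleCat.ofHom (mact (P.D i) R)) (fun i =>
      ModuleCat.hom_ext (LinearMap.ext fun c => (P.ex i _).2 ⟨c, rfl⟩))

lemma mrCx_d (i : ℕ) : (mrCx P).d (i + 1) i = ModuleCat.ofHom (mact (P.D i) R) := by
  unfold mrCx
  exact ChainComplex.of_d (fun i => ModuleCat.of R (Fin (P.r i) → R))
    (fun i => ModuleCat.ofHom (mact (P.D i) R)) i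

/-- The augmentation. -/
noncomputable def mrEps : ModuleCat.of R (Fin (P.r 0) → R) ⟶ ModuleCat.of R V :=
  ModuleCat.ofHom (Fintype.linearCombination R P.e)

lemma mrEps_apply (c : Fin (P.r 0) → R) : (mrEps P).hom c = ∑ k, c k • P.e k := rfl

lemma mr_zero : (mrCx P).d 1 0 ≫ mrEps P = 0 := by
  rw [mrCx_d]
  exact ModuleCat.hom_ext (LinearMap.ext fun c => (P.ex0 _).2 ⟨c, rfl⟩)

lemma mr_exact_succ (n : ℕ) : (mrCx P).ExactAt (n + 1) := by
  rw [HomologicalComplex.exactAt_iff' _ (n + 1 + 1) (n + 1) n (by simp) (by simp)]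
  rw [ShortComplex.moduleCat_exact_iff]
  intro x hx
  have hx' : mact (P.D n) R x = 0 := by
    have := hx
    change ((mrCx P).d (n + 1) n) x = 0 at this
    rw [mrCx_d] at this
    exact this
  obtain ⟨c, hc⟩ := (P.ex n x).1 hx'
  refine ⟨c, ?_⟩
  change ((mrCx P).d (n + 1 + 1) (n + 1)) c = x
  rw [mrCx_d]
  exact hc

lemma mr_exact0 : (ShortComplex.mk _ _ (mr_zero P)).Exact := by
  rw [ShortComplex.moduleCat_exact_iff]
  intro x hx
  obtain ⟨c, hc⟩ := (P.ex0 x).1 hx
  refine ⟨c, ?_⟩
  change ((mrCx P).d 1 0) c = x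
  rw [mrCx_d]
  exact hc

lemma mr_epi : Epi (mrEps P) := by
  rw [ModuleCat.epi_iff_surjective]
  intro v
  obtain ⟨c, hc⟩ := P.surj v
  exact ⟨c, hc⟩

set_option backward.defeqAttrib.useBackward true in
set_option backward.isDefEq.respectTransparency false in
/-- The projective resolution. -/
noncomputable def mrRes : ProjectiveResolution (ModuleCat.of R V) where
  complex := mrCx P
  projective := fun n => by
    change Projective (ModuleCat.of R (Fin (P.r n) → R))
    exact (ModuleCat.of R (Fin (P.r n) → R)).projective_of_free (Pi.basisFun R (Fin (P.r n)))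
  π := (ChainComplex.toSingle₀Equiv _ _).symm ⟨mrEps P, mr_zero P⟩
  quasiIso := ⟨fun n => by
    cases n
    · rw [ChainComplex.quasiIsoAt₀_iff, ShortComplex.quasiIso_iff_of_zeros']
      · dsimp
        refine (ShortComplex.exact_and_epi_g_iff_of_iso ?_).2
          ⟨mr_exact0 P, by dsimp; exact mr_epi P⟩
        exact ShortComplex.isoMk (Iso.refl _) (Iso.refl _) (Iso.refl _)
          (by simp) (by simp)
      all_goals rfl
    · rw [quasiIsoAt_iff_exactAt']
      · apply mr_exact_succ
      · apply ChainComplex.exactAt_succ_single_obj⟩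

/-- `W ⊗ R^r = W^r`. -/
noncomputable def mrPi (W : Type u) [AddCommGroup W] [Module R W] (r : ℕ) :
    (ModuleCat.of R W ⊗ ModuleCat.of R (Fin r → R) : ModuleCat.{u} R) ≅ ModuleCat.of R (Fin r → W) :=
  (TensorProduct.piScalarRight R R W (Fin r)).toModuleIso

lemma mrPi_nat (W : Type u) [AddCommGroup W] [Module R W] {p q : ℕ} (C : Matrix (Fin p) (Fin q) R) :
    (ModuleCat.of R W ◁ ModuleCat.ofHom (mact C R)) ≫ (mrPi W p).hom
      = (mrPi W q).hom ≫ ModuleCat.ofHom (mact C W) := by
  refine ModuleCat.hom_ext (TensorProduct.ext' fun w c => ?_)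
  change TensorProduct.piScalarRight R R W (Fin p) (w ⊗ₜ[R] (mact C R c))
    = mact C W (TensorProduct.piScalarRight R R W (Fin q) (w ⊗ₜ[R] c))
  funext k
  rw [TensorProduct.piScalarRight_apply, TensorProduct.piScalarRight_apply,
    TensorProduct.piScalarRightHom_tmul, TensorProduct.piScalarRightHom_tmul]
  simp only [mact_apply, Finset.sum_smul, smul_eq_mul, mul_smul]

lemma mact_comp_zero (W : Type u) [AddCommGroup W] [Module R W] (i : ℕ) :
    ModuleCat.ofHom (mact (P.D (i + 1)) W) ≫ ModuleCat.ofHom (mact (P.D i) W) = 0 := by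
  have h : mact (P.D i) R ∘ₗ mact (P.D (i + 1)) R = 0 :=
    LinearMap.ext fun c => (P.ex i _).2 ⟨c, rfl⟩
  have h2 : P.D i * P.D (i + 1) = 0 := by
    ext k l
    have h3 := congrFun (LinearMap.congr_fun h (Pi.single l 1)) k
    simpa [Matrix.mul_apply, Pi.single_apply] using h3
  refine ModuleCat.hom_ext (LinearMap.ext fun x => ?_)
  change mact (P.D i) W (mact (P.D (i + 1)) W x) = 0
  funext k
  simp only [mact_apply, Finset.smul_sum, smul_smul]
  rw [Finset.sum_comm]
  refine Finset.sum_eq_zero fun l _ => ?_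
  rw [← Finset.sum_smul]
  have := congrFun (congrFun h2 k) l
  rw [Matrix.mul_apply] at this
  rw [this]
  simp

/-- The short complex computing `Tor`. -/
noncomputable def mrS (W : Type u) [AddCommGroup W] [Module R W] (i : ℕ) :
    ShortComplex (ModuleCat.{u} R) :=
  ShortComplex.mk (ModuleCat.ofHom (mact (P.D (i + 1)) W)) (ModuleCat.ofHom (mact (P.D i) W))
    (mact_comp_zero P W i)

set_option backward.isDefEq.respectTransparency false in
/-- The iso of short complexes. -/
noncomputable def mrIso (W : Type u) [AddCommGroup W] [Module R W] (i : ℕ) :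
    ((((tensoringLeft (ModuleCat.{u} R)).obj (ModuleCat.of R W)).mapHomologicalComplex
      (ComplexShape.down ℕ)).obj (mrCx P)).sc' (i + 1 + 1) (i + 1) i ≅ mrS P W i :=
  ShortComplex.isoMk (mrPi W (P.r (i + 1 + 1))) (mrPi W (P.r (i + 1))) (mrPi W (P.r i))
    (by
      change _ = (ModuleCat.of R W ◁ (mrCx P).d (i + 1 + 1) (i + 1)) ≫ _
      rw [mrCx_d]
      exact (mrPi_nat W _).symm)
    (by
      change _ = (ModuleCat.of R W ◁ (mrCx P).d (i + 1) i) ≫ _
      rw [mrCx_d]
      exact (mrPi_nat W _).symm)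

end

theorem torLen_matRes {R : Type u} [CommRing R] {V : Type u} [AddCommGroup V] [Module R V]
    (P : MatRes R V) (W : Type u) [AddCommGroup W] [Module R W] (i : ℕ) :
    torLen R (i + 1) W V
      = qlen (LinearMap.range (mact (P.D (i + 1)) W)) (LinearMap.ker (mact (P.D i) W)) := by
  let F := (MonoidalCategory.tensoringLeft (ModuleCat.{u} R)).obj (ModuleCat.of R W)
  let K := (F.mapHomologicalComplex (ComplexShape.down ℕ)).obj (mrCx P)
  let e1 : ((Tor (ModuleCat.{u} R) (i + 1)).obj (ModuleCat.of R W)).obj (ModuleCat.of R V)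
      ≅ K.homology (i + 1) := (mrRes P).isoLeftDerivedObj F (i + 1)
  let e2 : K.homology (i + 1) ≅ (K.sc' (i + 1 + 1) (i + 1) i).homology :=
    ShortComplex.homologyMapIso (K.isoSc' (i + 1 + 1) (i + 1) i (by simp) (by simp))
  let e3 : (K.sc' (i + 1 + 1) (i + 1) i).homology ≅ (mrS P W i).homology :=
    ShortComplex.homologyMapIso (mrIso P W i)
  let e4 := (mrS P W i).moduleCatHomologyIso
  have h1 := ((e1 ≪≫ e2 ≪≫ e3 ≪≫ e4).toLinearEquiv).length_eq
  have h2 : LinearMap.range (mrS P W i).moduleCatToCycles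
      = (LinearMap.range (mact (P.D (i + 1)) W)).submoduleOf (LinearMap.ker (mrS P W i).g.hom) := by
    ext ⟨x, hx⟩
    constructor
    · rintro ⟨y, hy⟩
      exact ⟨y, congrArg Subtype.val hy⟩
    · rintro ⟨y, hy⟩
      exact ⟨y, Subtype.ext hy⟩
  exact Eq.trans (show torLen R (i + 1) W V = _ from h1) (Submodule.quotEquivOfEq _ _ h2).length_eq

end Pool.Agent.HT21
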