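import Pool.Agent.HT21.TorLes
import Pool.Agent.HT21.TorMat

/-!
# Tor and projective dimension; periodicity over a hypersurface

`tor_pd`: if `W` has projective dimension `≤ n` then `Tor_i(W, V) = 0` for `i > n`
(induction on `n` with `tor_shift`, a free cover of `W`, `torLen_projective`, and
`CategoryTheory.ShortComplex.ShortExact.hasProjectiveDimensionLT_X₃_iff`).

Hypersurface situation: `B → Q` surjective with kernel `(h)`, `h` a nonzerodivisor, `B` Noetherian.
`syz_pd_one`: if all finitely generated `B`-modules have `pd ≤ c + 1`, then for every finitely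
generated `Q`-module `W` there is a finitely generated `Q`-module `W'` with `pd_B W' ≤ 1` and
`Tor_{i+c}^Q(W, V) ≅ Tor_i^Q(W', V)` for all `i ≥ 1` and all `V` (`W'` is the `c`-th syzygy;
`pd_B (Q^r) ≤ 1` because of `0 → B → B → Q → 0`, and for `0 → K → Q^r → W → 0`:
`pd_B K ≤ max(1, pd_B W - 1)`, `ShortExact.hasProjectiveDimensionLT_X₁`).

`four_term`: for a finitely generated `Q`-module `W'` with `pd_B W' ≤ 1` choose `B^r → W'`
surjective with kernel `K`, a projective `B`-module; `h B^r ≤ K`.  Then
`0 → W' → K/hK → B^r/hB^r → W' → 0` is exact over `Q`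
(the first map is multiplication by `h`: `W' = B^r/K → K/hK`), with projective middle terms.

`per`: hence `Tor_{i+2}^Q(W', V) ≅ Tor_i^Q(W', V)` for `i ≥ 1` (two applications of `tor_shift`).

`jac`: for a derivation `δ` of `B`, `δ(h)` kills `Tor_i^Q(W', V)`, `i ≥ 1`.  Proof: `K`, `L = B^r`
projective over `B`, `φ : K → L` the inclusion, `ψ : L → K` with `φ ψ = h`, `ψ φ = h`.  On a
projective `B`-module `P` there is an additive `∇ : P → P` with `∇(b x) = δ(b) x + b ∇ x` (for a direct
summand of a free module compress the coordinatewise `δ`).  `δφ := ∇_L φ - φ ∇_K` is `B`-linear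
`K → L`, `δψ := ∇_K ψ - ψ ∇_L` is `B`-linear `L → K`, and
`δφ ψ + φ δψ = [∇_L, h] = δ(h)`.  So multiplication by `δ(h)` on `W' = L/φK` is
`x ↦ δφ (ψ x)` modulo `φ K`, i.e. it factors as `W' → K/hK → W'` (`x ↦ ψ x`, `κ ↦ δφ κ`), through the
projective `Q`-module `K/hK`; use `tor_smul_zero`.
-/

universe u

namespace Pool.Agent.HT21

open CategoryTheory

private theorem torpd_short {R : Type u} [CommRing R] {W₁ W₂ W₃ : Type u} [AddCommGroup W₁]
    [Module R W₁] [AddCommGroup W₂] [Module R W₂] [AddCommGroup W₃] [Module R W₃]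
    {f : W₁ →ₗ[R] W₂} {g : W₂ →ₗ[R] W₃} (hf : Function.Injective f)
    (hg : Function.Surjective g) (hfg : Function.Exact f g) :
    ∃ w : ModuleCat.ofHom f ≫ ModuleCat.ofHom g = 0,
      (ShortComplex.mk (ModuleCat.ofHom f) (ModuleCat.ofHom g) w).ShortExact := by
  refine ⟨?_, ?_⟩
  · ext x
    exact hfg.apply_apply_eq_zero x
  · exact
      { exact := by
          rw [ShortComplex.ShortExact.moduleCat_exact_iff_function_exact]
          exact hfg
        mono_f := (ModuleCat.mono_iff_injective _).2 hf
        epi_g := (ModuleCat.epi_iff_surjective _).2 hg }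

theorem tor_pd {R : Type u} [CommRing R] (W V : Type u) [AddCommGroup W] [Module R W]
    [AddCommGroup V] [Module R V] (n : ℕ)
    (h : HasProjectiveDimensionLE (ModuleCat.of R W) n) (i : ℕ) (hi : n < i) :
    torLen R i W V = 0 := by
  induction n generalizing W i with
  | zero =>
    have h1 : Projective (ModuleCat.of R W) := (projective_iff_hasProjectiveDimensionLE_zero _).2 h
    have h2 : Module.Projective R W := (IsProjective.iff_projective _).2 h1
    obtain ⟨j, rfl⟩ : ∃ j, i = j + 1 := ⟨i - 1, by omega⟩
    exact torLen_projective W V j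
  | succ n ih =>
    obtain ⟨j, rfl⟩ : ∃ j, i = j + 1 + 1 := ⟨i - 2, by omega⟩
    obtain ⟨P, i1, i2, i3, g, hg⟩ : ∃ (P : Type u) (_ : AddCommGroup P) (_ : Module R P)
        (_ : Module.Projective R P) (g : P →ₗ[R] W), Function.Surjective g :=
      ⟨W →₀ R, inferInstance, inferInstance, inferInstance, Finsupp.linearCombination R id,
        Finsupp.linearCombination_id_surjective R W⟩
    have hf : Function.Injective (LinearMap.ker g).subtype := Submodule.subtype_injective _
    have hfg : Function.Exact (LinearMap.ker g).subtype g := g.exact_subtype_ker_map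
    obtain ⟨w, hS⟩ := torpd_short (f := (LinearMap.ker g).subtype) (g := g) hf hg hfg
    have hP : Projective (ModuleCat.of R P) :=
      (IsProjective.iff_projective P).1 inferInstance
    have hK : HasProjectiveDimensionLE (ModuleCat.of R (LinearMap.ker g)) n :=
      (hS.hasProjectiveDimensionLT_X₃_iff n hP).1 h
    have h3 := ih (LinearMap.ker g) hK (j + 1) (by omega)
    obtain ⟨e⟩ := tor_shift V (LinearMap.ker g).subtype g hf hg hfg (j + 1)
      (torLen_projective _ V _) (torLen_projective _ V _)
    rw [torLen, e.length_eq]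
    exact h3

private theorem torpd_pi {B Q : Type u} [CommRing B] [CommRing Q] [Algebra B Q]
    (hsurj : Function.Surjective (algebraMap B Q)) (h : B)
    (hker : RingHom.ker (algebraMap B Q) = Ideal.span {h}) (hreg : h ∈ nonZeroDivisors B) (r : ℕ) :
    HasProjectiveDimensionLT (ModuleCat.of B (Fin r → Q)) 2 := by
  let f : (Fin r → B) →ₗ[B] (Fin r → B) := LinearMap.lsmul B (Fin r → B) h
  let g : (Fin r → B) →ₗ[B] (Fin r → Q) := (Algebra.linearMap B Q).compLeft (Fin r)
  have hf : Function.Injective f := by
    intro x y hxy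
    funext k
    have h1 : h * x k = h * y k := congrFun hxy k
    exact (mul_cancel_left_mem_nonZeroDivisors hreg).1 h1
  have hg : Function.Surjective g := by
    intro y
    choose x hx using fun k => hsurj (y k)
    exact ⟨x, funext hx⟩
  have hfg : Function.Exact f g := by
    intro x
    constructor
    · intro hx
      have h1 : ∀ k, ∃ y, h * y = x k := by
        intro k
        have h2 : algebraMap B Q (x k) = 0 := congrFun hx k
        have h3 : x k ∈ RingHom.ker (algebraMap B Q) := h2
        rw [hker, Ideal.mem_span_singleton'] at h3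
        obtain ⟨a, ha⟩ := h3
        exact ⟨a, by rw [mul_comm]; exact ha⟩
      choose y hy using h1
      exact ⟨y, funext hy⟩
    · rintro ⟨y, rfl⟩
      funext k
      show algebraMap B Q (h * y k) = 0
      have h2 : h ∈ RingHom.ker (algebraMap B Q) := by
        rw [hker]
        exact Ideal.mem_span_singleton_self h
      rw [map_mul, (show algebraMap B Q h = 0 from h2), zero_mul]
  obtain ⟨w, hS⟩ := torpd_short hf hg hfg
  have hP : Projective (ModuleCat.of B (Fin r → B)) :=
    (IsProjective.iff_projective _).1 inferInstance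
  exact hS.hasProjectiveDimensionLT_X₃ 1 inferInstance inferInstance

private theorem torpd_syz {B Q : Type u} [CommRing B] [CommRing Q] [Algebra B Q]
    [IsNoetherianRing Q]
    (hsurj : Function.Surjective (algebraMap B Q)) (h : B)
    (hker : RingHom.ker (algebraMap B Q) = Ideal.span {h}) (hreg : h ∈ nonZeroDivisors B) (c : ℕ)
    (W : Type u) [AddCommGroup W] [Module Q W] [Module B W] [IsScalarTower B Q W]
    [Module.Finite Q W] (hW : HasProjectiveDimensionLE (ModuleCat.of B W) (c + 1)) :
    ∃ (W' : Type u) (_ : AddCommGroup W') (_ : Module Q W') (_ : Module B W')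
      (_ : IsScalarTower B Q W') (_ : Module.Finite Q W'),
      HasProjectiveDimensionLE (ModuleCat.of B W') 1 ∧
      ∀ (V : Type u) [AddCommGroup V] [Module Q V] (i : ℕ),
        Nonempty (TorMod Q (i + 1 + c) W V ≃ₗ[Q] TorMod Q (i + 1) W' V) := by
  induction c generalizing W with
  | zero =>
    exact ⟨W, inferInstance, inferInstance, inferInstance, inferInstance, inferInstance, hW,
      fun V _ _ i => ⟨LinearEquiv.refl _ _⟩⟩
  | succ c ih =>
    obtain ⟨r, g, hg⟩ := Module.Finite.exists_fin' Q W
    have hf : Function.Injective (LinearMap.ker g).subtype := Submodule.subtype_injective _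
    have hfg : Function.Exact (LinearMap.ker g).subtype g := g.exact_subtype_ker_map
    have hfin : Module.Finite Q (LinearMap.ker g) := inferInstance
    let fB : LinearMap.ker g →ₗ[B] (Fin r → Q) := (LinearMap.ker g).subtype.restrictScalars B
    let gB : (Fin r → Q) →ₗ[B] W := g.restrictScalars B
    obtain ⟨w, hS⟩ := torpd_short (f := fB) (g := gB) hf hg hfg
    have h2 : HasProjectiveDimensionLT (ModuleCat.of B (Fin r → Q)) 2 :=
      torpd_pi hsurj h hker hreg r
    have h2' : HasProjectiveDimensionLT (ModuleCat.of B (Fin r → Q)) (c + 2) :=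
      hasProjectiveDimensionLT_of_ge _ 2 (c + 2) (by omega)
    have hK : HasProjectiveDimensionLE (ModuleCat.of B (LinearMap.ker g)) (c + 1) :=
      hS.hasProjectiveDimensionLT_X₁ (c + 2) h2' hW
    obtain ⟨W', i1, i2, i3, i4, i5, h5, h6⟩ := ih (LinearMap.ker g) hK
    refine ⟨W', i1, i2, i3, i4, i5, h5, fun V _ _ i => ?_⟩
    obtain ⟨e1⟩ := h6 V i
    obtain ⟨e2⟩ := tor_shift V (LinearMap.ker g).subtype g hf hg hfg (i + 1 + c)
      (torLen_projective _ V _) (by
        rw [show i + 1 + c = i + c + 1 by omega]
        exact torLen_projective _ V _)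
    exact ⟨e2.trans e1⟩

section

variable {B Q : Type u} [CommRing B] [CommRing Q] [Algebra B Q] [IsNoetherianRing B]
  (hsurj : Function.Surjective (algebraMap B Q)) (h : B)
  (hker : RingHom.ker (algebraMap B Q) = Ideal.span {h}) (hreg : h ∈ nonZeroDivisors B) (c : ℕ)
  (hpd : ∀ (M : Type u) [AddCommGroup M] [Module B M], Module.Finite B M →
    HasProjectiveDimensionLE (ModuleCat.of B M) (c + 1))

include hsurj hker hreg hpd

theorem syz_pd_one (W : Type u) [AddCommGroup W] [Module Q W] [Module B W] [IsScalarTower B Q W]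
    [Module.Finite Q W] :
    ∃ (W' : Type u) (_ : AddCommGroup W') (_ : Module Q W') (_ : Module B W')
      (_ : IsScalarTower B Q W') (_ : Module.Finite Q W'),
      HasProjectiveDimensionLE (ModuleCat.of B W') 1 ∧
      ∀ (V : Type u) [AddCommGroup V] [Module Q V] (i : ℕ),
        Nonempty (TorMod Q (i + 1 + c) W V ≃ₗ[Q] TorMod Q (i + 1) W' V) := by
  have hQ : IsNoetherianRing Q := isNoetherianRing_of_surjective B Q (algebraMap B Q) hsurj
  have hfin : Module.Finite B Q := Module.Finite.of_surjective (Algebra.linearMap B Q) hsurj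
  have hW : Module.Finite B W := Module.Finite.trans Q W
  exact torpd_syz hsurj h hker hreg c W (hpd W hW)

end

end Pool.Agent.HT21
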